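import Mathlib

/-!
# Mertens type estimates
-/

namespace Pool.Agent.Sv

open Finset

/-- Summation by parts against a nonincreasing weight. -/
lemma abel_bound {E g : ℕ → ℝ} {M : ℝ} {n : ℕ} (hE : ∀ k, n ≤ k → |E k| ≤ M)
    (hg : ∀ k, n ≤ k → g (k + 1) ≤ g k) (hg0 : ∀ k, n ≤ k → 0 ≤ g k) {m : ℕ} (hnm : n ≤ m) :
    |∑ k ∈ Ico n m, (E (k + 1) - E k) * g k| ≤ 2 * M * g n := by
  have key : |∑ k ∈ Ico n m, (E (k + 1) - E k) * g k - E m * g m + E n * g n| ≤
      M * (g n - g m) := by
    induction m, hnm using Nat.le_induction with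
    | base => simp
    | succ m hnm ih =>
      rw [Finset.sum_Ico_succ_top hnm]
      have h1 : ∑ k ∈ Ico n m, (E (k + 1) - E k) * g k + (E (m + 1) - E m) * g m -
          E (m + 1) * g (m + 1) + E n * g n =
          (∑ k ∈ Ico n m, (E (k + 1) - E k) * g k - E m * g m + E n * g n) +
            E (m + 1) * (g m - g (m + 1)) := by ring
      rw [h1]
      refine (abs_add_le _ _).trans ?_
      have h2 : |E (m + 1) * (g m - g (m + 1))| ≤ M * (g m - g (m + 1)) := by
        rw [abs_mul, abs_of_nonneg (sub_nonneg.mpr (hg m hnm))]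
        exact mul_le_mul_of_nonneg_right (hE _ (by omega)) (sub_nonneg.mpr (hg m hnm))
      linarith
  have h1 : |E m * g m| ≤ M * g m := by
    rw [abs_mul, abs_of_nonneg (hg0 m hnm)]
    exact mul_le_mul_of_nonneg_right (hE m hnm) (hg0 m hnm)
  have h2 : |E n * g n| ≤ M * g n := by
    rw [abs_mul, abs_of_nonneg (hg0 n le_rfl)]
    exact mul_le_mul_of_nonneg_right (hE n le_rfl) (hg0 n le_rfl)
  rw [abs_le] at *
  constructor <;> linarith [key.1, key.2, h1.1, h1.2, h2.1, h2.2]

lemma log_factorial_eq (n : ℕ) :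
    Real.log (n.factorial) =
      ∑ p ∈ (Icc 2 n).filter Nat.Prime, (n.factorial.factorization p : ℝ) * Real.log p := by
  have h0 : n.factorial ≠ 0 := Nat.factorial_ne_zero n
  have h1 := Nat.prod_factorization_pow_eq_self h0
  have h2 : (n.factorial.factorization.prod fun p k => p ^ k) =
      ∏ p ∈ (Icc 2 n).filter Nat.Prime, p ^ (n.factorial.factorization p) := by
    rw [Finsupp.prod]
    apply prod_subset
    · intro p hp
      rw [Nat.support_factorization, Nat.mem_primeFactors] at hp
      simp only [mem_filter, mem_Icc]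
      exact ⟨⟨hp.1.two_le, (hp.1.dvd_factorial).1 hp.2.1⟩, hp.1⟩
    · intro p _ hp
      rw [Finsupp.notMem_support_iff] at hp
      rw [hp, pow_zero]
  rw [h2] at h1
  conv_lhs => rw [← h1]
  rw [Nat.cast_prod, Real.log_prod]
  · apply sum_congr rfl
    intro p _
    rw [Nat.cast_pow, Real.log_pow]
  · intro p hp
    simp only [mem_filter, mem_Icc] at hp
    have : (p : ℝ) ≠ 0 := by
      have := hp.2.pos
      positivity
    push_cast
    positivity

lemma factorization_factorial_mul_le (n p : ℕ) (hp : p.Prime) :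
    (n.factorial.factorization p : ℝ) ≤ n / ((p : ℝ) - 1) := by
  have : Fact p.Prime := ⟨hp⟩
  have h1 := sub_one_mul_padicValNat_factorial (p := p) n
  rw [← Nat.factorization_def _ hp] at h1
  have h2 : (p - 1) * n.factorial.factorization p ≤ n := by
    rw [h1]; exact Nat.sub_le _ _
  have h3 : (1 : ℝ) < p := by exact_mod_cast hp.one_lt
  rw [le_div_iff₀ (by linarith)]
  have h4 : (((p - 1) * n.factorial.factorization p : ℕ) : ℝ) ≤ n := by exact_mod_cast h2
  rw [Nat.cast_mul, Nat.cast_sub hp.one_lt.le] at h4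
  push_cast at h4
  linarith

lemma div_le_factorization_factorial (n p : ℕ) (hp : p.Prime) :
    n / p ≤ n.factorial.factorization p := by
  have : Fact p.Prime := ⟨hp⟩
  rw [Nat.factorization_def _ hp]
  have h := padicValNat_factorial (p := p) (n := n) (b := Nat.log p n + 2) (by omega)
  rw [h]
  have : n / p = n / p ^ 1 := by rw [pow_one]
  rw [this]
  exact Finset.single_le_sum (f := fun i => n / p ^ i) (fun _ _ => Nat.zero_le _)
    (by rw [mem_Ico]; omega)

lemma sum_log_div_le (N : ℕ) (hN : 1 ≤ N) :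
    ∑ k ∈ Icc 2 N, Real.log k / ((k : ℝ) * (k - 1)) ≤ 2 - (Real.log N + 2) / N := by
  induction N, hN using Nat.le_induction with
  | base => simp
  | succ N hN ih =>
    rw [sum_Icc_succ_top (by omega)]
    have hN0 : (1 : ℝ) ≤ N := by exact_mod_cast hN
    have h1 : Real.log (N + 1) - Real.log N ≤ 1 / N := by
      rw [← Real.log_div (by positivity) (by positivity)]
      have := Real.log_le_sub_one_of_pos (show (0 : ℝ) < (N + 1) / N by positivity)
      refine this.trans (le_of_eq ?_)
      field_simp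
      ring
    have h2 : Real.log ((N + 1 : ℕ) : ℝ) / (((N + 1 : ℕ) : ℝ) * (((N + 1 : ℕ) : ℝ) - 1)) ≤
        (Real.log N + 2) / N - (Real.log ((N + 1 : ℕ) : ℝ) + 2) / ((N + 1 : ℕ) : ℝ) := by
      push_cast
      rw [add_sub_cancel_right, div_sub_div _ _ (by positivity) (by positivity),
        div_le_div_iff₀ (by positivity) (by positivity)]
      have h3 : ((N : ℝ) + 1) * (Real.log (N + 1) - Real.log N) ≤ 2 := by
        calc ((N : ℝ) + 1) * (Real.log (N + 1) - Real.log N) ≤ (N + 1) * (1 / N) :=
              mul_le_mul_of_nonneg_left h1 (by positivity)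
          _ = 1 + 1 / N := by field_simp
          _ ≤ 2 := by
            have : (1 : ℝ) / N ≤ 1 := by
              rw [div_le_one (by linarith)]; exact hN0
            linarith
      have h4 : 0 < (N : ℝ) * (N + 1) := by positivity
      nlinarith
    push_cast at h2 ⊢
    linarith

/-- The sum of `log p / p` over the primes below `n`. -/
noncomputable def A (n : ℕ) : ℝ := ∑ p ∈ (range n).filter Nat.Prime, Real.log p / p

lemma A_succ (n : ℕ) : A (n + 1) = A n + if n.Prime then Real.log n / n else 0 := by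
  unfold A
  rw [range_add_one, filter_insert]
  split_ifs with h
  · rw [sum_insert (by simp)]
    ring
  · ring

lemma filter_range_eq (N : ℕ) : (range (N + 1)).filter Nat.Prime = (Icc 2 N).filter Nat.Prime := by
  ext p
  simp only [mem_filter, mem_range, mem_Icc]
  constructor
  · rintro ⟨h1, h2⟩
    exact ⟨⟨h2.two_le, by omega⟩, h2⟩
  · rintro ⟨⟨h1, h2⟩, h3⟩
    exact ⟨by omega, h3⟩

lemma A_le (N : ℕ) (hN : 1 ≤ N) : A (N + 1) ≤ Real.log N + Real.log 4 := by
  have hNr : (0 : ℝ) < N := by exact_mod_cast hN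
  have h1 : Real.log (N.factorial) ≤ N * Real.log N := by
    rw [← Real.log_pow]
    refine Real.log_le_log (by exact_mod_cast Nat.factorial_pos N) ?_
    exact_mod_cast Nat.factorial_le_pow N
  rw [log_factorial_eq] at h1
  have h2 : ∑ p ∈ (Icc 2 N).filter Nat.Prime, ((N : ℝ) / p - 1) * Real.log p ≤
      ∑ p ∈ (Icc 2 N).filter Nat.Prime, (N.factorial.factorization p : ℝ) * Real.log p := by
    refine Finset.sum_le_sum fun p hp => ?_
    rw [mem_filter, mem_Icc] at hp
    have hlog : 0 ≤ Real.log p := Real.log_nonneg (by exact_mod_cast hp.2.one_lt.le)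
    refine mul_le_mul_of_nonneg_right ?_ hlog
    have h3 := div_le_factorization_factorial N p hp.2
    have h4 : (N : ℝ) / p - 1 ≤ ((N / p : ℕ) : ℝ) := by
      have := Nat.lt_div_mul_add (a := N) hp.2.pos
      have h5 : (N : ℝ) < ((N / p : ℕ) : ℝ) * p + p := by exact_mod_cast this
      have hp0 : (0 : ℝ) < p := by exact_mod_cast hp.2.pos
      rw [sub_le_iff_le_add, div_le_iff₀ hp0]
      nlinarith
    refine h4.trans ?_
    exact_mod_cast h3
  have h3 : ∑ p ∈ (Icc 2 N).filter Nat.Prime, ((N : ℝ) / p - 1) * Real.log p =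
      N * A (N + 1) - ∑ p ∈ (Icc 2 N).filter Nat.Prime, Real.log p := by
    unfold A
    rw [filter_range_eq, Finset.mul_sum, ← Finset.sum_sub_distrib]
    refine Finset.sum_congr rfl fun p _ => ?_
    ring
  have h4 : ∑ p ∈ (Icc 2 N).filter Nat.Prime, Real.log p ≤ Real.log 4 * N := by
    have h5 := Chebyshev.theta_le_log4_mul_x (x := (N : ℝ)) hNr.le
    rw [Chebyshev.theta_eq_sum_Icc, Nat.floor_natCast] at h5
    refine le_trans (le_of_eq ?_) h5
    refine Finset.sum_congr ?_ fun _ _ => rfl
    ext p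
    simp only [mem_filter, mem_Icc]
    constructor
    · rintro ⟨⟨h1, h2⟩, h3⟩
      exact ⟨⟨by omega, h2⟩, h3⟩
    · rintro ⟨⟨h1, h2⟩, h3⟩
      exact ⟨⟨h3.two_le, h2⟩, h3⟩
  have h5 : (N : ℝ) * A (N + 1) ≤ N * (Real.log N + Real.log 4) := by linarith
  exact le_of_mul_le_mul_left h5 hNr

lemma le_A (N : ℕ) (hN : 1 ≤ N) : Real.log N - 3 ≤ A (N + 1) := by
  have hNr : (0 : ℝ) < N := by exact_mod_cast hN
  have h1 : N * Real.log N - N ≤ Real.log (N.factorial) := by
    have := Stirling.le_log_factorial_stirling (n := N) (by omega)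
    have h2 : 0 ≤ Real.log N := Real.log_nonneg (by exact_mod_cast hN)
    have h3 : 0 ≤ Real.log (2 * Real.pi) := Real.log_nonneg (by nlinarith [Real.pi_gt_three])
    linarith
  rw [log_factorial_eq] at h1
  have h2 : ∑ p ∈ (Icc 2 N).filter Nat.Prime, (N.factorial.factorization p : ℝ) * Real.log p ≤
      ∑ p ∈ (Icc 2 N).filter Nat.Prime, (N : ℝ) * (Real.log p / p + Real.log p / (p * (p - 1))) := by
    refine Finset.sum_le_sum fun p hp => ?_
    rw [mem_filter, mem_Icc] at hp
    have hlog : 0 ≤ Real.log p := Real.log_nonneg (by exact_mod_cast hp.2.one_lt.le)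
    have hp1 : (1 : ℝ) < p := by exact_mod_cast hp.2.one_lt
    have hp2 : (0 : ℝ) < (p : ℝ) - 1 := by linarith
    calc (N.factorial.factorization p : ℝ) * Real.log p ≤ N / ((p : ℝ) - 1) * Real.log p :=
          mul_le_mul_of_nonneg_right (factorization_factorial_mul_le N p hp.2) hlog
      _ = _ := by
        field_simp
        ring
  have h3 : ∑ p ∈ (Icc 2 N).filter Nat.Prime,
      (N : ℝ) * (Real.log p / p + Real.log p / (p * (p - 1))) =
      N * (A (N + 1) + ∑ p ∈ (Icc 2 N).filter Nat.Prime, Real.log p / ((p : ℝ) * (p - 1))) := by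
    unfold A
    rw [filter_range_eq, ← Finset.mul_sum, Finset.sum_add_distrib]
  have h4 : ∑ p ∈ (Icc 2 N).filter Nat.Prime, Real.log p / ((p : ℝ) * (p - 1)) ≤ 2 := by
    have h5 := sum_log_div_le N hN
    have h6 : 0 ≤ (Real.log N + 2) / N := by
      have : 0 ≤ Real.log N := Real.log_nonneg (by exact_mod_cast hN)
      positivity
    have h7 : ∑ p ∈ (Icc 2 N).filter Nat.Prime, Real.log p / ((p : ℝ) * (p - 1)) ≤
        ∑ k ∈ Icc 2 N, Real.log k / ((k : ℝ) * (k - 1)) := by
      refine sum_le_sum_of_subset_of_nonneg (filter_subset _ _) fun k hk _ => ?_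
      rw [mem_Icc] at hk
      have hk1 : (2 : ℝ) ≤ k := by exact_mod_cast hk.1
      have : 0 ≤ Real.log k := Real.log_nonneg (by linarith)
      have : 0 ≤ (k : ℝ) - 1 := by linarith
      positivity
    linarith
  have h5 : (N : ℝ) * (Real.log N - 3) ≤ N * A (N + 1) := by
    have : (N : ℝ) * ∑ p ∈ (Icc 2 N).filter Nat.Prime, Real.log p / ((p : ℝ) * (p - 1)) ≤ N * 2 :=
      mul_le_mul_of_nonneg_left h4 hNr.le
    linarith
  exact le_of_mul_le_mul_left h5 hNr

/-- Mertens' first estimate. -/
lemma abs_A_sub_log_le (n : ℕ) (hn : 1 ≤ n) : |A n - Real.log n| ≤ 4 := by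
  rcases Nat.eq_or_lt_of_le hn with h | h
  · rw [← h]
    unfold A
    have : (range 1).filter Nat.Prime = ∅ := by decide
    rw [this]
    simp
  · obtain ⟨N, rfl⟩ : ∃ N, n = N + 1 := ⟨n - 1, by omega⟩
    have hN : 1 ≤ N := by omega
    have hNr : (1 : ℝ) ≤ N := by exact_mod_cast hN
    have h1 := A_le N hN
    have h2 := le_A N hN
    have h3 : Real.log N ≤ Real.log ((N + 1 : ℕ) : ℝ) :=
      Real.log_le_log (by linarith) (by push_cast; linarith)
    have h4 : Real.log ((N + 1 : ℕ) : ℝ) ≤ Real.log N + 1 := by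
      have h5 : Real.log ((N + 1 : ℕ) : ℝ) - Real.log N ≤ 1 := by
        rw [← Real.log_div (by positivity) (by positivity)]
        refine (Real.log_le_sub_one_of_pos (by positivity)).trans ?_
        push_cast
        rw [sub_le_iff_le_add, div_le_iff₀ (by linarith)]
        linarith
      linarith
    have h5 : Real.log 4 ≤ 2 := by
      have : Real.log 4 = 2 * Real.log 2 := by
        rw [show (4 : ℝ) = 2 ^ 2 by norm_num, Real.log_pow]; norm_num
      rw [this]
      have := Real.log_two_lt_d9
      linarith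
    rw [abs_le]
    constructor <;> linarith

lemma sum_log_Ico {n m : ℕ} (hnm : n ≤ m) :
    ∑ p ∈ (Ico n m).filter Nat.Prime, Real.log p / p = A m - A n := by
  unfold A
  rw [eq_sub_iff_add_eq, add_comm, ← sum_union]
  · congr 1
    rw [← filter_union]
    congr 1
    ext k
    simp only [mem_union, mem_range, mem_Ico]
    omega
  · rw [disjoint_left]
    intro k h1 h2
    simp only [mem_filter, mem_range, mem_Ico] at h1 h2
    omega

/-- Mertens' first estimate on an interval. -/
lemma abs_sum_log_sub_le {n m : ℕ} (hn : 1 ≤ n) (hnm : n ≤ m) :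
    |∑ p ∈ (Ico n m).filter Nat.Prime, Real.log p / p - (Real.log m - Real.log n)| ≤ 8 := by
  rw [sum_log_Ico hnm]
  have h1 := abs_A_sub_log_le n hn
  have h2 := abs_A_sub_log_le m (by omega)
  rw [abs_le] at *
  constructor <;> linarith [h1.1, h1.2, h2.1, h2.2]

/-- Mertens' second estimate on an interval. -/
lemma abs_sum_inv_sub_le {n m : ℕ} (hn : 2 ≤ n) (hnm : n ≤ m) :
    |∑ p ∈ (Ico n m).filter Nat.Prime, (1 : ℝ) / p -
      (Real.log (Real.log m) - Real.log (Real.log n))| ≤ 9 / Real.log n := by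
  have hlogpos : ∀ k : ℕ, n ≤ k → 0 < Real.log k := by
    intro k hk
    refine Real.log_pos ?_
    have : 1 < k := by omega
    exact_mod_cast this
  have hlogmono : ∀ k : ℕ, n ≤ k → Real.log k ≤ Real.log ((k + 1 : ℕ) : ℝ) := by
    intro k hk
    refine Real.log_le_log ?_ (by push_cast; linarith)
    have : 0 < k := by omega
    exact_mod_cast this
  have h1 : ∑ p ∈ (Ico n m).filter Nat.Prime, (1 : ℝ) / p =
      ∑ k ∈ Ico n m, ((A (k + 1) - Real.log ((k + 1 : ℕ) : ℝ)) - (A k - Real.log k)) *
        (1 / Real.log k) +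
      ∑ k ∈ Ico n m, (Real.log ((k + 1 : ℕ) : ℝ) - Real.log k) * (1 / Real.log k) := by
    rw [sum_filter, ← sum_add_distrib]
    refine Finset.sum_congr rfl fun k hk => ?_
    rw [mem_Ico] at hk
    have h2 := hlogpos k hk.1
    rw [A_succ]
    split_ifs with h
    · field_simp
      ring
    · ring
  have h2 := abel_bound (E := fun k => A k - Real.log k) (g := fun k => 1 / Real.log k) (M := 4)
    (n := n) (fun k hk => abs_A_sub_log_le k (by omega))
    (fun k hk => one_div_le_one_div_of_le (hlogpos k hk) (hlogmono k hk))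
    (fun k hk => by have := hlogpos k hk; positivity) hnm
  have h3 : Real.log (Real.log m) - Real.log (Real.log n) ≤
      ∑ k ∈ Ico n m, (Real.log ((k + 1 : ℕ) : ℝ) - Real.log k) * (1 / Real.log k) ∧
      ∑ k ∈ Ico n m, (Real.log ((k + 1 : ℕ) : ℝ) - Real.log k) * (1 / Real.log k) ≤
      Real.log (Real.log m) - Real.log (Real.log n) + (1 / Real.log n - 1 / Real.log m) := by
    clear h1 h2
    induction m, hnm using Nat.le_induction with
    | base => simp
    | succ m hnm ih =>
      rw [sum_Ico_succ_top hnm]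
      have p1 := hlogpos m hnm
      have p2 := hlogpos (m + 1) (by omega)
      have p3 := hlogmono m hnm
      have q1 : Real.log (Real.log ((m + 1 : ℕ) : ℝ)) - Real.log (Real.log m) ≤
          (Real.log ((m + 1 : ℕ) : ℝ) - Real.log m) * (1 / Real.log m) := by
        rw [← Real.log_div p2.ne' p1.ne']
        refine (Real.log_le_sub_one_of_pos (by positivity)).trans (le_of_eq ?_)
        field_simp
      have q2 : (Real.log ((m + 1 : ℕ) : ℝ) - Real.log m) * (1 / Real.log ((m + 1 : ℕ) : ℝ)) ≤
          Real.log (Real.log ((m + 1 : ℕ) : ℝ)) - Real.log (Real.log m) := by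
        rw [← Real.log_div p2.ne' p1.ne']
        have := Real.one_sub_inv_le_log_of_pos
          (show 0 < Real.log ((m + 1 : ℕ) : ℝ) / Real.log m by positivity)
        refine le_trans (le_of_eq ?_) this
        field_simp
      have q3 : Real.log ((m + 1 : ℕ) : ℝ) - Real.log m ≤ 1 := by
        have hm0 : (1 : ℝ) ≤ m := by
          have : 1 ≤ m := by omega
          exact_mod_cast this
        rw [← Real.log_div (by positivity) (by positivity)]
        refine (Real.log_le_sub_one_of_pos (by positivity)).trans ?_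
        push_cast
        rw [sub_le_iff_le_add, div_le_iff₀ (by linarith)]
        linarith
      have q4 : (0 : ℝ) ≤ 1 / Real.log m - 1 / Real.log ((m + 1 : ℕ) : ℝ) :=
        sub_nonneg.mpr (one_div_le_one_div_of_le p1 p3)
      have q5 : (Real.log ((m + 1 : ℕ) : ℝ) - Real.log m) *
          (1 / Real.log m - 1 / Real.log ((m + 1 : ℕ) : ℝ)) ≤
          1 / Real.log m - 1 / Real.log ((m + 1 : ℕ) : ℝ) := by
        calc _ ≤ 1 * (1 / Real.log m - 1 / Real.log ((m + 1 : ℕ) : ℝ)) :=
              mul_le_mul_of_nonneg_right q3 q4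
          _ = _ := one_mul _
      constructor
      · linarith [ih.1]
      · linarith [ih.2]
  have h4 : 0 ≤ 1 / Real.log m := by have := hlogpos m hnm; positivity
  have h5 : (9 : ℝ) / Real.log n = 2 * 4 * (1 / Real.log n) + 1 / Real.log n := by ring
  rw [h1, h5]
  rw [abs_le] at *
  constructor <;> linarith [h2.1, h2.2, h3.1, h3.2]

/-- Powers of a fixed number. -/
lemma loglog_pow_sub {Y a b : ℕ} (hY : 2 ≤ Y) (ha : 0 < a) (hb : 0 < b) :
    Real.log (Real.log ((Y ^ b : ℕ) : ℝ)) - Real.log (Real.log ((Y ^ a : ℕ) : ℝ)) =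
      Real.log ((b : ℝ) / a) := by
  have hY1 : 0 < Real.log Y := Real.log_pos (by
    have : 1 < Y := by omega
    exact_mod_cast this)
  have ha' : (0 : ℝ) < a := by exact_mod_cast ha
  have hb' : (0 : ℝ) < b := by exact_mod_cast hb
  push_cast
  rw [Real.log_pow, Real.log_pow, ← Real.log_div (by positivity) (by positivity)]
  congr 1
  field_simp

end Pool.Agent.Sv
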