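import Pool.Agent.PalSieve.P5Core

/-!
# Palindromes with at most five prime factors: final statement
-/

namespace Pool.Agent.Pal

open Finset

/-- Number of palindromes with at most `n + 1` digits. -/
lemma sum_half_pow_le {b : ℕ} (hb : 2 ≤ b) : ∀ n : ℕ,
    ∑ ℓ ∈ range (n + 1), b ^ (ℓ / 2 + 1) ≤ 4 * b ^ (n / 2 + 1)
  | 0 => by simp; omega
  | 1 => by
    rw [sum_range_succ, sum_range_succ]
    simp
    omega
  | n + 2 => by
    have ih := sum_half_pow_le hb n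
    rw [sum_range_succ, sum_range_succ]
    have e1 : (n + 2) / 2 + 1 = n / 2 + 1 + 1 := by omega
    have e2 : b ^ ((n + 1) / 2 + 1) ≤ b ^ (n / 2 + 1 + 1) :=
      Nat.pow_le_pow_right (by omega) (by omega)
    rw [e1]
    have e3 : 4 * b ^ (n / 2 + 1) ≤ 2 * b ^ (n / 2 + 1 + 1) := by
      rw [pow_succ b (n / 2 + 1)]
      have : b ^ (n / 2 + 1) * 2 ≤ b ^ (n / 2 + 1) * b := Nat.mul_le_mul_left _ hb
      omega
    omega

lemma palCount_le {b X n : ℕ} (hb : 2 ≤ b) (hX : X < b ^ (n + 1)) :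
    (palCount b X 1 0 : ℝ) ≤ 4 * (b : ℝ) ^ (n / 2 + 1) := by
  rw [palCount_eq hb hX]
  have h1 : ∀ ℓ ∈ range (n + 1), ((cnt b ℓ (thr b ℓ X) 1 0 : ℝ) -
      (cnt b ℓ (min (thr b ℓ X) (b ^ (ℓ / 2))) 1 0 : ℝ)) ≤ ((b ^ (ℓ / 2 + 1) : ℕ) : ℝ) := by
    intro ℓ _
    have h2 : cnt b ℓ (thr b ℓ X) 1 0 ≤ b ^ (ℓ / 2 + 1) := by
      unfold cnt
      exact (card_filter_le _ _).trans (by rw [card_range]; exact thr_le b ℓ X)
    have h3 : (cnt b ℓ (thr b ℓ X) 1 0 : ℝ) ≤ ((b ^ (ℓ / 2 + 1) : ℕ) : ℝ) := by exact_mod_cast h2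
    have h4 : (0 : ℝ) ≤ (cnt b ℓ (min (thr b ℓ X) (b ^ (ℓ / 2))) 1 0 : ℝ) := Nat.cast_nonneg _
    linarith
  refine (Finset.sum_le_sum h1).trans ?_
  rw [← Nat.cast_sum]
  have := sum_half_pow_le hb n
  exact_mod_cast this

open Classical in
/-- The palindromes up to `x`. -/
lemma GG_card_le {b m X : ℕ} (hb : 2 ≤ b) (hX : b ^ (2 * m + 1) ≤ X) (hm : 45 ≤ m) {x : ℝ}
    (hx : x < (b : ℝ) ^ (2 * m + 5)) :
    (GG b m).card ≤ (((Icc 1 X).filter
      (fun n : ℕ => (Nat.digits b n).reverse = Nat.digits b n)).filter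
      (fun n : ℕ => ArithmeticFunction.cardFactors n ≤ 5 ∧
        ∀ p : ℕ, p.Prime → p ∣ n → x ≤ (p : ℝ) ^ 21)).card := by
  refine card_le_card_of_injOn (pal b (2 * m)) ?_ ?_
  · intro h hh
    rw [mem_coe] at hh
    unfold GG at hh
    rw [mem_filter, mem_Ico] at hh
    have e : 2 * m / 2 = m := by omega
    have hH : 2 * b ^ m ≤ b ^ (2 * m / 2 + 1) := by
      have e : 2 * m / 2 + 1 = m + 1 := by omega
      rw [e, pow_succ, mul_comm]
      exact Nat.mul_le_mul_left _ hb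
    have hlt : h < b ^ (2 * m / 2 + 1) := lt_of_lt_of_le hh.1.2 hH
    have hge : b ^ (2 * m / 2) ≤ h := by rw [e]; exact hh.1.1
    have hp := isPal_pal hb hge hlt
    have h1 := pal_lt (by omega : 1 ≤ b) (2 * m) h hlt
    rw [mem_coe, mem_filter, mem_filter, mem_Icc]
    refine ⟨⟨⟨hp.2.2, by omega⟩, hp.1⟩, hh.2.1, ?_⟩
    intro p hpp hpd
    have h2 := hh.2.2 p (Nat.mem_primeFactors.mpr ⟨hpp, hpd, by have := hp.2.2; omega⟩)
    have h3 : (b ^ (2 * m + 5)) ^ 804 ≤ (p ^ 21) ^ 804 := by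
      calc (b ^ (2 * m + 5)) ^ 804 = b ^ ((2 * m + 5) * 804) := by rw [← pow_mul]
        _ ≤ b ^ ((40 * (2 * m + 1)) * 21) := Nat.pow_le_pow_right (by omega) (by omega)
        _ = (b ^ (40 * (2 * m + 1))) ^ 21 := by rw [pow_mul]
        _ ≤ (p ^ 804) ^ 21 := Nat.pow_le_pow_left h2 _
        _ = (p ^ 21) ^ 804 := by rw [← pow_mul, ← pow_mul, mul_comm]
    have h4 : b ^ (2 * m + 5) ≤ p ^ 21 := (Nat.pow_le_pow_iff_left (by norm_num)).mp h3
    have h5 : ((b : ℝ)) ^ (2 * m + 5) ≤ (p : ℝ) ^ 21 := by exact_mod_cast h4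
    exact hx.le.trans h5
  · intro h hh h' hh' heq
    rw [mem_coe] at hh hh'
    unfold GG at hh hh'
    rw [mem_filter, mem_Ico] at hh hh'
    have hH : 2 * b ^ m ≤ b ^ (2 * m / 2 + 1) := by
      have e : 2 * m / 2 + 1 = m + 1 := by omega
      rw [e, pow_succ, mul_comm]
      exact Nat.mul_le_mul_left _ hb
    by_contra hne
    rcases Nat.lt_or_gt_of_ne hne with h1 | h1
    · have := pal_strictMono (by omega : 1 ≤ b) (2 * m) h h' h1 (lt_of_lt_of_le hh'.1.2 hH)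
      omega
    · have := pal_strictMono (by omega : 1 ≤ b) (2 * m) h' h h1 (lt_of_lt_of_le hh.1.2 hH)
      omega

open Classical in
/-- **Palindromes with at most five prime factors.** -/
theorem almost_prime_five {b : ℕ} (hb : 2 ≤ b) :
    ∃ c x₀ : ℝ, 0 < c ∧ ∀ x : ℝ, x₀ ≤ x →
      c * (((Icc 1 ⌊x⌋₊).filter
        (fun n : ℕ => (Nat.digits b n).reverse = Nat.digits b n)).card : ℝ) / Real.log x ≤
      ((((Icc 1 ⌊x⌋₊).filter
        (fun n : ℕ => (Nat.digits b n).reverse = Nat.digits b n)).filter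
        (fun n : ℕ => ArithmeticFunction.cardFactors n ≤ 5 ∧
          ∀ p : ℕ, p.Prime → p ∣ n → x ≤ (p : ℝ) ^ 21)).card : ℝ) := by
  obtain ⟨c, hc, m0, hcore⟩ := core hb
  have hL := log_pos_b hb
  have hb0 : (2 : ℝ) ≤ b := by exact_mod_cast hb
  have hbp : (0 : ℝ) < b := by linarith
  refine ⟨c * Real.log b / (2 * (b : ℝ) ^ 3), ((b ^ (2 * (m0 + 50) + 5) : ℕ) : ℝ), by positivity,
    ?_⟩
  intro x hx
  have hx1 : b ^ (2 * (m0 + 50) + 5) ≤ ⌊x⌋₊ := Nat.le_floor hx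
  set X := ⌊x⌋₊ with hX
  have hX0 : X ≠ 0 := by
    have : 0 < b ^ (2 * (m0 + 50) + 5) := pow_pos (by omega) _
    omega
  have hx0 : 0 < x := lt_of_lt_of_le (by positivity) hx
  set n := Nat.log b X with hn
  have hn1 : b ^ n ≤ X := Nat.pow_log_le_self b hX0
  have hn2 : X < b ^ (n + 1) := Nat.lt_pow_succ_log_self (by omega) X
  have hn3 : 2 * (m0 + 50) + 5 ≤ n := by
    have := hx1.trans_lt hn2
    have := (Nat.pow_lt_pow_iff_right (by omega : 1 < b)).mp this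
    omega
  set m := 2 * ((n - 1) / 4) with hm
  have hm1 : 2 * m + 1 ≤ n := by omega
  have hm2 : n ≤ 2 * m + 4 := by omega
  have hm3 : m0 ≤ m := by omega
  have hm4 : 45 ≤ m := by omega
  have hme : Even m := ⟨(n - 1) / 4, by omega⟩
  have hmr : (45 : ℝ) ≤ m := by exact_mod_cast hm4
  have hxlt : x < (b : ℝ) ^ (2 * m + 5) := by
    have h1 : x < (X : ℝ) + 1 := Nat.lt_floor_add_one x
    have h2 : ((X + 1 : ℕ) : ℝ) ≤ ((b ^ (n + 1) : ℕ) : ℝ) := by exact_mod_cast hn2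
    have h3 : (b : ℝ) ^ (n + 1) ≤ (b : ℝ) ^ (2 * m + 5) :=
      pow_le_pow_right₀ (by linarith) (by omega)
    push_cast at h2
    linarith
  have hcount : (((Icc 1 X).filter
      (fun n : ℕ => (Nat.digits b n).reverse = Nat.digits b n)).card : ℝ) ≤
      4 * (b : ℝ) ^ (m + 3) := by
    have h1 := palCount_le hb hn2
    have h2 : ((Icc 1 X).filter (fun n : ℕ => (Nat.digits b n).reverse = Nat.digits b n)).card ≤
        palCount b X 1 0 := by
      unfold palCount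
      refine card_le_card fun k hk => ?_
      rw [mem_filter] at hk ⊢
      refine ⟨hk.1, hk.2, ?_⟩
      rw [Int.modEq_zero_iff_dvd]
      simp
    have h3 : (((Icc 1 X).filter
      (fun n : ℕ => (Nat.digits b n).reverse = Nat.digits b n)).card : ℝ) ≤
        (palCount b X 1 0 : ℝ) := by exact_mod_cast h2
    have h4 : (b : ℝ) ^ (n / 2 + 1) ≤ (b : ℝ) ^ (m + 3) :=
      pow_le_pow_right₀ (by linarith) (by omega)
    linarith
  have hlog : 2 * (m : ℝ) * Real.log b ≤ Real.log x := by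
    have h1 : (b : ℝ) ^ (2 * m) ≤ x := by
      have h2 : b ^ (2 * m) ≤ X := (Nat.pow_le_pow_right (by omega) (by omega)).trans hn1
      have h3 : (X : ℝ) ≤ x := Nat.floor_le hx0.le
      have h4 : ((b ^ (2 * m) : ℕ) : ℝ) ≤ X := by exact_mod_cast h2
      push_cast at h4
      linarith
    have h2 := Real.log_le_log (by positivity) h1
    rw [Real.log_pow] at h2
    push_cast at h2
    exact h2
  have hlogp : 0 < 2 * (m : ℝ) * Real.log b := by positivity
  have h1 := hcore m hm3 hme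
  have h2 := GG_card_le hb (X := X) (m := m)
    ((Nat.pow_le_pow_right (by omega) hm1).trans hn1) hm4 hxlt
  have h3 : ((GG b m).card : ℝ) ≤ ((((Icc 1 X).filter
        (fun n : ℕ => (Nat.digits b n).reverse = Nat.digits b n)).filter
        (fun n : ℕ => ArithmeticFunction.cardFactors n ≤ 5 ∧
          ∀ p : ℕ, p.Prime → p ∣ n → x ≤ (p : ℝ) ^ 21)).card : ℝ) := by exact_mod_cast h2
  refine le_trans ?_ (h1.trans h3)
  have h5 : c * Real.log b / (2 * (b : ℝ) ^ 3) * (((Icc 1 X).filter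
      (fun n : ℕ => (Nat.digits b n).reverse = Nat.digits b n)).card : ℝ) ≤
      c * Real.log b / (2 * (b : ℝ) ^ 3) * (4 * (b : ℝ) ^ (m + 3)) :=
    mul_le_mul_of_nonneg_left hcount (by positivity)
  calc c * Real.log b / (2 * (b : ℝ) ^ 3) * (((Icc 1 X).filter
      (fun n : ℕ => (Nat.digits b n).reverse = Nat.digits b n)).card : ℝ) / Real.log x ≤
        c * Real.log b / (2 * (b : ℝ) ^ 3) * (4 * (b : ℝ) ^ (m + 3)) / Real.log x :=
        div_le_div_of_nonneg_right h5 (hlogp.trans_le hlog).le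
    _ ≤ c * Real.log b / (2 * (b : ℝ) ^ 3) * (4 * (b : ℝ) ^ (m + 3)) /
        (2 * (m : ℝ) * Real.log b) :=
        div_le_div_of_nonneg_left (by positivity) hlogp hlog
    _ = c * (b : ℝ) ^ m / m := by
        rw [pow_add]
        field_simp
        ring

end Pool.Agent.Pal
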