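import Pool.Agent.PalSieve.Central2
import Pool.Agent.Pal.LevelMain

/-!
# Weighted sums over the moduli
-/

namespace Pool.Agent.Pal

open Finset

/-- The majorant summed over the fractions, with a power saving. -/
lemma sum_S_le2 {b : ℕ} (hb : 2 ≤ b) {ε : ℝ} (hε : 0 < ε) (hε4 : ε ≤ 1 / 4) :
    ∃ (σ δ C : ℝ), 0 < σ ∧ 0 < δ ∧ 0 < C ∧ ∀ Λ ℓ D : ℕ, ℓ ≤ Λ → 2 ≤ D →
      Real.log D ≤ (1 / 4 - ε) * Real.log b * Λ →
      ∑ x ∈ J b D, S b ℓ (pt b x) ≤
        C * Real.sqrt ((b : ℝ) ^ Λ) * D * ((Λ : ℝ) + 1) *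
          Real.exp (-σ * Real.sqrt Λ - δ * Real.log D) := by
  obtain ⟨σ, δ, C, hσ, hδ, hC, hmain⟩ := central2 hb hε hε4
  have hb0 : (2 : ℝ) ≤ b := by exact_mod_cast hb
  have hbp : (0 : ℝ) < b := by linarith
  have hb1 : (1 : ℝ) ≤ b := by linarith
  have hL := log_pos_b hb
  have hBp := BB_pos hb
  set σ' : ℝ := min (σ / 2) (Real.log b / 8) with hσ'
  set δ' : ℝ := min (δ / 2) (1 / 2) with hδ'
  have hσ'0 : 0 < σ' := by positivity
  have hδ'0 : 0 < δ' := by positivity
  refine ⟨σ', δ', b * (2 * BB b) + b ^ 2 * Real.sqrt C, hσ'0, hδ'0, by positivity, ?_⟩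
  intro Λ ℓ D hℓ hD hDL
  have hDp : (0 : ℝ) < D := by
    have : 0 < D := by omega
    exact_mod_cast this
  have hlogD : 0 ≤ Real.log D := Real.log_nonneg (by
    have : 1 ≤ D := by omega
    exact_mod_cast this)
  set M : ℝ := Real.sqrt ((b : ℝ) ^ Λ) * D * Real.exp (-σ' * Real.sqrt Λ - δ' * Real.log D) with hM
  have hM0 : 0 < M := by positivity
  -- each `T` term
  have hT : ∀ ℓ' : ℕ, ℓ' ≤ Λ → (b : ℝ) ^ (ℓ' / 2 + 2) * T b ℓ' D ≤ b ^ 2 * Real.sqrt C * M := by
    intro ℓ' hℓ'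
    have h1 := hmain Λ ℓ' D hℓ' hD hDL
    unfold Bd2 at h1
    have h2 : ((b : ℝ) ^ (ℓ' / 2) * T b ℓ' D) ^ 2 ≤ C * (b : ℝ) ^ Λ * (D : ℝ) ^ 2 *
        Real.exp (-σ * Real.sqrt Λ - δ * Real.log D) := by
      refine le_trans ?_ h1
      rw [mul_pow]
      refine mul_le_mul_of_nonneg_right ?_ (by positivity)
      rw [← pow_mul]
      exact pow_le_pow_right₀ hb1 (by omega)
    have h3 : (b : ℝ) ^ (ℓ' / 2) * T b ℓ' D ≤ Real.sqrt C * Real.sqrt ((b : ℝ) ^ Λ) * D *
        Real.exp (-(σ / 2) * Real.sqrt Λ - δ / 2 * Real.log D) := by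
      refine le_of_sq_le_sq ?_ (by positivity)
      refine h2.trans (le_of_eq ?_)
      rw [mul_pow, mul_pow, mul_pow, Real.sq_sqrt hC.le, Real.sq_sqrt (by positivity),
        ← Real.exp_nat_mul]
      congr 2
      push_cast; ring
    have h4 : Real.exp (-(σ / 2) * Real.sqrt Λ - δ / 2 * Real.log D) ≤
        Real.exp (-σ' * Real.sqrt Λ - δ' * Real.log D) := by
      rw [Real.exp_le_exp]
      have := Real.sqrt_nonneg (Λ : ℝ)
      have h5 : σ' ≤ σ / 2 := min_le_left _ _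
      have h6 : δ' ≤ δ / 2 := min_le_left _ _
      nlinarith
    calc (b : ℝ) ^ (ℓ' / 2 + 2) * T b ℓ' D = b ^ 2 * ((b : ℝ) ^ (ℓ' / 2) * T b ℓ' D) := by
          rw [pow_add]; ring
      _ ≤ b ^ 2 * (Real.sqrt C * Real.sqrt ((b : ℝ) ^ Λ) * D *
          Real.exp (-(σ / 2) * Real.sqrt Λ - δ / 2 * Real.log D)) :=
          mul_le_mul_of_nonneg_left h3 (by positivity)
      _ ≤ b ^ 2 * (Real.sqrt C * Real.sqrt ((b : ℝ) ^ Λ) * D *
          Real.exp (-σ' * Real.sqrt Λ - δ' * Real.log D)) := by gcongr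
      _ = _ := by rw [hM]; ring
  -- the trivial term
  have hJ : (b : ℝ) * ((J b D).card : ℝ) ≤ b * (2 * BB b) * M := by
    have h1 := card_J_le (b := b) (D := D)
    have h2 : (D : ℝ) ≤ Real.sqrt ((b : ℝ) ^ Λ) *
        Real.exp (-σ' * Real.sqrt Λ - δ' * Real.log D) := by
      have h3 : Real.sqrt ((b : ℝ) ^ Λ) = Real.exp (Real.log b * Λ / 2) := by
        rw [Real.sqrt_eq_iff_mul_self_eq (by positivity) (Real.exp_pos _).le, ← Real.exp_add,
          pow_eq_exp hb]
        congr 1; ring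
      rw [h3, ← Real.exp_add]
      nth_rewrite 1 [← Real.exp_log hDp]
      rw [Real.exp_le_exp]
      have h5 := sqrt_nat_le Λ
      have h6 : σ' * Real.sqrt Λ ≤ Real.log b / 8 * Λ := by
        refine mul_le_mul (min_le_right _ _) h5 (Real.sqrt_nonneg _) (by positivity)
      have h7 : 0 ≤ ε * Real.log b * Λ := by positivity
      have h8 : δ' * Real.log D ≤ 1 / 2 * Real.log D :=
        mul_le_mul_of_nonneg_right (min_le_right _ _) hlogD
      linarith
    calc (b : ℝ) * ((J b D).card : ℝ) ≤ b * (2 * BB b * (D : ℝ) ^ 2) :=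
          mul_le_mul_of_nonneg_left h1 hbp.le
      _ = b * (2 * BB b) * (D * D) := by ring
      _ ≤ b * (2 * BB b) * (D * (Real.sqrt ((b : ℝ) ^ Λ) *
        Real.exp (-σ' * Real.sqrt Λ - δ' * Real.log D))) := by gcongr
      _ = _ := by rw [hM]; ring
  -- recursion
  have hrec : ∀ ℓ' : ℕ, ℓ' ≤ Λ → ∑ x ∈ J b D, S b ℓ' (pt b x) ≤
      b * (2 * BB b) * M + ℓ' * (b ^ 2 * Real.sqrt C * M) := by
    intro ℓ'
    induction ℓ' using two_step_induction with
    | h0 =>
      intro _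
      have : ∑ x ∈ J b D, S b 0 (pt b x) = (b : ℝ) * ((J b D).card : ℝ) := by
        show ∑ x ∈ J b D, (b : ℝ) = _
        rw [sum_const, nsmul_eq_mul, mul_comm]
      rw [this]
      simpa using hJ
    | h1 =>
      intro _
      have : ∑ x ∈ J b D, S b 1 (pt b x) = (b : ℝ) * ((J b D).card : ℝ) := by
        show ∑ x ∈ J b D, (b : ℝ) = _
        rw [sum_const, nsmul_eq_mul, mul_comm]
      rw [this]
      have : 0 ≤ ((1 : ℕ) : ℝ) * (b ^ 2 * Real.sqrt C * M) := by positivity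
      linarith
    | h2 ℓ' ih =>
      intro hℓ'
      have h1 := ih (by omega)
      have h2 := hT ℓ' (by omega)
      have h3 : ∑ x ∈ J b D, S b (ℓ' + 2) (pt b x) =
          (b : ℝ) ^ (ℓ' / 2 + 2) * T b ℓ' D + ∑ x ∈ J b D, S b ℓ' (pt b x) := by
        have h4 : ∀ x ∈ J b D, S b (ℓ' + 2) (pt b x) =
            (b : ℝ) ^ (ℓ' / 2 + 2) * blk b ℓ' 0 ((ℓ' + 1) / 2) ((b : ℝ) ^ 1 * pt b x) +
              S b ℓ' ((b : ℝ) ^ 1 * pt b x) := by
          intro x _
          rw [pow_one]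
          rfl
        rw [Finset.sum_congr rfl h4, Finset.sum_add_distrib, ← Finset.mul_sum,
          sum_J_mul 1 (fun y => blk b ℓ' 0 ((ℓ' + 1) / 2) y) (fun y n => blk_add_int _ _ _ _ _ _),
          sum_J_mul 1 (S b ℓ') (S_add_int b ℓ')]
        rfl
      rw [h3]
      push_cast
      have h5 : 0 ≤ b ^ 2 * Real.sqrt C * M := by positivity
      linarith
  refine (hrec ℓ hℓ).trans ?_
  have hℓr : (ℓ : ℝ) ≤ Λ := by exact_mod_cast hℓ
  have hΛ0 : (0 : ℝ) ≤ Λ := Nat.cast_nonneg _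
  calc b * (2 * BB b) * M + ℓ * (b ^ 2 * Real.sqrt C * M)
      ≤ b * (2 * BB b) * M * ((Λ : ℝ) + 1) + ((Λ : ℝ) + 1) * (b ^ 2 * Real.sqrt C * M) := by
        refine add_le_add ?_ ?_
        · have : 0 ≤ b * (2 * BB b) * M := by positivity
          nlinarith
        · refine mul_le_mul_of_nonneg_right (by linarith) (by positivity)
    _ = _ := by rw [hM]; ring

lemma card_divisors_mul_le (m n : ℕ) :
    (m * n).divisors.card ≤ m.divisors.card * n.divisors.card := by
  rw [Nat.divisors_mul]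
  exact Finset.card_mul_le

/-- Moments of the divisor function. -/
lemma sum_tau_pow_le (A Q : ℕ) (hQ : 1 ≤ Q) :
    ∑ e ∈ Icc 1 Q, ((e.divisors.card : ℝ) ^ A) / e ≤ (1 + Real.log Q) ^ (2 ^ A) := by
  induction A with
  | zero => simpa using sum_inv_le Q
  | succ A ih =>
    have hlogQ : 0 ≤ Real.log Q := Real.log_nonneg (by exact_mod_cast hQ)
    have h1 : ∑ e ∈ Icc 1 Q, ((e.divisors.card : ℝ) ^ (A + 1)) / e ≤
        ∑ e ∈ Icc 1 Q, ∑ x ∈ (Icc 1 Q ×ˢ Icc 1 Q).filter (fun x => x.1 * x.2 = e),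
          ((x.1.divisors.card : ℝ) ^ A / x.1) * ((x.2.divisors.card : ℝ) ^ A / x.2) := by
      refine Finset.sum_le_sum fun e he => ?_
      rw [mem_Icc] at he
      have h2 : ∀ x ∈ (Icc 1 Q ×ˢ Icc 1 Q).filter (fun x => x.1 * x.2 = e),
          ((e.divisors.card : ℝ) ^ A) / e ≤
          ((x.1.divisors.card : ℝ) ^ A / x.1) * ((x.2.divisors.card : ℝ) ^ A / x.2) := by
        intro x hx
        rw [mem_filter, mem_product, mem_Icc, mem_Icc] at hx
        obtain ⟨⟨⟨a1, _⟩, ⟨a2, _⟩⟩, a3⟩ := hx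
        rw [div_mul_div_comm, ← mul_pow]
        have h3 : (x.1 : ℝ) * x.2 = e := by exact_mod_cast a3
        rw [h3]
        refine div_le_div_of_nonneg_right (pow_le_pow_left₀ (by positivity) ?_ A) (by positivity)
        rw [← a3]
        exact_mod_cast card_divisors_mul_le x.1 x.2
      have h3 : ((e.divisors.card : ℝ) ^ (A + 1)) / e =
          (((Icc 1 Q ×ˢ Icc 1 Q).filter (fun x => x.1 * x.2 = e)).card : ℝ) *
            (((e.divisors.card : ℝ) ^ A) / e) := by
        have h4 : ((Icc 1 Q ×ˢ Icc 1 Q).filter (fun x => x.1 * x.2 = e)) = e.divisorsAntidiagonal := by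
          ext x
          rw [mem_filter, mem_product, mem_Icc, mem_Icc, Nat.mem_divisorsAntidiagonal]
          constructor
          · rintro ⟨_, h⟩
            exact ⟨h, by omega⟩
          · rintro ⟨h, _⟩
            have p1 : 0 < x.1 := by
              rcases Nat.eq_zero_or_pos x.1 with h0 | h0
              · rw [h0] at h; omega
              · exact h0
            have p2 : 0 < x.2 := by
              rcases Nat.eq_zero_or_pos x.2 with h0 | h0
              · rw [h0] at h; omega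
              · exact h0
            refine ⟨⟨⟨p1, ?_⟩, ⟨p2, ?_⟩⟩, h⟩
            · calc x.1 ≤ x.1 * x.2 := Nat.le_mul_of_pos_right _ p2
                _ = e := h
                _ ≤ Q := he.2
            · calc x.2 ≤ x.1 * x.2 := Nat.le_mul_of_pos_left _ p1
                _ = e := h
                _ ≤ Q := he.2
        rw [h4, ← Nat.map_div_right_divisors, card_map, pow_succ]
        ring
      rw [h3, ← nsmul_eq_mul]
      exact Finset.card_nsmul_le_sum _ _ _ h2
    refine h1.trans ?_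
    have h2 : ∑ e ∈ Icc 1 Q, ∑ x ∈ (Icc 1 Q ×ˢ Icc 1 Q).filter (fun x => x.1 * x.2 = e),
          ((x.1.divisors.card : ℝ) ^ A / x.1) * ((x.2.divisors.card : ℝ) ^ A / x.2) ≤
        ∑ x ∈ Icc 1 Q ×ˢ Icc 1 Q,
          ((x.1.divisors.card : ℝ) ^ A / x.1) * ((x.2.divisors.card : ℝ) ^ A / x.2) := by
      simp_rw [Finset.sum_filter]
      rw [Finset.sum_comm]
      refine Finset.sum_le_sum fun x _ => ?_
      rw [Finset.sum_ite_eq]
      split_ifs
      · exact le_rfl
      · positivity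
    refine h2.trans ?_
    rw [Finset.sum_product]
    simp only
    rw [← Finset.sum_mul_sum, ← sq, pow_succ 2 A, pow_mul]
    exact pow_le_pow_left₀ (Finset.sum_nonneg fun _ _ => by positivity) ih 2

lemma exists_pow_mul_exp_le {σ : ℝ} (hσ : 0 < σ) (A : ℕ) : ∃ C : ℝ, 0 < C ∧ ∀ n : ℕ,
    (n : ℝ) ^ A * Real.exp (-σ * Real.sqrt n) ≤ C * Real.exp (-(σ / 2) * Real.sqrt n) := by
  refine ⟨(2 / σ) ^ (2 * A) * (Nat.factorial (2 * A) : ℕ), by positivity, fun n => ?_⟩
  set u : ℝ := σ / 2 * Real.sqrt n with hu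
  have hu0 : 0 ≤ u := by positivity
  have h1 := Real.pow_div_factorial_le_exp u hu0 (2 * A)
  rw [div_le_iff₀ (by positivity)] at h1
  have h2 : (n : ℝ) ^ A = (2 / σ) ^ (2 * A) * u ^ (2 * A) := by
    rw [hu, ← mul_pow]
    have : 2 / σ * (σ / 2 * Real.sqrt n) = Real.sqrt n := by field_simp
    rw [this, pow_mul, Real.sq_sqrt (Nat.cast_nonneg _)]
  have h3 : Real.exp (-σ * Real.sqrt n) = Real.exp (-(σ / 2) * Real.sqrt n) * Real.exp (-u) := by
    rw [← Real.exp_add]; congr 1; rw [hu]; ring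
  rw [h2, h3]
  have h4 : u ^ (2 * A) * Real.exp (-u) ≤ (Nat.factorial (2 * A) : ℕ) := by
    rw [Real.exp_neg, ← div_eq_mul_inv, div_le_iff₀ (Real.exp_pos _)]
    linarith
  calc (2 / σ) ^ (2 * A) * u ^ (2 * A) * (Real.exp (-(σ / 2) * Real.sqrt n) * Real.exp (-u))
      = (2 / σ) ^ (2 * A) * (u ^ (2 * A) * Real.exp (-u)) * Real.exp (-(σ / 2) * Real.sqrt n) := by
        ring
    _ ≤ _ := by gcongr

/-- The average over the moduli of the majorants, with divisor weights. -/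
lemma sum_moduli_weighted {b : ℕ} (hb : 2 ≤ b) {ε : ℝ} (hε : 0 < ε) (hε4 : ε ≤ 1 / 4) (A : ℕ) :
    ∃ (σ C : ℝ), 0 < σ ∧ 0 < C ∧ ∀ Λ ℓ Q : ℕ, 1 ≤ Λ → ℓ ≤ Λ → 1 ≤ Q →
      Real.log Q ≤ (1 / 4 - ε) * Real.log b * Λ →
      ∑ q ∈ (Icc 1 Q).filter (fun q => q.Coprime b), (q.divisors.card : ℝ) ^ A * (1 / (q : ℝ) *
        ∑ c ∈ (range q).filter (fun c => ¬ q ∣ (b ^ 2 - 1) * c), S b ℓ ((c : ℝ) / q)) ≤
      C * Real.sqrt ((b : ℝ) ^ Λ) * Real.exp (-σ * Real.sqrt Λ) := by
  obtain ⟨σ, δ, C, hσ, hδ, hC, hmain⟩ := sum_S_le2 hb hε hε4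
  obtain ⟨Cd, hCd, hdiv⟩ := card_divisors_le_rpow (η := δ / (A + 1)) (by positivity)
  have hL := log_pos_b hb
  set L := Real.log b with hLdef
  obtain ⟨Cp, hCp, hpoly⟩ := exists_pow_mul_exp_le hσ (2 ^ A + 2)
  have hCd0 : 0 < Cd := by linarith
  refine ⟨σ / 2, 2 * (2 * (1 + L) ^ (2 ^ A + 1)) * (Cd ^ A * Real.exp δ * C) * Cp, by positivity,
    by positivity, ?_⟩
  intro Λ ℓ Q hΛ hℓ hQ hQL
  have hΛr : (1 : ℝ) ≤ Λ := by exact_mod_cast hΛ
  have hlogQ : 0 ≤ Real.log Q := Real.log_nonneg (by exact_mod_cast hQ)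
  have hlogQ' : Real.log Q ≤ L * Λ := by
    refine hQL.trans ?_
    have : 0 ≤ (3 / 4 + ε) * (L * Λ) := by positivity
    linarith
  set W : ℝ := Cd ^ A * Real.exp δ * (C * Real.sqrt ((b : ℝ) ^ Λ) * ((Λ : ℝ) + 1) *
    Real.exp (-σ * Real.sqrt Λ)) with hW
  have hW0 : 0 ≤ W := by positivity
  have hstep : ∑ q ∈ (Icc 1 Q).filter (fun q => q.Coprime b), (q.divisors.card : ℝ) ^ A *
        (1 / (q : ℝ) * ∑ c ∈ (range q).filter (fun c => ¬ q ∣ (b ^ 2 - 1) * c),
          S b ℓ ((c : ℝ) / q)) ≤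
      ∑ j ∈ Ico 1 (Nat.log 2 Q + 1), (1 + Real.log Q) ^ (2 ^ A) * W := by
    calc ∑ q ∈ (Icc 1 Q).filter (fun q => q.Coprime b), (q.divisors.card : ℝ) ^ A *
        (1 / (q : ℝ) * ∑ c ∈ (range q).filter (fun c => ¬ q ∣ (b ^ 2 - 1) * c),
          S b ℓ ((c : ℝ) / q))
        ≤ ∑ q ∈ (Icc 1 Q).filter (fun q => q.Coprime b), (q.divisors.card : ℝ) ^ A *
          (1 / (q : ℝ) * ∑ j ∈ Ico 1 (Nat.log 2 Q + 1),
            ∑ x ∈ (J b (2 ^ j)).filter (fun x => x.1 ∣ q), S b ℓ (pt b x)) := by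
          refine Finset.sum_le_sum fun q hq => ?_
          rw [mem_filter, mem_Icc] at hq
          refine mul_le_mul_of_nonneg_left ?_ (by positivity)
          exact mul_le_mul_of_nonneg_left (sum_frac_le hb (by omega) hq.1.2 hq.2 (S b ℓ)
            (S_nonneg b ℓ)) (by positivity)
      _ = ∑ j ∈ Ico 1 (Nat.log 2 Q + 1), ∑ x ∈ J b (2 ^ j), S b ℓ (pt b x) *
            ∑ q ∈ (Icc 1 Q).filter (fun q => q.Coprime b),
              (if x.1 ∣ q then (q.divisors.card : ℝ) ^ A / (q : ℝ) else 0) := by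
          have e1 : ∀ q ∈ (Icc 1 Q).filter (fun q => q.Coprime b), (q.divisors.card : ℝ) ^ A *
              (1 / (q : ℝ) * ∑ j ∈ Ico 1 (Nat.log 2 Q + 1),
                ∑ x ∈ (J b (2 ^ j)).filter (fun x => x.1 ∣ q), S b ℓ (pt b x)) =
              ∑ j ∈ Ico 1 (Nat.log 2 Q + 1), ∑ x ∈ J b (2 ^ j), S b ℓ (pt b x) *
                (if x.1 ∣ q then (q.divisors.card : ℝ) ^ A / (q : ℝ) else 0) := by
            intro q _
            rw [Finset.mul_sum, Finset.mul_sum]
            refine Finset.sum_congr rfl fun j _ => ?_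
            rw [Finset.sum_filter, Finset.mul_sum, Finset.mul_sum]
            refine Finset.sum_congr rfl fun x _ => ?_
            split_ifs <;> ring
          rw [Finset.sum_congr rfl e1, Finset.sum_comm]
          refine Finset.sum_congr rfl fun j _ => ?_
          rw [Finset.sum_comm]
          refine Finset.sum_congr rfl fun x _ => ?_
          rw [Finset.mul_sum]
      _ ≤ ∑ j ∈ Ico 1 (Nat.log 2 Q + 1), ∑ x ∈ J b (2 ^ j), S b ℓ (pt b x) *
            ((1 + Real.log Q) ^ (2 ^ A) *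
              (Cd ^ A * Real.exp δ * Real.exp (δ * Real.log ((2 ^ j : ℕ) : ℝ)) / 2 ^ j)) := by
          refine Finset.sum_le_sum fun j hj => Finset.sum_le_sum fun x hx => ?_
          refine mul_le_mul_of_nonneg_left ?_ (S_nonneg _ _ _)
          rw [mem_J] at hx
          have hx1 : 0 < x.1 := lt_of_lt_of_le (by positivity) hx.1
          have hx1r : (0 : ℝ) < x.1 := by exact_mod_cast hx1
          have h2j : (2 : ℝ) ^ j ≤ x.1 := by exact_mod_cast hx.1
          have h1 : ∑ q ∈ (Icc 1 Q).filter (fun q => q.Coprime b),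
              (if x.1 ∣ q then (q.divisors.card : ℝ) ^ A / (q : ℝ) else 0) ≤
              ∑ e ∈ Icc 1 Q, (x.1.divisors.card : ℝ) ^ A / (x.1 : ℝ) *
                ((e.divisors.card : ℝ) ^ A / (e : ℝ)) := by
            rw [← Finset.sum_filter]
            have h2 : ∑ e ∈ Icc 1 Q, (x.1.divisors.card : ℝ) ^ A / (x.1 : ℝ) *
                ((e.divisors.card : ℝ) ^ A / (e : ℝ)) ≥
                ∑ q ∈ (Icc 1 Q).image (fun e => x.1 * e), (q.divisors.card : ℝ) ^ A / (q : ℝ) := by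
              rw [sum_image (by
                intro u _ v _ huv
                exact Nat.eq_of_mul_eq_mul_left hx1 huv)]
              refine Finset.sum_le_sum fun e _ => ?_
              push_cast
              rw [div_mul_div_comm, ← mul_pow]
              refine div_le_div_of_nonneg_right (pow_le_pow_left₀ (by positivity) ?_ A)
                (by positivity)
              exact_mod_cast card_divisors_mul_le x.1 e
            refine le_trans ?_ h2
            refine sum_le_sum_of_subset_of_nonneg ?_ fun _ _ _ => by positivity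
            intro q hq
            rw [mem_filter, mem_filter, mem_Icc] at hq
            obtain ⟨⟨⟨q1, q2⟩, _⟩, e, he⟩ := hq
            rw [mem_image]
            refine ⟨e, ?_, he.symm⟩
            rw [mem_Icc]
            constructor
            · rcases Nat.eq_zero_or_pos e with h | h
              · rw [h] at he; omega
              · exact h
            · calc e ≤ x.1 * e := Nat.le_mul_of_pos_left e hx1
                _ = q := he.symm
                _ ≤ Q := q2
          refine h1.trans ?_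
          rw [← Finset.mul_sum, mul_comm]
          refine mul_le_mul (sum_tau_pow_le A Q hQ) ?_ (by positivity) (by positivity)
          have h3 : (x.1.divisors.card : ℝ) ^ A ≤
              Cd ^ A * Real.exp δ * Real.exp (δ * Real.log ((2 ^ j : ℕ) : ℝ)) := by
            have h4 := hdiv x.1 hx1
            have h5 : (x.1.divisors.card : ℝ) ^ A ≤ (Cd * (x.1 : ℝ) ^ (δ / (A + 1))) ^ A :=
              pow_le_pow_left₀ (by positivity) h4 A
            refine h5.trans ?_
            rw [mul_pow, mul_assoc]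
            refine mul_le_mul_of_nonneg_left ?_ (by positivity)
            rw [← Real.exp_add, ← Real.rpow_natCast, ← Real.rpow_mul hx1r.le,
              Real.rpow_def_of_pos hx1r, Real.exp_le_exp]
            have h6 : Real.log x.1 ≤ 1 + Real.log ((2 ^ j : ℕ) : ℝ) := by
              have h7 : (x.1 : ℝ) ≤ 2 * ((2 ^ j : ℕ) : ℝ) := by exact_mod_cast hx.2.1.le
              have h8 := Real.log_le_log hx1r h7
              rw [Real.log_mul (by norm_num) (by positivity)] at h8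
              have := Real.log_two_lt_d9
              linarith
            have h9 : 0 ≤ Real.log x.1 := Real.log_nonneg (by exact_mod_cast hx1)
            have h10 : δ / (A + 1) * A ≤ δ := by
              rw [div_mul_eq_mul_div, div_le_iff₀ (by positivity)]
              nlinarith
            calc Real.log x.1 * (δ / (A + 1) * A) ≤ Real.log x.1 * δ :=
                  mul_le_mul_of_nonneg_left h10 h9
              _ ≤ (1 + Real.log ((2 ^ j : ℕ) : ℝ)) * δ := mul_le_mul_of_nonneg_right h6 hδ.le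
              _ = _ := by ring
          calc (x.1.divisors.card : ℝ) ^ A / (x.1 : ℝ)
              ≤ (Cd ^ A * Real.exp δ * Real.exp (δ * Real.log ((2 ^ j : ℕ) : ℝ))) / (x.1 : ℝ) :=
                div_le_div_of_nonneg_right h3 hx1r.le
            _ ≤ _ := div_le_div_of_nonneg_left (by positivity) (by positivity) h2j
      _ ≤ ∑ j ∈ Ico 1 (Nat.log 2 Q + 1), (1 + Real.log Q) ^ (2 ^ A) * W := by
          refine Finset.sum_le_sum fun j hj => ?_
          rw [mem_Ico] at hj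
          rw [← Finset.sum_mul]
          have h2j : 2 ≤ 2 ^ j := by
            calc 2 = 2 ^ 1 := by norm_num
              _ ≤ 2 ^ j := Nat.pow_le_pow_right (by norm_num) hj.1
          have h2jQ : 2 ^ j ≤ Q := by
            calc 2 ^ j ≤ 2 ^ Nat.log 2 Q := Nat.pow_le_pow_right (by norm_num) (by omega)
              _ ≤ Q := Nat.pow_log_le_self 2 (by omega)
          have hlog : Real.log ((2 ^ j : ℕ) : ℝ) ≤ (1 / 4 - ε) * L * Λ := by
            refine le_trans (Real.log_le_log ?_ ?_) hQL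
            · have : 0 < 2 ^ j := by positivity
              exact_mod_cast this
            · exact_mod_cast h2jQ
          have h := hmain Λ ℓ (2 ^ j) hℓ h2j hlog
          have hjpos : (0 : ℝ) < 2 ^ j := by positivity
          calc (∑ x ∈ J b (2 ^ j), S b ℓ (pt b x)) * ((1 + Real.log Q) ^ (2 ^ A) *
              (Cd ^ A * Real.exp δ * Real.exp (δ * Real.log ((2 ^ j : ℕ) : ℝ)) / 2 ^ j))
              ≤ (C * Real.sqrt ((b : ℝ) ^ Λ) * ((2 ^ j : ℕ) : ℝ) * ((Λ : ℝ) + 1) *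
                  Real.exp (-σ * Real.sqrt Λ - δ * Real.log ((2 ^ j : ℕ) : ℝ))) *
                  ((1 + Real.log Q) ^ (2 ^ A) *
              (Cd ^ A * Real.exp δ * Real.exp (δ * Real.log ((2 ^ j : ℕ) : ℝ)) / 2 ^ j)) :=
                mul_le_mul_of_nonneg_right h (by positivity)
            _ = (1 + Real.log Q) ^ (2 ^ A) * W := by
                rw [hW, Real.exp_sub]
                have : Real.exp (δ * Real.log ((2 ^ j : ℕ) : ℝ)) ≠ 0 := (Real.exp_pos _).ne'
                push_cast at this ⊢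
                field_simp
  refine hstep.trans ?_
  rw [sum_const, Nat.card_Ico, nsmul_eq_mul]
  have e1 : Nat.log 2 Q + 1 - 1 = Nat.log 2 Q := by omega
  rw [e1]
  have hlog2 : (Nat.log 2 Q : ℝ) ≤ 2 * (L * Λ) := by
    have h1 : 2 ^ Nat.log 2 Q ≤ Q := Nat.pow_log_le_self 2 (by omega)
    have h2 : ((2 : ℝ)) ^ Nat.log 2 Q ≤ Q := by exact_mod_cast h1
    have h3 := Real.log_le_log (by positivity) h2
    rw [Real.log_pow] at h3
    have h4 : (1 : ℝ) / 2 ≤ Real.log 2 := by
      have := Real.log_two_gt_d9; linarith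
    have h5 : (Nat.log 2 Q : ℝ) * (1 / 2) ≤ (Nat.log 2 Q : ℝ) * Real.log 2 :=
      mul_le_mul_of_nonneg_left h4 (Nat.cast_nonneg _)
    linarith
  have hcoef : (Nat.log 2 Q : ℝ) * (1 + Real.log Q) ^ (2 ^ A) ≤
      2 * (1 + L) ^ (2 ^ A + 1) * (Λ : ℝ) ^ (2 ^ A + 1) := by
    calc (Nat.log 2 Q : ℝ) * (1 + Real.log Q) ^ (2 ^ A)
        ≤ (2 * ((1 + L) * Λ)) * ((1 + L) * Λ) ^ (2 ^ A) := by
          refine mul_le_mul (by nlinarith) (pow_le_pow_left₀ (by positivity) (by nlinarith) _)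
            (by positivity) (by positivity)
      _ = _ := by rw [mul_pow, pow_succ, pow_succ]; ring
  have hp := hpoly Λ
  calc (Nat.log 2 Q : ℝ) * ((1 + Real.log Q) ^ (2 ^ A) * W)
      = ((Nat.log 2 Q : ℝ) * (1 + Real.log Q) ^ (2 ^ A)) * W := by ring
    _ ≤ (2 * (1 + L) ^ (2 ^ A + 1) * (Λ : ℝ) ^ (2 ^ A + 1)) * W :=
        mul_le_mul_of_nonneg_right hcoef hW0
    _ ≤ (2 * (1 + L) ^ (2 ^ A + 1) * (Λ : ℝ) ^ (2 ^ A + 1)) * (Cd ^ A * Real.exp δ *
        (C * Real.sqrt ((b : ℝ) ^ Λ) * (2 * Λ) * Real.exp (-σ * Real.sqrt Λ))) := by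
        rw [hW]
        gcongr
        linarith
    _ = 2 * (2 * (1 + L) ^ (2 ^ A + 1)) * (Cd ^ A * Real.exp δ * C) * Real.sqrt ((b : ℝ) ^ Λ) *
        ((Λ : ℝ) ^ (2 ^ A + 2) * Real.exp (-σ * Real.sqrt Λ)) := by
        ring
    _ ≤ 2 * (2 * (1 + L) ^ (2 ^ A + 1)) * (Cd ^ A * Real.exp δ * C) * Real.sqrt ((b : ℝ) ^ Λ) *
        (Cp * Real.exp (-(σ / 2) * Real.sqrt Λ)) := mul_le_mul_of_nonneg_left hp (by positivity)
    _ = _ := by ring

end Pool.Agent.Pal
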