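import Pool.Agent.PalSieve.Fam
import Pool.Agent.PalSieve.Weighted

/-!
# Fractions whose denominators are squares
-/

namespace Pool.Agent.Pal

open Finset

/-- Multiplication by `b ^ a` permutes a family of fractions. -/
lemma sum_fam_mul {b : ℕ} (hb : 2 ≤ b) {I : Finset (ℕ × ℕ)} (a : ℕ)
    (h1 : ∀ x ∈ I, x.1.Coprime b ∧ x.2 < (b ^ 2 - 1) * x.1)
    (h2 : ∀ x ∈ I, ∀ c' < (b ^ 2 - 1) * x.1, c' ≡ b ^ a * x.2 [MOD x.1] → (x.1, c') ∈ I)
    (Φ : ℝ → ℝ) (hΦ : ∀ (y : ℝ) (n : ℤ), Φ (y + n) = Φ y) :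
    ∑ x ∈ I, Φ ((b : ℝ) ^ a * pt b x) = ∑ x ∈ I, Φ (pt b x) := by
  classical
  set σ : ℕ × ℕ → ℕ × ℕ := fun x => (x.1, (b ^ a * x.2) % ((b ^ 2 - 1) * x.1)) with hσ
  have hcop : ∀ x ∈ I, (b ^ a).Coprime ((b ^ 2 - 1) * x.1) := by
    intro x hx
    refine Nat.Coprime.pow_left _ (Nat.Coprime.mul_right ?_ (h1 x hx).1.symm)
    have hb1 : 1 ≤ b ^ 2 := Nat.one_le_pow _ _ (by omega)
    have h2 : b ^ 2 - 1 + 1 = b ^ 2 := Nat.sub_add_cancel hb1
    have h3 : (b ^ 2 - 1).Coprime (b ^ 2) := by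
      rw [← h2]; simp
    exact (Nat.Coprime.coprime_dvd_right (dvd_pow_self b two_ne_zero) h3).symm
  have hpos : ∀ x ∈ I, 0 < (b ^ 2 - 1) * x.1 := fun x hx => lt_of_le_of_lt (Nat.zero_le _) (h1 x hx).2
  have hmem : ∀ x ∈ I, σ x ∈ I := by
    intro x hx
    refine h2 x hx _ (Nat.mod_lt _ (hpos x hx)) ?_
    exact (Nat.mod_modEq _ _).of_dvd (Dvd.intro_left _ rfl)
  have hinj : Set.InjOn σ I := by
    intro x hx y hy hxy
    simp only [hσ, Prod.mk.injEq] at hxy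
    obtain ⟨e1, e2⟩ := hxy
    rw [← e1] at e2
    have hc := hcop x hx
    have hx' := h1 x hx
    have hy' := h1 y hy
    have e3 : x.2 ≡ y.2 [MOD (b ^ 2 - 1) * x.1] :=
      Nat.ModEq.cancel_left_of_coprime (c := b ^ a) hc.symm e2
    have e4 : x.2 = y.2 := Nat.ModEq.eq_of_lt_of_lt e3 hx'.2 (by
      rw [e1]; exact hy'.2)
    exact Prod.ext e1 e4
  have himg : I.image σ = I := by
    refine Finset.eq_of_subset_of_card_le ?_ ?_
    · intro y hy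
      obtain ⟨x, hx, rfl⟩ := mem_image.mp hy
      exact hmem x hx
    · rw [card_image_of_injOn hinj]
  conv_rhs => rw [← himg]
  rw [sum_image hinj]
  refine Finset.sum_congr rfl fun x hx => ?_
  have hp : (0 : ℝ) < (((b ^ 2 - 1) * x.1 : ℕ) : ℝ) := by exact_mod_cast hpos x hx
  have h1 : (b : ℝ) ^ a * pt b x = pt b (σ x) +
      (((b ^ a * x.2 / ((b ^ 2 - 1) * x.1) : ℕ) : ℤ) : ℝ) := by
    have h2 := Nat.mod_add_div (b ^ a * x.2) ((b ^ 2 - 1) * x.1)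
    have h3 : ((b ^ a * x.2 : ℕ) : ℝ) = (((b ^ a * x.2) % ((b ^ 2 - 1) * x.1) : ℕ) : ℝ) +
        (((b ^ 2 - 1) * x.1 : ℕ) : ℝ) * ((b ^ a * x.2 / ((b ^ 2 - 1) * x.1) : ℕ) : ℝ) := by
      rw [← Nat.cast_mul, ← Nat.cast_add, h2]
    unfold pt
    simp only [hσ]
    rw [Int.cast_natCast]
    have h4 : (b : ℝ) ^ a * ((x.2 : ℝ) / (((b ^ 2 - 1) * x.1 : ℕ) : ℝ)) =
        ((b ^ a * x.2 : ℕ) : ℝ) / (((b ^ 2 - 1) * x.1 : ℕ) : ℝ) := by
      push_cast; ring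
    rw [h4, h3, add_div, mul_div_cancel_left₀ _ hp.ne']
  rw [h1, hΦ]

/-- Index set of the fractions `c / ((b^2-1) p^2)`, `P ≤ p < 2 P`. -/
def JS (b P : ℕ) : Finset (ℕ × ℕ) :=
  (((Ico P (2 * P)) ×ˢ (range ((b ^ 2 - 1) * (4 * P ^ 2)))).filter
    (fun x => x.1.Coprime b ∧ x.2 < (b ^ 2 - 1) * x.1 ^ 2 ∧ x.2.Coprime x.1)).image
    (fun x => (x.1 ^ 2, x.2))

lemma mem_JS {b P : ℕ} {x : ℕ × ℕ} : x ∈ JS b P ↔ ∃ p, P ≤ p ∧ p < 2 * P ∧ p.Coprime b ∧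
    x.1 = p ^ 2 ∧ x.2 < (b ^ 2 - 1) * p ^ 2 ∧ x.2.Coprime p := by
  unfold JS
  rw [mem_image]
  constructor
  · rintro ⟨y, hy, rfl⟩
    rw [mem_filter, mem_product, mem_Ico, mem_range] at hy
    obtain ⟨⟨⟨h1, h2⟩, h3⟩, h4, h5, h6⟩ := hy
    exact ⟨y.1, h1, h2, h4, rfl, h5, h6⟩
  · rintro ⟨p, h1, h2, h3, h4, h5, h6⟩
    refine ⟨(p, x.2), ?_, ?_⟩
    · rw [mem_filter, mem_product, mem_Ico, mem_range]
      refine ⟨⟨⟨h1, h2⟩, ?_⟩, h3, h5, h6⟩
      refine h5.trans_le (Nat.mul_le_mul_left _ ?_)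
      calc p ^ 2 ≤ (2 * P) ^ 2 := Nat.pow_le_pow_left h2.le 2
        _ = 4 * P ^ 2 := by ring
    · simp only
      rw [← h4]

lemma card_JS_le {b P : ℕ} : ((JS b P).card : ℝ) ≤ 4 * BB b * (P : ℝ) ^ 3 := by
  have h : (JS b P).card ≤ P * ((b ^ 2 - 1) * (4 * P ^ 2)) := by
    unfold JS
    refine card_image_le.trans ((card_filter_le _ _).trans ?_)
    rw [card_product, card_range, Nat.card_Ico]
    have : 2 * P - P = P := by omega
    rw [this]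
  calc ((JS b P).card : ℝ) ≤ ((P * ((b ^ 2 - 1) * (4 * P ^ 2)) : ℕ) : ℝ) := by exact_mod_cast h
    _ = _ := by unfold BB; push_cast; ring

lemma fam_JS {b : ℕ} (hb : 2 ≤ b) (P : ℕ) : Fam b (JS b P) ((P : ℝ) ^ 2) (4 * BB b * P) where
  lt_one := by
    intro x hx
    obtain ⟨p, h1, h2, h3, h4, h5, h6⟩ := mem_JS.mp hx
    unfold pt
    have h : (0 : ℝ) < (((b ^ 2 - 1) * x.1 : ℕ) : ℝ) := by
      have : 0 < (b ^ 2 - 1) * x.1 := by rw [h4]; omega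
      exact_mod_cast this
    rw [div_lt_one h, h4]
    exact_mod_cast h5
  perm := by
    intro a Φ hΦ
    refine sum_fam_mul hb a ?_ ?_ Φ hΦ
    · intro x hx
      obtain ⟨p, h1, h2, h3, h4, h5, h6⟩ := mem_JS.mp hx
      rw [h4]
      exact ⟨Nat.Coprime.pow_left 2 h3, h5⟩
    · intro x hx c' hc' hmod
      obtain ⟨p, h1, h2, h3, h4, h5, h6⟩ := mem_JS.mp hx
      rw [mem_JS]
      refine ⟨p, h1, h2, h3, h4, by rw [← h4]; exact hc', ?_⟩
      have hmod' : c' ≡ b ^ a * x.2 [MOD p] := hmod.of_dvd (by rw [h4]; exact dvd_pow_self p two_ne_zero)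
      show Nat.gcd c' p = 1
      rw [hmod'.gcd_eq]
      exact Nat.Coprime.mul_left (Nat.Coprime.pow_left a h3.symm) h6
  count := by
    classical
    intro M K U c hR
    have hB3 := sq_sub_one_pos hb
    set t := (JS b P).filter (fun x => pat b M K (BB b * pt b x) = U ∧ ⌊(b : ℝ) ^ M * pt b x⌋₊ = c)
      with ht
    have h1 : t.card = ∑ d ∈ (Ico P (2 * P)).image (fun p => p ^ 2),
        (t.filter (fun x => x.1 = d)).card := by
      refine Finset.card_eq_sum_card_fiberwise ?_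
      intro x hx
      have hx' : x ∈ t := mem_coe.mp hx
      rw [ht, mem_filter] at hx'
      obtain ⟨p, q1, q2, q3, q4, q5, q6⟩ := mem_JS.mp hx'.1
      rw [mem_coe, mem_image]
      exact ⟨p, mem_Ico.mpr ⟨q1, q2⟩, q4.symm⟩
    have h2 : ∀ d ∈ (Ico P (2 * P)).image (fun p => p ^ 2),
        (t.filter (fun x => x.1 = d)).card ≤ 4 * (b ^ 2 - 1) := by
      intro d hd
      obtain ⟨p, hp, rfl⟩ := mem_image.mp hd
      rw [mem_Ico] at hp
      refine card_fiber_le (B := b ^ 2 - 1) (M := M) (K := K) (U := U) (c := c) (by omega : 0 < b)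
        (t.filter (fun x => x.1 = p ^ 2)) (pt b) (fun x _ => pt_nonneg b x) (by omega)
        (Q := 4 * ((b ^ 2 - 1 : ℕ) : ℝ) * (P : ℝ) ^ 2) ?_
        (mul_le_mul_of_nonneg_left hR (by positivity)) ?_ ?_
      · intro x hx y hy hxy
        rw [mem_filter] at hx hy
        have hxs := (mem_filter.mp hx.1).1
        obtain ⟨p', q1, q2, q3, q4, q5, q6⟩ := mem_JS.mp hxs
        have hp0 : 0 < p := by
          rcases Nat.eq_zero_or_pos p with h | h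
          · exfalso
            have e1 : p' ^ 2 = p ^ 2 := by rw [← q4, hx.2]
            rw [e1, h] at q5
            simp at q5
          · exact h
        have hpr : (0 : ℝ) < (p : ℝ) := by exact_mod_cast hp0
        have hBr : (0 : ℝ) < ((b ^ 2 - 1 : ℕ) : ℝ) := BB_pos hb
        have hne : (x.2 : ℤ) - y.2 ≠ 0 := by
          intro h
          have : x.2 = y.2 := by omega
          exact hxy (Prod.ext (by rw [hx.2, hy.2]) this)
        have habs : (1 : ℝ) ≤ |(((x.2 : ℤ) - y.2 : ℤ) : ℝ)| := by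
          have := Int.one_le_abs hne
          exact_mod_cast this
        have hdiff : pt b x - pt b y = (((x.2 : ℤ) - y.2 : ℤ) : ℝ) /
            (((b ^ 2 - 1 : ℕ) : ℝ) * (p : ℝ) ^ 2) := by
          unfold pt
          rw [hx.2, hy.2]
          push_cast
          field_simp
        rw [hdiff, abs_div, abs_of_pos (by positivity : (0:ℝ) < ((b ^ 2 - 1 : ℕ) : ℝ) * (p : ℝ) ^ 2),
          ← mul_div_assoc, one_le_div (by positivity)]
        have hpP : (p : ℝ) ≤ 2 * P := by exact_mod_cast hp.2.le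
        calc ((b ^ 2 - 1 : ℕ) : ℝ) * (p : ℝ) ^ 2 ≤ ((b ^ 2 - 1 : ℕ) : ℝ) * (2 * P) ^ 2 := by
              gcongr
          _ = 4 * ((b ^ 2 - 1 : ℕ) : ℝ) * (P : ℝ) ^ 2 * 1 := by ring
          _ ≤ _ := mul_le_mul_of_nonneg_left habs (by positivity)
      · intro x hx
        exact (mem_filter.mp (mem_filter.mp hx).1).2.1
      · intro x hx
        exact (mem_filter.mp (mem_filter.mp hx).1).2.2
    have h3 : t.card ≤ P * (4 * (b ^ 2 - 1)) := by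
      rw [h1]
      refine (Finset.sum_le_sum h2).trans ?_
      rw [sum_const, smul_eq_mul]
      refine Nat.mul_le_mul_right _ ?_
      refine card_image_le.trans ?_
      rw [Nat.card_Ico]
      omega
    calc (t.card : ℝ) ≤ ((P * (4 * (b ^ 2 - 1)) : ℕ) : ℝ) := by exact_mod_cast h3
      _ = _ := by unfold BB; push_cast; ring

/-- First moment for square denominators. -/
noncomputable def TS (b ℓ P : ℕ) : ℝ := ∑ x ∈ JS b P, blk b ℓ 0 ((ℓ + 1) / 2) (pt b x)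

lemma TS_nonneg (b ℓ P : ℕ) : 0 ≤ TS b ℓ P := Finset.sum_nonneg fun _ _ => blk_nonneg _ _ _ _ _

lemma TS_le_trivial (b ℓ P : ℕ) : TS b ℓ P ≤ 4 * BB b * (P : ℝ) ^ 3 := by
  unfold TS
  calc ∑ x ∈ JS b P, blk b ℓ 0 ((ℓ + 1) / 2) (pt b x) ≤ ∑ x ∈ JS b P, (1 : ℝ) :=
        Finset.sum_le_sum fun _ _ => blk_le_one _ _ _ _ _
    _ = ((JS b P).card : ℝ) := by simp
    _ ≤ _ := card_JS_le

lemma TS_sq_le {b ℓ P a : ℕ} (ha : a ≤ (ℓ + 1) / 2) :
    (TS b ℓ P) ^ 2 ≤ (∑ x ∈ JS b P, (blk b ℓ a ((ℓ + 1) / 2) (pt b x)) ^ 2) *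
      ∑ x ∈ JS b P, (blk b ℓ 0 a (pt b x)) ^ 2 := by
  unfold TS
  have : ∀ x ∈ JS b P, blk b ℓ 0 ((ℓ + 1) / 2) (pt b x) =
      blk b ℓ a ((ℓ + 1) / 2) (pt b x) * blk b ℓ 0 a (pt b x) := by
    intro x _
    rw [← blk_mul b ℓ (Nat.zero_le a) ha, mul_comm]
  rw [Finset.sum_congr rfl this]
  exact Finset.sum_mul_sq_le_sq_mul_sq _ _ _

/-- Second moment of the outer block over the fractions with square denominators. -/
lemma sum_blk_sq_outer_sq {b : ℕ} (hb : 2 ≤ b) {η C : ℝ} (hη : 0 < η) (hC : 1 ≤ C)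
    (hdiv : ∀ n : ℕ, 1 ≤ n → (n.divisors.card : ℝ) ≤ C * (n : ℝ) ^ η) {ℓ k P : ℕ}
    (hk : 2 * k ≤ ℓ + 1) :
    ∑ x ∈ JS b P, (blk b ℓ 0 k (pt b x)) ^ 2 ≤
      4 * BB b * (P : ℝ) ^ 2 * ((P : ℝ) / (b : ℝ) ^ k + C * ((b : ℝ) ^ (ℓ + 1)) ^ η) := by
  classical
  have hb0 : (0 : ℝ) < b := by
    have : 0 < b := by omega
    exact_mod_cast this
  have hBp := BB_pos hb
  have hB3 := sq_sub_one_pos hb
  set B : ℕ := b ^ 2 - 1 with hB
  set R : ℕ := b ^ k with hR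
  set f : ℕ → ℕ := pf b k (ℓ + 1 - k) with hf
  have hinj : Set.InjOn f (range R : Finset ℕ) := pf_injOn (by omega)
  have hlt : ∀ h ∈ range R, f h < b ^ (ℓ + 1) := by
    intro h hh
    have := pf_lt (b := b) (k := k) (e := ℓ + 1 - k) (h := h) (by omega) (by omega) (mem_range.mp hh)
    have e : ℓ + 1 - k + k = ℓ + 1 := by omega
    rwa [e] at this
  set g : ℝ → ℝ := fun α => (blk b ℓ 0 k α) ^ 2 with hg
  have hg0 : ∀ α, 0 ≤ g α := fun α => by simp only [hg]; positivity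
  have h1 : ∑ x ∈ JS b P, g (pt b x) ≤
      ∑ p ∈ Ico P (2 * P), ∑ c ∈ range (B * p ^ 2), g ((c : ℝ) / ((B * p ^ 2 : ℕ) : ℝ)) := by
    rw [Finset.sum_sigma']
    have hsub : JS b P ⊆ ((Ico P (2 * P)).sigma (fun p => range (B * p ^ 2))).image
        (fun y : (Σ _ : ℕ, ℕ) => (y.1 ^ 2, y.2)) := by
      intro x hx
      obtain ⟨p, q1, q2, q3, q4, q5, q6⟩ := mem_JS.mp hx
      rw [mem_image]
      refine ⟨⟨p, x.2⟩, ?_, ?_⟩
      · rw [mem_sigma, mem_Ico, mem_range]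
        exact ⟨⟨q1, q2⟩, q5⟩
      · simp only
        rw [← q4]
    refine (sum_le_sum_of_subset_of_nonneg hsub fun _ _ _ => hg0 _).trans (le_of_eq ?_)
    rw [sum_image]
    · rfl
    · intro x _ y _ hxy
      simp only [Prod.mk.injEq] at hxy
      have h1 : x.1 = y.1 := by
        exact Nat.pow_left_injective (by norm_num : (2:ℕ) ≠ 0) hxy.1
      obtain ⟨x1, x2⟩ := x
      obtain ⟨y1, y2⟩ := y
      simp only at h1 hxy
      rw [h1, hxy.2]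
  refine h1.trans ?_
  have hRpos : (0 : ℝ) < (R : ℝ) := by
    have : 0 < R := pow_pos (by omega) k
    exact_mod_cast this
  have hRk : (R : ℝ) = (b : ℝ) ^ k := by rw [hR]; push_cast; rfl
  have h2 : ∀ p ∈ Ico P (2 * P), ∑ c ∈ range (B * p ^ 2), g ((c : ℝ) / ((B * p ^ 2 : ℕ) : ℝ)) ≤
      (B * (4 * (P : ℝ) ^ 2)) / (R : ℝ) ^ 2 * (R + ∑ h ∈ range R, ∑ h' ∈ (range R).erase h,
        (if (p : ℤ) ∣ (f h : ℤ) - (f h' : ℤ) then (1 : ℝ) else 0)) := by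
    intro p hp
    rw [mem_Ico] at hp
    rcases Nat.eq_zero_or_pos (B * p ^ 2) with h0 | hpos
    · rw [h0]
      simp only [range_zero, sum_empty]
      have : 0 ≤ ∑ h ∈ range R, ∑ h' ∈ (range R).erase h,
        (if (p : ℤ) ∣ (f h : ℤ) - (f h' : ℤ) then (1 : ℝ) else 0) :=
        Finset.sum_nonneg fun _ _ => Finset.sum_nonneg fun _ _ => by split_ifs <;> norm_num
      positivity
    have h3 := sum_norm_sq_eq hpos (range R) f
    have h4 : ∀ c ∈ range (B * p ^ 2),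
        ‖∑ h ∈ range R, ex (f h * ((c : ℝ) / ((B * p ^ 2 : ℕ) : ℝ)))‖ ^ 2 =
        (R : ℝ) ^ 2 * g ((c : ℝ) / ((B * p ^ 2 : ℕ) : ℝ)) := by
      intro c _
      rw [hR, hf, ← blk_eq (by omega) (by omega)]
      simp only [hg]
      push_cast
      ring
    rw [Finset.sum_congr rfl h4, ← Finset.mul_sum] at h3
    have h5 : ∑ c ∈ range (B * p ^ 2), g ((c : ℝ) / ((B * p ^ 2 : ℕ) : ℝ)) =
        ((B * p ^ 2 : ℕ) : ℝ) / (R : ℝ) ^ 2 * ∑ h ∈ range R, ∑ h' ∈ range R,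
          (if ((B * p ^ 2 : ℕ) : ℤ) ∣ (f h : ℤ) - (f h' : ℤ) then (1 : ℝ) else 0) := by
      field_simp
      linarith [h3]
    rw [h5]
    have h6 : ∑ h ∈ range R, ∑ h' ∈ range R,
          (if ((B * p ^ 2 : ℕ) : ℤ) ∣ (f h : ℤ) - (f h' : ℤ) then (1 : ℝ) else 0) ≤
        R + ∑ h ∈ range R, ∑ h' ∈ (range R).erase h,
        (if (p : ℤ) ∣ (f h : ℤ) - (f h' : ℤ) then (1 : ℝ) else 0) := by
      have h7 : (R : ℝ) = ∑ h ∈ range R, (1 : ℝ) := by simp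
      rw [h7, ← Finset.sum_add_distrib]
      refine Finset.sum_le_sum fun h hh => ?_
      rw [← Finset.add_sum_erase _ _ hh]
      refine add_le_add ?_ (Finset.sum_le_sum fun h' _ => ?_)
      · split_ifs <;> norm_num
      · by_cases hdvd : ((B * p ^ 2 : ℕ) : ℤ) ∣ (f h : ℤ) - (f h' : ℤ)
        · have : (p : ℤ) ∣ (f h : ℤ) - (f h' : ℤ) :=
            (Int.natCast_dvd_natCast.mpr (Dvd.dvd.mul_left (dvd_pow_self p two_ne_zero) B)).trans hdvd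
          rw [if_pos hdvd, if_pos this]
        · rw [if_neg hdvd]
          split_ifs <;> norm_num
    have h8 : ((B * p ^ 2 : ℕ) : ℝ) ≤ B * (4 * (P : ℝ) ^ 2) := by
      push_cast
      have h81 : (p : ℝ) ≤ 2 * P := by exact_mod_cast hp.2.le
      have h82 : (p : ℝ) ^ 2 ≤ (2 * P) ^ 2 := pow_le_pow_left₀ (Nat.cast_nonneg _) h81 2
      refine mul_le_mul_of_nonneg_left ?_ (Nat.cast_nonneg _)
      linarith
    have h9 : 0 ≤ ∑ h ∈ range R, ∑ h' ∈ range R,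
          (if ((B * p ^ 2 : ℕ) : ℤ) ∣ (f h : ℤ) - (f h' : ℤ) then (1 : ℝ) else 0) :=
        Finset.sum_nonneg fun _ _ => Finset.sum_nonneg fun _ _ => by split_ifs <;> norm_num
    exact mul_le_mul (div_le_div_of_nonneg_right h8 (by positivity)) h6 h9 (by positivity)
  refine (Finset.sum_le_sum h2).trans ?_
  rw [← Finset.mul_sum, Finset.sum_add_distrib, sum_const, Nat.card_Ico]
  have hDD : 2 * P - P = P := by omega
  rw [hDD, nsmul_eq_mul]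
  have h3 : ∑ p ∈ Ico P (2 * P), ∑ h ∈ range R, ∑ h' ∈ (range R).erase h,
        (if (p : ℤ) ∣ (f h : ℤ) - (f h' : ℤ) then (1 : ℝ) else 0) ≤
      (R : ℝ) ^ 2 * (C * ((b : ℝ) ^ (ℓ + 1)) ^ η) := by
    rw [Finset.sum_comm]
    have h4 : ∀ h ∈ range R, ∑ p ∈ Ico P (2 * P), ∑ h' ∈ (range R).erase h,
        (if (p : ℤ) ∣ (f h : ℤ) - (f h' : ℤ) then (1 : ℝ) else 0) ≤
        R * (C * ((b : ℝ) ^ (ℓ + 1)) ^ η) := by
      intro h hh
      rw [Finset.sum_comm]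
      have h5 : ∀ h' ∈ (range R).erase h, ∑ p ∈ Ico P (2 * P),
          (if (p : ℤ) ∣ (f h : ℤ) - (f h' : ℤ) then (1 : ℝ) else 0) ≤
          C * ((b : ℝ) ^ (ℓ + 1)) ^ η := by
        intro h' hh'
        rw [mem_erase] at hh'
        have hne : f h ≠ f h' :=
          fun e => hh'.1 (hinj (by exact_mod_cast hh) (by exact_mod_cast hh'.2) e).symm
        set n : ℕ := ((f h : ℤ) - (f h' : ℤ)).natAbs with hn
        have hn1 : 1 ≤ n := by
          have : n ≠ 0 := by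
            rw [hn, Int.natAbs_ne_zero]
            intro e
            apply hne
            have : (f h : ℤ) = f h' := by linarith
            exact_mod_cast this
          omega
        have hnlt : n ≤ b ^ (ℓ + 1) := by
          have e1 := hlt h hh
          have e2 := hlt h' hh'.2
          omega
        have h6 : ∑ p ∈ Ico P (2 * P),
            (if (p : ℤ) ∣ (f h : ℤ) - (f h' : ℤ) then (1 : ℝ) else 0) ≤ (n.divisors.card : ℝ) := by
          rw [← Finset.sum_filter, sum_const, nsmul_eq_mul, mul_one]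
          have : (Ico P (2 * P)).filter (fun p : ℕ => (p : ℤ) ∣ (f h : ℤ) - (f h' : ℤ)) ⊆
              n.divisors := by
            intro p hp
            rw [mem_filter] at hp
            rw [Nat.mem_divisors]
            refine ⟨?_, by omega⟩
            rw [hn]
            exact Int.natCast_dvd.mp hp.2
          exact_mod_cast card_le_card this
        refine h6.trans ((hdiv n hn1).trans ?_)
        refine mul_le_mul_of_nonneg_left ?_ (by linarith)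
        refine Real.rpow_le_rpow (by positivity) ?_ hη.le
        exact_mod_cast hnlt
      refine (Finset.sum_le_sum h5).trans ?_
      rw [sum_const, nsmul_eq_mul]
      refine mul_le_mul_of_nonneg_right ?_ (by positivity)
      have : ((range R).erase h).card ≤ R := by
        refine (card_le_card (erase_subset _ _)).trans ?_
        rw [card_range]
      exact_mod_cast this
    refine (Finset.sum_le_sum h4).trans ?_
    rw [sum_const, card_range, nsmul_eq_mul]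
    exact le_of_eq (by ring)
  calc (B * (4 * (P : ℝ) ^ 2)) / (R : ℝ) ^ 2 * ((P : ℝ) * R + ∑ p ∈ Ico P (2 * P),
        ∑ h ∈ range R, ∑ h' ∈ (range R).erase h,
          (if (p : ℤ) ∣ (f h : ℤ) - (f h' : ℤ) then (1 : ℝ) else 0))
      ≤ (B * (4 * (P : ℝ) ^ 2)) / (R : ℝ) ^ 2 * ((P : ℝ) * R +
          (R : ℝ) ^ 2 * (C * ((b : ℝ) ^ (ℓ + 1)) ^ η)) := by
        refine mul_le_mul_of_nonneg_left (by linarith) (by positivity)
    _ = 4 * BB b * (P : ℝ) ^ 2 * ((P : ℝ) / (b : ℝ) ^ k + C * ((b : ℝ) ^ (ℓ + 1)) ^ η) := by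
        rw [← hRk]
        have hBB : BB b = (B : ℝ) := rfl
        rw [hBB]
        field_simp

/-- Second moment bound without saving. -/
lemma exists_TS_sq_le {b : ℕ} (hb : 2 ≤ b) {η : ℝ} (hη : 0 < η) :
    ∃ C : ℝ, 0 < C ∧ ∀ ℓ k P : ℕ, 1 ≤ k → k ≤ (ℓ + 1) / 2 → (P : ℝ) ≤ (b : ℝ) ^ k →
      (b : ℝ) ^ k ≤ b * P →
      (TS b ℓ P) ^ 2 ≤ C * (P : ℝ) ^ 4 *
        ((P : ℝ) ^ 2 / (b : ℝ) ^ ((ℓ + 1) / 2) + ((b : ℝ) ^ (ℓ + 1)) ^ η) := by
  obtain ⟨Cd, hCd, hdiv⟩ := card_divisors_le_rpow hη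
  have hb0 : (2 : ℝ) ≤ b := by exact_mod_cast hb
  have hbp : (0 : ℝ) < b := by linarith
  have hb1 : (1 : ℝ) ≤ b := by linarith
  have hBp := BB_pos hb
  refine ⟨144 * BB b * (b : ℝ) ^ 3 * (4 * BB b) * (b * Cd), by positivity, ?_⟩
  intro ℓ k P hk1 hk hP hkP
  set m := (ℓ + 1) / 2 with hm
  have hm1 : 2 * m ≤ ℓ + 1 := by omega
  have hm2 : ℓ + 1 ≤ 2 * m + 1 := by omega
  have hP2 : (P : ℝ) ^ 2 ≤ (b : ℝ) ^ (2 * k) := by
    rw [mul_comm, pow_mul]; exact pow_le_pow_left₀ (by positivity) hP 2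
  have S1 : ∑ x ∈ JS b P, (blk b ℓ (m - k) m (pt b x)) ^ 2 ≤
      36 * (4 * BB b * P) * (b : ℝ) ^ (k + 2) := by
    have h := (fam_JS hb P).sum_blk_sq hb (ℓ := ℓ) (a := m - k) (k := k) (by omega) (by omega)
      (hP2.trans (pow_le_pow_right₀ hb1 (by omega)))
    have e : m - k + k = m := by omega
    rw [e] at h
    refine h.trans ?_
    have h2 : (b : ℝ) ^ (ℓ + 1 - 2 * (m - k)) / (b : ℝ) ^ k ≤ (b : ℝ) ^ (k + 1) := by
      rw [div_le_iff₀ (by positivity), ← pow_add]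
      exact pow_le_pow_right₀ hb1 (by omega)
    calc 36 * (4 * BB b * P) * (b : ℝ) ^ (ℓ + 1 - 2 * (m - k)) / (b : ℝ) ^ k * b
        = 36 * (4 * BB b * P) * b * ((b : ℝ) ^ (ℓ + 1 - 2 * (m - k)) / (b : ℝ) ^ k) := by ring
      _ ≤ 36 * (4 * BB b * P) * b * (b : ℝ) ^ (k + 1) := mul_le_mul_of_nonneg_left h2 (by positivity)
      _ = 36 * (4 * BB b * P) * (b : ℝ) ^ (k + 2) := by ring
  have S4 := sum_blk_sq_outer_sq hb hη hCd hdiv (ℓ := ℓ) (k := m - k) (P := P) (by omega)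
  have h := TS_sq_le (b := b) (ℓ := ℓ) (P := P) (a := m - k) (by omega)
  rw [← hm] at h
  refine h.trans ?_
  set E : ℝ := ((b : ℝ) ^ (ℓ + 1)) ^ η with hE
  have hE0 : 0 ≤ E := by positivity
  have hPn : (0 : ℝ) ≤ P := Nat.cast_nonneg _
  have hkm : (b : ℝ) ^ m = b ^ (m - k) * b ^ k := by rw [← pow_add]; congr 1; omega
  calc (∑ x ∈ JS b P, (blk b ℓ (m - k) m (pt b x)) ^ 2) *
        ∑ x ∈ JS b P, (blk b ℓ 0 (m - k) (pt b x)) ^ 2
      ≤ (36 * (4 * BB b * P) * (b : ℝ) ^ (k + 2)) *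
        (4 * BB b * (P : ℝ) ^ 2 * ((P : ℝ) / (b : ℝ) ^ (m - k) + Cd * E)) :=
        mul_le_mul S1 S4 (Finset.sum_nonneg fun _ _ => by positivity) (by positivity)
    _ = 144 * BB b * (b : ℝ) ^ 2 * (4 * BB b) * (P : ℝ) ^ 3 *
        ((P : ℝ) * ((b : ℝ) ^ k * (b : ℝ) ^ k) / (b : ℝ) ^ m + (b : ℝ) ^ k * (Cd * E)) := by
        rw [hkm, pow_add (b : ℝ) k 2]; field_simp; ring
    _ ≤ 144 * BB b * (b : ℝ) ^ 2 * (4 * BB b) * (P : ℝ) ^ 3 *
        ((P : ℝ) * ((b * P) * (b * P)) / (b : ℝ) ^ m + (b * P) * (Cd * E)) := by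
        gcongr
    _ ≤ 144 * BB b * (b : ℝ) ^ 2 * (4 * BB b) * (P : ℝ) ^ 3 *
        ((b : ℝ) ^ 2 * Cd * (P * ((P : ℝ) ^ 2 / (b : ℝ) ^ m)) +
          (b : ℝ) ^ 2 * Cd * (P * E)) := by
        have e1 : (P : ℝ) * ((b * P) * (b * P)) / (b : ℝ) ^ m =
          (b : ℝ) ^ 2 * 1 * (P * ((P : ℝ) ^ 2 / (b : ℝ) ^ m)) := by ring
        have e2 : (b * P : ℝ) * (Cd * E) = b ^ 1 * Cd * (P * E) := by ring
        rw [e1, e2]
        gcongr
        norm_num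
    _ = _ := by ring

/-- First moment bound with a saving. -/
lemma exists_TS_sq_le_saving {b : ℕ} (hb : 2 ≤ b) :
    ∃ ρ : ℝ, 0 < ρ ∧ ρ < 1 ∧ ∀ η : ℝ, 0 < η → ∃ C : ℝ, 0 < C ∧ ∀ ℓ k g P : ℕ, g + 1 ≤ k →
      2 * k + g + 1 ≤ (ℓ + 1) / 2 → (P : ℝ) ≤ (b : ℝ) ^ k → (b : ℝ) ^ k ≤ b * P →
      (TS b ℓ P) ^ 2 ≤ C * (P : ℝ) ^ 4 * ρ ^ g * ((b : ℝ) ^ (ℓ + 1)) ^ η := by
  obtain ⟨C1, ρ, hC1, hρ0, hρ1, hmain⟩ := exists_main_sq_fam hb
  refine ⟨ρ, hρ0, hρ1, ?_⟩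
  intro η hη
  obtain ⟨Cd, hCd, hdiv⟩ := card_divisors_le_rpow hη
  have hb0 : (2 : ℝ) ≤ b := by exact_mod_cast hb
  have hbp : (0 : ℝ) < b := by linarith
  have hb1 : (1 : ℝ) ≤ b := by linarith
  have hBp := BB_pos hb
  refine ⟨C1 * (4 * BB b) * b * (4 * BB b) * (1 + Cd), by positivity, ?_⟩
  intro ℓ k g P hgk hk hP hkP
  set m := (ℓ + 1) / 2 with hm
  have hm1 : 2 * m ≤ ℓ + 1 := by omega
  have hP2 : (P : ℝ) ^ 2 ≤ (b : ℝ) ^ (2 * k) := by
    rw [mul_comm, pow_mul]; exact pow_le_pow_left₀ (by positivity) hP 2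
  have S1 := hmain (JS b P) _ _ (fam_JS hb P) ℓ k g hgk (by omega) hP2
  rw [← hm] at S1
  have S4 := sum_blk_sq_outer_sq hb hη hCd hdiv (ℓ := ℓ) (k := m - k - g - 1) (P := P) (by omega)
  have h := TS_sq_le (b := b) (ℓ := ℓ) (P := P) (a := m - k - g - 1) (by omega)
  rw [← hm] at h
  refine h.trans ?_
  set E : ℝ := ((b : ℝ) ^ (ℓ + 1)) ^ η with hE
  have hE1 : 1 ≤ E := Real.one_le_rpow (one_le_pow₀ hb1) hη.le
  have hPn : (0 : ℝ) ≤ P := Nat.cast_nonneg _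
  have h2 : (P : ℝ) / (b : ℝ) ^ (m - k - g - 1) ≤ E := by
    refine le_trans ?_ hE1
    rw [div_le_one (by positivity)]
    exact hP.trans (pow_le_pow_right₀ hb1 (by omega))
  calc (∑ x ∈ JS b P, (blk b ℓ (m - k - g - 1) m (pt b x)) ^ 2) *
        ∑ x ∈ JS b P, (blk b ℓ 0 (m - k - g - 1) (pt b x)) ^ 2
      ≤ (C1 * (4 * BB b * P) * (b : ℝ) ^ k * ρ ^ g) *
        (4 * BB b * (P : ℝ) ^ 2 * ((P : ℝ) / (b : ℝ) ^ (m - k - g - 1) + Cd * E)) :=
        mul_le_mul S1 S4 (Finset.sum_nonneg fun _ _ => by positivity) (by positivity)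
    _ ≤ (C1 * (4 * BB b * P) * (b * P) * ρ ^ g) * (4 * BB b * (P : ℝ) ^ 2 * (E + Cd * E)) := by
        gcongr
    _ = _ := by ring

end Pool.Agent.Pal
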