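import Pool.Agent.PalSieve.Delta

/-!
# Asymptotics and numerics for the weighted sieve
-/

namespace Pool.Agent.Sv

open Finset Filter Topology

lemma tendsto_logY : Tendsto (fun Y : ℕ => Real.log Y) atTop atTop :=
  Real.tendsto_log_atTop.comp tendsto_natCast_atTop_atTop

lemma tendsto_div_of_abs_sub_le {f u : ℕ → ℝ} {L C : ℝ} (hu : Tendsto u atTop atTop)
    (h : ∀ᶠ Y in atTop, |f Y - L * u Y| ≤ C) : Tendsto (fun Y => f Y / u Y) atTop (𝓝 L) := by
  have h1 : Tendsto (fun Y => (f Y - L * u Y) / u Y) atTop (𝓝 0) := by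
    refine squeeze_zero_norm' (a := fun Y => C / u Y) ?_ (hu.const_div_atTop C)
    filter_upwards [h, hu.eventually_gt_atTop 0] with Y hY hpos
    rw [Real.norm_eq_abs, abs_div, abs_of_pos hpos]
    exact div_le_div_of_nonneg_right hY hpos.le
  have h2 : Tendsto (fun Y => (f Y - L * u Y) / u Y + L) atTop (𝓝 (0 + L)) :=
    h1.add tendsto_const_nhds
  rw [zero_add] at h2
  refine h2.congr' ?_
  filter_upwards [hu.eventually_gt_atTop 0] with Y hpos
  field_simp
  ring

/-- `u = c log(Y^8)`. -/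
lemma tendsto_u {c : ℝ} (hc : 0 < c) : Tendsto (fun Y : ℕ => c * (8 * Real.log Y)) atTop atTop :=
  (tendsto_logY.const_mul_atTop (by norm_num : (0 : ℝ) < 8)).const_mul_atTop hc

lemma T_low {w : ℕ} {c C : ℝ} (hc0 : 0 < c)
    (h : ∀ N : ℕ, 1 ≤ N → |L0 w N - c * Real.log N| ≤ C) {e : ℕ} (he : e ≤ 8) :
    Tendsto (fun Y : ℕ => LL w (Y ^ 8) (Y ^ e) / (c * (8 * Real.log Y))) atTop
      (𝓝 ((e : ℝ) / 8)) := by
  refine tendsto_div_of_abs_sub_le (C := C) (tendsto_u hc0) ?_
  filter_upwards [eventually_ge_atTop 1] with Y hY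
  have h1 := LL_low h (z := Y ^ 8) (N := Y ^ e) (Nat.one_le_pow _ _ hY)
    (Nat.pow_le_pow_right hY he)
  have h2 : (e : ℝ) / 8 * (c * (8 * Real.log Y)) = c * Real.log ((Y ^ e : ℕ) : ℝ) := by
    push_cast
    rw [Real.log_pow]
    ring
  rw [h2]
  exact h1

lemma T_high {w : ℕ} {c C : ℝ} (hc0 : 0 < c) (hc1 : c ≤ 1) (hC : 0 < C)
    (h : ∀ N : ℕ, 1 ≤ N → |L0 w N - c * Real.log N| ≤ C) {e : ℕ} (he : 8 ≤ e) (he' : e ≤ 16) :
    Tendsto (fun Y : ℕ => LL w (Y ^ 8) (Y ^ e) / (c * (8 * Real.log Y))) atTop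
      (𝓝 (2 * ((e : ℝ) / 8) - 1 - (e : ℝ) / 8 * Real.log ((e : ℝ) / 8))) := by
  refine tendsto_div_of_abs_sub_le (C := 11 * C + 60) (tendsto_u hc0) ?_
  filter_upwards [eventually_ge_atTop (max 3 (w + 1))] with Y hY
  have hY3 : 3 ≤ Y := (le_max_left _ _).trans hY
  have hYw : w + 1 ≤ Y := (le_max_right _ _).trans hY
  have hY8 : Y ≤ Y ^ 8 := by
    calc Y = Y ^ 1 := (pow_one Y).symm
      _ ≤ Y ^ 8 := Nat.pow_le_pow_right (by omega) (by norm_num)
  have h1 := LL_high hc0 hc1 hC h (z := Y ^ 8) (N := Y ^ e) (by omega) (by omega)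
    (Nat.pow_le_pow_right (by omega) he) (by
      rw [← pow_mul]; exact Nat.pow_le_pow_right (by omega) (by omega))
  have hlog : 0 < Real.log Y := Real.log_pos (by
    have : 1 < Y := by omega
    exact_mod_cast this)
  have he0 : (0 : ℝ) < e := by
    have : 0 < e := by omega
    exact_mod_cast this
  have h2 : (2 * ((e : ℝ) / 8) - 1 - (e : ℝ) / 8 * Real.log ((e : ℝ) / 8)) *
      (c * (8 * Real.log Y)) =
      c * JJ (Real.log ((Y ^ 8 : ℕ) : ℝ)) (Real.log ((Y ^ e : ℕ) : ℝ)) := by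
    unfold JJ
    push_cast
    rw [Real.log_pow, Real.log_pow, ← Real.log_div (by positivity) (by positivity)]
    have h3 : (e : ℝ) * Real.log Y / (((8 : ℕ) : ℝ) * Real.log Y) = (e : ℝ) / 8 := by
      push_cast
      field_simp
    rw [h3]
    push_cast
    ring
  rw [h2]
  exact h1

/-- The weights of the primes. -/
noncomputable def om (Y p : ℕ) : ℝ := 1 - Real.log p / (38 * Real.log Y)

/-- Weighted reciprocal sum of the primes in `[Y^a, Y^b)`. -/
noncomputable def ss (a b Y : ℕ) : ℝ :=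
  ∑ p ∈ (Ico (Y ^ a) (Y ^ b)).filter Nat.Prime, om Y p * (1 / p)

lemma om_nonneg {Y p : ℕ} (hY : 2 ≤ Y) (hp0 : 0 < p) (hp : p ≤ Y ^ 38) : 0 ≤ om Y p := by
  unfold om
  have hlog : 0 < Real.log Y := Real.log_pos (by
    have : 1 < Y := by omega
    exact_mod_cast this)
  rw [sub_nonneg, div_le_one (by positivity)]
  have h1 : Real.log p ≤ Real.log ((Y ^ 38 : ℕ) : ℝ) :=
    Real.log_le_log (by exact_mod_cast hp0) (by exact_mod_cast hp)
  push_cast at h1
  rw [Real.log_pow] at h1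
  push_cast at h1
  exact h1

lemma om_le_one {Y p : ℕ} (hY : 2 ≤ Y) (hp0 : 0 < p) : om Y p ≤ 1 := by
  unfold om
  have hlog : 0 < Real.log Y := Real.log_pos (by
    have : 1 < Y := by omega
    exact_mod_cast this)
  have : 0 ≤ Real.log p := Real.log_nonneg (by exact_mod_cast hp0)
  have : 0 ≤ Real.log p / (38 * Real.log Y) := by positivity
  linarith

lemma ss_nonneg {a b Y : ℕ} (hY : 2 ≤ Y) (hb : b ≤ 38) : 0 ≤ ss a b Y := by
  unfold ss
  refine Finset.sum_nonneg fun p hp => ?_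
  rw [mem_filter, mem_Ico] at hp
  have h1 : p ≤ Y ^ 38 := hp.1.2.le.trans (Nat.pow_le_pow_right (by omega) hb)
  have := om_nonneg hY hp.2.pos h1
  positivity

lemma T_ss {a b : ℕ} (ha : 0 < a) (hab : a ≤ b) :
    Tendsto (ss a b) atTop (𝓝 (Real.log ((b : ℝ) / a) - ((b : ℝ) - a) / 38)) := by
  have h1 : Tendsto (fun Y : ℕ => ∑ p ∈ (Ico (Y ^ a) (Y ^ b)).filter Nat.Prime, (1 : ℝ) / p)
      atTop (𝓝 (Real.log ((b : ℝ) / a))) := by
    have h2 : Tendsto (fun Y : ℕ => ∑ p ∈ (Ico (Y ^ a) (Y ^ b)).filter Nat.Prime, (1 : ℝ) / p -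
        Real.log ((b : ℝ) / a)) atTop (𝓝 0) := by
      refine squeeze_zero_norm' (a := fun Y : ℕ => 9 / Real.log Y) ?_
        (tendsto_logY.const_div_atTop 9)
      filter_upwards [eventually_ge_atTop 3] with Y hY
      have hlog : 0 < Real.log Y := Real.log_pos (by
        have : 1 < Y := by omega
        exact_mod_cast this)
      have hYa : Y ≤ Y ^ a := by
        calc Y = Y ^ 1 := (pow_one Y).symm
          _ ≤ Y ^ a := Nat.pow_le_pow_right (by omega) ha
      have h3 := abs_sum_inv_sub_le (n := Y ^ a) (m := Y ^ b) (by omega)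
        (Nat.pow_le_pow_right (by omega) hab)
      rw [loglog_pow_sub (by omega) ha (by omega)] at h3
      rw [Real.norm_eq_abs]
      refine h3.trans ?_
      have h4 : Real.log Y ≤ Real.log ((Y ^ a : ℕ) : ℝ) :=
        Real.log_le_log (by
          have : 0 < Y := by omega
          exact_mod_cast this) (by exact_mod_cast hYa)
      exact div_le_div_of_nonneg_left (by norm_num) hlog h4
    have h3 := h2.add_const (Real.log ((b : ℝ) / a))
    rw [zero_add] at h3
    refine h3.congr fun Y => ?_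
    ring
  have h4 : Tendsto (fun Y : ℕ => (∑ p ∈ (Ico (Y ^ a) (Y ^ b)).filter Nat.Prime,
      Real.log p / p) / (38 * Real.log Y)) atTop (𝓝 (((b : ℝ) - a) / 38)) := by
    refine tendsto_div_of_abs_sub_le (C := 8)
      (tendsto_logY.const_mul_atTop (by norm_num : (0 : ℝ) < 38)) ?_
    filter_upwards [eventually_ge_atTop 1] with Y hY
    have h3 := abs_sum_log_sub_le (n := Y ^ a) (m := Y ^ b) (Nat.one_le_pow _ _ hY)
      (Nat.pow_le_pow_right hY hab)
    have h5 : ((b : ℝ) - a) / 38 * (38 * Real.log Y) =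
        Real.log ((Y ^ b : ℕ) : ℝ) - Real.log ((Y ^ a : ℕ) : ℝ) := by
      push_cast
      rw [Real.log_pow, Real.log_pow]
      ring
    rw [h5]
    exact h3
  refine (h1.sub h4).congr fun Y => ?_
  unfold ss om
  rw [Finset.sum_div, ← Finset.sum_sub_distrib]
  refine Finset.sum_congr rfl fun p _ => ?_
  ring

/-- The error in the loss term. -/
noncomputable def del (c C : ℝ) (Y : ℕ) : ℝ :=
  (22 * C + 500) * (Real.log (8 * Real.log Y) + 15) / (c * (8 * Real.log Y))

lemma T_del {c : ℝ} (C : ℝ) (hc : 0 < c) : Tendsto (del c C) atTop (𝓝 0) := by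
  have h1 : Tendsto (fun x : ℝ => (Real.log x + 15) / x) atTop (𝓝 0) := by
    have h2 : Tendsto (fun x : ℝ => Real.log x / x) atTop (𝓝 0) := by
      have := Real.isLittleO_log_id_atTop.tendsto_div_nhds_zero
      simpa using this
    have h3 : Tendsto (fun x : ℝ => 15 / x) atTop (𝓝 0) := tendsto_id.const_div_atTop 15
    have h4 := h2.add h3
    rw [add_zero] at h4
    refine h4.congr fun x => ?_
    ring
  have h2 := h1.comp (tendsto_logY.const_mul_atTop (by norm_num : (0 : ℝ) < 8))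
  have h3 := h2.const_mul ((22 * C + 500) / c)
  rw [mul_zero] at h3
  refine h3.congr fun Y => ?_
  unfold del
  simp only [Function.comp]
  field_simp

lemma Dl_le' {w : ℕ} (hw : 1 ≤ w) {c C : ℝ} (hc0 : 0 < c) (hc1 : c ≤ 1) (hC : 0 < C)
    (h : ∀ N : ℕ, 1 ≤ N → |L0 w N - c * Real.log N| ≤ C) {Y : ℕ} (hY3 : 3 ≤ Y) (hwY : w < Y) :
    Dl w (Y ^ 8) ≤ (c * (8 * Real.log Y)) * (d2 + del c C Y) := by
  have hYY : Y ≤ Y ^ 4 := by
    calc Y = Y ^ 1 := (pow_one Y).symm
      _ ≤ Y ^ 4 := Nat.pow_le_pow_right (by omega) (by norm_num)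
  have h1 := Dl_le hw hc0 hc1 hC h (Z := Y ^ 4) (by omega) (by omega)
  have h2 : (Y ^ 4) ^ 2 = Y ^ 8 := by rw [← pow_mul]
  rw [h2] at h1
  have h3 : Real.log ((Y ^ 8 : ℕ) : ℝ) = 8 * Real.log Y := by
    push_cast
    rw [Real.log_pow]
    norm_num
  rw [h3] at h1
  refine h1.trans (le_of_eq ?_)
  have hlog : 0 < Real.log Y := Real.log_pos (by
    have : 1 < Y := by omega
    exact_mod_cast this)
  unfold del
  field_simp

/-! ### Numerics -/

lemma log_le_of_sum {r q : ℝ} (hr : 0 < r) (hq : 0 ≤ q)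
    (h : r ≤ ∑ i ∈ range 7, q ^ i / (i.factorial : ℝ)) : Real.log r ≤ q := by
  rw [Real.log_le_iff_le_exp hr]
  exact h.trans (Real.sum_le_exp_of_nonneg hq 7)

lemma log32 : Real.log (3 / 2) ≤ 0.40547 := by
  refine log_le_of_sum (by norm_num) (by norm_num) ?_
  norm_num [Finset.sum_range_succ, Nat.factorial]

lemma log43 : Real.log (4 / 3) ≤ 0.28769 := by
  refine log_le_of_sum (by norm_num) (by norm_num) ?_
  norm_num [Finset.sum_range_succ, Nat.factorial]

lemma log54 : Real.log (5 / 4) ≤ 0.22315 := by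
  refine log_le_of_sum (by norm_num) (by norm_num) ?_
  norm_num [Finset.sum_range_succ, Nat.factorial]

lemma log65 : Real.log (6 / 5) ≤ 0.18233 := by
  refine log_le_of_sum (by norm_num) (by norm_num) ?_
  norm_num [Finset.sum_range_succ, Nat.factorial]

lemma log76 : Real.log (7 / 6) ≤ 0.15416 := by
  refine log_le_of_sum (by norm_num) (by norm_num) ?_
  norm_num [Finset.sum_range_succ, Nat.factorial]

lemma log87 : Real.log (8 / 7) ≤ 0.13354 := by
  refine log_le_of_sum (by norm_num) (by norm_num) ?_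
  norm_num [Finset.sum_range_succ, Nat.factorial]

lemma log98 : Real.log (9 / 8) ≤ 0.11779 := by
  refine log_le_of_sum (by norm_num) (by norm_num) ?_
  norm_num [Finset.sum_range_succ, Nat.factorial]

lemma log1918 : Real.log (19 / 18) ≤ 0.05407 := by
  refine log_le_of_sum (by norm_num) (by norm_num) ?_
  norm_num [Finset.sum_range_succ, Nat.factorial]

lemma log74 : Real.log (7 / 4) ≤ 0.55963 := by
  refine log_le_of_sum (by norm_num) (by norm_num) ?_
  norm_num [Finset.sum_range_succ, Nat.factorial]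

end Pool.Agent.Sv
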