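import Pool.Agent.Pal.Palin

/-!
# The central estimate, with a power saving in the modulus
-/

namespace Pool.Agent.Pal

open Finset

/-- The target bound for the first moment. -/
def Bd2 (b : ℕ) (σ δ C : ℝ) (Λ ℓ D : ℕ) : Prop :=
  (b : ℝ) ^ ℓ * (T b ℓ D) ^ 2 ≤ C * (b : ℝ) ^ Λ * (D : ℝ) ^ 2 *
    Real.exp (-σ * Real.sqrt Λ - δ * Real.log D)

lemma Bd2.mono {b : ℕ} {σ σ' δ δ' C C' : ℝ} {Λ ℓ D : ℕ} (h : Bd2 b σ δ C Λ ℓ D) (hσ : σ' ≤ σ)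
    (hδ : δ' ≤ δ) (hD : 1 ≤ D) (hC0 : 0 ≤ C) (hC : C ≤ C') : Bd2 b σ' δ' C' Λ ℓ D := by
  unfold Bd2 at *
  refine h.trans ?_
  have hlog : 0 ≤ Real.log D := Real.log_nonneg (by exact_mod_cast hD)
  have h1 : Real.exp (-σ * Real.sqrt Λ - δ * Real.log D) ≤
      Real.exp (-σ' * Real.sqrt Λ - δ' * Real.log D) := by
    rw [Real.exp_le_exp]
    have := Real.sqrt_nonneg (Λ : ℝ)
    nlinarith
  have hC' : 0 ≤ C' := hC0.trans hC
  gcongr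

lemma Bd2_of_exp {b : ℕ} (hb : 2 ≤ b) {σ δ C : ℝ} (hC : 0 ≤ C) {Λ ℓ D : ℕ} {E : ℝ}
    (hT : (T b ℓ D) ^ 2 ≤ C * (D : ℝ) ^ 2 * Real.exp E)
    (hE : Real.log b * ℓ + E ≤ Real.log b * Λ - σ * Real.sqrt Λ - δ * Real.log D) :
    Bd2 b σ δ C Λ ℓ D := by
  unfold Bd2
  rw [pow_eq_exp hb, pow_eq_exp hb]
  have h1 : Real.exp (Real.log b * ℓ) * Real.exp E ≤
      Real.exp (Real.log b * Λ) * Real.exp (-σ * Real.sqrt Λ - δ * Real.log D) := by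
    rw [← Real.exp_add, ← Real.exp_add, Real.exp_le_exp]
    linarith
  calc Real.exp (Real.log b * ℓ) * (T b ℓ D) ^ 2
      ≤ Real.exp (Real.log b * ℓ) * (C * (D : ℝ) ^ 2 * Real.exp E) :=
        mul_le_mul_of_nonneg_left hT (Real.exp_pos _).le
    _ = C * (D : ℝ) ^ 2 * (Real.exp (Real.log b * ℓ) * Real.exp E) := by ring
    _ ≤ C * (D : ℝ) ^ 2 * (Real.exp (Real.log b * Λ) *
          Real.exp (-σ * Real.sqrt Λ - δ * Real.log D)) :=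
        mul_le_mul_of_nonneg_left h1 (by positivity)
    _ = _ := by ring

lemma Bd2_of_exp2 {b : ℕ} (hb : 2 ≤ b) {σ δ C : ℝ} (hC : 0 ≤ C) {Λ ℓ D : ℕ} {E1 E2 : ℝ}
    (hT : (T b ℓ D) ^ 2 ≤ C * (D : ℝ) ^ 2 * (Real.exp E1 + Real.exp E2))
    (hE1 : Real.log b * ℓ + E1 ≤ Real.log b * Λ - σ * Real.sqrt Λ - δ * Real.log D)
    (hE2 : Real.log b * ℓ + E2 ≤ Real.log b * Λ - σ * Real.sqrt Λ - δ * Real.log D) :
    Bd2 b σ δ (2 * C) Λ ℓ D := by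
  refine Bd2_of_exp hb (by positivity) (E := max E1 E2) ?_ ?_
  · refine hT.trans ?_
    have h1 : Real.exp E1 ≤ Real.exp (max E1 E2) := Real.exp_le_exp.mpr (le_max_left _ _)
    have h2 : Real.exp E2 ≤ Real.exp (max E1 E2) := Real.exp_le_exp.mpr (le_max_right _ _)
    calc C * (D : ℝ) ^ 2 * (Real.exp E1 + Real.exp E2)
        ≤ C * (D : ℝ) ^ 2 * (Real.exp (max E1 E2) + Real.exp (max E1 E2)) := by gcongr
      _ = _ := by ring
  · rcases max_cases E1 E2 with ⟨h, _⟩ | ⟨h, _⟩ <;> rw [h] <;> assumption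

/-- Case of short products. -/
lemma case_short2 {b : ℕ} (hb : 2 ≤ b) {ε : ℝ} (hε : 0 < ε) : ∃ (σ δ C : ℝ), 0 < σ ∧ 0 < δ ∧ 0 < C ∧
    ∀ Λ ℓ D : ℕ, 2 ≤ D → Real.log D ≤ (1 / 4 - ε) * Real.log b * Λ →
      (ℓ : ℝ) ≤ (1 / 2 + ε) * Λ → Bd2 b σ δ C Λ ℓ D := by
  have hL := log_pos_b hb
  have hBp := BB_pos hb
  refine ⟨ε * Real.log b / 2, 2 * ε, (2 * BB b) ^ 2, by positivity, by positivity, by positivity, ?_⟩
  intro Λ ℓ D hD hDL hℓ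
  refine Bd2_of_exp hb (by positivity) (E := 2 * Real.log D) ?_ ?_
  · have h1 := T_le_trivial b ℓ D
    calc (T b ℓ D) ^ 2 ≤ (2 * BB b * (D : ℝ) ^ 2) ^ 2 := pow_le_pow_left₀ (T_nonneg _ _ _) h1 2
      _ = (2 * BB b) ^ 2 * (D : ℝ) ^ 2 * (D : ℝ) ^ 2 := by ring
      _ = _ := by rw [← sq_eq_exp hD]
  · have h2 := sqrt_nat_le Λ
    have h3 : Real.log b * ℓ ≤ Real.log b * ((1 / 2 + ε) * Λ) := mul_le_mul_of_nonneg_left hℓ hL.le
    have h4 : ε * Real.log b / 2 * Real.sqrt Λ ≤ ε * Real.log b / 2 * Λ :=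
      mul_le_mul_of_nonneg_left h2 (by positivity)
    have h5 : 0 ≤ ε * Real.log b * Λ := by positivity
    have h6 : 2 * ε * Real.log D ≤ 2 * ε * (1 / 4 * Real.log b * Λ) := by
      refine mul_le_mul_of_nonneg_left ?_ (by positivity)
      linarith
    nlinarith

/-- Case of products of intermediate length. -/
lemma case_mid2 {b : ℕ} (hb : 2 ≤ b) {ε : ℝ} (hε : 0 < ε) :
    ∃ (σ δ C : ℝ) (Λ0 : ℕ), 0 < σ ∧ 0 < δ ∧ 0 < C ∧
    ∀ Λ ℓ D : ℕ, Λ0 ≤ Λ → 2 ≤ D → Real.log D ≤ (1 / 4 - ε) * Real.log b * Λ →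
      (1 / 2 + ε) * Λ < (ℓ : ℝ) → (ℓ : ℝ) ≤ (1 - ε) * Λ → Bd2 b σ δ C Λ ℓ D := by
  have hL := log_pos_b hb
  have hBp := BB_pos hb
  obtain ⟨C1, hC1, hmain⟩ := exists_T_sq_le hb (η := ε / 4) (by positivity)
  obtain ⟨Λ0, hΛ0⟩ := exists_nat_ge (max 1 (1 / ε))
  refine ⟨ε * Real.log b / 4, ε, 2 * C1, Λ0, by positivity, hε, by positivity, ?_⟩
  intro Λ ℓ D hΛ hD hDL hℓ1 hℓ2
  have hΛr : max 1 (1 / ε) ≤ (Λ : ℝ) := hΛ0.trans (by exact_mod_cast hΛ)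
  have hΛ1 : (1 : ℝ) ≤ Λ := (le_max_left _ _).trans hΛr
  have hΛε : 1 ≤ ε * Λ := by
    have := (le_max_right _ _).trans hΛr
    rwa [div_le_iff₀ hε, mul_comm] at this
  obtain ⟨k1, k2, k3, k4⟩ := clog_bounds hb hD
  set k := Nat.clog b D with hk
  set L := Real.log b with hLdef
  have hm : (ℓ : ℝ) / 2 ≤ (((ℓ + 1) / 2 : ℕ) : ℝ) := by
    have : ℓ ≤ 2 * ((ℓ + 1) / 2) := by omega
    have : (ℓ : ℝ) ≤ 2 * (((ℓ + 1) / 2 : ℕ) : ℝ) := by exact_mod_cast this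
    linarith
  have hkm : k ≤ (ℓ + 1) / 2 := by
    have h1 : (k : ℝ) ≤ 1 + (1 / 4 - ε) * Λ := by
      have : L * k ≤ L * (1 + (1 / 4 - ε) * Λ) := by linarith
      exact le_of_mul_le_mul_left this hL
    have h2 : (k : ℝ) ≤ (((ℓ + 1) / 2 : ℕ) : ℝ) := by linarith
    exact_mod_cast h2
  have h := hmain ℓ k D hkm k1 k2
  refine Bd2_of_exp2 hb hC1.le (E1 := 2 * Real.log D - L * (((ℓ + 1) / 2 : ℕ) : ℝ))
    (E2 := L * ((ℓ : ℝ) + 1) * (ε / 4)) ?_ ?_ ?_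
  · refine h.trans (le_of_eq ?_)
    congr 2
    · rw [Real.exp_sub, ← sq_eq_exp hD, ← pow_eq_exp hb]
    · rw [pow_eq_exp hb, ← Real.exp_mul]
      push_cast
      rfl
  · have h2 := sqrt_nat_le Λ
    have h4 : ε * L / 4 * Real.sqrt Λ ≤ ε * L / 4 * Λ :=
      mul_le_mul_of_nonneg_left h2 (by positivity)
    have h44 : ε * Real.log D ≤ ε * (1 / 4 * L * Λ) := by
      refine mul_le_mul_of_nonneg_left ?_ (by positivity)
      have : 0 ≤ ε * L * Λ := by positivity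
      linarith
    have h5 : L * ((ℓ : ℝ) / 2) ≤ L * (((ℓ + 1) / 2 : ℕ) : ℝ) := mul_le_mul_of_nonneg_left hm hL.le
    have h6 : L * ℓ ≤ L * ((1 - ε) * Λ) := mul_le_mul_of_nonneg_left hℓ2 hL.le
    have h7 : 0 ≤ ε * L * Λ := by positivity
    linarith
  · have h2 := sqrt_nat_le Λ
    have h4 : ε * L / 4 * Real.sqrt Λ ≤ ε * L / 4 * Λ :=
      mul_le_mul_of_nonneg_left h2 (by positivity)
    have h44 : ε * Real.log D ≤ ε * (1 / 4 * L * Λ) := by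
      refine mul_le_mul_of_nonneg_left ?_ (by positivity)
      have : 0 ≤ ε * L * Λ := by positivity
      linarith
    have h6 : L * ℓ ≤ L * ((1 - ε) * Λ) := mul_le_mul_of_nonneg_left hℓ2 hL.le
    have h7 : L * ((ℓ : ℝ) + 1) * (ε / 4) ≤ L * (2 * Λ) * (ε / 4) := by
      have h8 : (ℓ : ℝ) + 1 ≤ 2 * Λ := by nlinarith
      have : L * ((ℓ : ℝ) + 1) ≤ L * (2 * Λ) := mul_le_mul_of_nonneg_left h8 hL.le
      exact mul_le_mul_of_nonneg_right this (by positivity)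
    linarith

/-- Case of long products and large `D`. -/
lemma case_long_large2 {b : ℕ} (hb : 2 ≤ b) {ε c0 : ℝ} (hε : 0 < ε) (hc0 : 0 < c0) :
    ∃ (σ δ C : ℝ) (Λ0 : ℕ), 0 < σ ∧ 0 < δ ∧ 0 < C ∧
    ∀ Λ ℓ D : ℕ, Λ0 ≤ Λ → ℓ ≤ Λ → 2 ≤ D → Real.log D ≤ (1 / 4 - ε) * Real.log b * Λ →
      (1 - ε) * Λ < (ℓ : ℝ) → c0 * Real.log b * Λ ≤ Real.log D → Bd2 b σ δ C Λ ℓ D := by
  have hL := log_pos_b hb
  have hBp := BB_pos hb
  obtain ⟨ρ, hρ0, hρ1, hsav⟩ := exists_T_sq_le_saving hb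
  set r : ℝ := -Real.log ρ with hr
  have hr0 : 0 < r := by rw [hr]; have := Real.log_neg hρ0 hρ1; linarith
  set L := Real.log b with hLdef
  set c1 : ℝ := min (ε / 2) (c0 / 2) with hc1
  have hc10 : 0 < c1 := by rw [hc1]; positivity
  have hc1ε : c1 ≤ ε / 2 := min_le_left _ _
  have hc1c : c1 ≤ c0 / 2 := min_le_right _ _
  obtain ⟨C2, hC2, hmain⟩ := hsav (r * c1 / (4 * L)) (by positivity)
  obtain ⟨Λ0, hΛ0⟩ := exists_nat_ge (max 1 (max (3 / ε) (2 / c0)))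
  refine ⟨r * c1 / 4, r * c1 / L, C2 * Real.exp r, Λ0, by positivity, by positivity, by positivity, ?_⟩
  intro Λ ℓ D hΛ hℓΛ hD hDL hℓ1 hDc
  have hΛr : max 1 (max (3 / ε) (2 / c0)) ≤ (Λ : ℝ) := hΛ0.trans (by exact_mod_cast hΛ)
  have hΛ1 : (1 : ℝ) ≤ Λ := (le_max_left _ _).trans hΛr
  have hΛε : 3 ≤ ε * Λ := by
    have := ((le_max_left _ _).trans (le_max_right _ _)).trans hΛr
    rwa [div_le_iff₀ hε, mul_comm] at this
  have hΛc : 2 ≤ c0 * Λ := by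
    have := ((le_max_right _ _).trans (le_max_right _ _)).trans hΛr
    rwa [div_le_iff₀ hc0, mul_comm] at this
  obtain ⟨k1, k2, k3, k4⟩ := clog_bounds hb hD
  set k := Nat.clog b D with hk
  have hℓΛr : (ℓ : ℝ) ≤ Λ := by exact_mod_cast hℓΛ
  have hm : (ℓ : ℝ) / 2 ≤ (((ℓ + 1) / 2 : ℕ) : ℝ) := by
    have : ℓ ≤ 2 * ((ℓ + 1) / 2) := by omega
    have : (ℓ : ℝ) ≤ 2 * (((ℓ + 1) / 2 : ℕ) : ℝ) := by exact_mod_cast this
    linarith
  set g : ℕ := ⌊c1 * Λ⌋₊ with hg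
  have hg1 : (g : ℝ) ≤ c1 * Λ := Nat.floor_le (by positivity)
  have hg2 : c1 * Λ < g + 1 := Nat.lt_floor_add_one _
  have hkup : (k : ℝ) ≤ 1 + (1 / 4 - ε) * Λ := by
    have : L * k ≤ L * (1 + (1 / 4 - ε) * Λ) := by linarith
    exact le_of_mul_le_mul_left this hL
  have hklo : c0 * Λ ≤ k := by
    have : L * (c0 * Λ) ≤ L * k := by linarith
    exact le_of_mul_le_mul_left this hL
  have hgk : g + 1 ≤ k := by
    have h1 : c1 * Λ ≤ c0 / 2 * Λ := mul_le_mul_of_nonneg_right hc1c (by linarith)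
    have : (g : ℝ) + 1 ≤ k := by linarith
    exact_mod_cast this
  have hkm : 2 * k + g + 1 ≤ (ℓ + 1) / 2 := by
    have h1 : c1 * Λ ≤ ε / 2 * Λ := mul_le_mul_of_nonneg_right hc1ε (by linarith)
    have : (2 : ℝ) * k + g + 1 ≤ (((ℓ + 1) / 2 : ℕ) : ℝ) := by linarith
    exact_mod_cast this
  have h := hmain ℓ k g D hgk hkm k1 k2
  refine Bd2_of_exp hb (by positivity)
    (E := -(r * c1 * Λ) + L * ((ℓ : ℝ) + 1) * (r * c1 / (4 * L))) ?_ ?_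
  · have h1 : ρ ^ g ≤ Real.exp r * Real.exp (-(r * c1 * Λ)) := by
      have : ρ ^ g = Real.exp (-r * g) := by
        rw [hr, neg_neg, mul_comm, Real.exp_nat_mul, Real.exp_log hρ0]
      rw [this, ← Real.exp_add, Real.exp_le_exp]
      nlinarith
    have h2 : ((b : ℝ) ^ (ℓ + 1)) ^ (r * c1 / (4 * L)) =
        Real.exp (L * ((ℓ : ℝ) + 1) * (r * c1 / (4 * L))) := by
      rw [pow_eq_exp hb, ← Real.exp_mul]
      push_cast
      rfl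
    rw [h2] at h
    rw [Real.exp_add]
    calc (T b ℓ D) ^ 2 ≤ C2 * (D : ℝ) ^ 2 * ρ ^ g *
          Real.exp (L * ((ℓ : ℝ) + 1) * (r * c1 / (4 * L))) := h
      _ ≤ C2 * (D : ℝ) ^ 2 * (Real.exp r * Real.exp (-(r * c1 * Λ))) *
          Real.exp (L * ((ℓ : ℝ) + 1) * (r * c1 / (4 * L))) := by gcongr
      _ = _ := by ring
  · have h2 := sqrt_nat_le Λ
    have h4 : r * c1 / 4 * Real.sqrt Λ ≤ r * c1 / 4 * Λ :=
      mul_le_mul_of_nonneg_left h2 (by positivity)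
    have h5 : L * ((ℓ : ℝ) + 1) * (r * c1 / (4 * L)) = ((ℓ : ℝ) + 1) * (r * c1 / 4) := by
      field_simp
    rw [h5]
    have h6 : ((ℓ : ℝ) + 1) * (r * c1 / 4) ≤ (2 * Λ) * (r * c1 / 4) :=
      mul_le_mul_of_nonneg_right (by linarith) (by positivity)
    have h7 : L * (ℓ : ℝ) ≤ L * Λ := mul_le_mul_of_nonneg_left hℓΛr hL.le
    have h8 : 0 ≤ r * c1 * Λ := by positivity
    have h9 : r * c1 / L * Real.log D ≤ r * c1 / L * (1 / 4 * L * Λ) := by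
      refine mul_le_mul_of_nonneg_left ?_ (by positivity)
      have : 0 ≤ ε * L * Λ := by positivity
      linarith
    have h10 : r * c1 / L * (1 / 4 * L * Λ) = r * c1 * Λ / 4 := by field_simp
    linarith

/-- Case of long products and `D` of intermediate size. -/
lemma case_long_mid2 {b : ℕ} (hb : 2 ≤ b) {ε : ℝ} (hε : 0 < ε) (hε4 : ε ≤ 1 / 4) {c : ℝ}
    (hc : 0 < c) :
    ∃ (σ δ C c0 : ℝ) (Λ0 : ℕ), 0 < σ ∧ 0 < δ ∧ 0 < C ∧ 0 < c0 ∧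
    ∀ Λ ℓ D : ℕ, Λ0 ≤ Λ → ℓ ≤ Λ → 2 ≤ D →
      (1 - ε) * Λ < (ℓ : ℝ) → Real.log D ≤ c0 * Real.log b * Λ →
      c * Real.sqrt Λ ≤ Real.log D → Bd2 b σ δ C Λ ℓ D := by
  have hL := log_pos_b hb
  have hBp := BB_pos hb
  have hb0 : (2 : ℝ) ≤ b := by exact_mod_cast hb
  have hbp : (0 : ℝ) < b := by linarith
  obtain ⟨κ, hκ⟩ := exists_isKappa hb
  have hκ0 := hκ.1
  obtain ⟨n, hn⟩ := exists_pow_lt_of_lt_one (by positivity : (0 : ℝ) < 1 / (64 * b)) hκ.2.1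
  set lam := n + 1 with hlam
  have hlam1 : (1 : ℝ) ≤ lam := by
    rw [hlam]; push_cast; linarith [(Nat.cast_nonneg n : (0:ℝ) ≤ n)]
  have h1 : b * κ ^ lam ≤ 1 / 64 := by
    have h2 : κ ^ lam ≤ κ ^ n := pow_le_pow_of_le_one hκ.1.le hκ.2.1.le (by omega)
    have h3 : κ ^ lam ≤ 1 / (64 * b) := h2.trans hn.le
    calc b * κ ^ lam ≤ b * (1 / (64 * b)) := mul_le_mul_of_nonneg_left h3 hbp.le
      _ = 1 / 64 := by field_simp
  have h4 : (1 + b * κ ^ lam) ^ 4 ≤ b := by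
    calc (1 + b * κ ^ lam) ^ 4 ≤ (1 + 1 / 64) ^ 4 := pow_le_pow_left₀ (by positivity) (by linarith) 4
      _ ≤ 2 := by norm_num
      _ ≤ b := hb0
  obtain ⟨Λ0, hΛ0⟩ := exists_nat_ge (72 * (lam : ℝ) + 1)
  refine ⟨c / 2, 1 / 2, (12 * lam * BB b * b) ^ 2 * b, 1 / (24 * lam), Λ0, by positivity,
    by norm_num, by positivity, by positivity, ?_⟩
  intro Λ ℓ D hΛ hℓΛ hD hℓ1 hDc0 hDc
  have hΛr : 72 * (lam : ℝ) + 1 ≤ (Λ : ℝ) := hΛ0.trans (by exact_mod_cast hΛ)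
  obtain ⟨k1, k2, k3, k4⟩ := clog_bounds hb hD
  set k := Nat.clog b D with hk
  have hℓΛr : (ℓ : ℝ) ≤ Λ := by exact_mod_cast hℓΛ
  set L := Real.log b with hLdef
  have hm : (ℓ : ℝ) / 2 ≤ (((ℓ + 1) / 2 : ℕ) : ℝ) := by
    have : ℓ ≤ 2 * ((ℓ + 1) / 2) := by omega
    have : (ℓ : ℝ) ≤ 2 * (((ℓ + 1) / 2 : ℕ) : ℝ) := by exact_mod_cast this
    linarith
  have hkup : (k : ℝ) ≤ 1 + 1 / (24 * lam) * Λ := by
    have : L * k ≤ L * (1 + 1 / (24 * lam) * Λ) := by linarith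
    exact le_of_mul_le_mul_left this hL
  have hK : 3 * lam * (2 * k + 1) ≤ (ℓ + 1) / 2 := by
    have h5 : (3 : ℝ) * lam * (2 * k + 1) ≤ 3 * lam * (2 * (1 + 1 / (24 * lam) * Λ) + 1) := by
      gcongr
    have h6 : (3 : ℝ) * lam * (2 * (1 + 1 / (24 * lam) * Λ) + 1) = 9 * lam + Λ / 4 := by
      field_simp; ring
    have h7 : ((3 * lam * (2 * k + 1) : ℕ) : ℝ) ≤ (((ℓ + 1) / 2 : ℕ) : ℝ) := by
      push_cast
      nlinarith
    exact_mod_cast h7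
  have hD2 : (D : ℝ) ^ 2 ≤ (b : ℝ) ^ (2 * k) := by
    rw [mul_comm, pow_mul]; exact pow_le_pow_left₀ (by positivity) k1 2
  have h := T_le_blocks hb hκ (lam := lam) (by omega) (ℓ := ℓ) (K := 2 * k) (D := D) hK hD2
  have hDp : (0 : ℝ) < D := by
    have : 0 < D := by omega
    exact_mod_cast this
  refine Bd2_of_exp hb (by positivity) (E := - Real.log D) ?_ ?_
  · have h5 : ((1 + b * κ ^ lam) ^ (2 * k)) ^ 2 ≤ b * D := by
      calc ((1 + b * κ ^ lam) ^ (2 * k)) ^ 2 = ((1 + b * κ ^ lam) ^ 4) ^ k := by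
            rw [← pow_mul, ← pow_mul]; congr 1; ring
        _ ≤ (b : ℝ) ^ k := pow_le_pow_left₀ (by positivity) h4 k
        _ ≤ b * D := k2
    calc (T b ℓ D) ^ 2 ≤ (3 * lam * (4 * BB b * (b * (1 + b * κ ^ lam) ^ (2 * k)))) ^ 2 :=
          pow_le_pow_left₀ (T_nonneg _ _ _) h 2
      _ = (12 * lam * BB b * b) ^ 2 * ((1 + b * κ ^ lam) ^ (2 * k)) ^ 2 := by ring
      _ ≤ (12 * lam * BB b * b) ^ 2 * (b * D) := mul_le_mul_of_nonneg_left h5 (by positivity)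
      _ = (12 * lam * BB b * b) ^ 2 * b * (D : ℝ) ^ 2 * Real.exp (-Real.log D) := by
          rw [Real.exp_neg, Real.exp_log hDp]; field_simp
  · have h7 : L * (ℓ : ℝ) ≤ L * Λ := mul_le_mul_of_nonneg_left hℓΛr hL.le
    linarith

/-- Case of long products and very small `D`. -/
lemma case_long_small2 {b : ℕ} (hb : 2 ≤ b) {ε : ℝ} (hε : 0 < ε) (hε4 : ε ≤ 1 / 4) :
    ∃ (σ δ C c : ℝ) (Λ0 : ℕ), 0 < σ ∧ 0 < δ ∧ 0 < C ∧ 0 < c ∧
    ∀ Λ ℓ D : ℕ, Λ0 ≤ Λ → ℓ ≤ Λ → 2 ≤ D →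
      (1 - ε) * Λ < (ℓ : ℝ) → Real.log D ≤ c * Real.sqrt Λ → Bd2 b σ δ C Λ ℓ D := by
  have hL := log_pos_b hb
  have hBp := BB_pos hb
  have hb0 : (2 : ℝ) ≤ b := by exact_mod_cast hb
  have hbp : (0 : ℝ) < b := by linarith
  obtain ⟨κ, hκ⟩ := exists_isKappa hb
  have hκ0 := hκ.1
  set u : ℝ := -Real.log κ with hu
  have hu0 : 0 < u := by rw [hu]; have := Real.log_neg hκ0 hκ.2.1; linarith
  set L := Real.log b with hLdef
  -- `c` with `c^2 ≤ 3 u L / 32`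
  set c : ℝ := min 1 (3 * u * L / 32) with hc
  have hc0 : 0 < c := by rw [hc]; positivity
  have hc1 : c ≤ 1 := min_le_left _ _
  have hc2 : c ≤ 3 * u * L / 32 := min_le_right _ _
  have hcc : c * c ≤ 3 * u * L / 32 := by nlinarith
  obtain ⟨Λ0, hΛ0⟩ := exists_nat_ge ((5 * L / c) ^ 2)
  refine ⟨c, 1, (2 * BB b) ^ 2 * Real.exp (2 * u), c, Λ0, by positivity, one_pos, by positivity,
    hc0, ?_⟩
  intro Λ ℓ D hΛ hℓΛ hD hℓ1 hDc
  have hΛr : (5 * L / c) ^ 2 ≤ (Λ : ℝ) := hΛ0.trans (by exact_mod_cast hΛ)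
  have hsq : 5 * L / c ≤ Real.sqrt Λ := by
    rw [Real.le_sqrt' (by positivity)]
    exact hΛr
  set q : ℝ := Real.sqrt Λ with hq
  have hq0 : 0 < q := lt_of_lt_of_le (by positivity) hsq
  have hqq : q * q = Λ := Real.mul_self_sqrt (Nat.cast_nonneg _)
  have hcq : 5 * L ≤ c * q := by rwa [div_le_iff₀ hc0, mul_comm q c] at hsq
  have hℓΛr : (ℓ : ℝ) ≤ Λ := by exact_mod_cast hℓΛ
  have hDp : (0 : ℝ) < D := by
    have : 0 < D := by omega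
    exact_mod_cast this
  -- `s + 1 = clog b (2 D)`
  have h2D : 2 ≤ 2 * D := by omega
  obtain ⟨k1, k2, k3, k4⟩ := clog_bounds hb h2D
  set k := Nat.clog b (2 * D) with hk
  have hk0 : 0 < k := Nat.clog_pos (by omega) (by omega)
  obtain ⟨s, hs⟩ : ∃ s, k = s + 1 := ⟨k - 1, by omega⟩
  have hsD : 2 * D ≤ b ^ (s + 1) := by rw [← hs]; exact Nat.le_pow_clog (by omega) _
  -- upper bound for `s + 2`
  have hlog2D : Real.log ((2 * D : ℕ) : ℝ) ≤ L + Real.log D := by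
    push_cast
    rw [Real.log_mul (by norm_num) hDp.ne']
    have : Real.log 2 ≤ L := Real.log_le_log (by norm_num) hb0
    linarith
  have hs2 : L * ((s : ℝ) + 2) ≤ 2 * (c * q) := by
    have h1 : (k : ℝ) = (s : ℝ) + 1 := by rw [hs]; push_cast; ring
    rw [h1] at k4
    nlinarith
  have hs0 : (0 : ℝ) < (s : ℝ) + 2 := by positivity
  set m := (ℓ + 1) / 2 with hm'
  have hm : (ℓ : ℝ) / 2 ≤ (m : ℝ) := by
    have : ℓ ≤ 2 * m := by omega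
    have : (ℓ : ℝ) ≤ 2 * (m : ℝ) := by exact_mod_cast this
    linarith
  set N := m / (s + 2) with hN
  have hNm : N * (s + 2) ≤ m := Nat.div_mul_le_self _ _
  have hNlow : (m : ℝ) < ((N : ℝ) + 1) * ((s : ℝ) + 2) := by
    have : m < (N + 1) * (s + 2) := by
      rw [hN]
      have := Nat.lt_div_mul_add (a := m) (b := s + 2) (by omega)
      nlinarith
    exact_mod_cast this
  have hΛ38 : 3 / 8 * (q * q) ≤ m := by
    rw [hqq]
    nlinarith [(Nat.cast_nonneg Λ : (0:ℝ) ≤ Λ)]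
  -- `(3/16) L q ≤ c (N + 1)`
  have hNq : 3 / 16 * L * q ≤ c * ((N : ℝ) + 1) := by
    have h1 : L * (3 / 8 * (q * q)) ≤ ((N : ℝ) + 1) * (2 * (c * q)) := by
      calc L * (3 / 8 * (q * q)) ≤ L * (((N : ℝ) + 1) * ((s : ℝ) + 2)) :=
            mul_le_mul_of_nonneg_left (hΛ38.trans hNlow.le) hL.le
        _ = ((N : ℝ) + 1) * (L * ((s : ℝ) + 2)) := by ring
        _ ≤ _ := mul_le_mul_of_nonneg_left hs2 (by positivity)
    have h2 : q * (3 / 8 * L * q) ≤ q * (2 * (c * ((N : ℝ) + 1))) := by linarith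
    have h3 := le_of_mul_le_mul_left h2 hq0
    linarith
  have h := T_le_windows hb hκ (ℓ := ℓ) (s := s) (D := D) hD hsD N hNm
  refine Bd2_of_exp hb (by positivity) (E := 2 * Real.log D - 2 * u * ((N : ℝ) + 1)) ?_ ?_
  · have h1 : κ ^ N = Real.exp (-u * N) := by
      rw [hu, neg_neg, mul_comm, Real.exp_nat_mul, Real.exp_log hκ0]
    calc (T b ℓ D) ^ 2 ≤ (2 * BB b * (D : ℝ) ^ 2 * κ ^ N) ^ 2 :=
          pow_le_pow_left₀ (T_nonneg _ _ _) h 2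
      _ = (2 * BB b) ^ 2 * (D : ℝ) ^ 2 * ((D : ℝ) ^ 2 * (κ ^ N * κ ^ N)) := by ring
      _ = (2 * BB b) ^ 2 * (D : ℝ) ^ 2 * (Real.exp (2 * Real.log D) *
            (Real.exp (-u * N) * Real.exp (-u * N))) := by rw [h1, ← sq_eq_exp hD]
      _ = (2 * BB b) ^ 2 * Real.exp (2 * u) * (D : ℝ) ^ 2 *
            Real.exp (2 * Real.log D - 2 * u * ((N : ℝ) + 1)) := by
          have : 2 * Real.log D - 2 * u * ((N : ℝ) + 1) =
            2 * Real.log D + (-u * N + -u * N) + -(2 * u) := by ring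
          rw [this, Real.exp_add, Real.exp_add, Real.exp_add, Real.exp_neg]
          field_simp
  · have h7 : L * (ℓ : ℝ) ≤ L * Λ := mul_le_mul_of_nonneg_left hℓΛr hL.le
    -- `2 log D ≤ 2 c q`, and `2 u (N+1) ≥ 4 c q`
    have h8 : 4 * (c * q) ≤ 2 * u * ((N : ℝ) + 1) := by
      have h9 : c * (4 * (c * q)) ≤ c * (2 * u * ((N : ℝ) + 1)) := by
        calc c * (4 * (c * q)) = 4 * (c * c) * q := by ring
          _ ≤ 4 * (3 * u * L / 32) * q := by gcongr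
          _ = 2 * u * (3 / 16 * L * q) := by ring
          _ ≤ 2 * u * (c * ((N : ℝ) + 1)) := mul_le_mul_of_nonneg_left hNq (by positivity)
          _ = c * (2 * u * ((N : ℝ) + 1)) := by ring
      exact le_of_mul_le_mul_left h9 hc0
    linarith

/-- Case of bounded length. -/
lemma case_bounded2 {b : ℕ} (hb : 2 ≤ b) (Λ0 : ℕ) : ∃ C : ℝ, 0 < C ∧
    ∀ Λ ℓ D : ℕ, Λ ≤ Λ0 → ℓ ≤ Λ → 2 ≤ D → Real.log D ≤ Real.log b * Λ → Bd2 b 1 1 C Λ ℓ D := by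
  have hL := log_pos_b hb
  have hBp := BB_pos hb
  refine ⟨(2 * BB b) ^ 2 * Real.exp (3 * (Real.log b * Λ0) + Real.sqrt Λ0), by positivity, ?_⟩
  intro Λ ℓ D hΛ hℓ hD hDL
  have h1 := T_le_trivial b ℓ D
  have hΛr : (Λ : ℝ) ≤ Λ0 := by exact_mod_cast hΛ
  have hℓΛr : (ℓ : ℝ) ≤ Λ := by exact_mod_cast hℓ
  have hsq : Real.sqrt Λ ≤ Real.sqrt Λ0 := Real.sqrt_le_sqrt hΛr
  have h9 : Real.log b * Λ ≤ Real.log b * Λ0 := mul_le_mul_of_nonneg_left hΛr hL.le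
  refine Bd2_of_exp hb (by positivity) (E := -(Real.sqrt Λ0) - Real.log b * Λ0) ?_ ?_
  · calc (T b ℓ D) ^ 2 ≤ (2 * BB b * (D : ℝ) ^ 2) ^ 2 := pow_le_pow_left₀ (T_nonneg _ _ _) h1 2
      _ = (2 * BB b) ^ 2 * (D : ℝ) ^ 2 * (D : ℝ) ^ 2 := by ring
      _ = (2 * BB b) ^ 2 * (D : ℝ) ^ 2 * Real.exp (2 * Real.log D) := by rw [← sq_eq_exp hD]
      _ ≤ (2 * BB b) ^ 2 * (D : ℝ) ^ 2 * Real.exp (2 * (Real.log b * Λ0)) := by
          refine mul_le_mul_of_nonneg_left ?_ (by positivity)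
          rw [Real.exp_le_exp]
          linarith
      _ = (2 * BB b) ^ 2 * Real.exp (3 * (Real.log b * Λ0) + Real.sqrt Λ0) * (D : ℝ) ^ 2 *
            Real.exp (-(Real.sqrt Λ0) - Real.log b * Λ0) := by
          have : Real.exp (2 * (Real.log b * Λ0)) =
              Real.exp (3 * (Real.log b * Λ0) + Real.sqrt Λ0) *
              Real.exp (-(Real.sqrt Λ0) - Real.log b * Λ0) := by
            rw [← Real.exp_add]; congr 1; ring
          rw [this]; ring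
  · have h7 : Real.log b * (ℓ : ℝ) ≤ Real.log b * Λ := mul_le_mul_of_nonneg_left hℓΛr hL.le
    linarith

/-- **Central estimate** with a power saving. -/
theorem central2 {b : ℕ} (hb : 2 ≤ b) {ε : ℝ} (hε : 0 < ε) (hε4 : ε ≤ 1 / 4) :
    ∃ (σ δ C : ℝ), 0 < σ ∧ 0 < δ ∧ 0 < C ∧ ∀ Λ ℓ D : ℕ, ℓ ≤ Λ → 2 ≤ D →
      Real.log D ≤ (1 / 4 - ε) * Real.log b * Λ → Bd2 b σ δ C Λ ℓ D := by
  have hL := log_pos_b hb
  obtain ⟨σ1, δ1, C1, hσ1, hδ1, hC1, h1⟩ := case_short2 hb hε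
  obtain ⟨σ2, δ2, C2, Λ2, hσ2, hδ2, hC2, h2⟩ := case_mid2 hb hε
  obtain ⟨σ3, δ3, C3, c, Λ3, hσ3, hδ3, hC3, hc, h3⟩ := case_long_small2 hb hε hε4
  obtain ⟨σ4, δ4, C4, c0, Λ4, hσ4, hδ4, hC4, hc0, h4⟩ := case_long_mid2 hb hε hε4 hc
  obtain ⟨σ5, δ5, C5, Λ5, hσ5, hδ5, hC5, h5⟩ := case_long_large2 hb hε hc0
  obtain ⟨C6, hC6, h6⟩ := case_bounded2 hb (Λ2 + Λ3 + Λ4 + Λ5)
  have key : ∀ a1 a2 a3 a4 a5 : ℝ,
      min a1 (min a2 (min a3 (min a4 (min a5 1)))) ≤ a1 ∧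
      min a1 (min a2 (min a3 (min a4 (min a5 1)))) ≤ a2 ∧
      min a1 (min a2 (min a3 (min a4 (min a5 1)))) ≤ a3 ∧
      min a1 (min a2 (min a3 (min a4 (min a5 1)))) ≤ a4 ∧
      min a1 (min a2 (min a3 (min a4 (min a5 1)))) ≤ a5 ∧
      min a1 (min a2 (min a3 (min a4 (min a5 1)))) ≤ 1 := by
    intro a1 a2 a3 a4 a5
    refine ⟨min_le_left _ _, (min_le_right _ _).trans (min_le_left _ _),
      (min_le_right _ _).trans ((min_le_right _ _).trans (min_le_left _ _)),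
      (min_le_right _ _).trans ((min_le_right _ _).trans
        ((min_le_right _ _).trans (min_le_left _ _))),
      (min_le_right _ _).trans ((min_le_right _ _).trans ((min_le_right _ _).trans
        ((min_le_right _ _).trans (min_le_left _ _)))),
      (min_le_right _ _).trans ((min_le_right _ _).trans ((min_le_right _ _).trans
        ((min_le_right _ _).trans (min_le_right _ _))))⟩
  obtain ⟨m1, m2, m3, m4, m5, m6⟩ := key σ1 σ2 σ3 σ4 σ5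
  obtain ⟨n1, n2, n3, n4, n5, n6⟩ := key δ1 δ2 δ3 δ4 δ5
  refine ⟨min σ1 (min σ2 (min σ3 (min σ4 (min σ5 1)))),
    min δ1 (min δ2 (min δ3 (min δ4 (min δ5 1)))), C1 + C2 + C3 + C4 + C5 + C6,
    by positivity, by positivity, by positivity, ?_⟩
  intro Λ ℓ D hℓ hD hDL
  have hD1 : 1 ≤ D := by omega
  rcases Nat.lt_or_ge Λ (Λ2 + Λ3 + Λ4 + Λ5) with hΛ | hΛ
  · refine (h6 Λ ℓ D hΛ.le hℓ hD ?_).mono m6 n6 hD1 hC6.le (by linarith)
    have : 0 ≤ (3 / 4 + ε) * Real.log b * Λ := by positivity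
    linarith
  · rcases le_or_gt (ℓ : ℝ) ((1 / 2 + ε) * Λ) with a1 | a1
    · exact (h1 Λ ℓ D hD hDL a1).mono m1 n1 hD1 hC1.le (by linarith)
    · rcases le_or_gt (ℓ : ℝ) ((1 - ε) * Λ) with a2 | a2
      · exact (h2 Λ ℓ D (by omega) hD hDL a1 a2).mono m2 n2 hD1 hC2.le (by linarith)
      · rcases le_or_gt (Real.log D) (c * Real.sqrt Λ) with a3 | a3
        · exact (h3 Λ ℓ D (by omega) hℓ hD a2 a3).mono m3 n3 hD1 hC3.le (by linarith)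
        · rcases le_or_gt (Real.log D) (c0 * Real.log b * Λ) with a4 | a4
          · exact (h4 Λ ℓ D (by omega) hℓ hD a2 a4 a3.le).mono m4 n4 hD1 hC4.le (by linarith)
          · exact (h5 Λ ℓ D (by omega) hℓ hD hDL a2 a4.le).mono m5 n5 hD1 hC5.le (by linarith)

end Pool.Agent.Pal
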