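import Pool.Agent.PalSieve.Rough

/-!
# The loss term of the lower bound sieve
-/

namespace Pool.Agent.Sv

open Finset

/-- The loss term. -/
noncomputable def Dl (w z : ℕ) : ℝ :=
  ∑ p ∈ (Ico (w + 1) z).filter Nat.Prime,
    (1 : ℝ) / p * (LL w z (z ^ 2) - LL w z ((z ^ 2 - 1) / p + 1))

/-- `h(1/2)`. -/
noncomputable def al : ℝ := 1 - 2 * Real.log 2 + 3 / 2 * Real.log (3 / 2)

/-- `h(1)`. -/
noncomputable def be : ℝ := 2 - 2 * Real.log 2

/-- The constant of the loss term. -/
noncomputable def d2 : ℝ := be + (2 * al - be) * Real.log 2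

lemma chord1 {s : ℝ} (h0 : 0 ≤ s) (h1 : s ≤ 1 / 2) :
    2 * s - 2 * Real.log 2 + (2 - s) * Real.log (2 - s) ≤ 2 * s * al := by
  have h := Real.convexOn_mul_log.2 (Set.mem_Ici.mpr (show (0 : ℝ) ≤ 2 by norm_num))
    (Set.mem_Ici.mpr (show (0 : ℝ) ≤ 3 / 2 by norm_num))
    (show 0 ≤ 1 - 2 * s by linarith) (show 0 ≤ 2 * s by linarith) (by ring)
  simp only [smul_eq_mul] at h
  have e : (1 - 2 * s) * 2 + 2 * s * (3 / 2) = 2 - s := by ring
  rw [e] at h
  unfold al
  linarith

lemma chord2 {s : ℝ} (h0 : 1 / 2 ≤ s) (h1 : s ≤ 1) :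
    2 * s - 2 * Real.log 2 + (2 - s) * Real.log (2 - s) ≤ (2 - 2 * s) * al + (2 * s - 1) * be := by
  have h := Real.convexOn_mul_log.2 (Set.mem_Ici.mpr (show (0 : ℝ) ≤ 3 / 2 by norm_num))
    (Set.mem_Ici.mpr (show (0 : ℝ) ≤ 1 by norm_num))
    (show 0 ≤ 2 - 2 * s by linarith) (show 0 ≤ 2 * s - 1 by linarith) (by ring)
  simp only [smul_eq_mul] at h
  have e : (2 - 2 * s) * (3 / 2) + (2 * s - 1) * 1 = 2 - s := by ring
  rw [e, Real.log_one] at h
  unfold al be
  linarith

lemma JJ_diff {u t : ℝ} (hu : 0 < u) (ht : t < 2 * u) :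
    JJ u (2 * u) - JJ u (2 * u - t) =
      u * (2 * (t / u) - 2 * Real.log 2 + (2 - t / u) * Real.log (2 - t / u)) := by
  unfold JJ
  have h1 : 2 * u - t = u * (2 - t / u) := by field_simp
  have h2 : 0 < 2 - t / u := by
    rw [sub_pos, div_lt_iff₀ hu]; exact ht
  rw [h1, Real.log_mul hu.ne' h2.ne', Real.log_mul (by norm_num) hu.ne']
  field_simp
  ring

lemma JJ_shift {u v v' : ℝ} (hu : 1 ≤ u) (h1 : u ≤ v) (h2 : v ≤ 2 * u) (h3 : v ≤ v')
    (h4 : v' ≤ v + 1) : JJ u v - 1 ≤ JJ u v' := by
  unfold JJ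
  have hv : 0 < v := by linarith
  have hv' : 0 < v' := by linarith
  have e1 : Real.log v' - Real.log v ≤ (v' - v) / v := by
    rw [← Real.log_div hv'.ne' hv.ne']
    refine (Real.log_le_sub_one_of_pos (by positivity)).trans (le_of_eq ?_)
    field_simp
  have e2 : v' * (Real.log v' - Real.log v) ≤ 2 * (v' - v) := by
    calc v' * (Real.log v' - Real.log v) ≤ v' * ((v' - v) / v) := mul_le_mul_of_nonneg_left e1 hv'.le
      _ = (v' / v) * (v' - v) := by ring
      _ ≤ 2 * (v' - v) := by
        refine mul_le_mul_of_nonneg_right ?_ (by linarith)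
        rw [div_le_iff₀ hv]; linarith
  have e3 : Real.log v - Real.log u ≤ 1 := by
    rw [← Real.log_div hv.ne' (by linarith)]
    have h1 : v / u ≤ 2 := by rw [div_le_iff₀ (by linarith)]; exact h2
    have h2 : Real.log (v / u) ≤ Real.log 2 := Real.log_le_log (by
      have : 0 < u := by linarith
      positivity) h1
    have := Real.log_two_lt_d9
    linarith
  have e4 : (v' - v) * (Real.log v - Real.log u) ≤ 1 := by
    calc (v' - v) * (Real.log v - Real.log u) ≤ (v' - v) * 1 :=
          mul_le_mul_of_nonneg_left e3 (by linarith)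
      _ ≤ 1 := by linarith
  nlinarith

lemma sum_inv_prime_le {n m : ℕ} (hn : 2 ≤ n) (hm : 3 ≤ m) :
    ∑ p ∈ (Ico n m).filter Nat.Prime, (1 : ℝ) / p ≤ Real.log (Real.log m) + 14 := by
  have h1 : ∑ p ∈ (Ico n m).filter Nat.Prime, (1 : ℝ) / p ≤
      ∑ p ∈ (Ico 2 m).filter Nat.Prime, (1 : ℝ) / p :=
    sum_le_sum_of_subset_of_nonneg (filter_subset_filter _ (Ico_subset_Ico hn le_rfl))
      fun _ _ _ => by positivity
  have h2 := abs_sum_inv_sub_le (n := 2) (m := m) le_rfl (by omega)
  have h3 := (abs_le.mp h2).2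
  push_cast at h3
  have l1 := Real.log_two_gt_d9
  have l2 := Real.log_two_lt_d9
  have h4 : (9 : ℝ) / Real.log 2 ≤ 13 := by
    rw [div_le_iff₀ (by linarith)]; linarith
  have h5 : -1 ≤ Real.log (Real.log 2) := by
    have := Real.one_sub_inv_le_log_of_pos (show 0 < Real.log 2 by linarith)
    have h6 : (Real.log 2)⁻¹ ≤ 2 := by
      rw [inv_le_comm₀ (by linarith) (by norm_num)]
      linarith
    linarith
  linarith

/-- Bound of the loss term. -/
lemma Dl_le {w : ℕ} (hw : 1 ≤ w) {c C : ℝ} (hc0 : 0 < c) (hc1 : c ≤ 1) (hC : 0 < C)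
    (h : ∀ N : ℕ, 1 ≤ N → |L0 w N - c * Real.log N| ≤ C) {Z : ℕ} (hZ3 : 3 ≤ Z) (hwZ : w < Z) :
    Dl w (Z ^ 2) ≤ c * d2 * Real.log ((Z ^ 2 : ℕ) : ℝ) +
      (22 * C + 500) * (Real.log (Real.log ((Z ^ 2 : ℕ) : ℝ)) + 15) := by
  set z := Z ^ 2 with hz
  have hZz : Z * 3 ≤ z := by rw [hz, sq]; exact Nat.mul_le_mul_left _ hZ3
  have hz9 : 9 ≤ z := by omega
  have hwz : w < z := by omega
  have hz0 : (0 : ℝ) < z := by
    have : 0 < z := by omega
    exact_mod_cast this
  have hZ0 : (0 : ℝ) < Z := by
    have : 0 < Z := by omega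
    exact_mod_cast this
  have hlogZ : 1 ≤ Real.log Z := by
    rw [Real.le_log_iff_exp_le hZ0]
    have : Real.exp 1 ≤ 3 := (Real.exp_one_lt_d9.trans (by norm_num)).le
    have h3 : (3 : ℝ) ≤ Z := by exact_mod_cast hZ3
    linarith
  have hu2 : Real.log z = 2 * Real.log Z := by
    rw [hz]; push_cast; rw [Real.log_pow]; norm_num
  set u := Real.log z with hu
  have hu1 : 2 ≤ u := by linarith
  have l1 := Real.log_two_gt_d9
  have l2 := Real.log_two_lt_d9
  -- bounds for al, be
  have hl32 : Real.log (3 / 2) ≤ 1 / 2 := by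
    have := Real.log_le_sub_one_of_pos (show (0 : ℝ) < 3 / 2 by norm_num)
    linarith
  have hl32' : 1 / 3 ≤ Real.log (3 / 2) := by
    have := Real.one_sub_inv_le_log_of_pos (show (0 : ℝ) < 3 / 2 by norm_num)
    norm_num at this
    linarith
  have hal0 : 0 ≤ al := by unfold al; linarith
  have hal1 : al ≤ 1 := by unfold al; linarith
  have hbe0 : 0 ≤ be := by unfold be; linarith
  have hbe1 : be ≤ 1 := by unfold be; linarith
  have halbe : al ≤ be := by unfold al be; linarith
  set E : ℝ := 22 * C + 121 with hE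
  -- the pointwise bound
  have hpt : ∀ p ∈ (Ico (w + 1) z).filter Nat.Prime,
      LL w z (z ^ 2) - LL w z ((z ^ 2 - 1) / p + 1) ≤
        c * (u * (2 * (Real.log p / u) - 2 * Real.log 2 +
          (2 - Real.log p / u) * Real.log (2 - Real.log p / u))) + E := by
    intro p hp
    rw [mem_filter, mem_Ico] at hp
    have hp0 : 0 < p := hp.2.pos
    have hpr : (0 : ℝ) < p := by exact_mod_cast hp0
    have hlp0 : 0 ≤ Real.log p := Real.log_nonneg (by exact_mod_cast hp.2.one_lt.le)
    have hlpu : Real.log p ≤ u := Real.log_le_log hpr (by exact_mod_cast hp.1.2.le)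
    set N := (z ^ 2 - 1) / p + 1 with hN
    have hzz : 1 ≤ z ^ 2 := Nat.one_le_pow _ _ (by omega)
    have hN1 : z ^ 2 ≤ N * p := by
      have h5 := Nat.lt_div_mul_add (a := z ^ 2 - 1) hp0
      have h6 : N * p = (z ^ 2 - 1) / p * p + p := by rw [hN]; ring
      omega
    have hN2 : z ≤ N := by
      by_contra hcon
      push Not at hcon
      have : N * p < z * z := Nat.mul_lt_mul'' hcon hp.1.2
      rw [sq] at hN1
      omega
    have hN3 : N ≤ z ^ 2 := by
      have : (z ^ 2 - 1) / p ≤ z ^ 2 - 1 := Nat.div_le_self _ _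
      omega
    have hN0 : (0 : ℝ) < N := by
      have : 0 < N := by omega
      exact_mod_cast this
    have hA := LL_high hc0 hc1 hC h (z := z) (N := z ^ 2) (by omega) hwz
      (by rw [sq]; exact Nat.le_mul_of_pos_left _ (by omega)) le_rfl
    have hB := LL_high hc0 hc1 hC h (z := z) (N := N) (by omega) hwz hN2 hN3
    have hlz2 : Real.log ((z ^ 2 : ℕ) : ℝ) = 2 * u := by
      push_cast; rw [Real.log_pow, ← hu]; norm_num
    rw [hlz2] at hA
    have hv1 : 2 * u - Real.log p ≤ Real.log N := by
      rw [← hlz2, ← Real.log_div (by positivity) hpr.ne']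
      refine Real.log_le_log (by positivity) ?_
      rw [div_le_iff₀ hpr]
      exact_mod_cast hN1
    have hv2 : Real.log N ≤ 2 * u - Real.log p + 1 := by
      have h5 : (N : ℝ) ≤ 2 * (((z ^ 2 : ℕ) : ℝ) / p) := by
        have h6 : (((z ^ 2 - 1) / p : ℕ) : ℝ) ≤ ((z ^ 2 : ℕ) : ℝ) / p := by
          rw [le_div_iff₀ hpr]
          have h7 : (z ^ 2 - 1) / p * p ≤ z ^ 2 - 1 := Nat.div_mul_le_self _ _
          have h8 : (z ^ 2 - 1) / p * p ≤ z ^ 2 := by omega
          exact_mod_cast h8
        have h9 : (1 : ℝ) ≤ ((z ^ 2 : ℕ) : ℝ) / p := by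
          rw [le_div_iff₀ hpr, one_mul]
          have : p ≤ z ^ 2 := by
            calc p ≤ z := hp.1.2.le
              _ = z * 1 := (mul_one z).symm
              _ ≤ z * z := Nat.mul_le_mul_left _ (by omega)
              _ = z ^ 2 := (sq z).symm
          exact_mod_cast this
        rw [hN]
        push_cast at h6 h9 ⊢
        linarith
      have h6 := Real.log_le_log hN0 h5
      rw [Real.log_mul (by norm_num) (by positivity), Real.log_div (by positivity) hpr.ne',
        hlz2] at h6
      linarith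
    have hsh := JJ_shift (u := u) (v := 2 * u - Real.log p) (v' := Real.log N) (by linarith)
      (by linarith) (by linarith) hv1 hv2
    have hd := JJ_diff (u := u) (t := Real.log p) (by linarith) (by linarith)
    have hcs : c * (JJ u (2 * u - Real.log p) - 1) ≤ c * JJ u (Real.log N) :=
      mul_le_mul_of_nonneg_left hsh hc0.le
    rw [← hd]
    have a1 := (abs_le.mp hA).2
    have a2 := (abs_le.mp hB).1
    rw [hE]
    nlinarith
  -- split the sum
  have hsplit : (Ico (w + 1) z).filter Nat.Prime =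
      (Ico (w + 1) Z).filter Nat.Prime ∪ (Ico Z z).filter Nat.Prime := by
    rw [← filter_union]
    congr 1
    rw [Ico_union_Ico_eq_Ico (by omega) (by omega)]
  have hdisj : Disjoint ((Ico (w + 1) Z).filter Nat.Prime) ((Ico Z z).filter Nat.Prime) := by
    rw [disjoint_left]
    intro k h1 h2
    simp only [mem_filter, mem_Ico] at h1 h2
    omega
  have hD : Dl w z ≤ ∑ p ∈ (Ico (w + 1) z).filter Nat.Prime, (1 : ℝ) / p *
        (c * (u * (2 * (Real.log p / u) - 2 * Real.log 2 +
          (2 - Real.log p / u) * Real.log (2 - Real.log p / u))) + E) := by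
    unfold Dl
    exact Finset.sum_le_sum fun p hp => mul_le_mul_of_nonneg_left (hpt p hp) (by positivity)
  have hsE : ∑ p ∈ (Ico (w + 1) z).filter Nat.Prime, (1 : ℝ) / p ≤ Real.log u + 14 :=
    sum_inv_prime_le (by omega) (by omega)
  have hE0 : 0 < E := by rw [hE]; linarith
  have hP1 : ∑ p ∈ (Ico (w + 1) Z).filter Nat.Prime, (1 : ℝ) / p *
        (c * (u * (2 * (Real.log p / u) - 2 * Real.log 2 +
          (2 - Real.log p / u) * Real.log (2 - Real.log p / u)))) ≤ c * (2 * al * (u / 2 + 4)) := by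
    have h1 : ∀ p ∈ (Ico (w + 1) Z).filter Nat.Prime, (1 : ℝ) / p *
        (c * (u * (2 * (Real.log p / u) - 2 * Real.log 2 +
          (2 - Real.log p / u) * Real.log (2 - Real.log p / u)))) ≤
        c * (2 * al) * (Real.log p / p) := by
      intro p hp
      rw [mem_filter, mem_Ico] at hp
      have hpr : (0 : ℝ) < p := by exact_mod_cast hp.2.pos
      have hlp0 : 0 ≤ Real.log p := Real.log_nonneg (by exact_mod_cast hp.2.one_lt.le)
      have hlpZ : Real.log p ≤ Real.log Z := Real.log_le_log hpr (by exact_mod_cast hp.1.2.le)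
      have h2 := chord1 (s := Real.log p / u) (by positivity) (by
        rw [div_le_iff₀ (by linarith)]; linarith)
      calc (1 : ℝ) / p * (c * (u * (2 * (Real.log p / u) - 2 * Real.log 2 +
          (2 - Real.log p / u) * Real.log (2 - Real.log p / u))))
          ≤ (1 : ℝ) / p * (c * (u * (2 * (Real.log p / u) * al))) := by gcongr
        _ = _ := by
          have : u ≠ 0 := by linarith
          field_simp
    refine (Finset.sum_le_sum h1).trans ?_
    rw [← Finset.mul_sum, mul_assoc c]
    refine mul_le_mul_of_nonneg_left ?_ hc0.le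
    refine mul_le_mul_of_nonneg_left ?_ (by linarith)
    have h2 : ∑ p ∈ (Ico (w + 1) Z).filter Nat.Prime, Real.log p / p ≤ A Z := by
      unfold A
      refine sum_le_sum_of_subset_of_nonneg ?_ fun p hp _ => ?_
      · intro p hp
        rw [mem_filter, mem_Ico] at hp
        rw [mem_filter, mem_range]
        exact ⟨hp.1.2, hp.2⟩
      · rw [mem_filter] at hp
        have : 0 ≤ Real.log p := Real.log_nonneg (by exact_mod_cast hp.2.one_lt.le)
        positivity
    have h3 := (abs_le.mp (abs_A_sub_log_le Z (by omega))).2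
    linarith
  have hP2 : ∑ p ∈ (Ico Z z).filter Nat.Prime, (1 : ℝ) / p *
        (c * (u * (2 * (Real.log p / u) - 2 * Real.log 2 +
          (2 - Real.log p / u) * Real.log (2 - Real.log p / u)))) ≤
        c * (u * (2 * al - be) * Real.log 2 + 18 + 2 * (be - al) * (u / 2 + 8)) := by
    have h1 : ∀ p ∈ (Ico Z z).filter Nat.Prime, (1 : ℝ) / p *
        (c * (u * (2 * (Real.log p / u) - 2 * Real.log 2 +
          (2 - Real.log p / u) * Real.log (2 - Real.log p / u)))) ≤
        c * (u * (2 * al - be) * (1 / p) + 2 * (be - al) * (Real.log p / p)) := by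
      intro p hp
      rw [mem_filter, mem_Ico] at hp
      have hpr : (0 : ℝ) < p := by exact_mod_cast hp.2.pos
      have hlp0 : 0 ≤ Real.log p := Real.log_nonneg (by exact_mod_cast hp.2.one_lt.le)
      have hlpZ : Real.log Z ≤ Real.log p := Real.log_le_log hZ0 (by exact_mod_cast hp.1.1)
      have hlpz : Real.log p ≤ u := Real.log_le_log hpr (by exact_mod_cast hp.1.2.le)
      have h2 := chord2 (s := Real.log p / u) (by
        rw [le_div_iff₀ (by linarith)]; linarith) (by
        rw [div_le_iff₀ (by linarith)]; linarith)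
      calc (1 : ℝ) / p * (c * (u * (2 * (Real.log p / u) - 2 * Real.log 2 +
          (2 - Real.log p / u) * Real.log (2 - Real.log p / u))))
          ≤ (1 : ℝ) / p * (c * (u * ((2 - 2 * (Real.log p / u)) * al +
            (2 * (Real.log p / u) - 1) * be))) := by gcongr
        _ = _ := by
          have : u ≠ 0 := by linarith
          field_simp
          ring
    refine (Finset.sum_le_sum h1).trans ?_
    rw [← Finset.mul_sum]
    refine mul_le_mul_of_nonneg_left ?_ hc0.le
    rw [Finset.sum_add_distrib, ← Finset.mul_sum, ← Finset.mul_sum]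
    have hs1 := abs_sum_inv_sub_le (n := Z) (m := z) (by omega) (by omega)
    have hs2 := abs_sum_log_sub_le (n := Z) (m := z) (by omega) (by omega)
    set S1 := ∑ p ∈ (Ico Z z).filter Nat.Prime, (1 : ℝ) / p
    set S2 := ∑ p ∈ (Ico Z z).filter Nat.Prime, Real.log p / p
    have hll : Real.log (Real.log z) - Real.log (Real.log Z) = Real.log 2 := by
      rw [← Real.log_div (by rw [← hu]; linarith) (by linarith), ← hu, hu2]
      congr 1
      field_simp
    rw [hll] at hs1
    have h3 : u * (2 * al - be) * S1 ≤ u * (2 * al - be) * Real.log 2 + 18 := by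
      have h4 : |u * (2 * al - be) * (S1 - Real.log 2)| ≤ 18 := by
        rw [abs_mul, abs_mul, abs_of_pos (by linarith : 0 < u)]
        have h5 : |2 * al - be| ≤ 1 := by
          rw [abs_le]; constructor <;> linarith
        calc u * |2 * al - be| * |S1 - Real.log 2| ≤ u * 1 * (9 / Real.log Z) := by gcongr
          _ = 18 := by
            rw [hu2]
            have : Real.log Z ≠ 0 := by linarith
            field_simp
            norm_num
      have h6 := (abs_le.mp h4).2
      linarith
    have h4 : 2 * (be - al) * S2 ≤ 2 * (be - al) * (u / 2 + 8) := by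
      refine mul_le_mul_of_nonneg_left ?_ (by linarith)
      have := (abs_le.mp hs2).2
      rw [← hu] at this
      linarith
    linarith
  refine hD.trans ?_
  have hexp : ∑ p ∈ (Ico (w + 1) z).filter Nat.Prime, (1 : ℝ) / p *
        (c * (u * (2 * (Real.log p / u) - 2 * Real.log 2 +
          (2 - Real.log p / u) * Real.log (2 - Real.log p / u))) + E) =
      ∑ p ∈ (Ico (w + 1) z).filter Nat.Prime, (1 : ℝ) / p *
        (c * (u * (2 * (Real.log p / u) - 2 * Real.log 2 +
          (2 - Real.log p / u) * Real.log (2 - Real.log p / u)))) +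
      E * ∑ p ∈ (Ico (w + 1) z).filter Nat.Prime, (1 : ℝ) / p := by
    rw [Finset.mul_sum, ← Finset.sum_add_distrib]
    refine Finset.sum_congr rfl fun p _ => ?_
    ring
  rw [hexp]
  have hE1 : E * ∑ p ∈ (Ico (w + 1) z).filter Nat.Prime, (1 : ℝ) / p ≤ E * (Real.log u + 14) :=
    mul_le_mul_of_nonneg_left hsE hE0.le
  have hlogu : 0 ≤ Real.log u := Real.log_nonneg (by linarith)
  rw [hsplit, sum_union hdisj] at hE1
  rw [hsplit, sum_union hdisj, sum_union hdisj]
  have hcle : c * (2 * al * 4 + 18 + 2 * (be - al) * 8) ≤ 42 := by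
    calc c * (2 * al * 4 + 18 + 2 * (be - al) * 8) ≤ 1 * 42 :=
          mul_le_mul hc1 (by linarith) (by
            have : 0 ≤ (be - al) := by linarith
            positivity) zero_le_one
      _ = 42 := one_mul _
  have hmain : c * (2 * al * (u / 2 + 4)) +
      c * (u * (2 * al - be) * Real.log 2 + 18 + 2 * (be - al) * (u / 2 + 8)) =
      c * d2 * u + c * (2 * al * 4 + 18 + 2 * (be - al) * 8) := by
    unfold d2
    ring
  have hEE : E * (Real.log u + 14) + 42 ≤ (22 * C + 500) * (Real.log u + 15) := by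
    clear hmain hcle hE1 hexp hP1 hP2 hD hpt hsplit hdisj
    have p1 : 0 ≤ C * Real.log u := mul_nonneg hC.le hlogu
    have p2 : E * (Real.log u + 14) = 22 * (C * Real.log u) + 308 * C + 121 * Real.log u + 1694 := by
      rw [hE]; ring
    have p3 : (22 * C + 500) * (Real.log u + 15) =
        22 * (C * Real.log u) + 330 * C + 500 * Real.log u + 7500 := by ring
    rw [p2, p3]
    linarith
  have hP := add_le_add hP1 hP2
  rw [hmain] at hP
  have hP' := add_le_add (hP.trans (add_le_add le_rfl hcle)) hE1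
  refine hP'.trans ?_
  rw [add_assoc]
  refine add_le_add le_rfl ?_
  rw [add_comm]
  exact hEE

end Pool.Agent.Sv
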