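import Pool.Agent.Pal.Main

/-!
# Moment bounds for a general family of fractions
-/

namespace Pool.Agent.Pal

open Finset

/-- A finite family of fractions stable under multiplication by the powers of `b` modulo one, with
at most `F` members in every cell at the resolution `R`. -/
structure Fam (b : ℕ) (I : Finset (ℕ × ℕ)) (R F : ℝ) : Prop where
  lt_one : ∀ x ∈ I, pt b x < 1
  perm : ∀ (a : ℕ) (Φ : ℝ → ℝ), (∀ (y : ℝ) (n : ℤ), Φ (y + n) = Φ y) →
    ∑ x ∈ I, Φ ((b : ℝ) ^ a * pt b x) = ∑ x ∈ I, Φ (pt b x)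
  count : ∀ (M K U c : ℕ), R ≤ (b : ℝ) ^ (M + K) →
    ((I.filter (fun x => pat b M K (BB b * pt b x) = U ∧ ⌊(b : ℝ) ^ M * pt b x⌋₊ = c)).card : ℝ) ≤ F

/-- Large sieve bound for a block restricted to points with a prescribed digit pattern. -/
theorem Fam.rls {b : ℕ} (hb : 0 < b) {I : Finset (ℕ × ℕ)} {R F : ℝ} (hI : Fam b I R F)
    {M K U : ℕ} (hR : R ≤ (b : ℝ) ^ (M + K)) {ℓ k : ℕ} (hk : 2 * k ≤ ℓ + 1) (hM : ℓ + 1 ≤ M) :
    ∑ x ∈ I.filter (fun x => pat b M K (BB b * pt b x) = U), (blk b ℓ 0 k (pt b x)) ^ 2 ≤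
      36 * F * (b : ℝ) ^ M / (b : ℝ) ^ k := by
  have hb0 : (0 : ℝ) < b := by exact_mod_cast hb
  set t := I.filter (fun x => pat b M K (BB b * pt b x) = U) with ht
  have hF0 : 0 ≤ F := le_trans (Nat.cast_nonneg _) (hI.count M K U 0 hR)
  set cell : ℕ × ℕ → ℕ := fun x => ⌊(b : ℝ) ^ M * pt b x⌋₊ with hcell
  set g : ℕ × ℕ → ℝ := fun x => (blk b ℓ 0 k (pt b x)) ^ 2 with hg
  have hg0 : ∀ x, 0 ≤ g x := fun x => by simp only [hg]; positivity
  have hex : ∀ c ∈ t.image cell, ∃ i ∈ t, cell i = c ∧ ∀ j ∈ t, cell j = c → g j ≤ g i := by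
    intro c hc
    obtain ⟨i0, hi0, hc0⟩ := mem_image.mp hc
    obtain ⟨i, hi, hmax⟩ := exists_max_image (t.filter (fun i => cell i = c)) g
      ⟨i0, mem_filter.mpr ⟨hi0, hc0⟩⟩
    rw [mem_filter] at hi
    exact ⟨i, hi.1, hi.2, fun j hj hjc => hmax j (mem_filter.mpr ⟨hj, hjc⟩)⟩
  choose! rep hrep1 hrep2 hrep3 using hex
  set t' : Finset (ℕ × ℕ) := (t.image cell).image rep with ht'
  have ht't : ∀ i ∈ t', i ∈ t := by
    intro i hi
    obtain ⟨c, hc, rfl⟩ := mem_image.mp hi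
    exact hrep1 c hc
  have htI : ∀ i ∈ t', i ∈ I := fun i hi => (mem_filter.mp (ht't i hi)).1
  have hinj : Set.InjOn cell t' := by
    intro i hi j hj hij
    obtain ⟨c, hc, rfl⟩ := mem_image.mp (mem_coe.mp hi)
    obtain ⟨c', hc', rfl⟩ := mem_image.mp (mem_coe.mp hj)
    rw [hrep2 c hc, hrep2 c' hc'] at hij
    rw [hij]
  have hrepinj : Set.InjOn rep (t.image cell : Finset ℕ) := by
    intro c hc c' hc' h
    have := hrep2 c (mem_coe.mp hc)
    rw [h, hrep2 c' (mem_coe.mp hc')] at this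
    exact this.symm
  have hMpos : 0 < b ^ M := pow_pos hb M
  have hls := large_sieve (M := b ^ M) hMpos (range (b ^ k)) (pf b k (ℓ + 1 - k))
    (pf_injOn (by omega)) (by
      intro j hj
      rw [mem_range] at hj
      refine (pf_lt hb (by omega) hj).trans_le ?_
      exact Nat.pow_le_pow_right hb (by omega)) (fun _ => 1) t' cell hinj
    (by
      intro i hi
      simp only [hcell]
      have hi' := htI i hi
      rw [Nat.floor_lt (mul_nonneg (by positivity) (pt_nonneg b i))]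
      push_cast
      have := hI.lt_one i hi'
      have h2 : (0 : ℝ) < (b : ℝ) ^ M := by positivity
      nlinarith) (pt b)
    (by
      intro i hi
      simp only [hcell]
      push_cast
      exact Nat.floor_le (mul_nonneg (by positivity) (pt_nonneg b i)))
    (by
      intro i hi
      simp only [hcell]
      push_cast
      exact Nat.lt_floor_add_one _)
  have hblk : ∀ i, ‖∑ j ∈ range (b ^ k), (1 : ℂ) * ex (pf b k (ℓ + 1 - k) j * pt b i)‖ ^ 2 =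
      ((b : ℝ) ^ k) ^ 2 * g i := by
    intro i
    have : ∑ j ∈ range (b ^ k), (1 : ℂ) * ex (pf b k (ℓ + 1 - k) j * pt b i) =
        ∑ j ∈ range (b ^ k), ex (pf b k (ℓ + 1 - k) j * pt b i) :=
      Finset.sum_congr rfl fun _ _ => one_mul _
    rw [this, ← blk_eq hb (by omega) (pt b i)]
    simp only [hg]
    ring
  rw [Finset.sum_congr rfl fun i _ => hblk i, ← Finset.mul_sum] at hls
  simp only [norm_one, one_pow, sum_const, card_range, nsmul_eq_mul, mul_one] at hls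
  push_cast at hls
  have hsum : ∑ i ∈ t, g i ≤ F * ∑ i ∈ t', g i := by
    rw [← Finset.sum_fiberwise_of_maps_to (s := t) (t := t.image cell) (g := cell)
      (fun i hi => mem_image_of_mem _ hi)]
    rw [ht', sum_image hrepinj, Finset.mul_sum]
    refine Finset.sum_le_sum fun c hc => ?_
    calc ∑ i ∈ t.filter (fun i => cell i = c), g i
        ≤ ∑ i ∈ t.filter (fun i => cell i = c), g (rep c) := by
          refine Finset.sum_le_sum fun i hi => ?_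
          rw [mem_filter] at hi
          exact hrep3 c hc i hi.1 hi.2
      _ = ((t.filter (fun i => cell i = c)).card : ℝ) * g (rep c) := by
          rw [sum_const, nsmul_eq_mul]
      _ ≤ F * g (rep c) := by
          refine mul_le_mul_of_nonneg_right ?_ (hg0 _)
          have := hI.count M K U c hR
          rw [ht, filter_filter]
          exact this
  refine hsum.trans ?_
  have hbk : (0 : ℝ) < (b : ℝ) ^ k := by positivity
  have h3 : ∑ i ∈ t', g i ≤ 36 * (b : ℝ) ^ M / (b : ℝ) ^ k := by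
    rw [le_div_iff₀ hbk]
    have h4 : (b : ℝ) ^ k * ((∑ i ∈ t', g i) * (b : ℝ) ^ k) ≤
        (b : ℝ) ^ k * (36 * (b : ℝ) ^ M) := by linarith [hls, mul_comm ((b:ℝ)^k) (36 * (b:ℝ)^M)]
    exact le_of_mul_le_mul_left h4 hbk
  calc F * ∑ i ∈ t', g i ≤ F * (36 * (b : ℝ) ^ M / (b : ℝ) ^ k) :=
        mul_le_mul_of_nonneg_left h3 hF0
    _ = _ := by ring

/-- Squares of a block weighted by the pattern weight. -/
lemma Fam.sum_blk_sq_pattern {b : ℕ} (hb : 2 ≤ b) {I : Finset (ℕ × ℕ)} {R F : ℝ}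
    (hI : Fam b I R F) {M K ℓ k : ℕ} (hk : 2 * k ≤ ℓ + 1)
    (hM : ℓ + 1 ≤ M) (hR : R ≤ (b : ℝ) ^ (M + K)) {ε : ℝ} (hε : 0 ≤ ε) :
    ∑ x ∈ I, (blk b ℓ 0 k (pt b x)) ^ 2 * ε ^ chg b K (pat b M K (BB b * pt b x)) ≤
      36 * F * (b : ℝ) ^ M / (b : ℝ) ^ k * (b * (1 + b * ε) ^ K) := by
  have hF0 : 0 ≤ F := le_trans (Nat.cast_nonneg _) (hI.count M K 0 0 hR)
  rw [← Finset.sum_fiberwise_of_maps_to (s := I) (t := range (b ^ K))
    (g := fun x => pat b M K (BB b * pt b x))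
    (fun x _ => mem_range.mpr (pat_lt (by omega) _ _ _))]
  calc ∑ U ∈ range (b ^ K), ∑ x ∈ I.filter (fun x => pat b M K (BB b * pt b x) = U),
        (blk b ℓ 0 k (pt b x)) ^ 2 * ε ^ chg b K (pat b M K (BB b * pt b x))
      ≤ ∑ U ∈ range (b ^ K), (36 * F * (b : ℝ) ^ M / (b : ℝ) ^ k) * ε ^ chg b K U := by
        refine Finset.sum_le_sum fun U _ => ?_
        have e1 : ∀ x ∈ I.filter (fun x => pat b M K (BB b * pt b x) = U),
            (blk b ℓ 0 k (pt b x)) ^ 2 * ε ^ chg b K (pat b M K (BB b * pt b x)) =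
            (blk b ℓ 0 k (pt b x)) ^ 2 * ε ^ chg b K U := by
          intro x hx
          rw [(mem_filter.mp hx).2]
        rw [Finset.sum_congr rfl e1, ← Finset.sum_mul]
        exact mul_le_mul_of_nonneg_right (hI.rls (by omega) hR hk hM) (by positivity)
    _ = (36 * F * (b : ℝ) ^ M / (b : ℝ) ^ k) * ∑ U ∈ range (b ^ K), ε ^ chg b K U := by
        rw [Finset.mul_sum]
    _ ≤ _ := mul_le_mul_of_nonneg_left (patsum_le hb hε K) (by positivity)

/-- General second moment with a high power of an outer block. -/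
lemma Fam.sum_blk_sq_blk {b : ℕ} (hb : 2 ≤ b) {I : Finset (ℕ × ℕ)} {R F : ℝ} (hI : Fam b I R F)
    {κ : ℝ} (hκ : IsKappa b κ) {ℓ a k i0 i1 : ℕ}
    (hak : 2 * (a + k) ≤ ℓ + 1) (ha : 2 * a ≤ ℓ) (h01 : i0 < i1) (h1a : i1 ≤ a)
    (hR : R ≤ (b : ℝ) ^ ((ℓ + 1 - i1 - a) + (i1 - i0 - 1))) (lam : ℕ) :
    ∑ x ∈ I, (blk b ℓ a (a + k) (pt b x)) ^ 2 * (blk b ℓ i0 i1 (pt b x)) ^ (3 * lam) ≤
      36 * F * (b : ℝ) ^ (ℓ + 1 - i1 - a) / (b : ℝ) ^ k *
        (b * (1 + b * κ ^ lam) ^ (i1 - i0 - 1)) := by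
  obtain ⟨hκ0, hκ1, hκ2⟩ := hκ
  set K := i1 - i0 - 1 with hK
  set M := ℓ + 1 - i1 - a with hM
  have hε : 0 ≤ κ ^ lam := by positivity
  set Φ : ℝ → ℝ := fun y => (blk b (ℓ - 2 * a) 0 k y) ^ 2 * (κ ^ lam) ^ chg b K (pat b M K (BB b * y))
    with hΦ
  have hper : ∀ (y : ℝ) (n : ℤ), Φ (y + n) = Φ y := by
    intro y n
    simp only [hΦ]
    rw [blk_add_int]
    have : BB b * (y + n) = BB b * y + (((b ^ 2 - 1 : ℕ) * n : ℤ) : ℝ) := by
      unfold BB; push_cast; ring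
    rw [this, pat_add_int]
  have hpt : ∀ x ∈ I, (blk b ℓ a (a + k) (pt b x)) ^ 2 *
      (blk b ℓ i0 i1 (pt b x)) ^ (3 * lam) ≤ Φ ((b : ℝ) ^ a * pt b x) := by
    intro x _
    simp only [hΦ]
    have e1 : blk b ℓ a (a + k) (pt b x) = blk b (ℓ - 2 * a) 0 k ((b : ℝ) ^ a * pt b x) := by
      have := blk_scale b (ℓ - 2 * a) 0 k a (by omega) (pt b x)
      rw [← this]
      have e2 : ℓ - 2 * a + 2 * a = ℓ := by omega
      rw [e2, zero_add, add_comm k a]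
    rw [e1]
    refine mul_le_mul_of_nonneg_left ?_ (by positivity)
    have e3 := blk_pow_le_chg hb h01 (by omega : 2 * i1 ≤ ℓ + 1) hκ0 hκ1.le hκ2 lam (pt b x)
    have e4 := pat_shift b (ℓ - i1 + 1) a K (by omega) (BB b) (pt b x)
    have e5 : ℓ - i1 + 1 - a = M := by omega
    rw [e5] at e4
    rw [← e4]
    exact e3
  refine (Finset.sum_le_sum hpt).trans ?_
  rw [hI.perm a Φ hper]
  exact hI.sum_blk_sq_pattern hb (by omega) (by omega) hR hε

/-- Plain second moment of a block. -/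
lemma Fam.sum_blk_sq {b : ℕ} (hb : 2 ≤ b) {I : Finset (ℕ × ℕ)} {R F : ℝ} (hI : Fam b I R F)
    {ℓ a k : ℕ} (hak : 2 * (a + k) ≤ ℓ + 1) (ha : 2 * a ≤ ℓ)
    (hR : R ≤ (b : ℝ) ^ (ℓ + 1 - 2 * a)) :
    ∑ x ∈ I, (blk b ℓ a (a + k) (pt b x)) ^ 2 ≤
      36 * F * (b : ℝ) ^ (ℓ + 1 - 2 * a) / (b : ℝ) ^ k * b := by
  set Φ : ℝ → ℝ := fun y => (blk b (ℓ - 2 * a) 0 k y) ^ 2 with hΦ
  have hper : ∀ (y : ℝ) (n : ℤ), Φ (y + n) = Φ y := by
    intro y n
    simp only [hΦ]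
    rw [blk_add_int]
  have hpt : ∀ x ∈ I, (blk b ℓ a (a + k) (pt b x)) ^ 2 = Φ ((b : ℝ) ^ a * pt b x) := by
    intro x _
    simp only [hΦ]
    have e1 : blk b ℓ a (a + k) (pt b x) = blk b (ℓ - 2 * a) 0 k ((b : ℝ) ^ a * pt b x) := by
      have := blk_scale b (ℓ - 2 * a) 0 k a (by omega) (pt b x)
      rw [← this]
      have e2 : ℓ - 2 * a + 2 * a = ℓ := by omega
      rw [e2, zero_add, add_comm k a]
    rw [e1]
  rw [Finset.sum_congr rfl hpt, hI.perm a Φ hper]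
  have h1 := hI.sum_blk_sq_pattern hb (M := ℓ + 1 - 2 * a) (K := 0) (ℓ := ℓ - 2 * a) (k := k)
      (by omega) (by omega) (by rwa [add_zero]) (ε := 1) zero_le_one
  simpa using h1

/-- Second moment of a long inner block, with a saving. -/
lemma exists_main_sq_fam {b : ℕ} (hb : 2 ≤ b) :
    ∃ (C ρ : ℝ), 0 < C ∧ 0 < ρ ∧ ρ < 1 ∧ ∀ (I : Finset (ℕ × ℕ)) (R F : ℝ), Fam b I R F →
      ∀ (ℓ k g : ℕ), g + 1 ≤ k → k + g + 1 ≤ (ℓ + 1) / 2 →
      R ≤ (b : ℝ) ^ (2 * k) →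
      ∑ x ∈ I, (blk b ℓ ((ℓ + 1) / 2 - k - g - 1) ((ℓ + 1) / 2) (pt b x)) ^ 2 ≤
        C * F * (b : ℝ) ^ k * ρ ^ g := by
  obtain ⟨κ, hκ⟩ := exists_isKappa hb
  obtain ⟨lam, lam', s, t, ρ, hs0, hs1, ht0, ht1, hρ0, hρ1, p1, p2, p3⟩ := exists_params hb hκ
  have hb0 : (2 : ℝ) ≤ b := by exact_mod_cast hb
  have hbp : (0 : ℝ) < b := by linarith
  have hκ0 := hκ.1
  refine ⟨108 * (b : ℝ) ^ 2, ρ, by positivity, hρ0, hρ1, ?_⟩
  intro I R F hI ℓ k g hgk hkm hR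
  have hF0 : 0 ≤ F := le_trans (Nat.cast_nonneg _) (hI.count (2 * k) 0 0 0 (by rwa [add_zero]))
  set m := (ℓ + 1) / 2 with hm
  have hm1 : 2 * m ≤ ℓ + 1 := by omega
  have hm2 : ℓ + 1 ≤ 2 * m + 1 := by omega
  have hb1 : (1 : ℝ) ≤ b := by linarith
  -- S1
  have S1 : ∑ x ∈ I, (blk b ℓ (m - k) m (pt b x)) ^ 2 ≤ 36 * F * (b : ℝ) ^ (k + 2) := by
    have h := hI.sum_blk_sq hb (ℓ := ℓ) (a := m - k) (k := k) (by omega) (by omega) (hR.trans
      (pow_le_pow_right₀ hb1 (by omega)))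
    have e : m - k + k = m := by omega
    rw [e] at h
    refine h.trans ?_
    have h2 : (b : ℝ) ^ (ℓ + 1 - 2 * (m - k)) / (b : ℝ) ^ k ≤ (b : ℝ) ^ (k + 1) := by
      rw [div_le_iff₀ (by positivity), ← pow_add]
      exact pow_le_pow_right₀ hb1 (by omega)
    calc 36 * F * (b : ℝ) ^ (ℓ + 1 - 2 * (m - k)) / (b : ℝ) ^ k * b
        = 36 * F * b * ((b : ℝ) ^ (ℓ + 1 - 2 * (m - k)) / (b : ℝ) ^ k) := by ring
      _ ≤ 36 * F * b * (b : ℝ) ^ (k + 1) := mul_le_mul_of_nonneg_left h2 (by positivity)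
      _ = 36 * F * (b : ℝ) ^ (k + 2) := by ring
  -- S2
  have S2 : ∑ x ∈ I, (blk b ℓ (m - k + g) m (pt b x)) ^ 2 *
      (blk b ℓ (m - k - g - 1) (m - k) (pt b x)) ^ (3 * lam) ≤
      36 * F * (b : ℝ) ^ (k + 2) * (1 + b * κ ^ lam) ^ g := by
    have h := hI.sum_blk_sq_blk hb hκ (ℓ := ℓ) (a := m - k + g) (k := k - g)
      (i0 := m - k - g - 1) (i1 := m - k) (by omega) (by omega) (by omega) (by omega)
      (hR.trans (pow_le_pow_right₀ hb1 (by omega))) lam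
    have e1 : m - k + g + (k - g) = m := by omega
    have e2 : m - k - (m - k - g - 1) - 1 = g := by omega
    rw [e1, e2] at h
    refine h.trans ?_
    have h2 : (b : ℝ) ^ (ℓ + 1 - (m - k) - (m - k + g)) / (b : ℝ) ^ (k - g) ≤ (b : ℝ) ^ (k + 1) := by
      rw [div_le_iff₀ (by positivity), ← pow_add]
      exact pow_le_pow_right₀ hb1 (by omega)
    calc 36 * F * (b : ℝ) ^ (ℓ + 1 - (m - k) - (m - k + g)) / (b : ℝ) ^ (k - g) *
          (b * (1 + b * κ ^ lam) ^ g)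
        = 36 * F * b * (1 + b * κ ^ lam) ^ g *
          ((b : ℝ) ^ (ℓ + 1 - (m - k) - (m - k + g)) / (b : ℝ) ^ (k - g)) := by ring
      _ ≤ 36 * F * b * (1 + b * κ ^ lam) ^ g * (b : ℝ) ^ (k + 1) :=
          mul_le_mul_of_nonneg_left h2 (by positivity)
      _ = 36 * F * (b : ℝ) ^ (k + 2) * (1 + b * κ ^ lam) ^ g := by ring
  -- S3
  have S3 : ∑ x ∈ I, (blk b ℓ (m - k + g) m (pt b x)) ^ 2 *
      (blk b ℓ (m - k - g - 1) (m - k + g) (pt b x)) ^ (3 * lam') ≤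
      36 * F * (b : ℝ) ^ (k + 2) / (b : ℝ) ^ g * (1 + b * κ ^ lam') ^ (2 * g) := by
    have h := hI.sum_blk_sq_blk hb hκ (ℓ := ℓ) (a := m - k + g) (k := k - g)
      (i0 := m - k - g - 1) (i1 := m - k + g) (by omega) (by omega) (by omega) (by omega)
      (hR.trans (pow_le_pow_right₀ hb1 (by omega))) lam'
    have e1 : m - k + g + (k - g) = m := by omega
    have e2 : m - k + g - (m - k - g - 1) - 1 = 2 * g := by omega
    rw [e1, e2] at h
    refine h.trans ?_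
    have h2 : (b : ℝ) ^ (ℓ + 1 - (m - k + g) - (m - k + g)) / (b : ℝ) ^ (k - g) ≤
        (b : ℝ) ^ (k + 1) / (b : ℝ) ^ g := by
      rw [div_le_div_iff₀ (by positivity) (by positivity), ← pow_add, ← pow_add]
      exact pow_le_pow_right₀ hb1 (by omega)
    calc 36 * F * (b : ℝ) ^ (ℓ + 1 - (m - k + g) - (m - k + g)) / (b : ℝ) ^ (k - g) *
          (b * (1 + b * κ ^ lam') ^ (2 * g))
        = 36 * F * b * (1 + b * κ ^ lam') ^ (2 * g) *
          ((b : ℝ) ^ (ℓ + 1 - (m - k + g) - (m - k + g)) / (b : ℝ) ^ (k - g)) := by ring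
      _ ≤ 36 * F * b * (1 + b * κ ^ lam') ^ (2 * g) * ((b : ℝ) ^ (k + 1) / (b : ℝ) ^ g) :=
          mul_le_mul_of_nonneg_left h2 (by positivity)
      _ = 36 * F * (b : ℝ) ^ (k + 2) / (b : ℝ) ^ g * (1 + b * κ ^ lam') ^ (2 * g) := by ring
  -- combine
  set S : ℝ := s ^ g with hS
  set T : ℝ := t ^ g with hT
  have hSp : 0 < S := by positivity
  have hTp : 0 < T := by positivity
  have hpt : ∀ x ∈ I, (blk b ℓ (m - k - g - 1) m (pt b x)) ^ 2 ≤
      T ^ 2 * (blk b ℓ (m - k) m (pt b x)) ^ 2 +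
      S ^ 2 / T ^ (3 * lam) * ((blk b ℓ (m - k + g) m (pt b x)) ^ 2 *
        (blk b ℓ (m - k - g - 1) (m - k) (pt b x)) ^ (3 * lam)) +
      1 / (S * T) ^ (3 * lam') * ((blk b ℓ (m - k + g) m (pt b x)) ^ 2 *
        (blk b ℓ (m - k - g - 1) (m - k + g) (pt b x)) ^ (3 * lam')) := by
    intro x _
    set A := blk b ℓ (m - k + g) m (pt b x) with hA
    set Hh := blk b ℓ (m - k) (m - k + g) (pt b x) with hHh
    set G := blk b ℓ (m - k - g - 1) (m - k) (pt b x) with hG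
    have e1 : blk b ℓ (m - k) m (pt b x) = Hh * A :=
      (blk_mul b ℓ (by omega) (by omega) _).symm
    have e2 : blk b ℓ (m - k - g - 1) (m - k + g) (pt b x) = G * Hh :=
      (blk_mul b ℓ (by omega) (by omega) _).symm
    have e3 : blk b ℓ (m - k - g - 1) m (pt b x) = G * Hh * A := by
      rw [← e2]; exact (blk_mul b ℓ (by omega) (by omega) _).symm
    rw [e1, e2, e3]
    have hm := mix (blk_nonneg b ℓ (m - k) (m - k + g) (pt b x))
      (blk_le_one b ℓ (m - k) (m - k + g) (pt b x))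
      (blk_nonneg b ℓ (m - k - g - 1) (m - k) (pt b x))
      (blk_le_one b ℓ (m - k - g - 1) (m - k) (pt b x)) hSp hTp (3 * lam) (3 * lam')
    have hA2 : 0 ≤ A ^ 2 := by positivity
    calc (G * Hh * A) ^ 2 = A ^ 2 * (G * Hh) ^ 2 := by ring
      _ ≤ A ^ 2 * (T ^ 2 * Hh ^ 2 + S ^ 2 * (G / T) ^ (3 * lam) +
            (G * Hh / (S * T)) ^ (3 * lam')) := mul_le_mul_of_nonneg_left hm hA2
      _ = _ := by
        rw [div_pow, div_pow]
        ring
  refine (Finset.sum_le_sum hpt).trans ?_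
  rw [Finset.sum_add_distrib, Finset.sum_add_distrib, ← Finset.mul_sum, ← Finset.mul_sum,
    ← Finset.mul_sum]
  have b1 : T ^ 2 * ∑ x ∈ I, (blk b ℓ (m - k) m (pt b x)) ^ 2 ≤
      36 * F * (b : ℝ) ^ 2 * (b : ℝ) ^ k * ρ ^ g := by
    calc T ^ 2 * ∑ x ∈ I, (blk b ℓ (m - k) m (pt b x)) ^ 2
        ≤ T ^ 2 * (36 * F * (b : ℝ) ^ (k + 2)) := mul_le_mul_of_nonneg_left S1 (by positivity)
      _ = 36 * F * (b : ℝ) ^ 2 * (b : ℝ) ^ k * (t ^ 2) ^ g := by rw [hT]; ring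
      _ ≤ _ := mul_le_mul_of_nonneg_left (pow_le_pow_left₀ (by positivity) p1 g) (by positivity)
  have b2 : S ^ 2 / T ^ (3 * lam) * ∑ x ∈ I, (blk b ℓ (m - k + g) m (pt b x)) ^ 2 *
        (blk b ℓ (m - k - g - 1) (m - k) (pt b x)) ^ (3 * lam) ≤
      36 * F * (b : ℝ) ^ 2 * (b : ℝ) ^ k * ρ ^ g := by
    calc S ^ 2 / T ^ (3 * lam) * ∑ x ∈ I, (blk b ℓ (m - k + g) m (pt b x)) ^ 2 *
        (blk b ℓ (m - k - g - 1) (m - k) (pt b x)) ^ (3 * lam)
        ≤ S ^ 2 / T ^ (3 * lam) * (36 * F * (b : ℝ) ^ (k + 2) * (1 + b * κ ^ lam) ^ g) :=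
          mul_le_mul_of_nonneg_left S2 (by positivity)
      _ = 36 * F * (b : ℝ) ^ 2 * (b : ℝ) ^ k *
          (s ^ 2 * (1 + b * κ ^ lam) / t ^ (3 * lam)) ^ g := by
          rw [hT, hS, div_pow, mul_pow, ← pow_mul, ← pow_mul, ← pow_mul, ← pow_mul,
            mul_comm g 2, mul_comm g (3 * lam)]
          ring
      _ ≤ _ := by
        refine mul_le_mul_of_nonneg_left (pow_le_pow_left₀ (by positivity) ?_ g) (by positivity)
        rw [div_le_iff₀ (by positivity)]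
        exact p2
  have b3 : 1 / (S * T) ^ (3 * lam') * ∑ x ∈ I, (blk b ℓ (m - k + g) m (pt b x)) ^ 2 *
        (blk b ℓ (m - k - g - 1) (m - k + g) (pt b x)) ^ (3 * lam') ≤
      36 * F * (b : ℝ) ^ 2 * (b : ℝ) ^ k * ρ ^ g := by
    calc 1 / (S * T) ^ (3 * lam') * ∑ x ∈ I, (blk b ℓ (m - k + g) m (pt b x)) ^ 2 *
        (blk b ℓ (m - k - g - 1) (m - k + g) (pt b x)) ^ (3 * lam')
        ≤ 1 / (S * T) ^ (3 * lam') *
          (36 * F * (b : ℝ) ^ (k + 2) / (b : ℝ) ^ g * (1 + b * κ ^ lam') ^ (2 * g)) :=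
          mul_le_mul_of_nonneg_left S3 (by positivity)
      _ = 36 * F * (b : ℝ) ^ 2 * (b : ℝ) ^ k *
          ((1 + b * κ ^ lam') ^ 2 / (b * (s * t) ^ (3 * lam'))) ^ g := by
          have eST : (S * T) ^ (3 * lam') = ((s * t) ^ (3 * lam')) ^ g := by
            rw [hS, hT, ← mul_pow, ← pow_mul, ← pow_mul, mul_comm g]
          rw [eST, div_pow, mul_pow (b : ℝ) _ g, ← pow_mul (1 + b * κ ^ lam') 2 g, pow_add]
          have : ((s * t) ^ (3 * lam')) ^ g ≠ 0 := by positivity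
          field_simp
      _ ≤ _ := by
        refine mul_le_mul_of_nonneg_left (pow_le_pow_left₀ (by positivity) ?_ g) (by positivity)
        rw [div_le_iff₀ (by positivity)]
        linarith
  linarith

end Pool.Agent.Pal
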