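import Pool.Agent.PalSieve.Selberg
import Pool.Agent.PalSieve.Delta

/-!
# The normalising sums and the reciprocal sums
-/

namespace Pool.Agent.Sv

open Finset

/-- The sieving primes. -/
def PP (w z : ℕ) : Finset ℕ := (Ico (w + 1) z).filter Nat.Prime

lemma mem_PP {w z p : ℕ} : p ∈ PP w z ↔ w < p ∧ p < z ∧ Nat.Prime p := by
  unfold PP
  rw [mem_filter, mem_Ico]
  constructor
  · rintro ⟨⟨h1, h2⟩, h3⟩
    exact ⟨by omega, h2, h3⟩
  · rintro ⟨h1, h2, h3⟩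
    exact ⟨⟨by omega, h2⟩, h3⟩

lemma PP_pos {w z p : ℕ} (h : p ∈ PP w z) : 0 < p := (mem_PP.mp h).2.2.pos

lemma primeFactors_pr {w z : ℕ} {T : Finset ℕ} (hT : T ⊆ PP w z) : (pr T).primeFactors = T :=
  Nat.primeFactors_prod fun p hp => (mem_PP.mp (hT hp)).2.2

lemma pr_injOn (w z ξ : ℕ) : Set.InjOn pr (DD (PP w z) ξ : Set (Finset ℕ)) := by
  intro S hS T hT h
  rw [mem_coe, mem_DD] at hS hT
  rw [← primeFactors_pr hS.1, ← primeFactors_pr hT.1, h]

lemma GG_le (w z ξ : ℕ) : GG (PP w z) ξ ≤ LL w z ξ := by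
  have h1 : GG (PP w z) ξ = ∑ n ∈ (DD (PP w z) ξ).image pr, (1 : ℝ) / n := by
    rw [sum_image (pr_injOn w z ξ)]
    rfl
  rw [h1]
  unfold LL
  refine sum_le_sum_of_subset_of_nonneg ?_ fun _ _ _ => by positivity
  intro n hn
  obtain ⟨T, hT, rfl⟩ := mem_image.mp hn
  rw [mem_DD] at hT
  rw [mem_filter, mem_Ico, primeFactors_pr hT.1]
  refine ⟨⟨pr_pos fun p hp => PP_pos (hT.1 hp), hT.2⟩, fun p hp => ?_⟩
  have := mem_PP.mp (hT.1 hp)
  exact ⟨this.1, this.2.1⟩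

lemma window_le {w z ξ p : ℕ} (hp : 0 < p) (hξ : 1 ≤ ξ) :
    ∑ V ∈ (DD (PP w z) ξ).filter (fun V => ξ ≤ p * pr V), (1 : ℝ) / pr V ≤
      LL w z ξ - LL w z ((ξ - 1) / p + 1) := by
  set N := (ξ - 1) / p + 1 with hN
  have hNξ : N ≤ ξ := by
    have : (ξ - 1) / p ≤ ξ - 1 := Nat.div_le_self _ _
    omega
  have h1 : ∑ V ∈ (DD (PP w z) ξ).filter (fun V => ξ ≤ p * pr V), (1 : ℝ) / pr V =
      ∑ n ∈ ((DD (PP w z) ξ).filter (fun V => ξ ≤ p * pr V)).image pr, (1 : ℝ) / n := by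
    rw [sum_image ((pr_injOn w z ξ).mono (by
      intro x hx
      rw [mem_coe, mem_filter] at hx
      exact mem_coe.mpr hx.1))]
  have h2 : LL w z ξ - LL w z N =
      ∑ n ∈ (Ico N ξ).filter (fun n => ∀ p ∈ n.primeFactors, w < p ∧ p < z), (1 : ℝ) / n := by
    unfold LL
    rw [sub_eq_iff_eq_add, add_comm, ← sum_union]
    · refine Finset.sum_congr ?_ fun _ _ => rfl
      rw [← filter_union]
      congr 1
      rw [Ico_union_Ico_eq_Ico (Nat.le_add_left 1 _) hNξ]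
    · rw [disjoint_left]
      intro k h1 h2
      simp only [mem_filter, mem_Ico] at h1 h2
      omega
  rw [h1, h2]
  refine sum_le_sum_of_subset_of_nonneg ?_ fun _ _ _ => by positivity
  intro n hn
  obtain ⟨T, hT, rfl⟩ := mem_image.mp hn
  rw [mem_filter, mem_DD] at hT
  rw [mem_filter, mem_Ico, primeFactors_pr hT.1.1]
  refine ⟨⟨?_, hT.1.2⟩, fun p hp => ?_⟩
  · have h3 : (ξ - 1) / p < pr T := by
      rw [Nat.div_lt_iff_lt_mul hp]
      have := hT.2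
      rw [mul_comm] at this
      omega
    omega
  · have := mem_PP.mp (hT.1.1 hp)
    exact ⟨this.1, this.2.1⟩

lemma sum_inv_sq_le {w : ℕ} (hw : 1 ≤ w) (n : ℕ) :
    ∑ k ∈ Ico (w + 1) n, (1 : ℝ) / (k : ℝ) ^ 2 ≤ 1 / w := by
  rcases Nat.lt_or_ge w n with h | h
  · have h1 := sum_Ioc_inv_sq_le_sub (α := ℝ) (k := w) (n := n) (by omega) h.le
    have h2 : ∑ k ∈ Ico (w + 1) n, (1 : ℝ) / (k : ℝ) ^ 2 ≤ ∑ i ∈ Ioc w n, ((i : ℝ) ^ 2)⁻¹ := by
      simp only [one_div]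
      refine sum_le_sum_of_subset_of_nonneg ?_ fun _ _ _ => by positivity
      intro k hk
      rw [mem_Ico] at hk
      rw [mem_Ioc]
      omega
    have h3 : (0 : ℝ) ≤ (n : ℝ)⁻¹ := by positivity
    rw [one_div]
    linarith
  · rw [Ico_eq_empty (by omega), sum_empty]
    positivity

lemma LL_le_GG {w z ξ : ℕ} (hw : 1 ≤ w) : LL w z ξ ≤ (1 + 1 / w) * GG (PP w z) ξ := by
  classical
  set Bs : Finset ℕ := insert 1 (Ico (w + 1) ξ) with hBs
  have hex : ∀ n ∈ (Ico 1 ξ).filter (fun n => ∀ p ∈ n.primeFactors, w < p ∧ p < z),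
      ∃ x : ℕ × Finset ℕ, x.1 ∈ Bs ∧ x.2 ∈ DD (PP w z) ξ ∧ x.1 ^ 2 * pr x.2 = n := by
    intro n hn
    rw [mem_filter, mem_Ico] at hn
    obtain ⟨a, b, ha, hb, hab, hsq⟩ := Nat.sq_mul_squarefree_of_pos (n := n) (by omega)
    have haT : pr a.primeFactors = a := Nat.prod_primeFactors_of_squarefree hsq
    refine ⟨(b, a.primeFactors), ?_, ?_, by rw [haT]; exact hab⟩
    · rw [hBs, mem_insert, mem_Ico]
      rcases Nat.eq_or_lt_of_le hb with h | h
      · exact Or.inl (by simp only; omega)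
      · right
        obtain ⟨p, hp, hpb⟩ := Nat.exists_prime_and_dvd (n := b) (by omega)
        have hpn : p ∣ n := by
          rw [← hab]
          exact (hpb.trans (dvd_pow_self b two_ne_zero)).trans (Dvd.intro _ rfl)
        have h1 := hn.2 p (Nat.mem_primeFactors.mpr ⟨hp, hpn, by omega⟩)
        have h2 := Nat.le_of_dvd hb hpb
        have h3 : b ≤ n := by
          rw [← hab]
          calc b = b * 1 := (mul_one b).symm
            _ ≤ b * (b * a) := Nat.mul_le_mul_left _ (Nat.mul_pos hb ha)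
            _ = b ^ 2 * a := by ring
        simp only
        omega
    · rw [mem_DD]
      refine ⟨fun p hp => ?_, ?_⟩
      · have hp' := Nat.mem_primeFactors.mp hp
        have hpn : p ∣ n := by
          rw [← hab]
          exact hp'.2.1.trans (Dvd.intro_left _ rfl)
        have h1 := hn.2 p (Nat.mem_primeFactors.mpr ⟨hp'.1, hpn, by omega⟩)
        exact mem_PP.mpr ⟨h1.1, h1.2, hp'.1⟩
      · simp only
        rw [haT]
        have : a ≤ n := by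
          rw [← hab]
          exact Nat.le_mul_of_pos_left _ (by positivity)
        omega
  choose! f hf1 hf2 hf3 using hex
  have hinj : Set.InjOn f ((Ico 1 ξ).filter (fun n => ∀ p ∈ n.primeFactors, w < p ∧ p < z) :
      Finset ℕ) := by
    intro n hn m hm h
    rw [← hf3 n (mem_coe.mp hn), ← hf3 m (mem_coe.mp hm), h]
  have h1 : LL w z ξ = ∑ x ∈ ((Ico 1 ξ).filter (fun n => ∀ p ∈ n.primeFactors,
      w < p ∧ p < z)).image f, (1 : ℝ) / (x.1 : ℝ) ^ 2 * (1 / pr x.2) := by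
    rw [sum_image hinj]
    unfold LL
    refine Finset.sum_congr rfl fun n hn => ?_
    have := hf3 n hn
    have h2 : (n : ℝ) = ((f n).1 : ℝ) ^ 2 * pr (f n).2 := by
      rw [← Nat.cast_pow, ← Nat.cast_mul, this]
    rw [div_mul_div_comm, one_mul, ← h2]
  rw [h1]
  have h2 : ∑ x ∈ ((Ico 1 ξ).filter (fun n => ∀ p ∈ n.primeFactors,
      w < p ∧ p < z)).image f, (1 : ℝ) / (x.1 : ℝ) ^ 2 * (1 / pr x.2) ≤
      ∑ x ∈ Bs ×ˢ DD (PP w z) ξ, (1 : ℝ) / (x.1 : ℝ) ^ 2 * (1 / pr x.2) := by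
    refine sum_le_sum_of_subset_of_nonneg ?_ fun _ _ _ => by positivity
    intro x hx
    obtain ⟨n, hn, rfl⟩ := mem_image.mp hx
    exact mem_product.mpr ⟨hf1 n hn, hf2 n hn⟩
  refine h2.trans ?_
  rw [sum_product]
  simp only
  rw [← Finset.sum_mul_sum]
  have h3 : ∑ i ∈ DD (PP w z) ξ, (1 : ℝ) / (pr i : ℝ) = GG (PP w z) ξ := rfl
  have hG0 : 0 ≤ GG (PP w z) ξ := Finset.sum_nonneg fun _ _ => by positivity
  rw [h3]
  refine mul_le_mul_of_nonneg_right ?_ hG0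
  rw [hBs, sum_insert (by rw [mem_Ico]; omega)]
  have := sum_inv_sq_le hw ξ
  simpa using this

lemma sum_PP_sq_le {w : ℕ} (hw : 1 ≤ w) (z : ℕ) :
    ∑ p ∈ PP w z, (1 : ℝ) / (p : ℝ) ^ 2 ≤ (1 : ℝ) / w := by
  refine le_trans ?_ (sum_inv_sq_le hw z)
  unfold PP
  exact sum_le_sum_of_subset_of_nonneg (filter_subset _ _) fun _ _ _ => by positivity

lemma sum_PP_cube_le {w : ℕ} (hw : 1 ≤ w) (z : ℕ) :
    ∑ p ∈ PP w z, (1 : ℝ) / (p : ℝ) ^ 3 ≤ (1 : ℝ) / w := by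
  refine le_trans (Finset.sum_le_sum fun p hp => ?_) (sum_PP_sq_le hw z)
  have : (1 : ℝ) ≤ p := by exact_mod_cast PP_pos hp
  exact one_div_le_one_div_of_le (by positivity) (pow_le_pow_right₀ this (by norm_num))

/-- Total main term of the lower bound sieve. -/
lemma main_lower {w z : ℕ} (hw : 1 ≤ w) (hz : 2 ≤ z) :
    1 / GG (PP w z) (z ^ 2) * (1 - 2 / w - 1 / GG (PP w z) (z ^ 2) * Dl w z) ≤
      M0 (PP w z) (z ^ 2) - ∑ p ∈ PP w z, Mp (PP w z) (z ^ 2) p := by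
  have hξ : 2 ≤ z ^ 2 := by
    calc 2 ≤ 2 ^ 2 := by norm_num
      _ ≤ z ^ 2 := Nat.pow_le_pow_left hz 2
  have hP : ∀ p ∈ PP w z, 0 < p := fun p hp => PP_pos hp
  have hG := GG_pos (P := PP w z) hξ
  have h1 := M0_ge hP hξ
  set g : ℝ := 1 / GG (PP w z) (z ^ 2) with hg
  have hg0 : 0 < g := by positivity
  have h2 : ∑ p ∈ PP w z, Mp (PP w z) (z ^ 2) p ≤ g * (1 / w) + g ^ 2 * Dl w z := by
    have h3 : ∀ p ∈ PP w z, Mp (PP w z) (z ^ 2) p ≤ g * (1 / (p : ℝ) ^ 3) +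
        g ^ 2 * (1 / (p : ℝ) * (LL w z (z ^ 2) - LL w z ((z ^ 2 - 1) / p + 1))) := by
      intro p hp
      refine (Mp_le hP hξ hp).trans ?_
      have := window_le (w := w) (z := z) (ξ := z ^ 2) (PP_pos hp) (by omega)
      gcongr
    refine (Finset.sum_le_sum h3).trans ?_
    rw [Finset.sum_add_distrib, ← Finset.mul_sum, ← Finset.mul_sum]
    refine add_le_add (mul_le_mul_of_nonneg_left (sum_PP_cube_le hw z) hg0.le) (le_of_eq ?_)
    rfl
  have h4 := sum_PP_sq_le hw z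
  have h5 : g * (1 - 1 / w) ≤ g * (1 - ∑ p ∈ PP w z, 1 / (p : ℝ) ^ 2) :=
    mul_le_mul_of_nonneg_left (by linarith) hg0.le
  have h6 : g * (1 - 2 / w - g * Dl w z) = g * (1 - 1 / w) - (g * (1 / w) + g ^ 2 * Dl w z) := by
    ring
  rw [h6]
  linarith

end Pool.Agent.Sv
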