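import Pool.Agent.PalSieve.Asym

/-!
# The numerical inequality
-/

namespace Pool.Agent.Sv

open Finset Filter Topology

/-- Break points. -/
def brk (j : ℕ) : ℕ := if j < 8 then 8 + 4 * j else 38

/-- Exponents of the levels. -/
def exq (j : ℕ) : ℕ := if j < 7 then 14 - 2 * j else 1

/-- The function `I`. -/
noncomputable def II (e : ℕ) : ℝ :=
  if e ≤ 8 then (e : ℝ) / 8 else 2 * ((e : ℝ) / 8) - 1 - (e : ℝ) / 8 * Real.log ((e : ℝ) / 8)

/-- The limit of the main term. -/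
noncomputable def PhiInf (w : ℕ) : ℝ :=
  168 / 95 * (1 / II 16) * (1 - 2 / w - (1 + 1 / w) * (d2 / II 16)) -
    (1 + 1 / w) * ∑ j ∈ range 8, (Real.log ((brk (j + 1) : ℝ) / (brk j : ℝ)) -
      ((brk (j + 1) : ℝ) - (brk j : ℝ)) / 38) / II (exq j)

lemma II16 : II 16 = 3 - 2 * Real.log 2 := by
  unfold II
  rw [if_neg (by norm_num)]
  norm_num

lemma term_le {x y A B : ℝ} (hx0 : 0 ≤ x) (hx : x ≤ A) (hB : 0 < B) (hy : B ≤ y) :
    x / y ≤ A / B := by
  have : 0 < y := hB.trans_le hy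
  exact div_le_div₀ (hx0.trans hx) hx hB hy

lemma sum_terms_le : ∑ j ∈ range 8, (Real.log ((brk (j + 1) : ℝ) / (brk j : ℝ)) -
      ((brk (j + 1) : ℝ) - (brk j : ℝ)) / 38) / II (exq j) ≤ 0.6860 := by
  have e0 : II 14 = 2 * (7 / 4) - 1 - 7 / 4 * Real.log (7 / 4) := by
    unfold II; rw [if_neg (by norm_num)]; norm_num
  have e1 : II 12 = 2 * (3 / 2) - 1 - 3 / 2 * Real.log (3 / 2) := by
    unfold II; rw [if_neg (by norm_num)]; norm_num
  have e2 : II 10 = 2 * (5 / 4) - 1 - 5 / 4 * Real.log (5 / 4) := by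
    unfold II; rw [if_neg (by norm_num)]; norm_num
  have e3 : II 8 = 1 := by unfold II; rw [if_pos (by norm_num)]; norm_num
  have e4 : II 6 = 3 / 4 := by unfold II; rw [if_pos (by norm_num)]; norm_num
  have e5 : II 4 = 1 / 2 := by unfold II; rw [if_pos (by norm_num)]; norm_num
  have e6 : II 2 = 1 / 4 := by unfold II; rw [if_pos (by norm_num)]; norm_num
  have e7 : II 1 = 1 / 8 := by unfold II; rw [if_pos (by norm_num)]; norm_num
  have l0 := log32
  have l1 := log43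
  have l2 := log54
  have l3 := log65
  have l4 := log76
  have l5 := log87
  have l6 := log98
  have l7 := log1918
  have l8 := log74
  -- lower bounds
  have low : ∀ r : ℝ, 0 < r → 1 - 1 / r ≤ Real.log r := by
    intro r hr
    have := Real.one_sub_inv_le_log_of_pos hr
    rwa [one_div]
  have m0 := low (3 / 2) (by norm_num)
  have m1 := low (4 / 3) (by norm_num)
  have m2 := low (5 / 4) (by norm_num)
  have m3 := low (6 / 5) (by norm_num)
  have m4 := low (7 / 6) (by norm_num)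
  have m5 := low (8 / 7) (by norm_num)
  have m6 := low (9 / 8) (by norm_num)
  have m7 := low (19 / 18) (by norm_num)
  norm_num at m0 m1 m2 m3 m4 m5 m6 m7
  have t0 : (Real.log (3 / 2) - 4 / 38) / II 14 ≤ 0.3002073 / 1.5206 := by
    refine term_le (by linarith) (by norm_num at l0 ⊢; linarith) (by norm_num) ?_
    rw [e0]; norm_num at l8 ⊢; linarith
  have t1 : (Real.log (4 / 3) - 4 / 38) / II 12 ≤ 0.1824274 / 1.39179 := by
    refine term_le (by linarith) (by norm_num at l1 ⊢; linarith) (by norm_num) ?_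
    rw [e1]; norm_num at l0 ⊢; linarith
  have t2 : (Real.log (5 / 4) - 4 / 38) / II 10 ≤ 0.1178874 / 1.22106 := by
    refine term_le (by linarith) (by norm_num at l2 ⊢; linarith) (by norm_num) ?_
    rw [e2]; norm_num at l2 ⊢; linarith
  have t3 : (Real.log (6 / 5) - 4 / 38) / II 8 ≤ 0.0770674 := by
    rw [e3]; norm_num at l3 ⊢; linarith
  have t4 : (Real.log (7 / 6) - 4 / 38) / II 6 ≤ 0.0488974 / (3 / 4) := by
    rw [e4]; norm_num at l4 ⊢; linarith
  have t5 : (Real.log (8 / 7) - 4 / 38) / II 4 ≤ 0.0282774 / (1 / 2) := by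
    rw [e5]; norm_num at l5 ⊢; linarith
  have t6 : (Real.log (9 / 8) - 4 / 38) / II 2 ≤ 0.0125274 / (1 / 4) := by
    rw [e6]; norm_num at l6 ⊢; linarith
  have t7 : (Real.log (19 / 18) - 2 / 38) / II 1 ≤ 0.0014385 / (1 / 8) := by
    rw [e7]; norm_num at l7 ⊢; linarith
  have hsum : ∑ j ∈ range 8, (Real.log ((brk (j + 1) : ℝ) / (brk j : ℝ)) -
      ((brk (j + 1) : ℝ) - (brk j : ℝ)) / 38) / II (exq j) =
      (Real.log (3 / 2) - 4 / 38) / II 14 + (Real.log (4 / 3) - 4 / 38) / II 12 +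
      (Real.log (5 / 4) - 4 / 38) / II 10 + (Real.log (6 / 5) - 4 / 38) / II 8 +
      (Real.log (7 / 6) - 4 / 38) / II 6 + (Real.log (8 / 7) - 4 / 38) / II 4 +
      (Real.log (9 / 8) - 4 / 38) / II 2 + (Real.log (19 / 18) - 2 / 38) / II 1 := by
    rw [Finset.sum_range_succ, Finset.sum_range_succ, Finset.sum_range_succ, Finset.sum_range_succ,
      Finset.sum_range_succ, Finset.sum_range_succ, Finset.sum_range_succ, Finset.sum_range_succ,
      Finset.sum_range_zero]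
    unfold brk exq
    norm_num
  rw [hsum]
  norm_num at t0 t1 t2 t3 t4 t5 t6 t7 ⊢
  linarith

lemma PhiInf_pos {w : ℕ} (hw : 200 ≤ w) : 0 < PhiInf w := by
  have hwr : (200 : ℝ) ≤ w := by exact_mod_cast hw
  have hw0 : (0 : ℝ) < w := by linarith
  set t : ℝ := 1 / w with ht
  have ht0 : 0 < t := by positivity
  have ht1 : t ≤ 1 / 200 := one_div_le_one_div_of_le (by norm_num) hwr
  have h2w : (2 : ℝ) / w = 2 * t := by rw [ht]; ring
  unfold PhiInf
  rw [h2w, ← ht, II16]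
  have l1 := Real.log_two_gt_d9
  have l2 := Real.log_two_lt_d9
  have l0 := log32
  have hR := sum_terms_le
  set R := ∑ j ∈ range 8, (Real.log ((brk (j + 1) : ℝ) / (brk j : ℝ)) -
      ((brk (j + 1) : ℝ) - (brk j : ℝ)) / 38) / II (exq j)
  set x := Real.log 2 with hx
  have hi0 : 0 < 3 - 2 * x := by linarith
  -- bound of d2
  have hd2 : d2 ≤ 0.49605 := by
    unfold d2 al be
    rw [← hx]
    norm_num at l0
    nlinarith
  have hd2' : d2 / (3 - 2 * x) ≤ 0.3074 := by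
    rw [div_le_iff₀ hi0]
    norm_num at hd2 ⊢
    linarith
  have h1 : (1.0958 : ℝ) ≤ 168 / 95 * (1 / (3 - 2 * x)) := by
    rw [mul_one_div, le_div_iff₀ hi0]
    norm_num
    linarith
  have h2 : (0.681 : ℝ) ≤ 1 - 2 * t - (1 + t) * (d2 / (3 - 2 * x)) := by
    have : (1 + t) * (d2 / (3 - 2 * x)) ≤ (1 + t) * 0.3074 :=
      mul_le_mul_of_nonneg_left hd2' (by linarith)
    norm_num at this ⊢
    linarith
  have h3 : (1.0958 : ℝ) * 0.681 ≤ 168 / 95 * (1 / (3 - 2 * x)) *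
      (1 - 2 * t - (1 + t) * (d2 / (3 - 2 * x))) :=
    mul_le_mul h1 h2 (by norm_num) ((by norm_num : (0 : ℝ) ≤ 1.0958).trans h1)
  have h4 : (1 + t) * R ≤ (1 + 1 / 200) * 0.6860 := by
    have : (1 + t) * R ≤ (1 + t) * 0.6860 := mul_le_mul_of_nonneg_left hR (by linarith)
    refine this.trans ?_
    refine mul_le_mul_of_nonneg_right (by linarith) (by norm_num)
  norm_num at h3 h4 ⊢
  linarith

/-- Main sum over `z`. -/
noncomputable def AA (w : ℕ) (c : ℝ) (Y : ℕ) : ℝ := LL w (Y ^ 8) (Y ^ 16) / (c * (8 * Real.log Y))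

/-- Sums over the smaller levels. -/
noncomputable def BBj (w : ℕ) (c : ℝ) (j Y : ℕ) : ℝ :=
  LL w (Y ^ 8) (Y ^ exq j) / (c * (8 * Real.log Y))

/-- The main term at `Y`. -/
noncomputable def Phi (w : ℕ) (c C : ℝ) (Y : ℕ) : ℝ :=
  168 / 95 * (1 / AA w c Y) * (1 - 2 / w - (1 + 1 / w) * ((d2 + del c C Y) / AA w c Y)) -
    (1 + 1 / w) * ∑ j ∈ range 8, ss (brk j) (brk (j + 1)) Y / BBj w c j Y

lemma T_AA {w : ℕ} {c C : ℝ} (hc0 : 0 < c) (hc1 : c ≤ 1) (hC : 0 < C)
    (h : ∀ N : ℕ, 1 ≤ N → |L0 w N - c * Real.log N| ≤ C) :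
    Tendsto (AA w c) atTop (𝓝 (II 16)) := by
  have h1 := T_high hc0 hc1 hC h (e := 16) (by norm_num) (by norm_num)
  unfold II
  rw [if_neg (by norm_num)]
  exact h1

lemma T_BB {w : ℕ} {c C : ℝ} (hc0 : 0 < c) (hc1 : c ≤ 1) (hC : 0 < C)
    (h : ∀ N : ℕ, 1 ≤ N → |L0 w N - c * Real.log N| ≤ C) (j : ℕ) :
    Tendsto (BBj w c j) atTop (𝓝 (II (exq j))) := by
  unfold II BBj
  split_ifs with h0
  · exact T_low hc0 h h0
  · exact T_high hc0 hc1 hC h (by omega) (by unfold exq; split_ifs <;> omega)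

lemma II_pos (j : ℕ) : 0 < II (exq j) := by
  have l0 := log32
  have l2 := log54
  have l8 := log74
  rcases Nat.lt_or_ge j 7 with h | h
  · have h2 : j = 0 ∨ j = 1 ∨ j = 2 ∨ j = 3 ∨ j = 4 ∨ j = 5 ∨ j = 6 := by omega
    rcases h2 with h | h | h | h | h | h | h <;> subst h <;> unfold exq II <;>
      norm_num at l0 l2 l8 ⊢ <;> linarith
  · have : exq j = 1 := by unfold exq; rw [if_neg (by omega)]
    rw [this]
    unfold II
    norm_num

lemma T_Phi {w : ℕ} {c C : ℝ} (hc0 : 0 < c) (hc1 : c ≤ 1) (hC : 0 < C)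
    (h : ∀ N : ℕ, 1 ≤ N → |L0 w N - c * Real.log N| ≤ C) :
    Tendsto (Phi w c C) atTop (𝓝 (PhiInf w)) := by
  have hA := T_AA hc0 hc1 hC h
  have h16 : II 16 ≠ 0 := by
    rw [II16]
    have := Real.log_two_lt_d9
    linarith
  have hd := T_del C hc0
  have h1 : Tendsto (fun Y => (d2 + del c C Y) / AA w c Y) atTop (𝓝 ((d2 + 0) / II 16)) :=
    (tendsto_const_nhds.add hd).div hA h16
  rw [add_zero] at h1
  have h2 : Tendsto (fun Y => 1 / AA w c Y) atTop (𝓝 (1 / II 16)) :=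
    tendsto_const_nhds.div hA h16
  have h3 : Tendsto (fun Y => ∑ j ∈ range 8, ss (brk j) (brk (j + 1)) Y / BBj w c j Y) atTop
      (𝓝 (∑ j ∈ range 8, (Real.log ((brk (j + 1) : ℝ) / (brk j : ℝ)) -
      ((brk (j + 1) : ℝ) - (brk j : ℝ)) / 38) / II (exq j))) := by
    refine tendsto_finsetSum _ fun j hj => ?_
    rw [mem_range] at hj
    refine (T_ss ?_ ?_).div (T_BB hc0 hc1 hC h j) (II_pos j).ne'
    · unfold brk; split_ifs <;> omega
    · unfold brk; split_ifs <;> omega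
  unfold Phi PhiInf
  exact ((tendsto_const_nhds.mul h2).mul
    (tendsto_const_nhds.sub (tendsto_const_nhds.mul h1))).sub (tendsto_const_nhds.mul h3)

end Pool.Agent.Sv
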