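import Pool.Agent.PalSieve.PresPal

/-!
# Palindromes with at most five prime factors: lower bound in a family
-/

namespace Pool.Agent.Pal

open Finset

lemma aux_size {L l l2 m : ℝ} (hL : 0 < L) (hm : 4 ≤ m) (hl2 : l2 ≤ 1)
    (h : l ≤ l2 + 5 * (2 * m + 1) * L / 804) : l ≤ (1 + L) * m := by
  nlinarith

lemma aux_level {L l l2 m k : ℝ} (hL : 0 < L) (hm : 4 ≤ m)
    (h : l ≤ l2 + 5 * (2 * m + 1) * L / 804) (hk : k + 40 * l2 + L ≤ L * m / 3000) :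
    k + 40 * l ≤ (1 / 4 - 1 / 1000) * L * (2 * m) := by
  have : 0 < L * m := by positivity
  linarith

lemma aux_v {L l l2 m k : ℝ} (hL : 0 < L) (hm : 4 ≤ m) (hk0 : 0 ≤ k) (hl2 : 0 ≤ l2)
    (h : l ≤ l2 + 5 * (2 * m + 1) * L / 804) (hk : k + 40 * l2 + L ≤ L * m / 3000) :
    38 * l ≤ (1 / 4 - 1 / 1000) * L * (2 * m) := by
  have : 0 < L * m := by positivity
  linarith

lemma aux_u {L l m : ℝ} (hL : 0 < L) (hm : 4 ≤ m)
    (h : 5 * (2 * m + 1) * L / 804 < l) : 1 / 25 * L * (2 * m) ≤ 8 * l := by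
  have : 0 < L * m := by positivity
  linarith

lemma aux_E {c1 C C3 m e B : ℝ} (hm : 4 ≤ m) (hC : 0 < C) (hC3 : 0 < C3) (he0 : 0 < e)
    (hB : 0 < B) (h3 : (2 * m) ^ 2 * e ≤ C3) (h4 : 10 * C * C3 ≤ m * c1) :
    5 * (C * B * e) ≤ 1 / 4 * (c1 * B / m) := by
  have hm0 : 0 < m := by linarith
  have h5 : 20 * C * e * m ≤ c1 := by
    have h7 : (20 * C * e * m) * m ≤ c1 * m := by
      have h8 : C * (4 * m ^ 2 * e) ≤ C * C3 :=
        mul_le_mul_of_nonneg_left (by linarith) hC.le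
      have h9 : 0 ≤ C * C3 := by positivity
      nlinarith
    exact le_of_mul_le_mul_right h7 hm0
  have h6 : 1 / 4 * (c1 * B / m) - 5 * (C * B * e) = B / (4 * m) * (c1 - 20 * C * e * m) := by
    field_simp
    ring
  have h7 : 0 ≤ B / (4 * m) * (c1 - 20 * C * e * m) := mul_nonneg (by positivity) (by linarith)
  linarith

lemma aux_S {c1 C C3 m e B : ℝ} (hm : 4 ≤ m) (hC : 0 < C) (hC3 : 0 < C3) (he0 : 0 < e)
    (hB : 0 < B) (h3 : (2 * m + 1) ^ 2 * e ≤ C3) (h4 : 10 * C * C3 ≤ m * c1) :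
    2 * (C * B * e) ≤ 1 / 4 * (c1 * B / m) := by
  have h3' : (2 * m) ^ 2 * e ≤ C3 := by
    refine le_trans (mul_le_mul_of_nonneg_right ?_ he0.le) h3
    nlinarith
  have := aux_E hm hC hC3 he0 hB h3' h4
  have h9 : 0 ≤ C * B * e := by positivity
  linarith

lemma family_bound {b m K : ℕ} (hb : 2 ≤ b) {h : ℕ} (hh : h ∈ Ifam b m K) :
    0 < pal b (2 * m) h ∧ (pal b (2 * m) h) ^ 5 < (YY b m) ^ 804 := by
  unfold Ifam at hh
  rw [mem_filter, mem_Ico] at hh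
  have e : 2 * m / 2 = m := by omega
  have hH : 2 * b ^ m ≤ b ^ (2 * m / 2 + 1) := by
    have e : 2 * m / 2 + 1 = m + 1 := by omega
    rw [e, pow_succ, mul_comm]
    exact Nat.mul_le_mul_left _ hb
  have hlt : h < b ^ (2 * m / 2 + 1) := lt_of_lt_of_le hh.1.2 hH
  have hge : b ^ (2 * m / 2) ≤ h := by rw [e]; exact hh.1.1
  refine ⟨(isPal_pal hb hge hlt).2.2, ?_⟩
  have h1 := pal_lt (by omega : 1 ≤ b) (2 * m) h hlt
  calc (pal b (2 * m) h) ^ 5 ≤ (b ^ (2 * m + 1)) ^ 5 := Nat.pow_le_pow_left h1.le _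
    _ = b ^ (5 * (2 * m + 1)) := by rw [← pow_mul]; congr 1; ring
    _ < _ := YY_spec b m

lemma exists_m_YY {b : ℕ} (hb : 2 ≤ b) (Y0 : ℕ) : ∃ m0 : ℕ, ∀ m, m0 ≤ m → Y0 ≤ YY b m :=
  ⟨Y0 ^ 804, fun _ hm => YY_ge hb hm⟩

lemma core {b : ℕ} (hb : 2 ≤ b) : ∃ c : ℝ, 0 < c ∧ ∃ m0 : ℕ, ∀ m : ℕ, m0 ≤ m → Even m →
    c * (b : ℝ) ^ m / m ≤ ((GG b m).card : ℝ) := by
  set w := max 200 (b + 1) with hw
  have hw200 : 200 ≤ w := le_max_left _ _
  have hwb : b + 1 ≤ w := le_max_right _ _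
  set K := Kp b w with hK
  have hK0 : 0 < K := Kp_pos b w
  obtain ⟨κ, hκ, Y0, hsieve⟩ := Sv.weighted_sieve hw200
  obtain ⟨σ, C, hσ, hC, hE⟩ := Etot_le hb (K := K) (w := w) hK0 (Kp_coprime b w) (by omega)
    (ε := 1 / 1000) (by norm_num) (by norm_num)
  obtain ⟨σ2, C2, Λ0, hσ2, hC2, hSq⟩ := sq_total hb (ε := 1 / 1000) (c0 := 1 / 25)
    (by norm_num) (by norm_num) (by norm_num)
  obtain ⟨C3, hC3, hexp1⟩ := exists_pow_mul_exp_le hσ 2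
  obtain ⟨C4, hC4, hexp2⟩ := exists_poly_mul_exp_le hσ2 2
  have hL := log_pos_b hb
  set L := Real.log b with hLdef
  have hb0 : (2 : ℝ) ≤ b := by exact_mod_cast hb
  have hbp : (0 : ℝ) < b := by linarith
  have hKr : (0 : ℝ) < K := by exact_mod_cast hK0
  set c1 : ℝ := κ / (2 * (b : ℝ) ^ 3 * K * (1 + L)) with hc1
  have hc1p : 0 < c1 := by positivity
  obtain ⟨m1, hm1⟩ := exists_nat_ge (10 * C * C3 / c1)
  obtain ⟨m2, hm2⟩ := exists_nat_ge (10 * C2 * C4 / c1)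
  obtain ⟨m3, hm3⟩ := exists_nat_ge
    ((Real.log ((K * (b ^ 2 - 1) : ℕ) : ℝ) + 40 * Real.log 2 + L) * 3000 / L)
  obtain ⟨m4, hm4'⟩ := exists_m_YY hb Y0
  obtain ⟨m5, hm5'⟩ := exists_m_YY hb (b + 2)
  refine ⟨c1 / 4, by positivity, m4 + m5 + Λ0 + m1 + m2 + m3 + 4, ?_⟩
  intro m hm hme
  have hmY : Y0 ≤ YY b m := hm4' m (by omega)
  have hmY2 : b + 2 ≤ YY b m := hm5' m (by omega)
  have hm4 : 4 ≤ m := by omega
  have hmr : (4 : ℝ) ≤ m := by exact_mod_cast hm4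
  have hbm : (0 : ℝ) < (b : ℝ) ^ m := by positivity
  have hY0 : 0 < YY b m := by omega
  have hYr : (0 : ℝ) < YY b m := by exact_mod_cast hY0
  have hlY1 := log_YY_gt hb (m := m) (by omega : 2 ≤ YY b m)
  have hlY2 := log_YY_le hb (m := m) (by omega : 2 ≤ YY b m)
  have hfam := fun h (hh : h ∈ Ifam b m K) => family_bound hb hh
  have hGood : ((Sv.Good (YY b m) (Ifam b m K) (pal b (2 * m))).card : ℝ) ≤
      ((GG b m).card : ℝ) := by
    exact_mod_cast card_le_card Good_subset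
  have hsv := hsieve (YY b m) hmY (Ifam b m K) (pal b (2 * m)) ((N1 b m : ℝ) / K) (rr b m K)
    (by positivity) (rr_nonneg b m K)
    (fun h hh => ⟨(hfam h hh).1, (hfam h hh).2, primes_gt hb (by omega) hh⟩)
    (fun q hq => by
      have hq0 : 0 < q := by
        unfold Sv.MM at hq
        rw [mem_filter, mem_Ico] at hq
        omega
      exact Nq_diff_le hb hK0 hq0 (coprime_of_MM hb hwb hq))
  clear hsieve hfam
  rw [← hLdef] at hlY1 hlY2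
  generalize YY b m = Y at *
  have hlog2 : Real.log 2 ≤ 1 := by
    have := Real.log_two_lt_d9
    linarith
  have hlog20 : 0 ≤ Real.log 2 := Real.log_nonneg (by norm_num)
  have hlY0 : 0 < Real.log Y := lt_trans (by positivity) hlY1
  have hlY3 : Real.log Y ≤ (1 + L) * m := aux_size hL hmr hlog2 hlY2
  have hm3r : (m3 : ℝ) ≤ m := by
    have : m3 ≤ m := by omega
    exact_mod_cast this
  have hconst : Real.log ((K * (b ^ 2 - 1) : ℕ) : ℝ) + 40 * Real.log 2 + L ≤ L * m / 3000 := by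
    have h1 := hm3.trans hm3r
    rw [div_le_iff₀ hL] at h1
    linarith
  have hB3 := sq_sub_one_pos hb
  have hKB0 : 0 < K * (b ^ 2 - 1) := by positivity
  have hKB : (1 : ℝ) ≤ ((K * (b ^ 2 - 1) : ℕ) : ℝ) := by exact_mod_cast hKB0
  have hlKB : 0 ≤ Real.log ((K * (b ^ 2 - 1) : ℕ) : ℝ) := Real.log_nonneg hKB
  have hcast : ((2 * m : ℕ) : ℝ) = 2 * (m : ℝ) := by push_cast; ring
  have hlevel : Real.log ((K * (b ^ 2 - 1) * Y ^ 40 : ℕ) : ℝ) ≤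
      (1 / 4 - 1 / 1000) * L * ((2 * m : ℕ) : ℝ) := by
    rw [Nat.cast_mul (K * (b ^ 2 - 1)), Real.log_mul (by linarith) (by positivity), Nat.cast_pow Y,
      Real.log_pow, hcast]
    exact aux_level hL hmr hlY2 hconst
  have hE1 := hE m (Y ^ 40) (by omega) (Nat.one_le_pow _ _ (by omega)) hlevel
  -- squares
  have hY8 : b + 2 ≤ Y ^ 8 := hmY2.trans (Nat.le_self_pow (by norm_num) _)
  have hH : 2 * b ^ m ≤ b ^ (2 * m / 2 + 1) := by
    have e : 2 * m / 2 + 1 = m + 1 := by omega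
    rw [e, pow_succ, mul_comm]
    exact Nat.mul_le_mul_left _ hb
  have hv : Real.log ((Y ^ 38 : ℕ) : ℝ) ≤ (1 / 4 - 1 / 1000) * L * ((2 * m : ℕ) : ℝ) := by
    rw [Nat.cast_pow, Real.log_pow, hcast]
    exact aux_v hL hmr hlKB hlog20 hlY2 hconst
  have hu : 1 / 25 * L * ((2 * m : ℕ) : ℝ) ≤ Real.log ((Y ^ 8 : ℕ) : ℝ) := by
    rw [Nat.cast_pow, Real.log_pow, hcast]
    exact aux_u hL hmr hlY1
  have hS1 := hSq (2 * m) (Y ^ 8) (Y ^ 38) (2 * b ^ m) (by omega) hY8 hH hv hu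
  have hsqrt : Real.sqrt ((b : ℝ) ^ (2 * m)) = (b : ℝ) ^ m := by
    rw [mul_comm, pow_mul, Real.sqrt_sq (by positivity)]
  rw [hsqrt] at hS1
  have hS2 : ∑ p ∈ (Ico (Y ^ 8) (Y ^ 38)).filter Nat.Prime,
      (Sv.Nq (Ifam b m K) (pal b (2 * m)) (p ^ 2) : ℝ) ≤ C2 * (b : ℝ) ^ m *
        Real.exp (-σ2 * ((2 * m : ℕ) : ℝ)) :=
    (Finset.sum_le_sum fun p _ => Nq_le_cnt b m K (p ^ 2)).trans hS1
  -- comparisons
  have hN1 := N1_ge hb hme hm4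
  have hX : c1 * (b : ℝ) ^ m / m ≤ κ * ((N1 b m : ℝ) / K) / Real.log Y := by
    have h1 : κ * ((N1 b m : ℝ) / K) / ((1 + L) * m) ≤ κ * ((N1 b m : ℝ) / K) / Real.log Y :=
      div_le_div_of_nonneg_left (by positivity) hlY0 hlY3
    refine le_trans ?_ h1
    have h2 : κ * ((b : ℝ) ^ m / (2 * (b : ℝ) ^ 3) / K) / ((1 + L) * m) ≤
        κ * ((N1 b m : ℝ) / K) / ((1 + L) * m) := by
      have : (b : ℝ) ^ m / (2 * (b : ℝ) ^ 3) / K ≤ (N1 b m : ℝ) / K :=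
        div_le_div_of_nonneg_right hN1 hKr.le
      exact div_le_div_of_nonneg_right (mul_le_mul_of_nonneg_left this hκ.le) (by positivity)
    refine le_trans (le_of_eq ?_) h2
    rw [hc1]
    field_simp
  have hm1r : 10 * C * C3 ≤ m * c1 := by
    have h1 : m1 ≤ m := by omega
    have h2 : 10 * C * C3 / c1 ≤ m := hm1.trans (by exact_mod_cast h1)
    rwa [div_le_iff₀ hc1p] at h2
  have hm2r : 10 * C2 * C4 ≤ m * c1 := by
    have h1 : m2 ≤ m := by omega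
    have h2 : 10 * C2 * C4 / c1 ≤ m := hm2.trans (by exact_mod_cast h1)
    rwa [div_le_iff₀ hc1p] at h2
  have hE2 : 5 * (C * (b : ℝ) ^ m * Real.exp (-σ * Real.sqrt ((2 * m : ℕ) : ℝ))) ≤
      1 / 4 * (c1 * (b : ℝ) ^ m / m) := by
    have h1 := hexp1 (2 * m)
    have h2 : Real.exp (-(σ / 2) * Real.sqrt ((2 * m : ℕ) : ℝ)) ≤ 1 := by
      rw [Real.exp_le_one_iff]
      have := Real.sqrt_nonneg ((2 * m : ℕ) : ℝ)
      nlinarith
    refine aux_E hmr hC hC3 (Real.exp_pos _) hbm ?_ hm1r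
    calc (2 * (m : ℝ)) ^ 2 * Real.exp (-σ * Real.sqrt ((2 * m : ℕ) : ℝ)) =
          ((2 * m : ℕ) : ℝ) ^ 2 * Real.exp (-σ * Real.sqrt ((2 * m : ℕ) : ℝ)) := by rw [hcast]
      _ ≤ C3 * Real.exp (-(σ / 2) * Real.sqrt ((2 * m : ℕ) : ℝ)) := h1
      _ ≤ C3 * 1 := mul_le_mul_of_nonneg_left h2 hC3.le
      _ = C3 := mul_one _
  have hS3 : 2 * (C2 * (b : ℝ) ^ m * Real.exp (-σ2 * ((2 * m : ℕ) : ℝ))) ≤
      1 / 4 * (c1 * (b : ℝ) ^ m / m) := by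
    have h1 := hexp2 (2 * m)
    have h2 : Real.exp (-(σ2 / 2) * ((2 * m : ℕ) : ℝ)) ≤ 1 := by
      rw [Real.exp_le_one_iff]
      have : (0 : ℝ) ≤ ((2 * m : ℕ) : ℝ) := Nat.cast_nonneg _
      nlinarith
    refine aux_S hmr hC2 hC4 (Real.exp_pos _) hbm ?_ hm2r
    calc (2 * (m : ℝ) + 1) ^ 2 * Real.exp (-σ2 * ((2 * m : ℕ) : ℝ)) =
          (((2 * m : ℕ) : ℝ) + 1) ^ 2 * Real.exp (-σ2 * ((2 * m : ℕ) : ℝ)) := by rw [hcast]
      _ ≤ C4 * Real.exp (-(σ2 / 2) * ((2 * m : ℕ) : ℝ)) := h1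
      _ ≤ C4 * 1 := mul_le_mul_of_nonneg_left h2 hC4.le
      _ = C4 := mul_one _
  have hfin : c1 / 4 * (b : ℝ) ^ m / m = 1 / 4 * (c1 * (b : ℝ) ^ m / m) := by
    field_simp
  rw [hfin]
  linarith

end Pool.Agent.Pal
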