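import Pool.Agent.PalSieve.SqMain

/-!
# Palindromes divisible by the square of a prime, all blocks
-/

namespace Pool.Agent.Pal

open Finset

lemma dyadic_le (f : ℕ → ℝ) (hf : ∀ n, 0 ≤ f n) {u v J : ℕ} (hu : 0 < u) (hJ : v ≤ u * 2 ^ J) :
    ∑ p ∈ Ico u v, f p ≤
      ∑ j ∈ (range J).filter (fun j => u * 2 ^ j < v), ∑ p ∈ Ico (u * 2 ^ j) (2 * (u * 2 ^ j)), f p := by
  have h1 : ∑ p ∈ Ico u v, f p ≤ ∑ p ∈ Ico u v,
      ∑ j ∈ (range J).filter (fun j => u * 2 ^ j < v),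
        (if p ∈ Ico (u * 2 ^ j) (2 * (u * 2 ^ j)) then f p else 0) := by
    refine Finset.sum_le_sum fun p hp => ?_
    rw [mem_Ico] at hp
    set j := Nat.log 2 (p / u) with hj
    have hpu : 0 < p / u := Nat.div_pos hp.1 hu
    have e1 : 2 ^ j ≤ p / u := Nat.pow_log_le_self 2 (by omega)
    have e2 : p / u < 2 ^ (j + 1) := Nat.lt_pow_succ_log_self (by norm_num) _
    have e3 : u * 2 ^ j ≤ p := by
      rw [mul_comm]
      exact (Nat.le_div_iff_mul_le hu).mp e1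
    have e4 : p < 2 * (u * 2 ^ j) := by
      rw [Nat.div_lt_iff_lt_mul hu] at e2
      calc p < 2 ^ (j + 1) * u := e2
        _ = 2 * (u * 2 ^ j) := by ring
    have e5 : j ∈ (range J).filter (fun j => u * 2 ^ j < v) := by
      rw [mem_filter, mem_range]
      refine ⟨?_, by omega⟩
      by_contra hcon
      push Not at hcon
      have : u * 2 ^ J ≤ u * 2 ^ j := Nat.mul_le_mul_left _ (Nat.pow_le_pow_right (by norm_num) hcon)
      omega
    calc f p = (fun j => if p ∈ Ico (u * 2 ^ j) (2 * (u * 2 ^ j)) then f p else 0) j :=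
          (if_pos (mem_Ico.mpr ⟨e3, e4⟩)).symm
      _ ≤ _ := Finset.single_le_sum
          (f := fun j => if p ∈ Ico (u * 2 ^ j) (2 * (u * 2 ^ j)) then f p else 0)
          (fun i _ => by
            split_ifs
            · exact hf p
            · exact le_rfl) e5
  refine h1.trans ?_
  rw [Finset.sum_comm]
  refine Finset.sum_le_sum fun j _ => ?_
  rw [← Finset.sum_filter]
  refine sum_le_sum_of_subset_of_nonneg ?_ fun _ _ _ => hf _
  intro p hp
  rw [mem_filter] at hp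
  exact hp.2

lemma exists_poly_mul_exp_le {σ : ℝ} (hσ : 0 < σ) (A : ℕ) : ∃ C : ℝ, 0 < C ∧ ∀ n : ℕ,
    ((n : ℝ) + 1) ^ A * Real.exp (-σ * n) ≤ C * Real.exp (-(σ / 2) * n) := by
  refine ⟨(2 / σ) ^ A * (Nat.factorial A : ℕ) * Real.exp (σ / 2), by positivity, fun n => ?_⟩
  set u : ℝ := σ / 2 * (n + 1) with hu
  have hu0 : 0 ≤ u := by positivity
  have h1 := Real.pow_div_factorial_le_exp u hu0 A
  rw [div_le_iff₀ (by positivity)] at h1
  have h2 : ((n : ℝ) + 1) ^ A = (2 / σ) ^ A * u ^ A := by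
    rw [hu, ← mul_pow]
    congr 1
    field_simp
  have h3 : Real.exp (-σ * n) = Real.exp (σ / 2) * Real.exp (-(σ / 2) * n) * Real.exp (-u) := by
    rw [← Real.exp_add, ← Real.exp_add]; congr 1; rw [hu]; ring
  rw [h2, h3]
  have h4 : u ^ A * Real.exp (-u) ≤ (Nat.factorial A : ℕ) := by
    rw [Real.exp_neg, ← div_eq_mul_inv, div_le_iff₀ (Real.exp_pos _)]
    linarith
  calc (2 / σ) ^ A * u ^ A * (Real.exp (σ / 2) * Real.exp (-(σ / 2) * n) * Real.exp (-u))
      = (2 / σ) ^ A * (u ^ A * Real.exp (-u)) * Real.exp (σ / 2) * Real.exp (-(σ / 2) * n) := by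
        ring
    _ ≤ (2 / σ) ^ A * (Nat.factorial A : ℕ) * Real.exp (σ / 2) * Real.exp (-(σ / 2) * n) := by
        gcongr

/-- Palindromes with `Λ + 1` digits divisible by squares of primes in a long range. -/
theorem sq_total {b : ℕ} (hb : 2 ≤ b) {ε c0 : ℝ} (hε : 0 < ε) (hε4 : ε ≤ 1 / 4) (hc0 : 0 < c0) :
    ∃ (σ C : ℝ) (Λ0 : ℕ), 0 < σ ∧ 0 < C ∧ ∀ Λ u v H : ℕ, Λ0 ≤ Λ → b + 2 ≤ u →
      H ≤ b ^ (Λ / 2 + 1) →
      Real.log v ≤ (1 / 4 - ε) * Real.log b * Λ → c0 * Real.log b * Λ ≤ Real.log u →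
      ∑ p ∈ (Ico u v).filter Nat.Prime, (cnt b Λ H (p ^ 2) 0 : ℝ) ≤
        C * Real.sqrt ((b : ℝ) ^ Λ) * Real.exp (-σ * Λ) := by
  obtain ⟨σ, C, Λ0, hσ, hC, hmain⟩ := sq_block hb hε hε4 hc0
  obtain ⟨C', hC', hpoly⟩ := exists_poly_mul_exp_le hσ 2
  have hL := log_pos_b hb
  set L := Real.log b with hLdef
  refine ⟨σ / 2, 2 * (1 + L) * C * C', Λ0, by positivity, by positivity, ?_⟩
  intro Λ u v H hΛ hu hH hv hu'
  have hΛn : (0 : ℝ) ≤ Λ := Nat.cast_nonneg _
  set J := Nat.log 2 v + 1 with hJ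
  have hJv : v ≤ u * 2 ^ J := by
    have h1 : v < 2 ^ J := Nat.lt_pow_succ_log_self (by norm_num) _
    calc v ≤ 2 ^ J := h1.le
      _ = 1 * 2 ^ J := (one_mul _).symm
      _ ≤ u * 2 ^ J := Nat.mul_le_mul_right _ (by omega)
  have h0 := dyadic_le (fun p => if p.Prime then (cnt b Λ H (p ^ 2) 0 : ℝ) else 0)
    (fun n => by split_ifs <;> positivity) (u := u) (v := v) (J := J) (by omega) hJv
  simp only [← Finset.sum_filter] at h0
  refine h0.trans ?_
  set W : ℝ := C * Real.sqrt ((b : ℝ) ^ Λ) * ((Λ : ℝ) + 1) * Real.exp (-σ * Λ) with hW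
  have hW0 : 0 ≤ W := by positivity
  have h1 : ∀ j ∈ (range J).filter (fun j => u * 2 ^ j < v),
      ∑ p ∈ (Ico (u * 2 ^ j) (2 * (u * 2 ^ j))).filter Nat.Prime, (cnt b Λ H (p ^ 2) 0 : ℝ) ≤ W := by
    intro j hj
    rw [mem_filter] at hj
    have h2j : 1 ≤ 2 ^ j := Nat.one_le_two_pow
    have hPu : u ≤ u * 2 ^ j := Nat.le_mul_of_pos_right _ h2j
    refine hmain Λ (u * 2 ^ j) H hΛ (by omega) hH ?_ ?_
    · refine (Real.log_le_log ?_ ?_).trans hv
      · have : 0 < u * 2 ^ j := by omega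
        exact_mod_cast this
      · exact_mod_cast hj.2.le
    · refine hu'.trans (Real.log_le_log ?_ ?_)
      · have : 0 < u := by omega
        exact_mod_cast this
      · exact_mod_cast hPu
  refine (Finset.sum_le_sum h1).trans ?_
  rw [sum_const, nsmul_eq_mul]
  have hcard : (((range J).filter (fun j => u * 2 ^ j < v)).card : ℝ) ≤ 2 * (1 + L) * ((Λ : ℝ) + 1) := by
    have h2 : (((range J).filter (fun j => u * 2 ^ j < v)).card : ℝ) ≤ J := by
      have := card_filter_le (range J) (fun j => u * 2 ^ j < v)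
      rw [card_range] at this
      exact_mod_cast this
    refine h2.trans ?_
    rcases Nat.eq_zero_or_pos v with h | h
    · rw [hJ, h]
      simp only [Nat.log_zero_right]
      push_cast
      nlinarith
    · have h3 : 2 ^ Nat.log 2 v ≤ v := Nat.pow_log_le_self 2 (by omega)
      have h4 : ((2 : ℝ)) ^ Nat.log 2 v ≤ v := by exact_mod_cast h3
      have h5 := Real.log_le_log (by positivity) h4
      rw [Real.log_pow] at h5
      have h6 : (1 : ℝ) / 2 ≤ Real.log 2 := by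
        have := Real.log_two_gt_d9; linarith
      have h7 : (Nat.log 2 v : ℝ) * (1 / 2) ≤ (Nat.log 2 v : ℝ) * Real.log 2 :=
        mul_le_mul_of_nonneg_left h6 (Nat.cast_nonneg _)
      have h8 : (1 / 4 - ε) * L * Λ ≤ L * Λ := by
        have : 0 ≤ (3 / 4 + ε) * (L * Λ) := by positivity
        linarith
      rw [hJ]
      push_cast
      nlinarith
  calc (((range J).filter (fun j => u * 2 ^ j < v)).card : ℝ) * W
      ≤ 2 * (1 + L) * ((Λ : ℝ) + 1) * W := mul_le_mul_of_nonneg_right hcard hW0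
    _ = 2 * (1 + L) * C * Real.sqrt ((b : ℝ) ^ Λ) * (((Λ : ℝ) + 1) ^ 2 * Real.exp (-σ * Λ)) := by
        rw [hW]; ring
    _ ≤ 2 * (1 + L) * C * Real.sqrt ((b : ℝ) ^ Λ) * (C' * Real.exp (-(σ / 2) * Λ)) := by
        have := hpoly Λ
        gcongr
    _ = _ := by ring

end Pool.Agent.Pal
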