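import Pool.Agent.PalSieve.WMain
import Pool.Agent.PalSieve.SqTotal

/-!
# The family of palindromes used in the sieve
-/

namespace Pool.Agent.Pal

open Finset

lemma sq_sub_one_dvd_pow (b : ℕ) (n : ℕ) : ((b : ℤ) ^ 2 - 1) ∣ (b : ℤ) ^ (2 * n) - 1 := by
  rw [pow_mul]
  have := sub_dvd_pow_sub_pow ((b : ℤ) ^ 2) 1 n
  rwa [one_pow] at this

/-- Palindromes with an odd number of digits modulo `b^2 - 1`. -/
lemma pal_even_dvd {b : ℕ} (hb : 2 ≤ b) (m : ℕ) : ∀ h, h < b ^ (m + 1) →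
    ((b : ℤ) ^ 2 - 1) ∣ (pal b (2 * m) h : ℤ) - (b : ℤ) ^ m * (2 * (h : ℤ) - ((h % b : ℕ) : ℤ)) := by
  induction m with
  | zero =>
    intro h hh
    have h1 : h % b = h := Nat.mod_eq_of_lt (by simpa using hh)
    rw [mul_zero, pal_zero, h1, pow_zero]
    have : (h : ℤ) - 1 * (2 * (h : ℤ) - (h : ℤ)) = 0 := by ring
    rw [this]
    exact dvd_zero _
  | succ m ih =>
    intro h hh
    have e0 : 2 * (m + 1) = 2 * m + 2 := by ring
    have e1 : 2 * m / 2 + 1 = m + 1 := by omega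
    have hpos : 0 < b ^ (m + 1) := pow_pos (by omega) _
    rw [e0, pal_succ_succ, e1]
    have h1 := ih (h % b ^ (m + 1)) (Nat.mod_lt _ hpos)
    have h2 := Nat.div_add_mod h (b ^ (m + 1))
    have h3 : h % b ^ (m + 1) % b = h % b := Nat.mod_mod_of_dvd _ (dvd_pow_self b (by omega))
    rw [h3] at h1
    set c := h / b ^ (m + 1) with hc
    set h' := h % b ^ (m + 1) with hh'
    set r := h % b with hr
    have h4 : (h : ℤ) = (b : ℤ) ^ (m + 1) * c + h' := by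
      rw [← h2]; push_cast; rfl
    obtain ⟨u, hu⟩ := h1
    obtain ⟨v, hv⟩ := sq_sub_one_dvd_pow b (m + 1)
    refine ⟨b * u - c * v, ?_⟩
    rw [h4]
    have e2 : (b : ℤ) ^ (2 * m + 2) = ((b : ℤ) ^ 2 - 1) * v + 1 := by
      have : (b : ℤ) ^ (2 * (m + 1)) = ((b : ℤ) ^ 2 - 1) * v + 1 := by linarith
      rw [← this]; congr 1
    have e3 : (pal b (2 * m) h' : ℤ) =
        (b : ℤ) ^ m * (2 * (h' : ℤ) - (r : ℤ)) + ((b : ℤ) ^ 2 - 1) * u := by linarith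
    push_cast
    rw [e3, e2]
    have e5 : (b : ℤ) ^ (m + 1) * (b : ℤ) ^ (m + 1) = ((b : ℤ) ^ 2 - 1) * v + 1 := by
      rw [← e2, ← pow_add]; congr 1; ring
    have e6 : (b : ℤ) ^ (m + 1) * (2 * ((b : ℤ) ^ (m + 1) * c + h') - (r : ℤ)) =
        2 * c * ((b : ℤ) ^ (m + 1) * (b : ℤ) ^ (m + 1)) +
        (b : ℤ) ^ (m + 1) * (2 * h' - (r : ℤ)) := by ring
    rw [e6, e5]
    ring

/-- If `m` is even, `h ≡ 1` modulo `b (b^2-1)` gives a palindrome `≡ 1` modulo `b^2 - 1`. -/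
lemma pal_modEq_one {b : ℕ} (hb : 2 ≤ b) {m h : ℕ} (hm : Even m) (hh : h < b ^ (m + 1))
    (h1 : h ≡ 1 [MOD b * (b ^ 2 - 1)]) : (pal b (2 * m) h : ℤ) ≡ 1 [ZMOD (b ^ 2 - 1 : ℕ)] := by
  have hB : ((b ^ 2 - 1 : ℕ) : ℤ) = (b : ℤ) ^ 2 - 1 := by
    have : 1 ≤ b ^ 2 := Nat.one_le_pow _ _ (by omega)
    push_cast [Nat.cast_sub this]
    ring
  have hmodb : h % b = 1 := by
    have h2 : h ≡ 1 [MOD b] := h1.of_mul_right _
    have : h % b = 1 % b := h2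
    rw [this, Nat.mod_eq_of_lt (by omega)]
  have hmodB : ((b : ℤ) ^ 2 - 1) ∣ (h : ℤ) - 1 := by
    have h2 : h ≡ 1 [MOD (b ^ 2 - 1)] := h1.of_mul_left _
    have h3 : (h : ℤ) ≡ ((1 : ℕ) : ℤ) [ZMOD ((b ^ 2 - 1 : ℕ) : ℤ)] := Int.natCast_modEq_iff.mpr h2
    rw [Int.modEq_comm, Int.modEq_iff_dvd, hB] at h3
    push_cast at h3
    exact h3
  obtain ⟨n, hn⟩ := hm
  have hbm : ((b : ℤ) ^ 2 - 1) ∣ (b : ℤ) ^ m - 1 := by
    have := sq_sub_one_dvd_pow b n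
    have e : m = 2 * n := by omega
    rwa [← e] at this
  have h2 := pal_even_dvd hb m h hh
  rw [hmodb] at h2
  rw [Int.modEq_comm, Int.modEq_iff_dvd, hB]
  obtain ⟨x, hx⟩ := hmodB
  obtain ⟨y, hy⟩ := hbm
  obtain ⟨z, hz⟩ := h2
  refine ⟨z + y * (2 * h - 1) + 2 * x, ?_⟩
  have e1 : (pal b (2 * m) h : ℤ) = ((b : ℤ) ^ 2 - 1) * z + (b : ℤ) ^ m * (2 * (h : ℤ) - 1) := by
    push_cast at hz
    linarith
  have e2 : (b : ℤ) ^ m = ((b : ℤ) ^ 2 - 1) * y + 1 := by linarith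
  have e3 : (h : ℤ) = ((b : ℤ) ^ 2 - 1) * x + 1 := by linarith
  rw [e1, e2]
  have e4 : (((b : ℤ) ^ 2 - 1) * y + 1) * (2 * (h : ℤ) - 1) =
      ((b : ℤ) ^ 2 - 1) * (y * (2 * h - 1)) + (2 * h - 1) := by ring
  rw [e4]
  nth_rewrite 2 [e3]
  ring

/-- The last digit is the leading digit. -/
lemma pal_mod_b {b : ℕ} (hb : 2 ≤ b) {m h : ℕ} (hm : 1 ≤ m) (h1 : b ^ m ≤ h) (h2 : h < 2 * b ^ m) :
    pal b (2 * m) h % b = 1 := by
  obtain ⟨n, rfl⟩ : ∃ n, m = n + 1 := ⟨m - 1, by omega⟩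
  have e0 : 2 * (n + 1) = 2 * n + 2 := by ring
  have e1 : 2 * n / 2 + 1 = n + 1 := by omega
  have hpos : 0 < b ^ (n + 1) := pow_pos (by omega) _
  have hc : h / b ^ (n + 1) = 1 := by
    refine Nat.div_eq_of_lt_le (by omega) (by omega)
  rw [e0, pal_succ_succ, e1, hc, one_mul]
  have e2 : b ^ (2 * n + 2) = b * b ^ (2 * n + 1) := by ring
  rw [e2, add_assoc, ← mul_add, Nat.add_mul_mod_self_left, Nat.mod_eq_of_lt (by omega)]

/-- The presieved index set. -/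
def Ifam (b m K : ℕ) : Finset ℕ :=
  (Ico (b ^ m) (2 * b ^ m)).filter
    (fun h => (pal b (2 * m) h : ℤ) ≡ 1 [ZMOD ((K * (b ^ 2 - 1) : ℕ) : ℤ)])

/-- The count modulo `b^2-1`. -/
def N1 (b m : ℕ) : ℕ :=
  ((Ico (b ^ m) (2 * b ^ m)).filter
    (fun h => (pal b (2 * m) h : ℤ) ≡ 1 [ZMOD ((b ^ 2 - 1 : ℕ) : ℤ)])).card

lemma N1_ge {b m : ℕ} (hb : 2 ≤ b) (hm : Even m) (hm4 : 4 ≤ m) :
    (b : ℝ) ^ m / (2 * (b : ℝ) ^ 3) ≤ (N1 b m : ℝ) := by
  have hB3 := sq_sub_one_pos hb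
  set M := b * (b ^ 2 - 1) with hM
  have hM0 : 0 < M := by positivity
  have hMb : M + b = b ^ 3 := by
    have : 1 ≤ b ^ 2 := Nat.one_le_pow _ _ (by omega)
    rw [hM]
    have e : b * (b ^ 2 - 1) + b = b * ((b ^ 2 - 1) + 1) := by ring
    rw [e, Nat.sub_add_cancel this]
    ring
  have hbm : 0 < b ^ m := pow_pos (by omega) _
  set J0 := (b ^ m - 1 + (M - 1)) / M with hJ0
  have hJ1 : b ^ m - 1 ≤ M * J0 := by
    have := Nat.lt_div_mul_add (a := b ^ m - 1 + (M - 1)) hM0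
    rw [← hJ0] at this
    rw [mul_comm]
    omega
  have hJ2 : M * J0 ≤ b ^ m - 1 + (M - 1) := by
    rw [mul_comm]; exact Nat.div_mul_le_self _ _
  have hcard : b ^ m / M ≤ N1 b m := by
    have h1 : ((range (b ^ m / M)).image (fun j => 1 + M * (J0 + j))).card = b ^ m / M := by
      rw [card_image_of_injective, card_range]
      intro x y hxy
      simp only at hxy
      have : M * (J0 + x) = M * (J0 + y) := by omega
      have := Nat.eq_of_mul_eq_mul_left hM0 this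
      omega
    rw [← h1]
    unfold N1
    refine card_le_card ?_
    intro h hh
    obtain ⟨j, hj, rfl⟩ := mem_image.mp hh
    rw [mem_range] at hj
    have hj2 : M * (j + 1) ≤ b ^ m := by
      calc M * (j + 1) ≤ M * (b ^ m / M) := Nat.mul_le_mul_left _ hj
        _ ≤ b ^ m := Nat.mul_div_le _ _
    have e1 : M * (J0 + j) = M * J0 + M * j := by ring
    have e2 : M * (j + 1) = M * j + M := by ring
    rw [mem_filter, mem_Ico]
    have hlt : 1 + M * (J0 + j) < 2 * b ^ m := by omega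
    refine ⟨⟨by omega, hlt⟩, ?_⟩
    refine pal_modEq_one hb hm ?_ ?_
    · refine hlt.trans_le ?_
      rw [pow_succ, mul_comm]
      exact Nat.mul_le_mul_left _ hb
    · rw [← hM]
      have : 1 + M * (J0 + j) ≡ 1 + 0 [MOD M] :=
        Nat.ModEq.add_left _ ((Nat.modEq_zero_iff_dvd).mpr (Dvd.intro _ rfl))
      simpa using this
  have h1 : (b : ℝ) ^ m / M - 1 ≤ ((b ^ m / M : ℕ) : ℝ) := by
    have h2 := Nat.lt_div_mul_add (a := b ^ m) hM0
    have h3 : ((b ^ m : ℕ) : ℝ) < ((b ^ m / M : ℕ) : ℝ) * M + M := by exact_mod_cast h2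
    have hMr : (0 : ℝ) < M := by exact_mod_cast hM0
    rw [sub_le_iff_le_add, div_le_iff₀ hMr]
    push_cast at h3
    nlinarith
  have h2 : ((b ^ m / M : ℕ) : ℝ) ≤ N1 b m := by exact_mod_cast hcard
  refine le_trans ?_ (h1.trans h2)
  have hb0 : (2 : ℝ) ≤ b := by exact_mod_cast hb
  have hbp : (0 : ℝ) < b := by linarith
  have hMr : (0 : ℝ) < M := by exact_mod_cast hM0
  have hMle : (M : ℝ) ≤ (b : ℝ) ^ 3 := by
    have : M ≤ b ^ 3 := by omega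
    exact_mod_cast this
  have h3 : (b : ℝ) ^ m / (b : ℝ) ^ 3 ≤ (b : ℝ) ^ m / M :=
    div_le_div_of_nonneg_left (by positivity) hMr hMle
  have h4 : (2 : ℝ) ≤ (b : ℝ) ^ m / (b : ℝ) ^ 3 := by
    rw [le_div_iff₀ (by positivity)]
    calc 2 * (b : ℝ) ^ 3 ≤ b * (b : ℝ) ^ 3 := mul_le_mul_of_nonneg_right hb0 (by positivity)
      _ = (b : ℝ) ^ 4 := by ring
      _ ≤ (b : ℝ) ^ m := pow_le_pow_right₀ (by linarith) hm4
  have h5 : (b : ℝ) ^ m / (2 * (b : ℝ) ^ 3) = ((b : ℝ) ^ m / (b : ℝ) ^ 3) / 2 := by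
    field_simp
  rw [h5]
  linarith

/-- The error term for the modulus `q`. -/
noncomputable def rr (b m K q : ℕ) : ℝ :=
  2 * (1 / ((K * (b ^ 2 - 1) * q : ℕ) : ℝ) *
    ∑ c ∈ (range (K * (b ^ 2 - 1) * q)).filter
      (fun c => ¬ K * (b ^ 2 - 1) * q ∣ (b ^ 2 - 1) * c),
      S b (2 * m) ((c : ℝ) / ((K * (b ^ 2 - 1) * q : ℕ) : ℝ)))

lemma rr_nonneg (b m K q : ℕ) : 0 ≤ rr b m K q := by
  unfold rr
  have : 0 ≤ ∑ c ∈ (range (K * (b ^ 2 - 1) * q)).filter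
      (fun c => ¬ K * (b ^ 2 - 1) * q ∣ (b ^ 2 - 1) * c),
      S b (2 * m) ((c : ℝ) / ((K * (b ^ 2 - 1) * q : ℕ) : ℝ)) :=
    Finset.sum_nonneg fun _ _ => S_nonneg _ _ _
  positivity

lemma card_Ico_eq_cnt (b m q : ℕ) (a : ℤ) :
    (((Ico (b ^ m) (2 * b ^ m)).filter (fun h : ℕ => (pal b (2 * m) h : ℤ) ≡ a [ZMOD q])).card : ℝ) =
      (cnt b (2 * m) (2 * b ^ m) q a : ℝ) - (cnt b (2 * m) (b ^ m) q a : ℝ) := by
  rw [eq_sub_iff_add_eq, ← Nat.cast_add]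
  congr 1
  unfold cnt
  rw [add_comm, ← card_union_of_disjoint]
  · rw [← filter_union]
    congr 2
    ext h
    simp only [mem_union, mem_range, mem_Ico]
    omega
  · rw [disjoint_left]
    intro k h1 h2
    simp only [mem_filter, mem_range, mem_Ico] at h1 h2
    omega

/-- Equidistribution of the presieved family. -/
lemma Nq_diff_le {b m K q : ℕ} (hb : 2 ≤ b) (hK : 0 < K) (hq : 0 < q)
    (hcop : (K * (b ^ 2 - 1)).Coprime q) :
    |(Sv.Nq (Ifam b m K) (pal b (2 * m)) q : ℝ) - (N1 b m : ℝ) / K / q| ≤ rr b m K q := by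
  have hB3 := sq_sub_one_pos hb
  have hB0 : 0 < b ^ 2 - 1 := by omega
  set B := b ^ 2 - 1 with hB
  set M := K * B * q with hM
  have hM0 : 0 < M := by positivity
  have hgcd : Nat.gcd M B = B := by
    rw [Nat.gcd_comm]
    exact Nat.gcd_eq_left ((Dvd.intro_left K rfl).trans (Dvd.intro _ rfl))
  obtain ⟨α, hα1, hα2⟩ := Nat.chineseRemainder hcop 1 0
  -- the count
  have h1 : (Sv.Nq (Ifam b m K) (pal b (2 * m)) q : ℝ) =
      (((Ico (b ^ m) (2 * b ^ m)).filter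
        (fun h : ℕ => (pal b (2 * m) h : ℤ) ≡ ((α : ℕ) : ℤ) [ZMOD M])).card : ℝ) := by
    congr 1
    unfold Sv.Nq Ifam
    rw [filter_filter]
    congr 1
    refine Finset.filter_congr fun h _ => ?_
    rw [Int.natCast_modEq_iff]
    have e1 : ((pal b (2 * m) h : ℤ) ≡ 1 [ZMOD ((K * B : ℕ) : ℤ)]) ↔
        pal b (2 * m) h ≡ 1 [MOD K * B] := by
      have := Int.natCast_modEq_iff (a := pal b (2 * m) h) (b := 1) (n := K * B)
      rw [Nat.cast_one] at this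
      exact this
    rw [e1, hM, ← Nat.modEq_and_modEq_iff_modEq_mul hcop]
    constructor
    · rintro ⟨a1, a2⟩
      exact ⟨a1.trans hα1.symm, ((Nat.modEq_zero_iff_dvd).mpr a2).trans hα2.symm⟩
    · rintro ⟨a1, a2⟩
      exact ⟨a1.trans hα1, (Nat.modEq_zero_iff_dvd).mp (a2.trans hα2)⟩
  have h2 : ∀ H, cnt b (2 * m) H B ((α : ℕ) : ℤ) = cnt b (2 * m) H B 1 := by
    intro H
    unfold cnt
    congr 1
    refine Finset.filter_congr fun h _ => ?_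
    have e1 : ((α : ℕ) : ℤ) ≡ 1 [ZMOD (B : ℤ)] := by
      have e2 : α ≡ 1 [MOD B] := hα1.of_mul_left K
      have := Int.natCast_modEq_iff.mpr e2
      rw [Nat.cast_one] at this
      exact this
    exact ⟨fun h => h.trans e1, fun h => h.trans e1.symm⟩
  have hH1 : 2 * b ^ m ≤ b ^ (2 * m / 2 + 1) := by
    have e : 2 * m / 2 + 1 = m + 1 := by omega
    rw [e, pow_succ, mul_comm]
    exact Nat.mul_le_mul_left _ hb
  have hH2 : b ^ m ≤ b ^ (2 * m / 2 + 1) := by omega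
  have d1 := cnt_diff_le hb (ℓ := 2 * m) hM0 hH1 ((α : ℕ) : ℤ)
  have d2 := cnt_diff_le hb (ℓ := 2 * m) hM0 hH2 ((α : ℕ) : ℤ)
  rw [← hB, hgcd, h2] at d1 d2
  have h3 : (N1 b m : ℝ) = (cnt b (2 * m) (2 * b ^ m) B 1 : ℝ) - (cnt b (2 * m) (b ^ m) B 1 : ℝ) := by
    rw [← card_Ico_eq_cnt]
    rfl
  have hKr : (0 : ℝ) < K := by exact_mod_cast hK
  have hqr : (0 : ℝ) < q := by exact_mod_cast hq
  have hBr : (0 : ℝ) < B := by exact_mod_cast hB0
  have h4 : (N1 b m : ℝ) / K / q = (B : ℝ) / M * (N1 b m : ℝ) := by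
    rw [hM]
    push_cast
    field_simp
  rw [h1, card_Ico_eq_cnt, h4, h3]
  have h5 : (cnt b (2 * m) (2 * b ^ m) M ((α : ℕ) : ℤ) : ℝ) - (cnt b (2 * m) (b ^ m) M ((α : ℕ) : ℤ) : ℝ) -
      (B : ℝ) / M * ((cnt b (2 * m) (2 * b ^ m) B 1 : ℝ) - (cnt b (2 * m) (b ^ m) B 1 : ℝ)) =
      ((cnt b (2 * m) (2 * b ^ m) M ((α : ℕ) : ℤ) : ℝ) -
        (B : ℝ) / M * (cnt b (2 * m) (2 * b ^ m) B 1 : ℝ)) -
      ((cnt b (2 * m) (b ^ m) M ((α : ℕ) : ℤ) : ℝ) -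
        (B : ℝ) / M * (cnt b (2 * m) (b ^ m) B 1 : ℝ)) := by ring
  rw [h5]
  refine (abs_sub _ _).trans ?_
  unfold rr
  rw [← hB, ← hM]
  linarith

/-- The total error. -/
lemma Etot_le {b : ℕ} (hb : 2 ≤ b) {K w : ℕ} (hK : 0 < K) (hKb : K.Coprime b) (hbw : b ≤ w)
    {ε : ℝ} (hε : 0 < ε) (hε4 : ε ≤ 1 / 4) :
    ∃ σ C : ℝ, 0 < σ ∧ 0 < C ∧ ∀ m D : ℕ, 1 ≤ m → 1 ≤ D →
      Real.log ((K * (b ^ 2 - 1) * D : ℕ) : ℝ) ≤ (1 / 4 - ε) * Real.log b * ((2 * m : ℕ) : ℝ) →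
      Sv.Etot w D (rr b m K) ≤ C * (b : ℝ) ^ m * Real.exp (-σ * Real.sqrt ((2 * m : ℕ) : ℝ)) := by
  obtain ⟨σ, C, hσ, hC, hmain⟩ := sum_moduli_weighted hb hε hε4 3
  refine ⟨σ, 2 * C, hσ, by positivity, ?_⟩
  intro m D hm hD hlog
  have hB3 := sq_sub_one_pos hb
  have hB0 : 0 < b ^ 2 - 1 := by omega
  set B := b ^ 2 - 1 with hB
  have hBb : B.Coprime b := by
    have hb1 : 1 ≤ b ^ 2 := Nat.one_le_pow _ _ (by omega)
    have h2 : b ^ 2 - 1 + 1 = b ^ 2 := Nat.sub_add_cancel hb1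
    have h3 : (b ^ 2 - 1).Coprime (b ^ 2) := by
      rw [← h2]; simp
    exact Nat.Coprime.coprime_dvd_right (dvd_pow_self b two_ne_zero) h3
  have h1 := hmain (2 * m) (2 * m) (K * B * D) (by omega) le_rfl (by
    have : 0 < K * B * D := by positivity
    omega) hlog
  have h2 : Real.sqrt ((b : ℝ) ^ (2 * m)) = (b : ℝ) ^ m := by
    rw [mul_comm, pow_mul, Real.sqrt_sq (by positivity)]
  rw [h2] at h1
  have h3 : Sv.Etot w D (rr b m K) ≤ 2 * ∑ q ∈ (Icc 1 (K * B * D)).filter (fun q => q.Coprime b),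
      (q.divisors.card : ℝ) ^ 3 * (1 / (q : ℝ) *
        ∑ c ∈ (range q).filter (fun c => ¬ q ∣ (b ^ 2 - 1) * c), S b (2 * m) ((c : ℝ) / q)) := by
    unfold Sv.Etot
    have hinj : Set.InjOn (fun q => K * B * q) (Sv.MM w D : Set ℕ) := by
      intro x _ y _ hxy
      exact Nat.eq_of_mul_eq_mul_left (by positivity) hxy
    have e1 : ∀ q ∈ Sv.MM w D, (q.divisors.card : ℝ) ^ 3 * rr b m K q ≤
        2 * (((K * B * q).divisors.card : ℝ) ^ 3 * (1 / ((K * B * q : ℕ) : ℝ) *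
          ∑ c ∈ (range (K * B * q)).filter (fun c => ¬ K * B * q ∣ (b ^ 2 - 1) * c),
            S b (2 * m) ((c : ℝ) / ((K * B * q : ℕ) : ℝ)))) := by
      intro q hq
      unfold Sv.MM at hq
      rw [mem_filter, mem_Ico] at hq
      have e2 : q.divisors.card ≤ (K * B * q).divisors.card := by
        refine card_le_card (Nat.divisors_subset_of_dvd ?_ (Dvd.intro_left _ rfl))
        have : 0 < K * B * q := by
          have := hq.1.1
          positivity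
        omega
      have e3 : (q.divisors.card : ℝ) ^ 3 ≤ ((K * B * q).divisors.card : ℝ) ^ 3 :=
        pow_le_pow_left₀ (Nat.cast_nonneg _) (by exact_mod_cast e2) 3
      calc (q.divisors.card : ℝ) ^ 3 * rr b m K q ≤
            ((K * B * q).divisors.card : ℝ) ^ 3 * rr b m K q :=
            mul_le_mul_of_nonneg_right e3 (rr_nonneg _ _ _ _)
        _ = _ := by unfold rr; ring
    refine (Finset.sum_le_sum e1).trans ?_
    rw [← Finset.mul_sum]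
    refine mul_le_mul_of_nonneg_left ?_ (by norm_num)
    rw [← sum_image (f := fun q : ℕ => (q.divisors.card : ℝ) ^ 3 * (1 / (q : ℝ) *
        ∑ c ∈ (range q).filter (fun c => ¬ q ∣ (b ^ 2 - 1) * c), S b (2 * m) ((c : ℝ) / q))) hinj]
    refine sum_le_sum_of_subset_of_nonneg ?_ fun q _ _ => ?_
    · intro x hx
      obtain ⟨q, hq, rfl⟩ := mem_image.mp hx
      unfold Sv.MM at hq
      rw [mem_filter, mem_Ico] at hq
      rw [mem_filter, mem_Icc]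
      refine ⟨⟨?_, Nat.mul_le_mul_left _ hq.1.2.le⟩, ?_⟩
      · have : 0 < K * B * q := by
          have := hq.1.1
          positivity
        omega
      · refine Nat.Coprime.mul_left (Nat.Coprime.mul_left hKb hBb) ?_
        refine Nat.Coprime.symm (Nat.Coprime.symm ?_)
        rw [Nat.coprime_iff_gcd_eq_one]
        by_contra hne
        obtain ⟨p, hp, hpd⟩ := Nat.exists_prime_and_dvd hne
        have p1 : p ∣ q := hpd.trans (Nat.gcd_dvd_left _ _)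
        have p2 : p ∣ b := hpd.trans (Nat.gcd_dvd_right _ _)
        have p3 := hq.2 p (Nat.mem_primeFactors.mpr ⟨hp, p1, by omega⟩)
        have p4 := Nat.le_of_dvd (by omega) p2
        omega
    · have : 0 ≤ ∑ c ∈ (range q).filter (fun c => ¬ q ∣ (b ^ 2 - 1) * c),
          S b (2 * m) ((c : ℝ) / q) := Finset.sum_nonneg fun _ _ => S_nonneg _ _ _
      positivity
  calc Sv.Etot w D (rr b m K) ≤ 2 * (C * (b : ℝ) ^ m * Real.exp (-σ * Real.sqrt ((2 * m : ℕ) : ℝ))) :=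
        h3.trans (mul_le_mul_of_nonneg_left h1 (by norm_num))
    _ = _ := by ring

end Pool.Agent.Pal
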