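import Pool.Agent.PalSieve.PalFam

/-!
# Palindromes with at most five prime factors
-/

namespace Pool.Agent.Pal

open Finset

/-- Product of the primes `p ≤ w` not dividing `b`. -/
def Kp (b w : ℕ) : ℕ := ∏ p ∈ (Icc 1 w).filter (fun p => p.Prime ∧ ¬ p ∣ b), p

lemma Kp_pos (b w : ℕ) : 0 < Kp b w :=
  Finset.prod_pos fun p hp => ((mem_filter.mp hp).2.1).pos

lemma Kp_coprime (b w : ℕ) : (Kp b w).Coprime b := by
  unfold Kp
  refine Nat.Coprime.prod_left fun p hp => ?_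
  have := (mem_filter.mp hp).2
  exact (Nat.Prime.coprime_iff_not_dvd this.1).mpr this.2

lemma prime_dvd_Kp {b w p : ℕ} (hp : p.Prime) (hpw : p ≤ w) (hpb : ¬ p ∣ b) : p ∣ Kp b w :=
  Finset.dvd_prod_of_mem (fun p : ℕ => p)
    (mem_filter.mpr ⟨mem_Icc.mpr ⟨hp.one_le, hpw⟩, hp, hpb⟩)

lemma Kp_le {p b w : ℕ} (hp : p.Prime) (h : p ∣ Kp b w) : p ≤ w := by
  unfold Kp at h
  obtain ⟨q, hq, hpq⟩ := (Prime.dvd_finsetProd_iff hp.prime (fun p : ℕ => p)).mp h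
  rw [mem_filter, mem_Icc] at hq
  have := (Nat.prime_dvd_prime_iff_eq hp hq.2.1).mp hpq
  omega

lemma coprime_of_MM {b w q D : ℕ} (hb : 2 ≤ b) (hbw : b + 1 ≤ w) (hq : q ∈ Sv.MM w D) :
    (Kp b w * (b ^ 2 - 1)).Coprime q := by
  unfold Sv.MM at hq
  rw [mem_filter, mem_Ico] at hq
  rw [Nat.coprime_iff_gcd_eq_one]
  by_contra hne
  obtain ⟨p, hp, hpd⟩ := Nat.exists_prime_and_dvd hne
  have p1 : p ∣ q := hpd.trans (Nat.gcd_dvd_right _ _)
  have p2 : p ∣ Kp b w * (b ^ 2 - 1) := hpd.trans (Nat.gcd_dvd_left _ _)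
  have p3 := hq.2 p (Nat.mem_primeFactors.mpr ⟨hp, p1, by omega⟩)
  rcases (Nat.Prime.dvd_mul hp).mp p2 with h | h
  · have := Kp_le hp h
    omega
  · have e : b ^ 2 - 1 = (b - 1) * (b + 1) := by
      obtain ⟨c, rfl⟩ : ∃ c, b = c + 1 := ⟨b - 1, by omega⟩
      have : (c + 1) ^ 2 = c * (c + 1 + 1) + 1 := by ring
      rw [this]
      simp
    rw [e] at h
    rcases (Nat.Prime.dvd_mul hp).mp h with h | h
    · have := Nat.le_of_dvd (by omega) h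
      omega
    · have := Nat.le_of_dvd (by omega) h
      omega

lemma primes_gt {b w m h : ℕ} (hb : 2 ≤ b) (hm : 1 ≤ m) (hh : h ∈ Ifam b m (Kp b w)) :
    ∀ p ∈ (pal b (2 * m) h).primeFactors, w < p := by
  intro p hp
  unfold Ifam at hh
  rw [mem_filter, mem_Ico] at hh
  obtain ⟨hp1, hp2, hp3⟩ := Nat.mem_primeFactors.mp hp
  by_contra hle
  push Not at hle
  by_cases hpb : p ∣ b
  · have h1 := pal_mod_b hb hm hh.1.1 hh.1.2
    have h2 : p ∣ pal b (2 * m) h % b := (Nat.dvd_mod_iff hpb).mpr hp2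
    rw [h1] at h2
    exact hp1.one_lt.ne' (Nat.dvd_one.mp h2)
  · have h1 : (p : ℤ) ∣ ((Kp b w * (b ^ 2 - 1) : ℕ) : ℤ) :=
      Int.natCast_dvd_natCast.mpr ((prime_dvd_Kp hp1 hle hpb).mul_right _)
    have h2 := (Int.modEq_iff_dvd.mp hh.2)
    have h3 : (p : ℤ) ∣ 1 - (pal b (2 * m) h : ℤ) := h1.trans h2
    have h4 : (p : ℤ) ∣ (pal b (2 * m) h : ℤ) := Int.natCast_dvd_natCast.mpr hp2
    have h5 : (p : ℤ) ∣ 1 := by
      have := dvd_add h3 h4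
      simpa using this
    have h6 : p ∣ 1 := by exact_mod_cast h5
    exact hp1.one_lt.ne' (Nat.dvd_one.mp h6)

/-- The parameter `Y`. -/
lemma exists_Y (b m : ℕ) : ∃ Y : ℕ, b ^ (5 * (2 * m + 1)) < Y ^ 804 :=
  ⟨b ^ (5 * (2 * m + 1)) + 1, (Nat.lt_succ_self _).trans_le (Nat.le_self_pow (by norm_num) _)⟩

/-- The parameter `Y`. -/
def YY (b m : ℕ) : ℕ := Nat.find (exists_Y b m)

lemma YY_spec (b m : ℕ) : b ^ (5 * (2 * m + 1)) < (YY b m) ^ 804 := Nat.find_spec (exists_Y b m)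

lemma YY_min {b m Z : ℕ} (h : Z < YY b m) : Z ^ 804 ≤ b ^ (5 * (2 * m + 1)) := by
  have := Nat.find_min (exists_Y b m) h
  omega

lemma YY_ge {b m Y0 : ℕ} (hb : 2 ≤ b) (hm : Y0 ^ 804 ≤ m) : Y0 ≤ YY b m := by
  by_contra hlt
  push Not at hlt
  have h1 := YY_spec b m
  have h2 : (YY b m) ^ 804 ≤ Y0 ^ 804 := Nat.pow_le_pow_left hlt.le _
  have h3 : m < b ^ (5 * (2 * m + 1)) :=
    (Nat.lt_pow_self (by omega : 1 < b)).trans_le (Nat.pow_le_pow_right (by omega) (by omega))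
  omega

lemma log_YY_gt {b m : ℕ} (hb : 2 ≤ b) (hY : 2 ≤ YY b m) :
    5 * (2 * (m : ℝ) + 1) * Real.log b / 804 < Real.log (YY b m) := by
  have h1 : ((b ^ (5 * (2 * m + 1)) : ℕ) : ℝ) < (((YY b m) ^ 804 : ℕ) : ℝ) := by
    exact_mod_cast YY_spec b m
  push_cast at h1
  have hb0 : (0 : ℝ) < b := by
    have : (2 : ℝ) ≤ b := by exact_mod_cast hb
    linarith
  have h2 := Real.log_lt_log (by positivity) h1
  rw [Real.log_pow, Real.log_pow] at h2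
  push_cast at h2
  linarith

lemma log_YY_le {b m : ℕ} (hb : 2 ≤ b) (hY : 2 ≤ YY b m) :
    Real.log (YY b m) ≤ Real.log 2 + 5 * (2 * (m : ℝ) + 1) * Real.log b / 804 := by
  have h1 : (((YY b m - 1) ^ 804 : ℕ) : ℝ) ≤ ((b ^ (5 * (2 * m + 1)) : ℕ) : ℝ) := by
    exact_mod_cast YY_min (b := b) (m := m) (Z := YY b m - 1) (by omega)
  have hb0 : (0 : ℝ) < b := by
    have : (2 : ℝ) ≤ b := by exact_mod_cast hb
    linarith
  have hZ : (1 : ℝ) ≤ ((YY b m - 1 : ℕ) : ℝ) := by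
    have : 1 ≤ YY b m - 1 := by omega
    exact_mod_cast this
  have h3 : ((YY b m : ℕ) : ℝ) ≤ 2 * ((YY b m - 1 : ℕ) : ℝ) := by
    have : YY b m ≤ 2 * (YY b m - 1) := by omega
    exact_mod_cast this
  have hY0 : (0 : ℝ) < (YY b m : ℝ) := by
    have : 0 < YY b m := by omega
    exact_mod_cast this
  rw [Nat.cast_pow, Nat.cast_pow] at h1
  have h2 := Real.log_le_log (by positivity) h1
  rw [Real.log_pow, Real.log_pow] at h2
  have h4 := Real.log_le_log hY0 h3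
  rw [Real.log_mul (by norm_num) (by linarith)] at h4
  push_cast at h2
  have h5 : Real.log ((YY b m - 1 : ℕ) : ℝ) ≤ 5 * (2 * (m : ℝ) + 1) * Real.log b / 804 := by
    linarith
  linarith

/-- The set of `h` that are counted. -/
def GG (b m : ℕ) : Finset ℕ :=
  (Ico (b ^ m) (2 * b ^ m)).filter (fun h =>
    ArithmeticFunction.cardFactors (pal b (2 * m) h) ≤ 5 ∧
    ∀ p ∈ (pal b (2 * m) h).primeFactors, b ^ (40 * (2 * m + 1)) ≤ p ^ 804)

lemma Good_subset {b m K : ℕ} :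
    Sv.Good (YY b m) (Ifam b m K) (pal b (2 * m)) ⊆ GG b m := by
  intro h hh
  unfold Sv.Good Ifam at hh
  unfold GG
  rw [mem_filter, mem_filter] at hh
  rw [mem_filter]
  refine ⟨hh.1.1, hh.2.1, fun p hp => ?_⟩
  have h1 := hh.2.2 p hp
  calc b ^ (40 * (2 * m + 1)) = (b ^ (5 * (2 * m + 1))) ^ 8 := by
        rw [← pow_mul]; congr 1; ring
    _ ≤ (YY b m ^ 804) ^ 8 := Nat.pow_le_pow_left (YY_spec b m).le _
    _ = (YY b m ^ 8) ^ 804 := by rw [← pow_mul, ← pow_mul]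
    _ ≤ p ^ 804 := Nat.pow_le_pow_left h1 _

lemma Nq_le_cnt (b m K q : ℕ) :
    (Sv.Nq (Ifam b m K) (pal b (2 * m)) q : ℝ) ≤ (cnt b (2 * m) (2 * b ^ m) q 0 : ℝ) := by
  have : Sv.Nq (Ifam b m K) (pal b (2 * m)) q ≤ cnt b (2 * m) (2 * b ^ m) q 0 := by
    unfold Sv.Nq Ifam cnt
    refine card_le_card fun h hh => ?_
    rw [mem_filter, mem_filter, mem_Ico] at hh
    rw [mem_filter, mem_range]
    refine ⟨hh.1.1.2, ?_⟩
    rw [Int.modEq_zero_iff_dvd]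
    exact Int.natCast_dvd_natCast.mpr hh.2
  exact_mod_cast this

end Pool.Agent.Pal
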