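import Pool.Agent.PalSieve.Mertens

/-!
# Reciprocal sums over integers without small prime factors
-/

namespace Pool.Agent.Sv

open Finset

/-- Sum of `1 / n` over `n < N` all of whose prime factors exceed `w`. -/
noncomputable def L0 (w N : ℕ) : ℝ :=
  ∑ n ∈ (Ico 1 N).filter (fun n => ∀ p ∈ n.primeFactors, w < p), (1 : ℝ) / n

/-- Sum of `1 / n` over `n < N` all of whose prime factors lie strictly between `w` and `z`. -/
noncomputable def LL (w z N : ℕ) : ℝ :=
  ∑ n ∈ (Ico 1 N).filter (fun n => ∀ p ∈ n.primeFactors, w < p ∧ p < z), (1 : ℝ) / n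

lemma rough_iff {w n : ℕ} (hn : n ≠ 0) :
    (∀ p ∈ n.primeFactors, w < p) ↔ (primorial w).Coprime n := by
  constructor
  · intro h
    unfold primorial
    rw [Nat.coprime_prod_left_iff]
    intro p hp
    rw [mem_filter, mem_range] at hp
    rw [hp.2.coprime_iff_not_dvd]
    intro hd
    have := h p (Nat.mem_primeFactors.mpr ⟨hp.2, hd, hn⟩)
    omega
  · intro h p hp
    rw [Nat.mem_primeFactors] at hp
    by_contra hcon
    push Not at hcon
    unfold primorial at h
    rw [Nat.coprime_prod_left_iff] at h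
    have := h p (mem_filter.mpr ⟨mem_range.mpr (by omega), hp.1⟩)
    rw [hp.1.coprime_iff_not_dvd] at this
    exact this hp.2.1

/-- Number of `n < N` coprime to `K`. -/
noncomputable def F (K N : ℕ) : ℝ := (((range N).filter (fun n => K.Coprime n)).card : ℝ)

lemma F_succ (K N : ℕ) : F K (N + 1) = F K N + if K.Coprime N then 1 else 0 := by
  unfold F
  rw [range_add_one, filter_insert]
  split_ifs with h
  · rw [card_insert_of_notMem (by simp)]
    push_cast
    ring
  · ring

lemma F_mul (K q : ℕ) : F K (K * q) = q * (K.totient : ℝ) := by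
  unfold F
  rw [← Nat.cast_mul]
  congr 1
  induction q with
  | zero => simp
  | succ q ih =>
    have h1 : range (K * (q + 1)) = range (K * q) ∪ Ico (K * q) (K * q + K) := by
      ext n
      simp only [mem_union, mem_range, mem_Ico]
      constructor
      · intro h
        rw [mul_add, mul_one] at h
        omega
      · intro h
        rw [mul_add, mul_one]
        omega
    rw [h1, filter_union, card_union_of_disjoint, ih, Nat.filter_coprime_Ico_eq_totient]
    · ring
    · rw [disjoint_left]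
      intro n h1 h2
      simp only [mem_filter, mem_range, mem_Ico] at h1 h2
      omega

lemma F_add_le (K N r : ℕ) : F K N ≤ F K (N + r) ∧ F K (N + r) ≤ F K N + r := by
  induction r with
  | zero => simp
  | succ r ih =>
    rw [← add_assoc, F_succ]
    push_cast
    constructor
    · split_ifs <;> linarith [ih.1]
    · split_ifs <;> linarith [ih.2]

lemma abs_F_sub_le {K : ℕ} (hK : 0 < K) (N : ℕ) :
    |F K N - (K.totient : ℝ) / K * N| ≤ K := by
  have hKr : (0 : ℝ) < K := by exact_mod_cast hK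
  have h1 := Nat.mod_add_div N K
  set q := N / K
  set r := N % K
  have hr : r < K := Nat.mod_lt _ hK
  have hrr : (r : ℝ) ≤ K := by exact_mod_cast hr.le
  have hφ : (K.totient : ℝ) ≤ K := by exact_mod_cast Nat.totient_le K
  have h2 := F_add_le K (K * q) r
  rw [F_mul] at h2
  have h3 : N = K * q + r := by omega
  have h4 : (K.totient : ℝ) / K * N = q * K.totient + K.totient / K * r := by
    rw [h3]
    push_cast
    field_simp
  have h5 : (K.totient : ℝ) / K * r ≤ r := by
    have : (K.totient : ℝ) / K ≤ 1 := by rw [div_le_one hKr]; exact hφ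
    calc (K.totient : ℝ) / K * r ≤ 1 * r := mul_le_mul_of_nonneg_right this (Nat.cast_nonneg _)
      _ = r := one_mul _
  have h6 : 0 ≤ (K.totient : ℝ) / K * r := by positivity
  rw [h4, h3, abs_le]
  constructor <;> linarith [h2.1, h2.2]

lemma abs_harmonic_sub_log (N : ℕ) (hN : 1 ≤ N) :
    |∑ k ∈ Ico 1 N, (1 : ℝ) / k - Real.log N| ≤ 1 := by
  obtain ⟨n, rfl⟩ : ∃ n, N = n + 1 := ⟨N - 1, by omega⟩
  have h1 := log_add_one_le_harmonic n
  have h2 := harmonic_le_one_add_log n
  rw [harmonic_eq_sum_Icc] at h1 h2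
  have h3 : Ico 1 (n + 1) = Icc 1 n := by
    ext k; simp only [mem_Ico, mem_Icc]; omega
  rw [h3]
  push_cast at h1 h2 ⊢
  simp only [one_div]
  have h4 : Real.log n ≤ Real.log (n + 1) := by
    rcases Nat.eq_zero_or_pos n with h | h
    · rw [h]; simp
    · have : (0 : ℝ) < n := by exact_mod_cast h
      exact Real.log_le_log this (by linarith)
  rw [abs_le]
  constructor <;> linarith

/-- The reciprocal sum over the integers without prime factors up to `w`. -/
theorem exists_L0 (w : ℕ) : ∃ c C : ℝ, 0 < c ∧ c ≤ 1 ∧ 0 < C ∧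
    ∀ N : ℕ, 1 ≤ N → |L0 w N - c * Real.log N| ≤ C := by
  set K := primorial w with hK
  have hK0 : 0 < K := primorial_pos w
  have hKr : (0 : ℝ) < K := by exact_mod_cast hK0
  set c : ℝ := (K.totient : ℝ) / K with hc
  have hφ : 0 < K.totient := Nat.totient_pos.mpr hK0
  have hφr : (0 : ℝ) < K.totient := by exact_mod_cast hφ
  have hc0 : 0 < c := by positivity
  have hc1 : c ≤ 1 := by
    rw [hc, div_le_one hKr]
    exact_mod_cast Nat.totient_le K
  refine ⟨c, 2 * K + 1, hc0, hc1, by positivity, ?_⟩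
  intro N hN
  have h1 : L0 w N = ∑ k ∈ Ico 1 N, ((F K (k + 1) - c * ((k + 1 : ℕ) : ℝ)) - (F K k - c * k)) *
      (1 / (k : ℝ)) + c * ∑ k ∈ Ico 1 N, (1 : ℝ) / k := by
    unfold L0
    rw [Finset.mul_sum, ← sum_add_distrib, sum_filter]
    refine Finset.sum_congr rfl fun k hk => ?_
    rw [mem_Ico] at hk
    have hk0 : k ≠ 0 := by omega
    rw [F_succ]
    by_cases h : (primorial w).Coprime k
    · rw [if_pos ((rough_iff hk0).mpr h), if_pos h]
      push_cast
      ring
    · rw [if_neg (fun h' => h ((rough_iff hk0).mp h')), if_neg h]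
      push_cast
      ring
  have h2 := abel_bound (E := fun k => F K k - c * k) (g := fun k : ℕ => 1 / (k : ℝ)) (M := K)
    (n := 1) (fun k _ => abs_F_sub_le hK0 k)
    (fun k hk => one_div_le_one_div_of_le (by
      have : 0 < k := by omega
      exact_mod_cast this) (by push_cast; linarith))
    (fun k _ => by positivity) hN
  have h3 := abs_harmonic_sub_log N hN
  have h4 : |c * (∑ k ∈ Ico 1 N, (1 : ℝ) / k - Real.log N)| ≤ 1 := by
    rw [abs_mul, abs_of_pos hc0]
    calc c * |∑ k ∈ Ico 1 N, (1 : ℝ) / k - Real.log N| ≤ 1 * 1 :=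
          mul_le_mul hc1 h3 (abs_nonneg _) zero_le_one
      _ = 1 := one_mul _
  rw [h1]
  have h5 : (∑ k ∈ Ico 1 N, ((F K (k + 1) - c * ((k + 1 : ℕ) : ℝ)) - (F K k - c * k)) *
      (1 / (k : ℝ)) + c * ∑ k ∈ Ico 1 N, (1 : ℝ) / k - c * Real.log N) =
      ∑ k ∈ Ico 1 N, ((F K (k + 1) - c * ((k + 1 : ℕ) : ℝ)) - (F K k - c * k)) *
      (1 / (k : ℝ)) + c * (∑ k ∈ Ico 1 N, (1 : ℝ) / k - Real.log N) := by ring
  rw [h5]
  refine (abs_add_le _ _).trans ?_
  have h6 : 2 * (K : ℝ) * (1 / ((1 : ℕ) : ℝ)) = 2 * K := by push_cast; ring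
  rw [h6] at h2
  exact add_le_add h2 h4

lemma LL_eq_L0 {w z N : ℕ} (hN : N ≤ z) : LL w z N = L0 w N := by
  unfold LL L0
  refine Finset.sum_congr ?_ fun _ _ => rfl
  refine Finset.filter_congr fun n hn => ?_
  rw [mem_Ico] at hn
  constructor
  · exact fun h p hp => (h p hp).1
  · intro h p hp
    refine ⟨h p hp, ?_⟩
    have := Nat.le_of_mem_primeFactors hp
    omega

/-- The Buchstab identity, one step. -/
lemma LL_buchstab {w z N : ℕ} (hwz : w < z) (hN : N ≤ z ^ 2) :
    L0 w N = LL w z N +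
      ∑ q ∈ (Ico z N).filter Nat.Prime, (1 : ℝ) / q * L0 w ((N - 1) / q + 1) := by
  classical
  unfold L0 LL
  rw [← Finset.sum_filter_add_sum_filter_not
    ((Ico 1 N).filter (fun n => ∀ p ∈ n.primeFactors, w < p))
    (fun n => ∀ p ∈ n.primeFactors, p < z)]
  congr 1
  · rw [filter_filter]
    refine Finset.sum_congr ?_ fun _ _ => rfl
    refine Finset.filter_congr fun n _ => ?_
    constructor
    · rintro ⟨h1, h2⟩ p hp
      exact ⟨h1 p hp, h2 p hp⟩
    · intro h
      exact ⟨fun p hp => (h p hp).1, fun p hp => (h p hp).2⟩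
  · have h1 : ∑ q ∈ (Ico z N).filter Nat.Prime, (1 : ℝ) / q *
        ∑ n ∈ (Ico 1 ((N - 1) / q + 1)).filter (fun n => ∀ p ∈ n.primeFactors, w < p),
          (1 : ℝ) / n =
        ∑ x ∈ ((Ico z N).filter Nat.Prime).sigma (fun q =>
          (Ico 1 ((N - 1) / q + 1)).filter (fun n => ∀ p ∈ n.primeFactors, w < p)),
          (1 : ℝ) / ((x.1 * x.2 : ℕ) : ℝ) := by
      rw [Finset.sum_sigma]
      refine Finset.sum_congr rfl fun q _ => ?_
      rw [Finset.mul_sum]
      refine Finset.sum_congr rfl fun n _ => ?_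
      push_cast
      rw [div_mul_div_comm, one_mul]
    rw [h1]
    symm
    refine Finset.sum_bij (fun x _ => x.1 * x.2) ?_ ?_ ?_ ?_
    · rintro ⟨q, m⟩ hx
      simp only [mem_sigma, mem_filter, mem_Ico] at hx ⊢
      obtain ⟨⟨⟨q1, q2⟩, q3⟩, ⟨m1, m2⟩, m3⟩ := hx
      have hq0 : 0 < q := q3.pos
      have hqm : q * m < N := by
        have : m ≤ (N - 1) / q := by omega
        rw [Nat.le_div_iff_mul_le hq0, mul_comm] at this
        omega
      refine ⟨⟨⟨Nat.mul_pos hq0 m1, hqm⟩, ?_⟩, ?_⟩
      · intro p hp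
        rw [Nat.primeFactors_mul hq0.ne' (by omega), mem_union, q3.primeFactors,
          mem_singleton] at hp
        rcases hp with h | h
        · rw [h]; omega
        · exact m3 p h
      · intro h
        have := h q (Nat.mem_primeFactors.mpr ⟨q3, Dvd.intro _ rfl, by
          have : 0 < q * m := Nat.mul_pos hq0 m1
          omega⟩)
        omega
    · rintro ⟨q, m⟩ hx ⟨q', m'⟩ hx' h
      simp only [mem_sigma, mem_filter, mem_Ico] at hx hx' h
      obtain ⟨⟨⟨q1, q2⟩, q3⟩, ⟨m1, m2⟩, m3⟩ := hx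
      obtain ⟨⟨⟨q1', q2'⟩, q3'⟩, ⟨m1', m2'⟩, m3'⟩ := hx'
      have hq0 : 0 < q := q3.pos
      have hqm : q * m < N := by
        have : m ≤ (N - 1) / q := by omega
        rw [Nat.le_div_iff_mul_le hq0, mul_comm] at this
        omega
      have hqq : q = q' := by
        by_contra hne
        have h2 : q' ∣ q * m := by rw [h]; exact Dvd.intro _ rfl
        have h3 : q' ∣ m := by
          refine (Nat.Coprime.dvd_of_dvd_mul_left ?_ h2)
          exact (Nat.coprime_primes q3' q3).mpr (fun e => hne e.symm)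
        have h4 : q' ≤ m := Nat.le_of_dvd (by omega) h3
        have h5 : z ^ 2 ≤ q * m := by
          rw [sq]
          exact Nat.mul_le_mul q1 (q1'.trans h4)
        omega
      subst hqq
      have hmm : m = m' := Nat.eq_of_mul_eq_mul_left hq0 h
      rw [hmm]
    · intro n hn
      simp only [mem_filter, mem_Ico] at hn
      obtain ⟨⟨⟨n1, n2⟩, n3⟩, n4⟩ := hn
      push Not at n4
      obtain ⟨q, hq, hqz⟩ := n4
      have hq' := Nat.mem_primeFactors.mp hq
      obtain ⟨m, hm⟩ := hq'.2.1
      have hq0 : 0 < q := hq'.1.pos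
      have hm0 : 0 < m := by
        rcases Nat.eq_zero_or_pos m with h | h
        · rw [h] at hm; omega
        · exact h
      refine ⟨⟨q, m⟩, ?_, hm.symm⟩
      simp only [mem_sigma, mem_filter, mem_Ico]
      refine ⟨⟨⟨hqz, ?_⟩, hq'.1⟩, ⟨hm0, ?_⟩, ?_⟩
      · have : q ≤ n := Nat.le_of_dvd (by omega) hq'.2.1
        omega
      · have : m ≤ (N - 1) / q := by
          rw [Nat.le_div_iff_mul_le hq0, mul_comm, ← hm]
          omega
        omega
      · intro p hp
        rw [Nat.mem_primeFactors] at hp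
        exact n3 p (Nat.mem_primeFactors.mpr ⟨hp.1, hp.2.1.trans (hm ▸ Dvd.intro_left _ rfl),
          by omega⟩)
    · rintro ⟨q, m⟩ _
      rfl

/-- The main function: `JJ (log z) (log N) = log z * I(log N / log z)`, for `z ≤ N ≤ z^2`. -/
noncomputable def JJ (u v : ℝ) : ℝ := 2 * v - u - v * (Real.log v - Real.log u)

/-- Asymptotic formula up to `z`. -/
lemma LL_low {w : ℕ} {c C : ℝ} (h : ∀ N : ℕ, 1 ≤ N → |L0 w N - c * Real.log N| ≤ C) {z N : ℕ}
    (hN : 1 ≤ N) (hz : N ≤ z) : |LL w z N - c * Real.log N| ≤ C := by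
  rw [LL_eq_L0 hz]
  exact h N hN

/-- Asymptotic formula from `z` to `z^2`. -/
lemma LL_high {w : ℕ} {c C : ℝ} (hc0 : 0 < c) (hc1 : c ≤ 1) (hC : 0 < C)
    (h : ∀ N : ℕ, 1 ≤ N → |L0 w N - c * Real.log N| ≤ C) {z N : ℕ}
    (hz3 : 3 ≤ z) (hwz : w < z) (hzN : z ≤ N) (hN : N ≤ z ^ 2) :
    |LL w z N - c * JJ (Real.log z) (Real.log N)| ≤ 11 * C + 60 := by
  have hb := LL_buchstab hwz hN
  have hz0 : (0 : ℝ) < z := by
    have : 0 < z := by omega
    exact_mod_cast this
  have hlogz : 1 ≤ Real.log z := by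
    rw [Real.le_log_iff_exp_le hz0]
    have : Real.exp 1 ≤ 3 := (Real.exp_one_lt_d9.trans (by norm_num)).le
    have h3 : (3 : ℝ) ≤ z := by exact_mod_cast hz3
    linarith
  have hlogzN : Real.log z ≤ Real.log N := Real.log_le_log hz0 (by exact_mod_cast hzN)
  have hlogN2 : Real.log N ≤ 2 * Real.log z := by
    have : Real.log N ≤ Real.log ((z ^ 2 : ℕ) : ℝ) := Real.log_le_log
      (by have : 0 < N := by omega
          exact_mod_cast this) (by exact_mod_cast hN)
    push_cast at this
    rwa [Real.log_pow, Nat.cast_two] at this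
  set u := Real.log z with hu
  set v := Real.log N with hv
  set S1 := ∑ q ∈ (Ico z N).filter Nat.Prime, (1 : ℝ) / q with hS1
  set S2 := ∑ q ∈ (Ico z N).filter Nat.Prime, Real.log q / q with hS2
  have hS1b := abs_sum_inv_sub_le (n := z) (m := N) (by omega) hzN
  have hS2b := abs_sum_log_sub_le (n := z) (m := N) (by omega) hzN
  rw [← hS1, ← hu, ← hv] at hS1b
  rw [← hS2, ← hu, ← hv] at hS2b
  have hll : Real.log v - Real.log u ≤ 1 := by
    rw [← Real.log_div (by linarith) (by linarith)]
    have h1 : v / u ≤ 2 := by rw [div_le_iff₀ (by linarith)]; exact hlogN2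
    have h2 : Real.log (v / u) ≤ Real.log 2 := Real.log_le_log (by
      have : 0 < v := by linarith
      have : 0 < u := by linarith
      positivity) h1
    have := Real.log_two_lt_d9
    linarith
  have hS1up : S1 ≤ 10 := by
    have h1 : 9 / u ≤ 9 := by rw [div_le_iff₀ (by linarith)]; linarith
    linarith [(abs_le.mp hS1b).2]
  -- the sum of the error terms
  have hsum : |∑ q ∈ (Ico z N).filter Nat.Prime, (1 : ℝ) / q * L0 w ((N - 1) / q + 1) -
      c * (v * S1 - S2)| ≤ (C + 1) * S1 := by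
    have h1 : ∑ q ∈ (Ico z N).filter Nat.Prime, (1 : ℝ) / q * L0 w ((N - 1) / q + 1) -
      c * (v * S1 - S2) = ∑ q ∈ (Ico z N).filter Nat.Prime, (1 : ℝ) / q *
        (L0 w ((N - 1) / q + 1) - c * (v - Real.log q)) := by
      rw [hS1, hS2, Finset.mul_sum, ← Finset.sum_sub_distrib, Finset.mul_sum,
        ← Finset.sum_sub_distrib]
      refine Finset.sum_congr rfl fun q _ => ?_
      ring
    rw [h1, hS1, Finset.mul_sum]
    refine (Finset.abs_sum_le_sum_abs _ _).trans (Finset.sum_le_sum fun q hq => ?_)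
    rw [mem_filter, mem_Ico] at hq
    have hq0 : 0 < q := hq.2.pos
    have hqr : (0 : ℝ) < q := by exact_mod_cast hq0
    have hN0 : (0 : ℝ) < N := by
      have : 0 < N := by omega
      exact_mod_cast this
    rw [abs_mul, abs_of_pos (by positivity : (0 : ℝ) < 1 / q), mul_comm]
    refine mul_le_mul_of_nonneg_right ?_ (by positivity)
    have h2 := h ((N - 1) / q + 1) (Nat.le_add_left 1 _)
    have h3 : |Real.log (((N - 1) / q + 1 : ℕ) : ℝ) - (v - Real.log q)| ≤ 1 := by
      have e1 : v - Real.log q = Real.log ((N : ℝ) / q) := (Real.log_div hN0.ne' hqr.ne').symm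
      have e2 : (N : ℝ) / q ≤ (((N - 1) / q + 1 : ℕ) : ℝ) := by
        rw [div_le_iff₀ hqr]
        have h4 : N ≤ ((N - 1) / q + 1) * q := by
          have h5 := Nat.lt_div_mul_add (a := N - 1) hq0
          have h6 : ((N - 1) / q + 1) * q = (N - 1) / q * q + q := by ring
          omega
        exact_mod_cast h4
      have e3 : (((N - 1) / q + 1 : ℕ) : ℝ) ≤ 2 * ((N : ℝ) / q) := by
        have h4 : (((N - 1) / q : ℕ) : ℝ) ≤ (N : ℝ) / q := by
          rw [le_div_iff₀ hqr]
          have h5 : (N - 1) / q * q ≤ N - 1 := Nat.div_mul_le_self _ _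
          have h6 : (N - 1) / q * q ≤ N := by omega
          exact_mod_cast h6
        have h7 : (1 : ℝ) ≤ (N : ℝ) / q := by
          rw [le_div_iff₀ hqr, one_mul]
          exact_mod_cast hq.1.2.le
        push_cast at h4 ⊢
        linarith
      have p1 : (0 : ℝ) < (N : ℝ) / q := by positivity
      have e4 := Real.log_le_log p1 e2
      have e5 := Real.log_le_log (lt_of_lt_of_le p1 e2) e3
      rw [Real.log_mul (by norm_num) p1.ne'] at e5
      have := Real.log_two_lt_d9
      rw [e1, abs_le]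
      constructor <;> linarith
    have h4 : |c * (Real.log (((N - 1) / q + 1 : ℕ) : ℝ) - (v - Real.log q))| ≤ 1 := by
      rw [abs_mul, abs_of_pos hc0]
      calc c * |Real.log (((N - 1) / q + 1 : ℕ) : ℝ) - (v - Real.log q)| ≤ 1 * 1 :=
            mul_le_mul hc1 h3 (abs_nonneg _) zero_le_one
        _ = 1 := one_mul _
    have h5 : L0 w ((N - 1) / q + 1) - c * (v - Real.log q) =
        (L0 w ((N - 1) / q + 1) - c * Real.log (((N - 1) / q + 1 : ℕ) : ℝ)) +
        c * (Real.log (((N - 1) / q + 1 : ℕ) : ℝ) - (v - Real.log q)) := by ring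
    rw [h5]
    exact (abs_add_le _ _).trans (add_le_add h2 h4)
  have h0 := h N (by omega)
  rw [← hv] at h0
  -- main term
  have hm : |c * (v * S1 - S2) - c * (v * (Real.log v - Real.log u) - (v - u))| ≤ 26 := by
    have h1 : c * (v * S1 - S2) - c * (v * (Real.log v - Real.log u) - (v - u)) =
        c * (v * (S1 - (Real.log v - Real.log u)) - (S2 - (v - u))) := by ring
    rw [h1, abs_mul, abs_of_pos hc0]
    have h2 : |v * (S1 - (Real.log v - Real.log u)) - (S2 - (v - u))| ≤ 26 := by
      refine (abs_sub _ _).trans ?_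
      have h3 : |v * (S1 - (Real.log v - Real.log u))| ≤ 18 := by
        rw [abs_mul, abs_of_nonneg (by linarith : 0 ≤ v)]
        calc v * |S1 - (Real.log v - Real.log u)| ≤ (2 * u) * (9 / u) :=
              mul_le_mul hlogN2 hS1b (abs_nonneg _) (by linarith)
          _ = 18 := by
            have : u ≠ 0 := by linarith
            field_simp
            norm_num
      linarith
    calc c * |v * (S1 - (Real.log v - Real.log u)) - (S2 - (v - u))| ≤ 1 * 26 :=
          mul_le_mul hc1 h2 (abs_nonneg _) zero_le_one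
      _ = 26 := one_mul _
  have hCS : (C + 1) * S1 ≤ (C + 1) * 10 := mul_le_mul_of_nonneg_left hS1up (by linarith)
  have hfin : LL w z N - c * JJ u v =
      (L0 w N - c * v) -
      (∑ q ∈ (Ico z N).filter Nat.Prime, (1 : ℝ) / q * L0 w ((N - 1) / q + 1) -
      c * (v * S1 - S2)) -
      (c * (v * S1 - S2) - c * (v * (Real.log v - Real.log u) - (v - u))) := by
    rw [hb]
    unfold JJ
    ring
  rw [hfin]
  have t1 := (abs_le.mp h0)
  have t2 := (abs_le.mp hsum)
  have t3 := (abs_le.mp hm)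
  rw [abs_le]
  constructor <;> linarith [t1.1, t1.2, t2.1, t2.2, t3.1, t3.2]

end Pool.Agent.Sv
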