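import Pool.Agent.PalSieve.Mertens

/-!
# Selberg type weights
-/

namespace Pool.Agent.Sv

open Finset

/-- Product of the elements of a finite set. -/
def pr (T : Finset ℕ) : ℕ := ∏ p ∈ T, p

/-- Product of `p - 1`. -/
noncomputable def ph (T : Finset ℕ) : ℝ := ∏ p ∈ T, ((p : ℝ) - 1)

lemma pr_empty : pr ∅ = 1 := by simp [pr]

lemma pr_pos {T : Finset ℕ} (h : ∀ p ∈ T, 0 < p) : 0 < pr T := Finset.prod_pos h

lemma pr_insert {p : ℕ} {T : Finset ℕ} (h : p ∉ T) : pr (insert p T) = p * pr T :=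
  Finset.prod_insert h

lemma ph_insert {p : ℕ} {T : Finset ℕ} (h : p ∉ T) : ph (insert p T) = ((p : ℝ) - 1) * ph T :=
  Finset.prod_insert h

lemma pr_union_inter (S T : Finset ℕ) : pr (S ∪ T) * pr (S ∩ T) = pr S * pr T :=
  Finset.prod_union_inter

lemma pr_union {S T : Finset ℕ} (h : Disjoint S T) : pr (S ∪ T) = pr S * pr T :=
  Finset.prod_union h

lemma pr_eq_sum (W : Finset ℕ) : (pr W : ℝ) = ∑ V ∈ W.powerset, ph V := by
  unfold pr ph
  rw [← Finset.prod_one_add]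
  push_cast
  refine Finset.prod_congr rfl fun p _ => ?_
  ring

lemma ph_nonneg {T : Finset ℕ} (h : ∀ p ∈ T, 0 < p) : 0 ≤ ph T := by
  refine Finset.prod_nonneg fun p hp => ?_
  have : (1 : ℝ) ≤ p := by exact_mod_cast h p hp
  linarith

lemma ph_le {T : Finset ℕ} (h : ∀ p ∈ T, 0 < p) : ph T ≤ pr T := by
  unfold ph pr
  push_cast
  refine Finset.prod_le_prod (fun p hp => ?_) fun p _ => by linarith
  have : (1 : ℝ) ≤ p := by exact_mod_cast h p hp
  linarith

lemma ph_ge {T : Finset ℕ} (h : ∀ p ∈ T, 0 < p) :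
    (pr T : ℝ) * (1 - ∑ p ∈ T, 1 / (p : ℝ)) ≤ ph T := by
  induction T using Finset.induction_on with
  | empty => simp [pr, ph]
  | insert p T hpT ih =>
    have hT : ∀ p ∈ T, 0 < p := fun q hq => h q (mem_insert_of_mem hq)
    have hp : 0 < p := h p (mem_insert_self _ _)
    have hpr : (1 : ℝ) ≤ p := by exact_mod_cast hp
    rw [pr_insert hpT, ph_insert hpT, sum_insert hpT]
    push_cast
    have h1 := mul_le_mul_of_nonneg_left (ih hT) (by linarith : (0 : ℝ) ≤ (p : ℝ) - 1)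
    have h2 : (0 : ℝ) < pr T := by exact_mod_cast pr_pos hT
    have h3 : 0 ≤ ∑ p ∈ T, 1 / (p : ℝ) := Finset.sum_nonneg fun _ _ => by positivity
    have h4 : (p : ℝ) * (pr T : ℝ) * (1 - (1 / (p : ℝ) + ∑ q ∈ T, 1 / (q : ℝ))) =
        ((p : ℝ) - 1) * ((pr T : ℝ) * (1 - ∑ q ∈ T, 1 / (q : ℝ))) -
          (pr T : ℝ) * ∑ q ∈ T, 1 / (q : ℝ) := by
      field_simp
      ring
    rw [h4]
    have : 0 ≤ (pr T : ℝ) * ∑ q ∈ T, 1 / (q : ℝ) := by positivity
    linarith

/-- Diagonalisation of the quadratic form. -/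
lemma quad {P : Finset ℕ} (hP : ∀ p ∈ P, 0 < p) (μ : Finset ℕ → ℝ) :
    ∑ S ∈ P.powerset, ∑ T ∈ P.powerset, μ S * μ T / (pr (S ∪ T) : ℝ) =
      ∑ V ∈ P.powerset, ph V * (∑ T ∈ P.powerset.filter (fun T => V ⊆ T), μ T / (pr T : ℝ)) ^ 2 := by
  have h1 : ∀ V ∈ P.powerset,
      ph V * (∑ T ∈ P.powerset.filter (fun T => V ⊆ T), μ T / (pr T : ℝ)) ^ 2 =
      ∑ S ∈ P.powerset, ∑ T ∈ P.powerset,
        (if V ⊆ S ∧ V ⊆ T then ph V else 0) * ((μ S / (pr S : ℝ)) * (μ T / (pr T : ℝ))) := by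
    intro V _
    rw [sum_filter, sq, Finset.sum_mul_sum, Finset.mul_sum]
    refine Finset.sum_congr rfl fun S _ => ?_
    rw [Finset.mul_sum]
    refine Finset.sum_congr rfl fun T _ => ?_
    by_cases hS : V ⊆ S <;> by_cases hT : V ⊆ T <;> simp [hS, hT]
  rw [Finset.sum_congr rfl h1]
  conv_rhs => rw [Finset.sum_comm]
  refine Finset.sum_congr rfl fun S hS => ?_
  conv_rhs => rw [Finset.sum_comm]
  refine Finset.sum_congr rfl fun T hT => ?_
  rw [← Finset.sum_mul]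
  have h2 : ∑ V ∈ P.powerset, (if V ⊆ S ∧ V ⊆ T then ph V else 0) = (pr (S ∩ T) : ℝ) := by
    rw [pr_eq_sum, ← Finset.sum_filter]
    refine Finset.sum_congr ?_ fun _ _ => rfl
    ext V
    rw [mem_filter, mem_powerset, mem_powerset, subset_inter_iff]
    constructor
    · exact fun h => h.2
    · exact fun h => ⟨h.1.trans (mem_powerset.mp hS), h⟩
  rw [h2]
  have hS0 : (0 : ℝ) < pr S := by exact_mod_cast pr_pos fun p hp => hP p (mem_powerset.mp hS hp)
  have hT0 : (0 : ℝ) < pr T := by exact_mod_cast pr_pos fun p hp => hP p (mem_powerset.mp hT hp)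
  have hU0 : (0 : ℝ) < pr (S ∪ T) := by
    refine Nat.cast_pos.mpr (pr_pos fun p hp => ?_)
    rcases mem_union.mp hp with h | h
    · exact hP p (mem_powerset.mp hS h)
    · exact hP p (mem_powerset.mp hT h)
  have h3 : (pr (S ∪ T) : ℝ) * pr (S ∩ T) = pr S * pr T := by exact_mod_cast pr_union_inter S T
  rw [div_mul_div_comm, ← mul_div_assoc, div_eq_div_iff hU0.ne' (mul_pos hS0 hT0).ne', ← h3]
  ring

lemma alt_sum {V U : Finset ℕ} (h : V ⊆ U) :
    ∑ T ∈ Icc V U, (-1 : ℝ) ^ T.card = if V = U then (-1 : ℝ) ^ V.card else 0 := by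
  rw [Icc_eq_image_powerset h, sum_image (by
    intro A hA B hB hAB
    rw [mem_coe, mem_powerset] at hA hB
    simp only at hAB
    have hA' : Disjoint V A := disjoint_of_subset_right hA disjoint_sdiff
    have hB' : Disjoint V B := disjoint_of_subset_right hB disjoint_sdiff
    have e1 : (V ∪ A) \ V = A := by
      rw [union_sdiff_left]; exact sdiff_eq_self_of_disjoint hA'.symm
    have e2 : (V ∪ B) \ V = B := by
      rw [union_sdiff_left]; exact sdiff_eq_self_of_disjoint hB'.symm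
    rw [← e1, ← e2, hAB])]
  have h1 : ∀ A ∈ (U \ V).powerset, (-1 : ℝ) ^ (V ∪ A).card = (-1) ^ V.card * (-1) ^ A.card := by
    intro A hA
    rw [mem_powerset] at hA
    rw [card_union_of_disjoint (disjoint_of_subset_right hA disjoint_sdiff), pow_add]
  rw [Finset.sum_congr rfl h1, ← Finset.mul_sum]
  have h2 : ∑ A ∈ (U \ V).powerset, (-1 : ℝ) ^ A.card =
      ((∑ A ∈ (U \ V).powerset, (-1 : ℤ) ^ A.card : ℤ) : ℝ) := by push_cast; rfl
  rw [h2, sum_powerset_neg_one_pow_card]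
  by_cases hVU : V = U
  · rw [if_pos hVU, if_pos (by rw [hVU]; exact sdiff_self)]
    simp
  · rw [if_neg hVU, if_neg (fun h' => hVU (Subset.antisymm h (sdiff_eq_empty_iff_subset.mp h')))]
    simp

section weights

variable (P : Finset ℕ) (ξ : ℕ)

/-- The support of the weights. -/
def DD : Finset (Finset ℕ) := P.powerset.filter (fun T => pr T < ξ)

/-- The normalising sum. -/
noncomputable def GG : ℝ := ∑ T ∈ DD P ξ, (1 : ℝ) / pr T

/-- The dual variables. -/
noncomputable def zt (U : Finset ℕ) : ℝ := if U ∈ DD P ξ then 1 / GG P ξ / pr U else 0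

/-- The weights. -/
noncomputable def lam (T : Finset ℕ) : ℝ :=
  (-1) ^ T.card * (pr T : ℝ) * ∑ U ∈ P.powerset.filter (fun U => T ⊆ U), zt P ξ U

end weights

variable {P : Finset ℕ} {ξ : ℕ}

lemma mem_DD {T : Finset ℕ} : T ∈ DD P ξ ↔ T ⊆ P ∧ pr T < ξ := by
  unfold DD; rw [mem_filter, mem_powerset]

lemma GG_pos (hξ : 2 ≤ ξ) : 0 < GG P ξ := by
  unfold GG
  have h1 : (∅ : Finset ℕ) ∈ DD P ξ := by
    rw [mem_DD, pr_empty]; exact ⟨empty_subset _, by omega⟩
  have h2 : (1 : ℝ) / pr ∅ ≤ ∑ T ∈ DD P ξ, (1 : ℝ) / pr T :=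
    Finset.single_le_sum (f := fun T => (1 : ℝ) / pr T) (fun _ _ => by positivity) h1
  rw [pr_empty] at h2
  norm_num at h2
  simp only [one_div]
  linarith

lemma lam_empty (hξ : 2 ≤ ξ) : lam P ξ ∅ = 1 := by
  unfold lam zt
  rw [card_empty, pow_zero, pr_empty]
  have h1 : P.powerset.filter (fun U => (∅ : Finset ℕ) ⊆ U) = P.powerset := by
    rw [filter_true_of_mem]
    intro U _
    exact empty_subset _
  rw [h1, ← Finset.sum_filter]
  have h2 : P.powerset.filter (fun U => U ∈ DD P ξ) = DD P ξ := by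
    ext U
    rw [mem_filter, mem_powerset, mem_DD]
    constructor
    · exact fun h => h.2
    · exact fun h => ⟨h.1, h⟩
  rw [h2]
  have h3 : ∑ U ∈ DD P ξ, 1 / GG P ξ / (pr U : ℝ) = 1 / GG P ξ * GG P ξ := by
    conv_rhs => rw [GG.eq_def (P := P) (ξ := ξ)]
    rw [Finset.mul_sum]
    refine Finset.sum_congr rfl fun U _ => ?_
    rw [show (∑ T ∈ DD P ξ, (1 : ℝ) / (pr T : ℝ)) = GG P ξ from rfl]
    ring
  rw [h3, one_div, inv_mul_cancel₀ (GG_pos hξ).ne']
  norm_num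

lemma pr_le_of_subset (hP : ∀ p ∈ P, 0 < p) {S T : Finset ℕ} (hT : T ⊆ P) (hST : S ⊆ T) :
    pr S ≤ pr T := by
  unfold pr
  exact Finset.prod_le_prod_of_subset_of_one_le' hST fun p hp _ => hP p (hT hp)

lemma lam_eq_zero (hP : ∀ p ∈ P, 0 < p) {T : Finset ℕ} (hT : T ⊆ P) (hT' : T ∉ DD P ξ) :
    lam P ξ T = 0 := by
  unfold lam zt
  rw [Finset.sum_eq_zero, mul_zero]
  intro U hU
  rw [mem_filter, mem_powerset] at hU
  rw [if_neg]
  intro h
  rw [mem_DD] at h hT'
  exact hT' ⟨hT, (pr_le_of_subset hP hU.1 hU.2).trans_lt h.2⟩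

lemma abs_lam_le (hP : ∀ p ∈ P, 0 < p) (hξ : 2 ≤ ξ) {T : Finset ℕ} (hT : T ⊆ P) :
    |lam P ξ T| ≤ 1 := by
  have hG := GG_pos (P := P) hξ
  have hT0 : (0 : ℝ) < pr T := by exact_mod_cast pr_pos fun p hp => hP p (hT hp)
  unfold lam
  rw [abs_mul, abs_mul, abs_pow, abs_neg, abs_one, one_pow, one_mul, abs_of_pos hT0]
  have hz0 : ∀ U, 0 ≤ zt P ξ U := by
    intro U; unfold zt; split_ifs <;> positivity
  rw [abs_of_nonneg (Finset.sum_nonneg fun U _ => hz0 U)]
  have h1 : (pr T : ℝ) * ∑ U ∈ P.powerset.filter (fun U => T ⊆ U), zt P ξ U =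
      1 / GG P ξ * ∑ U ∈ (DD P ξ).filter (fun U => T ⊆ U), (1 : ℝ) / pr (U \ T) := by
    rw [Finset.mul_sum, Finset.mul_sum]
    have h2 : ∀ U ∈ P.powerset.filter (fun U => T ⊆ U), (pr T : ℝ) * zt P ξ U =
        if U ∈ DD P ξ then 1 / GG P ξ * ((1 : ℝ) / pr (U \ T)) else 0 := by
      intro U hU
      rw [mem_filter, mem_powerset] at hU
      unfold zt
      split_ifs with h
      · have h3 : pr U = pr (U \ T) * pr T := by
          rw [← pr_union sdiff_disjoint, sdiff_union_of_subset hU.2]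
        have h4 : (0 : ℝ) < pr (U \ T) := by
          exact_mod_cast pr_pos fun p hp => hP p (hU.1 (sdiff_subset hp))
        rw [h3]
        push_cast
        field_simp
      · ring
    rw [Finset.sum_congr rfl h2, ← Finset.sum_filter]
    refine Finset.sum_congr ?_ fun _ _ => rfl
    ext U
    rw [mem_filter, mem_filter, mem_filter, mem_powerset, mem_DD]
    tauto
  rw [h1]
  have h3 : ∑ U ∈ (DD P ξ).filter (fun U => T ⊆ U), (1 : ℝ) / pr (U \ T) ≤ GG P ξ := by
    have hinj : Set.InjOn (fun U => U \ T) ((DD P ξ).filter (fun U => T ⊆ U) : Set (Finset ℕ)) := by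
      intro U hU U' hU' h
      rw [mem_coe, mem_filter] at hU hU'
      simp only at h
      rw [← sdiff_union_of_subset hU.2, ← sdiff_union_of_subset hU'.2, h]
    have h4 : ∑ U ∈ (DD P ξ).filter (fun U => T ⊆ U), (1 : ℝ) / pr (U \ T) =
        ∑ V ∈ ((DD P ξ).filter (fun U => T ⊆ U)).image (fun U => U \ T), (1 : ℝ) / pr V := by
      rw [sum_image hinj]
    rw [h4]
    unfold GG
    refine sum_le_sum_of_subset_of_nonneg ?_ fun _ _ _ => by positivity
    intro V hV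
    obtain ⟨U, hU, rfl⟩ := mem_image.mp hV
    rw [mem_filter, mem_DD] at hU
    rw [mem_DD]
    exact ⟨sdiff_subset.trans hU.1.1, (pr_le_of_subset hP hU.1.1 sdiff_subset).trans_lt hU.1.2⟩
  rw [one_div, inv_mul_le_iff₀ hG, mul_one]
  exact h3

/-- The dual relation. -/
lemma sum_lam_div (hP : ∀ p ∈ P, 0 < p) {V : Finset ℕ} (hV : V ⊆ P) :
    ∑ T ∈ P.powerset.filter (fun T => V ⊆ T), lam P ξ T / (pr T : ℝ) =
      (-1) ^ V.card * zt P ξ V := by
  have h1 : ∀ T ∈ P.powerset.filter (fun T => V ⊆ T), lam P ξ T / (pr T : ℝ) =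
      ∑ U ∈ P.powerset, if T ⊆ U then (-1) ^ T.card * zt P ξ U else 0 := by
    intro T hT
    rw [mem_filter, mem_powerset] at hT
    have hT0 : (0 : ℝ) < pr T := by exact_mod_cast pr_pos fun p hp => hP p (hT.1 hp)
    unfold lam
    rw [← Finset.sum_filter, ← Finset.mul_sum]
    field_simp
  rw [Finset.sum_congr rfl h1, Finset.sum_comm]
  have h2 : ∀ U ∈ P.powerset, ∑ T ∈ P.powerset.filter (fun T => V ⊆ T),
      (if T ⊆ U then (-1) ^ T.card * zt P ξ U else 0) =
      if V = U then (-1) ^ V.card * zt P ξ U else 0 := by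
    intro U hU
    rw [mem_powerset] at hU
    rw [← Finset.sum_filter, ← Finset.sum_mul]
    have h3 : (P.powerset.filter (fun T => V ⊆ T)).filter (fun T => T ⊆ U) = Icc V U := by
      ext T
      rw [mem_filter, mem_filter, mem_powerset, mem_Icc]
      constructor
      · exact fun h => ⟨h.1.2, h.2⟩
      · exact fun h => ⟨⟨h.2.trans hU, h.1⟩, h.2⟩
    rw [h3]
    by_cases hVU : V ⊆ U
    · rw [alt_sum hVU]
      split_ifs <;> ring
    · rw [Icc_eq_empty (fun h => hVU h), sum_empty, zero_mul, if_neg]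
      intro h
      exact hVU (h ▸ Subset.refl _)
  rw [Finset.sum_congr rfl h2, Finset.sum_ite_eq, if_pos (mem_powerset.mpr hV)]

/-- The main quadratic form. -/
noncomputable def M0 (P : Finset ℕ) (ξ : ℕ) : ℝ :=
  ∑ S ∈ P.powerset, ∑ T ∈ P.powerset, lam P ξ S * lam P ξ T / (pr (S ∪ T) : ℝ)

/-- The quadratic form with an additional prime. -/
noncomputable def Mp (P : Finset ℕ) (ξ p : ℕ) : ℝ :=
  ∑ S ∈ P.powerset, ∑ T ∈ P.powerset, lam P ξ S * lam P ξ T / (pr (insert p (S ∪ T)) : ℝ)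

lemma M0_eq (hP : ∀ p ∈ P, 0 < p) :
    M0 P ξ = ∑ V ∈ DD P ξ, ph V * (1 / GG P ξ / pr V) ^ 2 := by
  unfold M0
  rw [quad hP]
  have h1 : ∀ V ∈ P.powerset,
      ph V * (∑ T ∈ P.powerset.filter (fun T => V ⊆ T), lam P ξ T / (pr T : ℝ)) ^ 2 =
      if V ∈ DD P ξ then ph V * (1 / GG P ξ / pr V) ^ 2 else 0 := by
    intro V hV
    rw [sum_lam_div hP (mem_powerset.mp hV), mul_pow, ← pow_mul, mul_comm V.card 2, pow_mul]
    unfold zt
    split_ifs <;> simp
  rw [Finset.sum_congr rfl h1, ← Finset.sum_filter]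
  refine Finset.sum_congr ?_ fun _ _ => rfl
  ext V
  rw [mem_filter, mem_powerset, mem_DD]
  tauto

lemma M0_le (hP : ∀ p ∈ P, 0 < p) (hξ : 2 ≤ ξ) : M0 P ξ ≤ 1 / GG P ξ := by
  have hG := GG_pos (P := P) hξ
  rw [M0_eq hP]
  have h1 : ∀ V ∈ DD P ξ, ph V * (1 / GG P ξ / pr V) ^ 2 ≤ (1 / GG P ξ) ^ 2 * (1 / pr V) := by
    intro V hV
    rw [mem_DD] at hV
    have hV0 : (0 : ℝ) < pr V := by exact_mod_cast pr_pos fun p hp => hP p (hV.1 hp)
    have h2 := ph_le fun p hp => hP p (hV.1 hp)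
    calc ph V * (1 / GG P ξ / pr V) ^ 2 ≤ pr V * (1 / GG P ξ / pr V) ^ 2 :=
          mul_le_mul_of_nonneg_right h2 (by positivity)
      _ = _ := by field_simp
  refine (Finset.sum_le_sum h1).trans (le_of_eq ?_)
  rw [← Finset.mul_sum]
  have : ∑ i ∈ DD P ξ, (1 : ℝ) / (pr i : ℝ) = GG P ξ := rfl
  rw [this]
  field_simp

lemma sum_DD_mem (hP : ∀ p ∈ P, 0 < p) {p : ℕ} (hp : p ∈ P) :
    ∑ V ∈ (DD P ξ).filter (fun V => p ∈ V), (1 : ℝ) / pr V ≤ 1 / p * GG P ξ := by
  have hp0 : (0 : ℝ) < p := by exact_mod_cast hP p hp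
  have hinj : Set.InjOn (fun V : Finset ℕ => V.erase p)
      ((DD P ξ).filter (fun V => p ∈ V) : Set (Finset ℕ)) := by
    intro U hU U' hU' h
    rw [mem_coe, mem_filter] at hU hU'
    simp only at h
    rw [← insert_erase hU.2, ← insert_erase hU'.2, h]
  have h1 : ∑ V ∈ (DD P ξ).filter (fun V => p ∈ V), (1 : ℝ) / pr V =
      1 / p * ∑ V ∈ ((DD P ξ).filter (fun V => p ∈ V)).image (fun V => V.erase p),
        (1 : ℝ) / pr V := by
    rw [sum_image hinj, Finset.mul_sum]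
    refine Finset.sum_congr rfl fun V hV => ?_
    rw [mem_filter, mem_DD] at hV
    have : pr V = p * pr (V.erase p) := by
      rw [← pr_insert (notMem_erase p V), insert_erase hV.2]
    rw [this]
    push_cast
    rw [div_mul_div_comm, one_mul]
  rw [h1]
  refine mul_le_mul_of_nonneg_left ?_ (by positivity)
  unfold GG
  refine sum_le_sum_of_subset_of_nonneg ?_ fun _ _ _ => by positivity
  intro V hV
  obtain ⟨U, hU, rfl⟩ := mem_image.mp hV
  rw [mem_filter, mem_DD] at hU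
  rw [mem_DD]
  exact ⟨(erase_subset _ _).trans hU.1.1,
    (pr_le_of_subset hP hU.1.1 (erase_subset _ _)).trans_lt hU.1.2⟩

lemma M0_ge (hP : ∀ p ∈ P, 0 < p) (hξ : 2 ≤ ξ) :
    1 / GG P ξ * (1 - ∑ p ∈ P, 1 / (p : ℝ) ^ 2) ≤ M0 P ξ := by
  have hG := GG_pos (P := P) hξ
  rw [M0_eq hP]
  have h1 : ∀ V ∈ DD P ξ, (1 / GG P ξ) ^ 2 * (1 / pr V - ∑ p ∈ P, if p ∈ V then
      (1 : ℝ) / p * (1 / pr V) else 0) ≤ ph V * (1 / GG P ξ / pr V) ^ 2 := by
    intro V hV
    rw [mem_DD] at hV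
    have hV0 : (0 : ℝ) < pr V := by exact_mod_cast pr_pos fun p hp => hP p (hV.1 hp)
    have h2 := ph_ge fun p hp => hP p (hV.1 hp)
    have h3 : ∑ p ∈ P, (if p ∈ V then (1 : ℝ) / p * (1 / pr V) else 0) =
        (∑ p ∈ V, 1 / (p : ℝ)) * (1 / pr V) := by
      rw [← Finset.sum_filter, Finset.sum_mul]
      refine Finset.sum_congr ?_ fun _ _ => rfl
      rw [filter_mem_eq_inter]
      exact inter_eq_right.mpr hV.1
    rw [h3]
    calc (1 / GG P ξ) ^ 2 * (1 / pr V - (∑ p ∈ V, 1 / (p : ℝ)) * (1 / pr V))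
        = (pr V : ℝ) * (1 - ∑ p ∈ V, 1 / (p : ℝ)) * (1 / GG P ξ / pr V) ^ 2 := by
          field_simp
      _ ≤ _ := mul_le_mul_of_nonneg_right h2 (by positivity)
  refine le_trans ?_ (Finset.sum_le_sum h1)
  rw [← Finset.mul_sum, Finset.sum_sub_distrib]
  have h2 : ∑ V ∈ DD P ξ, ∑ p ∈ P, (if p ∈ V then (1 : ℝ) / p * (1 / pr V) else 0) ≤
      (∑ p ∈ P, 1 / (p : ℝ) ^ 2) * GG P ξ := by
    rw [Finset.sum_comm, Finset.sum_mul]
    refine Finset.sum_le_sum fun p hp => ?_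
    rw [← Finset.sum_filter, ← Finset.mul_sum]
    have hp0 : (0 : ℝ) < p := by exact_mod_cast hP p hp
    calc (1 : ℝ) / p * ∑ V ∈ (DD P ξ).filter (fun V => p ∈ V), (1 : ℝ) / pr V
        ≤ (1 : ℝ) / p * (1 / p * GG P ξ) :=
          mul_le_mul_of_nonneg_left (sum_DD_mem hP hp) (by positivity)
      _ = _ := by ring
  have h3 : ∑ i ∈ DD P ξ, (1 : ℝ) / (pr i : ℝ) = GG P ξ := rfl
  rw [h3]
  calc 1 / GG P ξ * (1 - ∑ p ∈ P, 1 / (p : ℝ) ^ 2)
      = (1 / GG P ξ) ^ 2 * (GG P ξ - (∑ p ∈ P, 1 / (p : ℝ) ^ 2) * GG P ξ) := by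
        field_simp
    _ ≤ _ := mul_le_mul_of_nonneg_left (by linarith) (by positivity)

/-- Bound of the quadratic form with an additional prime. -/
lemma Mp_le (hP : ∀ p ∈ P, 0 < p) (hξ : 2 ≤ ξ) {p : ℕ} (hp : p ∈ P) :
    Mp P ξ p ≤ 1 / GG P ξ * (1 / (p : ℝ) ^ 3) + (1 / GG P ξ) ^ 2 * (1 / p *
      ∑ V ∈ (DD P ξ).filter (fun V => ξ ≤ p * pr V), (1 : ℝ) / pr V) := by
  have hG := GG_pos (P := P) hξ
  have hpr : (1 : ℝ) ≤ p := by exact_mod_cast hP p hp
  set P' := P.erase p with hP'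
  have hPP : P = insert p P' := (insert_erase hp).symm
  have hpP' : p ∉ P' := notMem_erase p P
  have hP'0 : ∀ q ∈ P', 0 < q := fun q hq => hP q (erase_subset _ _ hq)
  -- split a sum over the subsets
  have hsplit : ∀ f : Finset ℕ → ℝ, ∑ S ∈ P.powerset, f S =
      ∑ S ∈ P'.powerset, (f S + f (insert p S)) := by
    intro f
    rw [hPP, Finset.sum_powerset_insert hpP', Finset.sum_add_distrib]
  set μ : Finset ℕ → ℝ := fun S => lam P ξ S + lam P ξ (insert p S) with hμ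
  have h1 : Mp P ξ p = 1 / p * ∑ S ∈ P'.powerset, ∑ T ∈ P'.powerset,
      μ S * μ T / (pr (S ∪ T) : ℝ) := by
    unfold Mp
    rw [hsplit, Finset.mul_sum]
    refine Finset.sum_congr rfl fun S hS => ?_
    rw [hsplit, hsplit, ← Finset.sum_add_distrib, Finset.mul_sum]
    refine Finset.sum_congr rfl fun T hT => ?_
    rw [mem_powerset] at hS hT
    have hpS : p ∉ S := fun h => hpP' (hS h)
    have hpT : p ∉ T := fun h => hpP' (hT h)
    have hpST : p ∉ S ∪ T := by
      rw [mem_union]; tauto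
    have e1 : insert p (S ∪ insert p T) = insert p (S ∪ T) := by
      ext x; simp only [mem_insert, mem_union]; tauto
    have e2 : insert p (insert p S ∪ T) = insert p (S ∪ T) := by
      ext x; simp only [mem_insert, mem_union]; tauto
    have e3 : insert p (insert p S ∪ insert p T) = insert p (S ∪ T) := by
      ext x; simp only [mem_insert, mem_union]; tauto
    rw [e1, e2, e3, pr_insert hpST]
    have hU0 : (0 : ℝ) < pr (S ∪ T) := by
      refine Nat.cast_pos.mpr (pr_pos fun q hq => ?_)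
      rcases mem_union.mp hq with h | h
      · exact hP'0 q (hS h)
      · exact hP'0 q (hT h)
    simp only [hμ]
    push_cast
    field_simp
  rw [h1, quad hP'0]
  -- the dual variables
  have h2 : ∀ V ∈ P'.powerset,
      ∑ T ∈ P'.powerset.filter (fun T => V ⊆ T), μ T / (pr T : ℝ) =
      (-1) ^ V.card * (zt P ξ V - ((p : ℝ) - 1) * zt P ξ (insert p V)) := by
    intro V hV
    rw [mem_powerset] at hV
    have hpV : p ∉ V := fun h => hpP' (hV h)
    have hVP : V ⊆ P := hV.trans (erase_subset _ _)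
    have hVP' : insert p V ⊆ P := insert_subset hp hVP
    have e1 := sum_lam_div (ξ := ξ) hP hVP
    have e2 := sum_lam_div (ξ := ξ) hP hVP'
    rw [Finset.sum_filter, hsplit] at e1 e2
    rw [Finset.sum_filter]
    have e3 : ∑ T ∈ P'.powerset, (if V ⊆ T then μ T / (pr T : ℝ) else 0) =
        ∑ T ∈ P'.powerset, ((if V ⊆ T then lam P ξ T / (pr T : ℝ) else 0) +
          (if V ⊆ insert p T then lam P ξ (insert p T) / (pr (insert p T) : ℝ) else 0)) +
        ((p : ℝ) - 1) * ∑ T ∈ P'.powerset,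
          ((if insert p V ⊆ T then lam P ξ T / (pr T : ℝ) else 0) +
          (if insert p V ⊆ insert p T then lam P ξ (insert p T) / (pr (insert p T) : ℝ) else 0)) := by
      rw [Finset.mul_sum, ← Finset.sum_add_distrib]
      refine Finset.sum_congr rfl fun T hT => ?_
      rw [mem_powerset] at hT
      have hpT : p ∉ T := fun h => hpP' (hT h)
      have f1 : ¬ insert p V ⊆ T := fun h => hpT (h (mem_insert_self _ _))
      have f2 : V ⊆ insert p T ↔ V ⊆ T := subset_insert_iff_of_notMem hpV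
      have f3 : insert p V ⊆ insert p T ↔ V ⊆ T := insert_subset_insert_iff hpV
      rw [if_neg f1]
      have hT0 : (0 : ℝ) < pr T := by exact_mod_cast pr_pos fun q hq => hP'0 q (hT hq)
      by_cases hVT : V ⊆ T
      · rw [if_pos hVT, if_pos (f2.mpr hVT), if_pos (f3.mpr hVT), if_pos hVT, pr_insert hpT]
        simp only [hμ]
        push_cast
        field_simp
        ring
      · rw [if_neg hVT, if_neg (fun h => hVT (f2.mp h)), if_neg (fun h => hVT (f3.mp h)),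
          if_neg hVT]
        ring
    rw [e3, e1, e2, card_insert_of_notMem hpV, pow_succ]
    ring
  have h3 : ∀ V ∈ P'.powerset,
      ph V * (∑ T ∈ P'.powerset.filter (fun T => V ⊆ T), μ T / (pr T : ℝ)) ^ 2 ≤
      (if V ∈ DD P ξ then (1 / GG P ξ) ^ 2 * (1 / pr V) * (1 / (p : ℝ) ^ 2) else 0) +
      (if V ∈ (DD P ξ).filter (fun V => ξ ≤ p * pr V) then (1 / GG P ξ) ^ 2 * (1 / pr V) else 0) := by
    intro V hV
    have hV' := mem_powerset.mp hV
    have hpV : p ∉ V := fun h => hpP' (hV' h)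
    have hVP : V ⊆ P := hV'.trans (erase_subset _ _)
    have hVP' : insert p V ⊆ P := insert_subset hp hVP
    have hV0 : (0 : ℝ) < pr V := by exact_mod_cast pr_pos fun q hq => hP'0 q (hV' hq)
    have hph0 := ph_nonneg fun q hq => hP'0 q (hV' hq)
    have hph := ph_le fun q hq => hP'0 q (hV' hq)
    rw [h2 V hV, mul_pow, ← pow_mul, mul_comm V.card 2, pow_mul, neg_one_sq, one_pow, one_mul]
    unfold zt
    by_cases hVD : V ∈ DD P ξ
    · by_cases hVp : ξ ≤ p * pr V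
      · have f1 : insert p V ∉ DD P ξ := by
          rw [mem_DD, pr_insert hpV]
          intro h
          omega
        rw [if_pos hVD, if_neg f1, if_pos hVD, if_pos (mem_filter.mpr ⟨hVD, hVp⟩), mul_zero,
          sub_zero]
        have f2 : ph V * (1 / GG P ξ / pr V) ^ 2 ≤ (1 / GG P ξ) ^ 2 * (1 / pr V) := by
          calc ph V * (1 / GG P ξ / pr V) ^ 2 ≤ pr V * (1 / GG P ξ / pr V) ^ 2 :=
                mul_le_mul_of_nonneg_right hph (by positivity)
            _ = _ := by field_simp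
        have f3 : 0 ≤ (1 / GG P ξ) ^ 2 * (1 / pr V) * (1 / (p : ℝ) ^ 2) := by positivity
        linarith
      · have f1 : insert p V ∈ DD P ξ := by
          rw [mem_DD, pr_insert hpV]
          exact ⟨hVP', by omega⟩
        have f0 : V ∉ (DD P ξ).filter (fun V => ξ ≤ p * pr V) := fun h => hVp (mem_filter.mp h).2
        rw [if_pos hVD, if_pos f1, if_pos hVD, if_neg f0, add_zero, pr_insert hpV]
        push_cast
        have f2 : 1 / GG P ξ / (pr V : ℝ) - ((p : ℝ) - 1) * (1 / GG P ξ / ((p : ℝ) * pr V)) =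
            1 / GG P ξ / pr V * (1 / p) := by
          have : (p : ℝ) ≠ 0 := by linarith
          field_simp
          ring
        rw [f2]
        calc ph V * (1 / GG P ξ / pr V * (1 / p)) ^ 2 ≤ pr V * (1 / GG P ξ / pr V * (1 / p)) ^ 2 :=
              mul_le_mul_of_nonneg_right hph (by positivity)
          _ = _ := by field_simp
    · have f1 : insert p V ∉ DD P ξ := by
        rw [mem_DD, pr_insert hpV]
        rw [mem_DD] at hVD
        intro h
        apply hVD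
        refine ⟨hVP, lt_of_le_of_lt ?_ h.2⟩
        exact Nat.le_mul_of_pos_left _ (hP p hp)
      have f0 : V ∉ (DD P ξ).filter (fun V => ξ ≤ p * pr V) := fun h => hVD (mem_filter.mp h).1
      rw [if_neg hVD, if_neg f1, if_neg hVD, if_neg f0]
      simp
  have h4 := Finset.sum_le_sum h3
  rw [Finset.sum_add_distrib, ← Finset.sum_filter, ← Finset.sum_filter] at h4
  have h5 : ∑ V ∈ P'.powerset.filter (fun V => V ∈ DD P ξ),
      (1 / GG P ξ) ^ 2 * (1 / (pr V : ℝ)) * (1 / (p : ℝ) ^ 2) ≤ 1 / GG P ξ * (1 / (p : ℝ) ^ 2) := by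
    have e1 : ∑ V ∈ P'.powerset.filter (fun V => V ∈ DD P ξ),
        (1 / GG P ξ) ^ 2 * (1 / (pr V : ℝ)) * (1 / (p : ℝ) ^ 2) ≤
        ∑ V ∈ DD P ξ, (1 / GG P ξ) ^ 2 * (1 / (pr V : ℝ)) * (1 / (p : ℝ) ^ 2) := by
      refine sum_le_sum_of_subset_of_nonneg ?_ fun _ _ _ => by positivity
      intro V hV
      exact (mem_filter.mp hV).2
    refine e1.trans (le_of_eq ?_)
    rw [← Finset.sum_mul, ← Finset.mul_sum]
    have : ∑ i ∈ DD P ξ, (1 : ℝ) / (pr i : ℝ) = GG P ξ := rfl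
    rw [this]
    field_simp
  have h6 : ∑ V ∈ P'.powerset.filter (fun V => V ∈ (DD P ξ).filter (fun V => ξ ≤ p * pr V)),
      (1 / GG P ξ) ^ 2 * (1 / (pr V : ℝ)) ≤
      (1 / GG P ξ) ^ 2 * ∑ V ∈ (DD P ξ).filter (fun V => ξ ≤ p * pr V), (1 : ℝ) / pr V := by
    rw [Finset.mul_sum]
    refine sum_le_sum_of_subset_of_nonneg ?_ fun _ _ _ => by positivity
    intro V hV
    exact (mem_filter.mp hV).2
  calc 1 / (p : ℝ) * ∑ V ∈ P'.powerset,
        ph V * (∑ T ∈ P'.powerset.filter (fun T => V ⊆ T), μ T / (pr T : ℝ)) ^ 2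
      ≤ 1 / (p : ℝ) * (1 / GG P ξ * (1 / (p : ℝ) ^ 2) +
        (1 / GG P ξ) ^ 2 * ∑ V ∈ (DD P ξ).filter (fun V => ξ ≤ p * pr V), (1 : ℝ) / pr V) :=
        mul_le_mul_of_nonneg_left (h4.trans (add_le_add h5 h6)) (by positivity)
    _ = _ := by ring

end Pool.Agent.Sv
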