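import Pool.Agent.PalSieve.GLRel

/-!
# Upper and lower bound sieve inequalities
-/

namespace Pool.Agent.Sv

open Finset

/-- Number of members divisible by `q`. -/
def Nq (I : Finset ℕ) (a : ℕ → ℕ) (q : ℕ) : ℕ := (I.filter (fun i => q ∣ a i)).card

/-- The elements of `P` dividing `n`. -/
def dv (P : Finset ℕ) (n : ℕ) : Finset ℕ := P.filter (fun p => p ∣ n)

lemma dv_subset (P : Finset ℕ) (n : ℕ) : dv P n ⊆ P := filter_subset _ _

lemma pr_dvd_iff {P : Finset ℕ} (hP : ∀ p ∈ P, p.Prime) {W : Finset ℕ} (hW : W ⊆ P) (n : ℕ) :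
    pr W ∣ n ↔ W ⊆ dv P n := by
  constructor
  · intro h p hp
    unfold dv
    rw [mem_filter]
    exact ⟨hW hp, (Finset.dvd_prod_of_mem _ hp).trans h⟩
  · intro h
    unfold pr
    refine Finset.prod_primes_dvd n (fun p hp => (hP p (hW hp)).prime) fun p hp => ?_
    exact (mem_filter.mp (h hp)).2

lemma mul_pr_dvd_iff {P : Finset ℕ} (hP : ∀ p ∈ P, p.Prime) {Q : ℕ} (hQ : ∀ p ∈ P, Q.Coprime p)
    {W : Finset ℕ} (hW : W ⊆ P) (n : ℕ) : Q * pr W ∣ n ↔ Q ∣ n ∧ W ⊆ dv P n := by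
  have hc : Q.Coprime (pr W) := by
    unfold pr
    exact Nat.Coprime.prod_right fun p hp => hQ p (hW hp)
  rw [← pr_dvd_iff hP hW]
  constructor
  · exact fun h => ⟨(Dvd.intro _ rfl).trans h, (Dvd.intro_left _ rfl).trans h⟩
  · exact fun h => hc.mul_dvd_of_dvd_of_dvd h.1 h.2

/-- The square of the weighted sum. -/
lemma sum_sq_eq {P : Finset ℕ} (hP : ∀ p ∈ P, p.Prime) {Q : ℕ} (hQ : ∀ p ∈ P, Q.Coprime p)
    (I : Finset ℕ) (a : ℕ → ℕ) (μ : Finset ℕ → ℝ) (W0 : Finset ℕ) (hW0 : W0 ⊆ P) :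
    ∑ i ∈ I.filter (fun i => Q ∣ a i ∧ W0 ⊆ dv P (a i)), (∑ T ∈ (dv P (a i)).powerset, μ T) ^ 2 =
      ∑ S ∈ P.powerset, ∑ T ∈ P.powerset, μ S * μ T * (Nq I a (Q * pr (W0 ∪ (S ∪ T))) : ℝ) := by
  have h1 : ∀ i ∈ I.filter (fun i => Q ∣ a i ∧ W0 ⊆ dv P (a i)),
      (∑ T ∈ (dv P (a i)).powerset, μ T) ^ 2 =
      ∑ S ∈ P.powerset, ∑ T ∈ P.powerset,
        if S ⊆ dv P (a i) ∧ T ⊆ dv P (a i) then μ S * μ T else 0 := by
    intro i _
    have h2 : ∑ T ∈ (dv P (a i)).powerset, μ T =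
        ∑ T ∈ P.powerset, if T ⊆ dv P (a i) then μ T else 0 := by
      rw [← Finset.sum_filter]
      refine Finset.sum_congr ?_ fun _ _ => rfl
      ext T
      rw [mem_powerset, mem_filter, mem_powerset]
      exact ⟨fun h => ⟨h.trans (dv_subset _ _), h⟩, fun h => h.2⟩
    rw [h2, sq, Finset.sum_mul_sum]
    refine Finset.sum_congr rfl fun S _ => Finset.sum_congr rfl fun T _ => ?_
    by_cases hS : S ⊆ dv P (a i) <;> by_cases hT : T ⊆ dv P (a i) <;> simp [hS, hT]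
  rw [Finset.sum_congr rfl h1, Finset.sum_comm]
  refine Finset.sum_congr rfl fun S hS => ?_
  rw [Finset.sum_comm]
  refine Finset.sum_congr rfl fun T hT => ?_
  rw [mem_powerset] at hS hT
  rw [← Finset.sum_filter, sum_const, nsmul_eq_mul, mul_comm]
  congr 2
  unfold Nq
  rw [filter_filter]
  congr 1
  refine Finset.filter_congr fun i _ => ?_
  rw [mul_pr_dvd_iff hP hQ (union_subset hW0 (union_subset hS hT)), union_subset_iff,
    union_subset_iff, and_assoc]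

/-- Members not divisible by any sieving prime. -/
def Sf (P I : Finset ℕ) (a : ℕ → ℕ) (Q : ℕ) : Finset ℕ :=
  I.filter (fun i => Q ∣ a i ∧ dv P (a i) = ∅)

/-- Upper bound, in terms of the counting function. -/
lemma card_Sf_le {P : Finset ℕ} (hP : ∀ p ∈ P, p.Prime) {Q : ℕ} (hQ : ∀ p ∈ P, Q.Coprime p)
    (I : Finset ℕ) (a : ℕ → ℕ) {μ : Finset ℕ → ℝ} (hμ : μ ∅ = 1) :
    ((Sf P I a Q).card : ℝ) ≤
      ∑ S ∈ P.powerset, ∑ T ∈ P.powerset, μ S * μ T * (Nq I a (Q * pr (S ∪ T)) : ℝ) := by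
  have h1 := sum_sq_eq hP hQ I a μ ∅ (empty_subset _)
  simp only [empty_union] at h1
  rw [← h1]
  have h2 : ((Sf P I a Q).card : ℝ) =
      ∑ i ∈ Sf P I a Q, (∑ T ∈ (dv P (a i)).powerset, μ T) ^ 2 := by
    rw [Finset.card_eq_sum_ones]
    push_cast
    refine Finset.sum_congr rfl fun i hi => ?_
    rw [Sf, mem_filter] at hi
    rw [hi.2.2, powerset_empty, sum_singleton, hμ, one_pow]
  rw [h2]
  refine sum_le_sum_of_subset_of_nonneg ?_ fun _ _ _ => by positivity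
  intro i hi
  rw [Sf, mem_filter] at hi
  rw [mem_filter]
  exact ⟨hi.1, hi.2.1, empty_subset _⟩

/-- Lower bound, in terms of the counting function. -/
lemma card_Sf_ge {P : Finset ℕ} (hP : ∀ p ∈ P, p.Prime)
    (I : Finset ℕ) (a : ℕ → ℕ) {μ : Finset ℕ → ℝ} (hμ : μ ∅ = 1) :
    ∑ S ∈ P.powerset, ∑ T ∈ P.powerset, μ S * μ T * (Nq I a (pr (S ∪ T)) : ℝ) -
      ∑ p ∈ P, ∑ S ∈ P.powerset, ∑ T ∈ P.powerset,
        μ S * μ T * (Nq I a (pr (insert p (S ∪ T))) : ℝ) ≤ ((Sf P I a 1).card : ℝ) := by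
  have hQ : ∀ p ∈ P, Nat.Coprime 1 p := fun p _ => Nat.coprime_one_left p
  have h1 := sum_sq_eq hP hQ I a μ ∅ (empty_subset _)
  simp only [empty_union, one_mul, one_dvd, true_and, empty_subset, filter_true] at h1
  have h2 : ∀ p ∈ P, ∑ S ∈ P.powerset, ∑ T ∈ P.powerset,
        μ S * μ T * (Nq I a (pr (insert p (S ∪ T))) : ℝ) =
      ∑ i ∈ I, if p ∈ dv P (a i) then (∑ T ∈ (dv P (a i)).powerset, μ T) ^ 2 else 0 := by
    intro p hp
    have h3 := sum_sq_eq hP hQ I a μ {p} (singleton_subset_iff.mpr hp)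
    simp only [one_mul, one_dvd, true_and, singleton_subset_iff] at h3
    rw [← Finset.sum_filter, h3]
    refine Finset.sum_congr rfl fun S _ => Finset.sum_congr rfl fun T _ => ?_
    rw [insert_eq]
  rw [Finset.sum_congr rfl h2, ← h1, Finset.sum_comm (s := P), ← Finset.sum_sub_distrib]
  have h4 : ((Sf P I a 1).card : ℝ) = ∑ i ∈ I, if dv P (a i) = ∅ then (1 : ℝ) else 0 := by
    unfold Sf
    rw [Finset.card_filter]
    push_cast
    refine Finset.sum_congr rfl fun i _ => ?_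
    simp only [one_dvd, true_and]
  rw [h4]
  refine Finset.sum_le_sum fun i _ => ?_
  have h5 : ∑ p ∈ P, (if p ∈ dv P (a i) then (∑ T ∈ (dv P (a i)).powerset, μ T) ^ 2 else 0) =
      ((dv P (a i)).card : ℝ) * (∑ T ∈ (dv P (a i)).powerset, μ T) ^ 2 := by
    rw [← Finset.sum_filter, sum_const, nsmul_eq_mul]
    congr 2
    rw [filter_mem_eq_inter, inter_eq_right.mpr (dv_subset _ _)]
  rw [h5]
  by_cases h6 : dv P (a i) = ∅
  · rw [if_pos h6, h6, powerset_empty, sum_singleton, hμ, card_empty]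
    norm_num
  · rw [if_neg h6]
    have h7 : (1 : ℝ) ≤ ((dv P (a i)).card : ℝ) := by
      have : 0 < (dv P (a i)).card := card_pos.mpr (nonempty_iff_ne_empty.mpr h6)
      exact_mod_cast this
    nlinarith [sq_nonneg (∑ T ∈ (dv P (a i)).powerset, μ T)]

/-- Errors: pairs. -/
lemma err_pairs {P : Finset ℕ} (hP : ∀ p ∈ P, 0 < p) {ξ : ℕ} (ρ : Finset ℕ → ℝ)
    (hρ : ∀ W, 0 ≤ ρ W) :
    ∑ S ∈ DD P ξ, ∑ T ∈ DD P ξ, ρ (S ∪ T) ≤
      ∑ W ∈ P.powerset.filter (fun W => pr W < ξ ^ 2), (4 : ℝ) ^ W.card * ρ W := by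
  classical
  rw [← Finset.sum_product']
  have hmaps : ∀ x ∈ DD P ξ ×ˢ DD P ξ, x.1 ∪ x.2 ∈ P.powerset.filter (fun W => pr W < ξ ^ 2) := by
    intro x hx
    rw [mem_product, mem_DD, mem_DD] at hx
    rw [mem_filter, mem_powerset]
    refine ⟨union_subset hx.1.1 hx.2.1, ?_⟩
    have h1 := pr_union_inter x.1 x.2
    have h2 : 0 < pr (x.1 ∩ x.2) := pr_pos fun p hp => hP p (hx.1.1 (mem_inter.mp hp).1)
    calc pr (x.1 ∪ x.2) ≤ pr (x.1 ∪ x.2) * pr (x.1 ∩ x.2) := Nat.le_mul_of_pos_right _ h2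
      _ = pr x.1 * pr x.2 := h1
      _ < ξ * ξ := Nat.mul_lt_mul'' hx.1.2 hx.2.2
      _ = ξ ^ 2 := (sq ξ).symm
  rw [← Finset.sum_fiberwise_of_maps_to hmaps]
  refine Finset.sum_le_sum fun W _ => ?_
  have h1 : ∑ x ∈ (DD P ξ ×ˢ DD P ξ).filter (fun x => x.1 ∪ x.2 = W), ρ (x.1 ∪ x.2) =
      (((DD P ξ ×ˢ DD P ξ).filter (fun x => x.1 ∪ x.2 = W)).card : ℝ) * ρ W := by
    rw [← nsmul_eq_mul, ← sum_const]
    refine Finset.sum_congr rfl fun x hx => ?_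
    rw [(mem_filter.mp hx).2]
  rw [h1]
  refine mul_le_mul_of_nonneg_right ?_ (hρ W)
  have h2 : ((DD P ξ ×ˢ DD P ξ).filter (fun x => x.1 ∪ x.2 = W)).card ≤ 4 ^ W.card := by
    calc ((DD P ξ ×ˢ DD P ξ).filter (fun x => x.1 ∪ x.2 = W)).card
        ≤ (W.powerset ×ˢ W.powerset).card := by
          refine card_le_card fun x hx => ?_
          rw [mem_filter] at hx
          rw [mem_product, mem_powerset, mem_powerset, ← hx.2]
          exact ⟨subset_union_left, subset_union_right⟩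
      _ = 4 ^ W.card := by
          rw [card_product, card_powerset, ← mul_pow]
          norm_num
  exact_mod_cast h2

/-- Errors: triples. -/
lemma err_triples {P : Finset ℕ} {z : ℕ} (hP : ∀ p ∈ P, 0 < p) (hPz : ∀ p ∈ P, p ≤ z) {ξ : ℕ}
    (ρ : Finset ℕ → ℝ) (hρ : ∀ W, 0 ≤ ρ W) :
    ∑ p ∈ P, ∑ S ∈ DD P ξ, ∑ T ∈ DD P ξ, ρ (insert p (S ∪ T)) ≤
      ∑ W ∈ P.powerset.filter (fun W => pr W < z * ξ ^ 2), (8 : ℝ) ^ W.card * ρ W := by
  classical
  have h0 : ∑ p ∈ P, ∑ S ∈ DD P ξ, ∑ T ∈ DD P ξ, ρ (insert p (S ∪ T)) =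
      ∑ x ∈ P ×ˢ (DD P ξ ×ˢ DD P ξ), ρ (insert x.1 (x.2.1 ∪ x.2.2)) := by
    rw [Finset.sum_product]
    refine Finset.sum_congr rfl fun p _ => ?_
    rw [Finset.sum_product]
  rw [h0]
  have hmaps : ∀ x ∈ P ×ˢ (DD P ξ ×ˢ DD P ξ), insert x.1 (x.2.1 ∪ x.2.2) ∈
      P.powerset.filter (fun W => pr W < z * ξ ^ 2) := by
    intro x hx
    rw [mem_product, mem_product, mem_DD, mem_DD] at hx
    obtain ⟨hx1, hx2, hx3⟩ := hx
    rw [mem_filter, mem_powerset]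
    refine ⟨insert_subset hx1 (union_subset hx2.1 hx3.1), ?_⟩
    have h1 := pr_union_inter x.2.1 x.2.2
    have h2 : 0 < pr (x.2.1 ∩ x.2.2) := pr_pos fun p hp => hP p (hx2.1 (mem_inter.mp hp).1)
    have h3 : pr (x.2.1 ∪ x.2.2) < ξ ^ 2 := by
      calc pr (x.2.1 ∪ x.2.2) ≤ pr (x.2.1 ∪ x.2.2) * pr (x.2.1 ∩ x.2.2) :=
            Nat.le_mul_of_pos_right _ h2
        _ = pr x.2.1 * pr x.2.2 := h1
        _ < ξ * ξ := Nat.mul_lt_mul'' hx2.2 hx3.2
        _ = ξ ^ 2 := (sq ξ).symm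
    have hp0 := hP _ hx1
    have hpz := hPz _ hx1
    by_cases h4 : x.1 ∈ x.2.1 ∪ x.2.2
    · rw [insert_eq_of_mem h4]
      calc pr (x.2.1 ∪ x.2.2) < ξ ^ 2 := h3
        _ ≤ z * ξ ^ 2 := Nat.le_mul_of_pos_left _ (by omega)
    · rw [pr_insert h4]
      calc x.1 * pr (x.2.1 ∪ x.2.2) ≤ z * pr (x.2.1 ∪ x.2.2) := Nat.mul_le_mul_right _ hpz
        _ < z * ξ ^ 2 := Nat.mul_lt_mul_of_pos_left h3 (by omega)
  rw [← Finset.sum_fiberwise_of_maps_to hmaps]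
  refine Finset.sum_le_sum fun W _ => ?_
  have h1 : ∑ x ∈ (P ×ˢ (DD P ξ ×ˢ DD P ξ)).filter (fun x => insert x.1 (x.2.1 ∪ x.2.2) = W),
        ρ (insert x.1 (x.2.1 ∪ x.2.2)) =
      (((P ×ˢ (DD P ξ ×ˢ DD P ξ)).filter
        (fun x => insert x.1 (x.2.1 ∪ x.2.2) = W)).card : ℝ) * ρ W := by
    rw [← nsmul_eq_mul, ← sum_const]
    refine Finset.sum_congr rfl fun x hx => ?_
    rw [(mem_filter.mp hx).2]
  rw [h1]
  refine mul_le_mul_of_nonneg_right ?_ (hρ W)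
  have h2 : ((P ×ˢ (DD P ξ ×ˢ DD P ξ)).filter
      (fun x => insert x.1 (x.2.1 ∪ x.2.2) = W)).card ≤ 8 ^ W.card := by
    calc ((P ×ˢ (DD P ξ ×ˢ DD P ξ)).filter (fun x => insert x.1 (x.2.1 ∪ x.2.2) = W)).card
        ≤ (W ×ˢ (W.powerset ×ˢ W.powerset)).card := by
          refine card_le_card fun x hx => ?_
          rw [mem_filter] at hx
          rw [mem_product, mem_product, mem_powerset, mem_powerset, ← hx.2]
          exact ⟨mem_insert_self _ _, subset_union_left.trans (subset_insert _ _),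
            subset_union_right.trans (subset_insert _ _)⟩
      _ = W.card * (2 ^ W.card * 2 ^ W.card) := by
          rw [card_product, card_product, card_powerset]
      _ ≤ 2 ^ W.card * (2 ^ W.card * 2 ^ W.card) :=
          Nat.mul_le_mul_right _ (Nat.lt_two_pow_self).le
      _ = 8 ^ W.card := by
          rw [← mul_pow, ← mul_pow]
          norm_num
  exact_mod_cast h2

/-- Replace the counting function by its main term. -/
lemma double_sum_main {P : Finset ℕ} (hP : ∀ p ∈ P, 0 < p) {ξ : ℕ} (hξ : 2 ≤ ξ) (c : ℝ)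
    (f : Finset ℕ → Finset ℕ → ℝ) (g ρ : Finset ℕ → Finset ℕ → ℝ)
    (h : ∀ S ∈ DD P ξ, ∀ T ∈ DD P ξ, |f S T - c * g S T| ≤ ρ S T) :
    |∑ S ∈ P.powerset, ∑ T ∈ P.powerset, lam P ξ S * lam P ξ T * f S T -
      c * ∑ S ∈ P.powerset, ∑ T ∈ P.powerset, lam P ξ S * lam P ξ T * g S T| ≤
      ∑ S ∈ DD P ξ, ∑ T ∈ DD P ξ, ρ S T := by
  have hres : ∀ F : Finset ℕ → Finset ℕ → ℝ,
      ∑ S ∈ P.powerset, ∑ T ∈ P.powerset, lam P ξ S * lam P ξ T * F S T =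
      ∑ S ∈ DD P ξ, ∑ T ∈ DD P ξ, lam P ξ S * lam P ξ T * F S T := by
    intro F
    have hsub : DD P ξ ⊆ P.powerset := by unfold DD; exact filter_subset _ _
    rw [← Finset.sum_subset hsub]
    · refine Finset.sum_congr rfl fun S _ => ?_
      rw [← Finset.sum_subset hsub]
      intro T hT hT'
      rw [lam_eq_zero hP (mem_powerset.mp hT) hT']
      ring
    · intro S hS hS'
      refine Finset.sum_eq_zero fun T _ => ?_
      rw [lam_eq_zero hP (mem_powerset.mp hS) hS']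
      ring
  rw [hres f, hres g, Finset.mul_sum, ← Finset.sum_sub_distrib]
  refine (Finset.abs_sum_le_sum_abs _ _).trans (Finset.sum_le_sum fun S hS => ?_)
  rw [Finset.mul_sum, ← Finset.sum_sub_distrib]
  refine (Finset.abs_sum_le_sum_abs _ _).trans (Finset.sum_le_sum fun T hT => ?_)
  have h1 : lam P ξ S * lam P ξ T * f S T - c * (lam P ξ S * lam P ξ T * g S T) =
      lam P ξ S * lam P ξ T * (f S T - c * g S T) := by ring
  rw [h1, abs_mul, abs_mul]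
  have h2 := abs_lam_le hP hξ (mem_DD.mp hS).1
  have h3 := abs_lam_le hP hξ (mem_DD.mp hT).1
  have h4 := h S hS T hT
  have h5 : 0 ≤ ρ S T := (abs_nonneg _).trans h4
  calc |lam P ξ S| * |lam P ξ T| * |f S T - c * g S T| ≤ 1 * 1 * ρ S T := by gcongr
    _ = ρ S T := by ring

/-- The upper bound sieve. -/
theorem upper_sieve {P : Finset ℕ} (hP : ∀ p ∈ P, p.Prime) {Q : ℕ} (hQ0 : 0 < Q)
    (hQ : ∀ p ∈ P, Q.Coprime p) (I : Finset ℕ) (a : ℕ → ℕ) {X : ℝ} (hX : 0 ≤ X) {ξ : ℕ}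
    (hξ : 2 ≤ ξ) (r : ℕ → ℝ) (hr0 : ∀ q, 0 ≤ r q)
    (hr : ∀ W ⊆ P, pr W < ξ ^ 2 →
      |(Nq I a (Q * pr W) : ℝ) - X / ((Q * pr W : ℕ) : ℝ)| ≤ r (Q * pr W)) :
    ((Sf P I a Q).card : ℝ) ≤ X / Q * (1 / GG P ξ) +
      ∑ W ∈ P.powerset.filter (fun W => pr W < ξ ^ 2), (4 : ℝ) ^ W.card * r (Q * pr W) := by
  have hP0 : ∀ p ∈ P, 0 < p := fun p hp => (hP p hp).pos
  have hQr : (0 : ℝ) < Q := by exact_mod_cast hQ0
  have h1 := card_Sf_le hP hQ I a (lam_empty (P := P) hξ)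
  have h2 := double_sum_main hP0 hξ (X / Q) (fun S T => (Nq I a (Q * pr (S ∪ T)) : ℝ))
    (fun S T => 1 / (pr (S ∪ T) : ℝ)) (fun S T => r (Q * pr (S ∪ T))) (by
      intro S hS T hT
      rw [mem_DD] at hS hT
      have e1 : S ∪ T ⊆ P := union_subset hS.1 hT.1
      have e2 : pr (S ∪ T) < ξ ^ 2 := by
        have h1 := pr_union_inter S T
        have h2 : 0 < pr (S ∩ T) := pr_pos fun p hp => hP0 p (hS.1 (mem_inter.mp hp).1)
        calc pr (S ∪ T) ≤ pr (S ∪ T) * pr (S ∩ T) := Nat.le_mul_of_pos_right _ h2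
          _ = pr S * pr T := h1
          _ < ξ * ξ := Nat.mul_lt_mul'' hS.2 hT.2
          _ = ξ ^ 2 := (sq ξ).symm
      have e3 := hr _ e1 e2
      have e4 : X / Q * (1 / (pr (S ∪ T) : ℝ)) = X / ((Q * pr (S ∪ T) : ℕ) : ℝ) := by
        push_cast
        rw [div_mul_div_comm, mul_one]
      rw [e4]
      exact e3)
  have h3 := err_pairs hP0 (ξ := ξ) (fun W => r (Q * pr W)) (fun W => hr0 _)
  have h4 : ∑ S ∈ P.powerset, ∑ T ∈ P.powerset,
      lam P ξ S * lam P ξ T * (1 / (pr (S ∪ T) : ℝ)) = M0 P ξ := by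
    unfold M0
    refine Finset.sum_congr rfl fun S _ => Finset.sum_congr rfl fun T _ => ?_
    ring
  rw [h4] at h2
  have h5 := M0_le hP0 hξ
  have h6 : X / Q * M0 P ξ ≤ X / Q * (1 / GG P ξ) := mul_le_mul_of_nonneg_left h5 (by positivity)
  have h7 := (abs_le.mp h2).2
  linarith

/-- The lower bound sieve. -/
theorem lower_sieve {P : Finset ℕ} {z : ℕ} (hP : ∀ p ∈ P, p.Prime) (hPz : ∀ p ∈ P, p ≤ z)
    (hz : 1 ≤ z) (I : Finset ℕ) (a : ℕ → ℕ) {X : ℝ} {ξ : ℕ}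
    (hξ : 2 ≤ ξ) (r : ℕ → ℝ) (hr0 : ∀ q, 0 ≤ r q)
    (hr : ∀ W ⊆ P, pr W < z * ξ ^ 2 →
      |(Nq I a (pr W) : ℝ) - X / (pr W : ℝ)| ≤ r (pr W)) :
    X * (M0 P ξ - ∑ p ∈ P, Mp P ξ p) -
      2 * ∑ W ∈ P.powerset.filter (fun W => pr W < z * ξ ^ 2), (8 : ℝ) ^ W.card * r (pr W) ≤
      ((Sf P I a 1).card : ℝ) := by
  have hP0 : ∀ p ∈ P, 0 < p := fun p hp => (hP p hp).pos
  have h1 := card_Sf_ge hP I a (lam_empty (P := P) hξ)
  have hun : ∀ S ∈ DD P ξ, ∀ T ∈ DD P ξ, S ∪ T ⊆ P ∧ pr (S ∪ T) < ξ ^ 2 := by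
    intro S hS T hT
    rw [mem_DD] at hS hT
    refine ⟨union_subset hS.1 hT.1, ?_⟩
    have h1 := pr_union_inter S T
    have h2 : 0 < pr (S ∩ T) := pr_pos fun p hp => hP0 p (hS.1 (mem_inter.mp hp).1)
    calc pr (S ∪ T) ≤ pr (S ∪ T) * pr (S ∩ T) := Nat.le_mul_of_pos_right _ h2
      _ = pr S * pr T := h1
      _ < ξ * ξ := Nat.mul_lt_mul'' hS.2 hT.2
      _ = ξ ^ 2 := (sq ξ).symm
  have hξz : ξ ^ 2 ≤ z * ξ ^ 2 := Nat.le_mul_of_pos_left _ (by omega)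
  have h2 := double_sum_main hP0 hξ X (fun S T => (Nq I a (pr (S ∪ T)) : ℝ))
    (fun S T => 1 / (pr (S ∪ T) : ℝ)) (fun S T => r (pr (S ∪ T))) (by
      intro S hS T hT
      obtain ⟨e1, e2⟩ := hun S hS T hT
      have e3 := hr _ e1 (e2.trans_le hξz)
      rw [mul_one_div]
      exact e3)
  have h2' : ∀ p ∈ P, |∑ S ∈ P.powerset, ∑ T ∈ P.powerset,
        lam P ξ S * lam P ξ T * (Nq I a (pr (insert p (S ∪ T))) : ℝ) - X * Mp P ξ p| ≤
      ∑ S ∈ DD P ξ, ∑ T ∈ DD P ξ, r (pr (insert p (S ∪ T))) := by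
    intro p hp
    have h3 := double_sum_main hP0 hξ X (fun S T => (Nq I a (pr (insert p (S ∪ T))) : ℝ))
      (fun S T => 1 / (pr (insert p (S ∪ T)) : ℝ)) (fun S T => r (pr (insert p (S ∪ T)))) (by
        intro S hS T hT
        obtain ⟨e1, e2⟩ := hun S hS T hT
        have e3 : pr (insert p (S ∪ T)) < z * ξ ^ 2 := by
          by_cases h4 : p ∈ S ∪ T
          · rw [insert_eq_of_mem h4]
            exact e2.trans_le hξz
          · rw [pr_insert h4]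
            calc p * pr (S ∪ T) ≤ z * pr (S ∪ T) := Nat.mul_le_mul_right _ (hPz p hp)
              _ < z * ξ ^ 2 := Nat.mul_lt_mul_of_pos_left e2 (by omega)
        have e4 := hr _ (insert_subset hp e1) e3
        rw [mul_one_div]
        exact e4)
    have h4 : ∑ S ∈ P.powerset, ∑ T ∈ P.powerset,
        lam P ξ S * lam P ξ T * (1 / (pr (insert p (S ∪ T)) : ℝ)) = Mp P ξ p := by
      unfold Mp
      refine Finset.sum_congr rfl fun S _ => Finset.sum_congr rfl fun T _ => ?_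
      ring
    rw [h4] at h3
    exact h3
  have h4 : ∑ S ∈ P.powerset, ∑ T ∈ P.powerset,
      lam P ξ S * lam P ξ T * (1 / (pr (S ∪ T) : ℝ)) = M0 P ξ := by
    unfold M0
    refine Finset.sum_congr rfl fun S _ => Finset.sum_congr rfl fun T _ => ?_
    ring
  rw [h4] at h2
  have h5 : ∑ p ∈ P, ∑ S ∈ P.powerset, ∑ T ∈ P.powerset,
        lam P ξ S * lam P ξ T * (Nq I a (pr (insert p (S ∪ T))) : ℝ) ≤
      X * ∑ p ∈ P, Mp P ξ p + ∑ p ∈ P, ∑ S ∈ DD P ξ, ∑ T ∈ DD P ξ, r (pr (insert p (S ∪ T))) := by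
    rw [Finset.mul_sum, ← Finset.sum_add_distrib]
    refine Finset.sum_le_sum fun p hp => ?_
    have := (abs_le.mp (h2' p hp)).2
    linarith
  have h6 := err_triples hP0 hPz (ξ := ξ) (fun W => r (pr W)) (fun W => hr0 _)
  have h7 := err_pairs hP0 (ξ := ξ) (fun W => r (pr W)) (fun W => hr0 _)
  have h8 : ∑ W ∈ P.powerset.filter (fun W => pr W < ξ ^ 2), (4 : ℝ) ^ W.card * r (pr W) ≤
      ∑ W ∈ P.powerset.filter (fun W => pr W < z * ξ ^ 2), (8 : ℝ) ^ W.card * r (pr W) := by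
    have e1 : ∑ W ∈ P.powerset.filter (fun W => pr W < ξ ^ 2), (4 : ℝ) ^ W.card * r (pr W) ≤
        ∑ W ∈ P.powerset.filter (fun W => pr W < ξ ^ 2), (8 : ℝ) ^ W.card * r (pr W) := by
      refine Finset.sum_le_sum fun W _ => ?_
      refine mul_le_mul_of_nonneg_right ?_ (hr0 _)
      exact pow_le_pow_left₀ (by norm_num) (by norm_num) _
    refine e1.trans (sum_le_sum_of_subset_of_nonneg ?_ fun W _ _ => ?_)
    · intro W hW
      rw [mem_filter] at hW ⊢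
      exact ⟨hW.1, hW.2.trans_le hξz⟩
    · have := hr0 (pr W)
      positivity
  have h9 := (abs_le.mp h2).1
  linarith

end Pool.Agent.Sv
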