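import Pool.Agent.PalSieve.Squares

/-!
# Palindromes divisible by the square of a prime
-/

namespace Pool.Agent.Pal

open Finset

/-- The target bound for the first moment over the square denominators. -/
def BdS (b : ℕ) (σ C : ℝ) (Λ ℓ P : ℕ) : Prop :=
  (b : ℝ) ^ ℓ * (TS b ℓ P) ^ 2 ≤ C * (b : ℝ) ^ Λ * (P : ℝ) ^ 4 * Real.exp (-σ * Λ)

lemma BdS.mono {b : ℕ} {σ σ' C C' : ℝ} {Λ ℓ P : ℕ} (h : BdS b σ C Λ ℓ P) (hσ : σ' ≤ σ)
    (hC0 : 0 ≤ C) (hC : C ≤ C') : BdS b σ' C' Λ ℓ P := by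
  unfold BdS at *
  refine h.trans ?_
  have h1 : Real.exp (-σ * Λ) ≤ Real.exp (-σ' * Λ) := by
    rw [Real.exp_le_exp]
    have : (0 : ℝ) ≤ Λ := Nat.cast_nonneg _
    nlinarith
  have hC' : 0 ≤ C' := hC0.trans hC
  gcongr

lemma BdS_of_exp {b : ℕ} (hb : 2 ≤ b) {σ C : ℝ} (hC : 0 ≤ C) {Λ ℓ P : ℕ} {E : ℝ}
    (hT : (TS b ℓ P) ^ 2 ≤ C * (P : ℝ) ^ 4 * Real.exp E)
    (hE : Real.log b * ℓ + E ≤ Real.log b * Λ - σ * Λ) : BdS b σ C Λ ℓ P := by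
  unfold BdS
  rw [pow_eq_exp hb, pow_eq_exp hb]
  have h1 : Real.exp (Real.log b * ℓ) * Real.exp E ≤
      Real.exp (Real.log b * Λ) * Real.exp (-σ * Λ) := by
    rw [← Real.exp_add, ← Real.exp_add, Real.exp_le_exp]
    linarith
  calc Real.exp (Real.log b * ℓ) * (TS b ℓ P) ^ 2
      ≤ Real.exp (Real.log b * ℓ) * (C * (P : ℝ) ^ 4 * Real.exp E) :=
        mul_le_mul_of_nonneg_left hT (Real.exp_pos _).le
    _ = C * (P : ℝ) ^ 4 * (Real.exp (Real.log b * ℓ) * Real.exp E) := by ring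
    _ ≤ C * (P : ℝ) ^ 4 * (Real.exp (Real.log b * Λ) * Real.exp (-σ * Λ)) :=
        mul_le_mul_of_nonneg_left h1 (by positivity)
    _ = _ := by ring

lemma BdS_of_exp2 {b : ℕ} (hb : 2 ≤ b) {σ C : ℝ} (hC : 0 ≤ C) {Λ ℓ P : ℕ} {E1 E2 : ℝ}
    (hT : (TS b ℓ P) ^ 2 ≤ C * (P : ℝ) ^ 4 * (Real.exp E1 + Real.exp E2))
    (hE1 : Real.log b * ℓ + E1 ≤ Real.log b * Λ - σ * Λ)
    (hE2 : Real.log b * ℓ + E2 ≤ Real.log b * Λ - σ * Λ) : BdS b σ (2 * C) Λ ℓ P := by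
  refine BdS_of_exp hb (by positivity) (E := max E1 E2) ?_ ?_
  · refine hT.trans ?_
    have h1 : Real.exp E1 ≤ Real.exp (max E1 E2) := Real.exp_le_exp.mpr (le_max_left _ _)
    have h2 : Real.exp E2 ≤ Real.exp (max E1 E2) := Real.exp_le_exp.mpr (le_max_right _ _)
    calc C * (P : ℝ) ^ 4 * (Real.exp E1 + Real.exp E2)
        ≤ C * (P : ℝ) ^ 4 * (Real.exp (max E1 E2) + Real.exp (max E1 E2)) := by gcongr
      _ = _ := by ring
  · rcases max_cases E1 E2 with ⟨h, _⟩ | ⟨h, _⟩ <;> rw [h] <;> assumption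

/-- Case of short products. -/
lemma sq_case_short {b : ℕ} (hb : 2 ≤ b) {ε : ℝ} (hε : 0 < ε) : ∃ (σ C : ℝ), 0 < σ ∧ 0 < C ∧
    ∀ Λ ℓ P : ℕ, 2 ≤ P → Real.log P ≤ (1 / 4 - ε) * Real.log b * Λ →
      (ℓ : ℝ) ≤ (1 / 2 + ε) * Λ → BdS b σ C Λ ℓ P := by
  have hL := log_pos_b hb
  have hBp := BB_pos hb
  refine ⟨ε * Real.log b, (4 * BB b) ^ 2, by positivity, by positivity, ?_⟩
  intro Λ ℓ P hP hPL hℓ
  refine BdS_of_exp hb (by positivity) (E := 2 * Real.log P) ?_ ?_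
  · have h1 := TS_le_trivial b ℓ P
    calc (TS b ℓ P) ^ 2 ≤ (4 * BB b * (P : ℝ) ^ 3) ^ 2 := pow_le_pow_left₀ (TS_nonneg _ _ _) h1 2
      _ = (4 * BB b) ^ 2 * (P : ℝ) ^ 4 * (P : ℝ) ^ 2 := by ring
      _ = _ := by rw [← sq_eq_exp hP]
  · have h3 : Real.log b * ℓ ≤ Real.log b * ((1 / 2 + ε) * Λ) := mul_le_mul_of_nonneg_left hℓ hL.le
    linarith

/-- Case of products of intermediate length. -/
lemma sq_case_mid {b : ℕ} (hb : 2 ≤ b) {ε : ℝ} (hε : 0 < ε) : ∃ (σ C : ℝ) (Λ0 : ℕ),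
    0 < σ ∧ 0 < C ∧
    ∀ Λ ℓ P : ℕ, Λ0 ≤ Λ → 2 ≤ P → Real.log P ≤ (1 / 4 - ε) * Real.log b * Λ →
      (1 / 2 + ε) * Λ < (ℓ : ℝ) → (ℓ : ℝ) ≤ (1 - ε) * Λ → BdS b σ C Λ ℓ P := by
  have hL := log_pos_b hb
  have hBp := BB_pos hb
  obtain ⟨C1, hC1, hmain⟩ := exists_TS_sq_le hb (η := ε / 4) (by positivity)
  obtain ⟨Λ0, hΛ0⟩ := exists_nat_ge (max 1 (1 / ε))
  refine ⟨ε * Real.log b / 2, 2 * C1, Λ0, by positivity, by positivity, ?_⟩
  intro Λ ℓ P hΛ hP hPL hℓ1 hℓ2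
  have hΛr : max 1 (1 / ε) ≤ (Λ : ℝ) := hΛ0.trans (by exact_mod_cast hΛ)
  have hΛ1 : (1 : ℝ) ≤ Λ := (le_max_left _ _).trans hΛr
  have hΛε : 1 ≤ ε * Λ := by
    have := (le_max_right _ _).trans hΛr
    rwa [div_le_iff₀ hε, mul_comm] at this
  obtain ⟨k1, k2, k3, k4⟩ := clog_bounds hb hP
  have hk0 : 1 ≤ Nat.clog b P := Nat.clog_pos (by omega) (by omega)
  set k := Nat.clog b P with hk
  set L := Real.log b with hLdef
  have hm : (ℓ : ℝ) / 2 ≤ (((ℓ + 1) / 2 : ℕ) : ℝ) := by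
    have : ℓ ≤ 2 * ((ℓ + 1) / 2) := by omega
    have : (ℓ : ℝ) ≤ 2 * (((ℓ + 1) / 2 : ℕ) : ℝ) := by exact_mod_cast this
    linarith
  have hkm : k ≤ (ℓ + 1) / 2 := by
    have h1 : (k : ℝ) ≤ 1 + (1 / 4 - ε) * Λ := by
      have : L * k ≤ L * (1 + (1 / 4 - ε) * Λ) := by linarith
      exact le_of_mul_le_mul_left this hL
    have h2 : (k : ℝ) ≤ (((ℓ + 1) / 2 : ℕ) : ℝ) := by linarith
    exact_mod_cast h2
  have h := hmain ℓ k P hk0 hkm k1 k2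
  refine BdS_of_exp2 hb hC1.le (E1 := 2 * Real.log P - L * (((ℓ + 1) / 2 : ℕ) : ℝ))
    (E2 := L * ((ℓ : ℝ) + 1) * (ε / 4)) ?_ ?_ ?_
  · refine h.trans (le_of_eq ?_)
    congr 2
    · rw [Real.exp_sub, ← sq_eq_exp hP, ← pow_eq_exp hb]
    · rw [pow_eq_exp hb, ← Real.exp_mul]
      push_cast
      rfl
  · have h5 : L * ((ℓ : ℝ) / 2) ≤ L * (((ℓ + 1) / 2 : ℕ) : ℝ) := mul_le_mul_of_nonneg_left hm hL.le
    have h6 : L * ℓ ≤ L * ((1 - ε) * Λ) := mul_le_mul_of_nonneg_left hℓ2 hL.le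
    have h7 : 0 ≤ ε * L * Λ := by positivity
    linarith
  · have h6 : L * ℓ ≤ L * ((1 - ε) * Λ) := mul_le_mul_of_nonneg_left hℓ2 hL.le
    have h7 : L * ((ℓ : ℝ) + 1) * (ε / 4) ≤ L * (2 * Λ) * (ε / 4) := by
      have h8 : (ℓ : ℝ) + 1 ≤ 2 * Λ := by nlinarith
      have : L * ((ℓ : ℝ) + 1) ≤ L * (2 * Λ) := mul_le_mul_of_nonneg_left h8 hL.le
      exact mul_le_mul_of_nonneg_right this (by positivity)
    linarith

/-- Case of long products. -/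
lemma sq_case_long {b : ℕ} (hb : 2 ≤ b) {ε c0 : ℝ} (hε : 0 < ε) (hc0 : 0 < c0) :
    ∃ (σ C : ℝ) (Λ0 : ℕ), 0 < σ ∧ 0 < C ∧
    ∀ Λ ℓ P : ℕ, Λ0 ≤ Λ → ℓ ≤ Λ → 2 ≤ P → Real.log P ≤ (1 / 4 - ε) * Real.log b * Λ →
      (1 - ε) * Λ < (ℓ : ℝ) → c0 * Real.log b * Λ ≤ Real.log P → BdS b σ C Λ ℓ P := by
  have hL := log_pos_b hb
  have hBp := BB_pos hb
  obtain ⟨ρ, hρ0, hρ1, hsav⟩ := exists_TS_sq_le_saving hb
  set r : ℝ := -Real.log ρ with hr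
  have hr0 : 0 < r := by rw [hr]; have := Real.log_neg hρ0 hρ1; linarith
  set L := Real.log b with hLdef
  set c1 : ℝ := min (ε / 2) (c0 / 2) with hc1
  have hc10 : 0 < c1 := by rw [hc1]; positivity
  have hc1ε : c1 ≤ ε / 2 := min_le_left _ _
  have hc1c : c1 ≤ c0 / 2 := min_le_right _ _
  obtain ⟨C2, hC2, hmain⟩ := hsav (r * c1 / (4 * L)) (by positivity)
  obtain ⟨Λ0, hΛ0⟩ := exists_nat_ge (max 1 (max (3 / ε) (2 / c0)))
  refine ⟨r * c1 / 4, C2 * Real.exp r, Λ0, by positivity, by positivity, ?_⟩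
  intro Λ ℓ P hΛ hℓΛ hP hPL hℓ1 hPc
  have hΛr : max 1 (max (3 / ε) (2 / c0)) ≤ (Λ : ℝ) := hΛ0.trans (by exact_mod_cast hΛ)
  have hΛ1 : (1 : ℝ) ≤ Λ := (le_max_left _ _).trans hΛr
  have hΛε : 3 ≤ ε * Λ := by
    have := ((le_max_left _ _).trans (le_max_right _ _)).trans hΛr
    rwa [div_le_iff₀ hε, mul_comm] at this
  have hΛc : 2 ≤ c0 * Λ := by
    have := ((le_max_right _ _).trans (le_max_right _ _)).trans hΛr
    rwa [div_le_iff₀ hc0, mul_comm] at this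
  obtain ⟨k1, k2, k3, k4⟩ := clog_bounds hb hP
  set k := Nat.clog b P with hk
  have hℓΛr : (ℓ : ℝ) ≤ Λ := by exact_mod_cast hℓΛ
  have hm : (ℓ : ℝ) / 2 ≤ (((ℓ + 1) / 2 : ℕ) : ℝ) := by
    have : ℓ ≤ 2 * ((ℓ + 1) / 2) := by omega
    have : (ℓ : ℝ) ≤ 2 * (((ℓ + 1) / 2 : ℕ) : ℝ) := by exact_mod_cast this
    linarith
  set g : ℕ := ⌊c1 * Λ⌋₊ with hg
  have hg1 : (g : ℝ) ≤ c1 * Λ := Nat.floor_le (by positivity)
  have hg2 : c1 * Λ < g + 1 := Nat.lt_floor_add_one _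
  have hkup : (k : ℝ) ≤ 1 + (1 / 4 - ε) * Λ := by
    have : L * k ≤ L * (1 + (1 / 4 - ε) * Λ) := by linarith
    exact le_of_mul_le_mul_left this hL
  have hklo : c0 * Λ ≤ k := by
    have : L * (c0 * Λ) ≤ L * k := by linarith
    exact le_of_mul_le_mul_left this hL
  have hgk : g + 1 ≤ k := by
    have h1 : c1 * Λ ≤ c0 / 2 * Λ := mul_le_mul_of_nonneg_right hc1c (by linarith)
    have : (g : ℝ) + 1 ≤ k := by linarith
    exact_mod_cast this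
  have hkm : 2 * k + g + 1 ≤ (ℓ + 1) / 2 := by
    have h1 : c1 * Λ ≤ ε / 2 * Λ := mul_le_mul_of_nonneg_right hc1ε (by linarith)
    have : (2 : ℝ) * k + g + 1 ≤ (((ℓ + 1) / 2 : ℕ) : ℝ) := by linarith
    exact_mod_cast this
  have h := hmain ℓ k g P hgk hkm k1 k2
  refine BdS_of_exp hb (by positivity)
    (E := -(r * c1 * Λ) + L * ((ℓ : ℝ) + 1) * (r * c1 / (4 * L))) ?_ ?_
  · have h1 : ρ ^ g ≤ Real.exp r * Real.exp (-(r * c1 * Λ)) := by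
      have : ρ ^ g = Real.exp (-r * g) := by
        rw [hr, neg_neg, mul_comm, Real.exp_nat_mul, Real.exp_log hρ0]
      rw [this, ← Real.exp_add, Real.exp_le_exp]
      nlinarith
    have h2 : ((b : ℝ) ^ (ℓ + 1)) ^ (r * c1 / (4 * L)) =
        Real.exp (L * ((ℓ : ℝ) + 1) * (r * c1 / (4 * L))) := by
      rw [pow_eq_exp hb, ← Real.exp_mul]
      push_cast
      rfl
    rw [h2] at h
    rw [Real.exp_add]
    calc (TS b ℓ P) ^ 2 ≤ C2 * (P : ℝ) ^ 4 * ρ ^ g *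
          Real.exp (L * ((ℓ : ℝ) + 1) * (r * c1 / (4 * L))) := h
      _ ≤ C2 * (P : ℝ) ^ 4 * (Real.exp r * Real.exp (-(r * c1 * Λ))) *
          Real.exp (L * ((ℓ : ℝ) + 1) * (r * c1 / (4 * L))) := by gcongr
      _ = _ := by ring
  · have h5 : L * ((ℓ : ℝ) + 1) * (r * c1 / (4 * L)) = ((ℓ : ℝ) + 1) * (r * c1 / 4) := by
      field_simp
    rw [h5]
    have h6 : ((ℓ : ℝ) + 1) * (r * c1 / 4) ≤ (2 * Λ) * (r * c1 / 4) :=
      mul_le_mul_of_nonneg_right (by linarith) (by positivity)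
    have h7 : L * (ℓ : ℝ) ≤ L * Λ := mul_le_mul_of_nonneg_left hℓΛr hL.le
    have h8 : 0 ≤ r * c1 * Λ := by positivity
    linarith

/-- The first moment over square denominators. -/
theorem central_sq {b : ℕ} (hb : 2 ≤ b) {ε c0 : ℝ} (hε : 0 < ε) (hc0 : 0 < c0) :
    ∃ (σ C : ℝ) (Λ0 : ℕ), 0 < σ ∧ 0 < C ∧
    ∀ Λ ℓ P : ℕ, Λ0 ≤ Λ → ℓ ≤ Λ → 2 ≤ P → Real.log P ≤ (1 / 4 - ε) * Real.log b * Λ →
      c0 * Real.log b * Λ ≤ Real.log P → BdS b σ C Λ ℓ P := by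
  obtain ⟨σ1, C1, hσ1, hC1, h1⟩ := sq_case_short hb hε
  obtain ⟨σ2, C2, Λ2, hσ2, hC2, h2⟩ := sq_case_mid hb hε
  obtain ⟨σ3, C3, Λ3, hσ3, hC3, h3⟩ := sq_case_long hb hε hc0
  refine ⟨min σ1 (min σ2 σ3), C1 + C2 + C3, max Λ2 Λ3, by positivity, by positivity, ?_⟩
  intro Λ ℓ P hΛ hℓ hP hPL hPc
  rcases le_or_gt (ℓ : ℝ) ((1 / 2 + ε) * Λ) with h | h
  · exact (h1 Λ ℓ P hP hPL h).mono (min_le_left _ _) hC1.le (by linarith)
  · rcases le_or_gt (ℓ : ℝ) ((1 - ε) * Λ) with h' | h'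
    · exact (h2 Λ ℓ P ((le_max_left _ _).trans hΛ) hP hPL h h').mono
        ((min_le_right _ _).trans (min_le_left _ _)) hC2.le (by linarith)
    · exact (h3 Λ ℓ P ((le_max_right _ _).trans hΛ) hℓ hP hPL h' hPc).mono
        ((min_le_right _ _).trans (min_le_right _ _)) hC3.le (by linarith)

/-- The majorant summed over the fractions with square denominators. -/
lemma sum_S_sq_le {b : ℕ} (hb : 2 ≤ b) {ε c0 : ℝ} (hε : 0 < ε) (hc0 : 0 < c0) :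
    ∃ (σ C : ℝ) (Λ0 : ℕ), 0 < σ ∧ 0 < C ∧ ∀ Λ ℓ P : ℕ, Λ0 ≤ Λ → ℓ ≤ Λ → 2 ≤ P →
      Real.log P ≤ (1 / 4 - ε) * Real.log b * Λ → c0 * Real.log b * Λ ≤ Real.log P →
      ∑ x ∈ JS b P, S b ℓ (pt b x) ≤
        C * Real.sqrt ((b : ℝ) ^ Λ) * (P : ℝ) ^ 2 * ((Λ : ℝ) + 1) * Real.exp (-σ * Λ) := by
  obtain ⟨σ, C, Λ0, hσ, hC, hmain⟩ := central_sq hb hε hc0
  have hb0 : (2 : ℝ) ≤ b := by exact_mod_cast hb
  have hbp : (0 : ℝ) < b := by linarith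
  have hb1 : (1 : ℝ) ≤ b := by linarith
  have hL := log_pos_b hb
  have hBp := BB_pos hb
  set σ' : ℝ := min (σ / 2) (Real.log b / 4) with hσ'
  have hσ'0 : 0 < σ' := by positivity
  refine ⟨σ', b * (4 * BB b) + b ^ 2 * Real.sqrt C, Λ0, hσ'0, by positivity, ?_⟩
  intro Λ ℓ P hΛ hℓ hP hPL hPc
  have hPp : (0 : ℝ) < P := by
    have : 0 < P := by omega
    exact_mod_cast this
  set M : ℝ := Real.sqrt ((b : ℝ) ^ Λ) * (P : ℝ) ^ 2 * Real.exp (-σ' * Λ) with hM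
  have hM0 : 0 < M := by positivity
  have hT : ∀ ℓ' : ℕ, ℓ' ≤ Λ → (b : ℝ) ^ (ℓ' / 2 + 2) * TS b ℓ' P ≤ b ^ 2 * Real.sqrt C * M := by
    intro ℓ' hℓ'
    have h1 := hmain Λ ℓ' P hΛ hℓ' hP hPL hPc
    unfold BdS at h1
    have h2 : ((b : ℝ) ^ (ℓ' / 2) * TS b ℓ' P) ^ 2 ≤ C * (b : ℝ) ^ Λ * (P : ℝ) ^ 4 *
        Real.exp (-σ * Λ) := by
      refine le_trans ?_ h1
      rw [mul_pow]
      refine mul_le_mul_of_nonneg_right ?_ (by positivity)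
      rw [← pow_mul]
      exact pow_le_pow_right₀ hb1 (by omega)
    have h3 : (b : ℝ) ^ (ℓ' / 2) * TS b ℓ' P ≤ Real.sqrt C * Real.sqrt ((b : ℝ) ^ Λ) *
        (P : ℝ) ^ 2 * Real.exp (-(σ / 2) * Λ) := by
      refine le_of_sq_le_sq ?_ (by positivity)
      refine h2.trans (le_of_eq ?_)
      rw [mul_pow, mul_pow, mul_pow, Real.sq_sqrt hC.le, Real.sq_sqrt (by positivity),
        ← Real.exp_nat_mul, ← pow_mul]
      congr 2
      push_cast; ring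
    have h4 : Real.exp (-(σ / 2) * Λ) ≤ Real.exp (-σ' * Λ) := by
      rw [Real.exp_le_exp]
      have : (0 : ℝ) ≤ Λ := Nat.cast_nonneg _
      have h5 : σ' ≤ σ / 2 := min_le_left _ _
      nlinarith
    calc (b : ℝ) ^ (ℓ' / 2 + 2) * TS b ℓ' P = b ^ 2 * ((b : ℝ) ^ (ℓ' / 2) * TS b ℓ' P) := by
          rw [pow_add]; ring
      _ ≤ b ^ 2 * (Real.sqrt C * Real.sqrt ((b : ℝ) ^ Λ) * (P : ℝ) ^ 2 *
          Real.exp (-(σ / 2) * Λ)) := mul_le_mul_of_nonneg_left h3 (by positivity)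
      _ ≤ b ^ 2 * (Real.sqrt C * Real.sqrt ((b : ℝ) ^ Λ) * (P : ℝ) ^ 2 *
          Real.exp (-σ' * Λ)) := by gcongr
      _ = _ := by rw [hM]; ring
  have hJ : (b : ℝ) * ((JS b P).card : ℝ) ≤ b * (4 * BB b) * M := by
    have h1 := card_JS_le (b := b) (P := P)
    have h2 : (P : ℝ) ≤ Real.sqrt ((b : ℝ) ^ Λ) * Real.exp (-σ' * Λ) := by
      have h3 : Real.sqrt ((b : ℝ) ^ Λ) = Real.exp (Real.log b * Λ / 2) := by
        rw [Real.sqrt_eq_iff_mul_self_eq (by positivity) (Real.exp_pos _).le, ← Real.exp_add,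
          pow_eq_exp hb]
        congr 1; ring
      rw [h3, ← Real.exp_add]
      nth_rewrite 1 [← Real.exp_log hPp]
      rw [Real.exp_le_exp]
      have h6 : σ' * Λ ≤ Real.log b / 4 * Λ :=
        mul_le_mul_of_nonneg_right (min_le_right _ _) (Nat.cast_nonneg _)
      have h7 : 0 ≤ ε * Real.log b * Λ := by positivity
      linarith
    calc (b : ℝ) * ((JS b P).card : ℝ) ≤ b * (4 * BB b * (P : ℝ) ^ 3) :=
          mul_le_mul_of_nonneg_left h1 hbp.le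
      _ = b * (4 * BB b) * ((P : ℝ) ^ 2 * P) := by ring
      _ ≤ b * (4 * BB b) * ((P : ℝ) ^ 2 * (Real.sqrt ((b : ℝ) ^ Λ) * Real.exp (-σ' * Λ))) := by
          gcongr
      _ = _ := by rw [hM]; ring
  have hfam := fam_JS hb P
  have hrec : ∀ ℓ' : ℕ, ℓ' ≤ Λ → ∑ x ∈ JS b P, S b ℓ' (pt b x) ≤
      b * (4 * BB b) * M + ℓ' * (b ^ 2 * Real.sqrt C * M) := by
    intro ℓ'
    induction ℓ' using two_step_induction with
    | h0 =>
      intro _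
      have : ∑ x ∈ JS b P, S b 0 (pt b x) = (b : ℝ) * ((JS b P).card : ℝ) := by
        show ∑ x ∈ JS b P, (b : ℝ) = _
        rw [sum_const, nsmul_eq_mul, mul_comm]
      rw [this]
      simpa using hJ
    | h1 =>
      intro _
      have : ∑ x ∈ JS b P, S b 1 (pt b x) = (b : ℝ) * ((JS b P).card : ℝ) := by
        show ∑ x ∈ JS b P, (b : ℝ) = _
        rw [sum_const, nsmul_eq_mul, mul_comm]
      rw [this]
      have : 0 ≤ ((1 : ℕ) : ℝ) * (b ^ 2 * Real.sqrt C * M) := by positivity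
      linarith
    | h2 ℓ' ih =>
      intro hℓ'
      have h1 := ih (by omega)
      have h2 := hT ℓ' (by omega)
      have h3 : ∑ x ∈ JS b P, S b (ℓ' + 2) (pt b x) =
          (b : ℝ) ^ (ℓ' / 2 + 2) * TS b ℓ' P + ∑ x ∈ JS b P, S b ℓ' (pt b x) := by
        have h4 : ∀ x ∈ JS b P, S b (ℓ' + 2) (pt b x) =
            (b : ℝ) ^ (ℓ' / 2 + 2) * blk b ℓ' 0 ((ℓ' + 1) / 2) ((b : ℝ) ^ 1 * pt b x) +
              S b ℓ' ((b : ℝ) ^ 1 * pt b x) := by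
          intro x _
          rw [pow_one]
          rfl
        rw [Finset.sum_congr rfl h4, Finset.sum_add_distrib, ← Finset.mul_sum,
          hfam.perm 1 (fun y => blk b ℓ' 0 ((ℓ' + 1) / 2) y) (fun y n => blk_add_int _ _ _ _ _ _),
          hfam.perm 1 (S b ℓ') (S_add_int b ℓ')]
        rfl
      rw [h3]
      push_cast
      have h5 : 0 ≤ b ^ 2 * Real.sqrt C * M := by positivity
      linarith
  refine (hrec ℓ hℓ).trans ?_
  have hℓr : (ℓ : ℝ) ≤ Λ := by exact_mod_cast hℓ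
  have hΛ0 : (0 : ℝ) ≤ Λ := Nat.cast_nonneg _
  calc b * (4 * BB b) * M + ℓ * (b ^ 2 * Real.sqrt C * M)
      ≤ b * (4 * BB b) * M * ((Λ : ℝ) + 1) + ((Λ : ℝ) + 1) * (b ^ 2 * Real.sqrt C * M) := by
        refine add_le_add ?_ ?_
        · have : 0 ≤ b * (4 * BB b) * M := by positivity
          nlinarith
        · refine mul_le_mul_of_nonneg_right (by linarith) (by positivity)
    _ = _ := by rw [hM]; ring

/-- The fractions `c / p^2` are among the two families. -/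
lemma sum_frac_sq_le {b : ℕ} (hb : 2 ≤ b) (g : ℝ → ℝ) (hg : ∀ x, 0 ≤ g x) (P : ℕ) :
    ∑ p ∈ (Ico P (2 * P)).filter (fun p => p.Prime ∧ p.Coprime b),
      ∑ c ∈ (range (p ^ 2)).filter (fun c => ¬ p ^ 2 ∣ (b ^ 2 - 1) * c),
        g ((c : ℝ) / ((p ^ 2 : ℕ) : ℝ)) ≤
      ∑ x ∈ JS b P, g (pt b x) + ∑ x ∈ J b P, g (pt b x) := by
  classical
  set B := b ^ 2 - 1 with hB
  have hBpos : 0 < B := by have := sq_sub_one_pos hb; omega
  have hBr : (0 : ℝ) < B := by exact_mod_cast hBpos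
  -- split the inner sum
  have hsplit : ∀ p ∈ (Ico P (2 * P)).filter (fun p => p.Prime ∧ p.Coprime b),
      ∑ c ∈ (range (p ^ 2)).filter (fun c => ¬ p ^ 2 ∣ B * c), g ((c : ℝ) / ((p ^ 2 : ℕ) : ℝ)) =
      ∑ c ∈ (range (p ^ 2)).filter (fun c => ¬ p ∣ B * c), g (pt b (p ^ 2, B * c)) +
      ∑ c ∈ (range (p ^ 2)).filter (fun c => p ∣ B * c ∧ ¬ p ^ 2 ∣ B * c),
        g (pt b (p, B * c / p)) := by
    intro p hp
    rw [mem_filter] at hp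
    have hp0 : 0 < p := hp.2.1.pos
    have hpr : (0 : ℝ) < (p : ℝ) := by exact_mod_cast hp0
    have hdj : (range (p ^ 2)).filter (fun c => ¬ p ^ 2 ∣ B * c) =
        (range (p ^ 2)).filter (fun c => ¬ p ∣ B * c) ∪
        (range (p ^ 2)).filter (fun c => p ∣ B * c ∧ ¬ p ^ 2 ∣ B * c) := by
      ext c
      simp only [mem_union, mem_filter, mem_range]
      constructor
      · rintro ⟨h1, h2⟩
        by_cases h3 : p ∣ B * c
        · exact Or.inr ⟨h1, h3, h2⟩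
        · exact Or.inl ⟨h1, h3⟩
      · rintro (⟨h1, h2⟩ | ⟨h1, h2, h3⟩)
        · exact ⟨h1, fun h => h2 ((dvd_pow_self p two_ne_zero).trans h)⟩
        · exact ⟨h1, h3⟩
    rw [hdj, sum_union]
    · congr 1
      · refine Finset.sum_congr rfl fun c _ => ?_
        congr 1
        unfold pt
        simp only
        rw [← hB]
        push_cast
        field_simp
      · refine Finset.sum_congr rfl fun c hc => ?_
        rw [mem_filter] at hc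
        congr 1
        unfold pt
        simp only
        rw [← hB]
        have h1 : ((B * c / p : ℕ) : ℝ) = (B * c : ℝ) / p := by
          rw [Nat.cast_div hc.2.1 hpr.ne']
          push_cast; rfl
        rw [h1]
        push_cast
        field_simp
    · rw [Finset.disjoint_left]
      intro c h1 h2
      rw [mem_filter] at h1 h2
      exact h1.2 h2.2.1
  rw [Finset.sum_congr rfl hsplit, Finset.sum_add_distrib]
  refine add_le_add ?_ ?_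
  · rw [Finset.sum_sigma']
    have hinj : Set.InjOn (fun y : (Σ _ : ℕ, ℕ) => (y.1 ^ 2, B * y.2))
        (((Ico P (2 * P)).filter (fun p => p.Prime ∧ p.Coprime b)).sigma
          (fun p => (range (p ^ 2)).filter (fun c => ¬ p ∣ B * c)) : Set (Σ _ : ℕ, ℕ)) := by
      rintro ⟨x1, x2⟩ _ ⟨y1, y2⟩ _ hxy
      simp only [Prod.mk.injEq] at hxy
      have h1 : x1 = y1 := Nat.pow_left_injective (by norm_num : (2:ℕ) ≠ 0) hxy.1
      have h2 : x2 = y2 := Nat.eq_of_mul_eq_mul_left hBpos hxy.2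
      rw [h1, h2]
    have h1 : ∑ y ∈ ((Ico P (2 * P)).filter (fun p => p.Prime ∧ p.Coprime b)).sigma
          (fun p => (range (p ^ 2)).filter (fun c => ¬ p ∣ B * c)), g (pt b (y.1 ^ 2, B * y.2)) =
        ∑ x ∈ (((Ico P (2 * P)).filter (fun p => p.Prime ∧ p.Coprime b)).sigma
          (fun p => (range (p ^ 2)).filter (fun c => ¬ p ∣ B * c))).image
            (fun y : (Σ _ : ℕ, ℕ) => (y.1 ^ 2, B * y.2)), g (pt b x) := by
      rw [sum_image hinj]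
    rw [h1]
    refine sum_le_sum_of_subset_of_nonneg ?_ fun _ _ _ => hg _
    intro x hx
    obtain ⟨y, hy, rfl⟩ := mem_image.mp hx
    rw [mem_sigma, mem_filter, mem_filter, mem_Ico, mem_range] at hy
    obtain ⟨⟨⟨q1, q2⟩, q3, q4⟩, q5, q6⟩ := hy
    rw [mem_JS]
    refine ⟨y.1, q1, q2, q4, rfl, ?_, ?_⟩
    · rw [← hB]
      exact Nat.mul_lt_mul_of_pos_left q5 hBpos
    · exact ((q3.coprime_iff_not_dvd).mpr q6).symm
  · rw [Finset.sum_sigma']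
    have hinj : Set.InjOn (fun y : (Σ _ : ℕ, ℕ) => (y.1, B * y.2 / y.1))
        (((Ico P (2 * P)).filter (fun p => p.Prime ∧ p.Coprime b)).sigma
          (fun p => (range (p ^ 2)).filter (fun c => p ∣ B * c ∧ ¬ p ^ 2 ∣ B * c)) :
            Set (Σ _ : ℕ, ℕ)) := by
      rintro ⟨x1, x2⟩ hx ⟨y1, y2⟩ hy hxy
      simp only [Prod.mk.injEq] at hxy
      obtain ⟨h1, h2⟩ := hxy
      subst h1
      have hx' := mem_coe.mp hx
      have hy' := mem_coe.mp hy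
      rw [mem_sigma, mem_filter, mem_filter] at hx' hy'
      simp only at hx' hy'
      have e1 := Nat.div_mul_cancel hx'.2.2.1
      have e2 := Nat.div_mul_cancel hy'.2.2.1
      rw [h2, e2] at e1
      have h3 : x2 = y2 := (Nat.eq_of_mul_eq_mul_left hBpos e1).symm
      rw [h3]
    have h1 : ∑ y ∈ ((Ico P (2 * P)).filter (fun p => p.Prime ∧ p.Coprime b)).sigma
          (fun p => (range (p ^ 2)).filter (fun c => p ∣ B * c ∧ ¬ p ^ 2 ∣ B * c)),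
            g (pt b (y.1, B * y.2 / y.1)) =
        ∑ x ∈ (((Ico P (2 * P)).filter (fun p => p.Prime ∧ p.Coprime b)).sigma
          (fun p => (range (p ^ 2)).filter (fun c => p ∣ B * c ∧ ¬ p ^ 2 ∣ B * c))).image
            (fun y : (Σ _ : ℕ, ℕ) => (y.1, B * y.2 / y.1)), g (pt b x) := by
      rw [sum_image hinj]
    rw [h1]
    refine sum_le_sum_of_subset_of_nonneg ?_ fun _ _ _ => hg _
    intro x hx
    obtain ⟨y, hy, rfl⟩ := mem_image.mp hx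
    rw [mem_sigma, mem_filter, mem_filter, mem_Ico, mem_range] at hy
    obtain ⟨⟨⟨q1, q2⟩, q3, q4⟩, q5, q6, q7⟩ := hy
    rw [mem_J]
    have hp0 : 0 < y.1 := q3.pos
    refine ⟨q1, q2, q4, ?_, ?_⟩
    · rw [← hB, Nat.div_lt_iff_lt_mul hp0, mul_assoc, ← sq]
      exact Nat.mul_lt_mul_of_pos_left q5 hBpos
    · simp only
      rw [Nat.coprime_comm, q3.coprime_iff_not_dvd]
      intro h
      apply q7
      rw [sq]
      have := Nat.mul_dvd_mul_right h y.1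
      rwa [Nat.div_mul_cancel q6] at this

/-- Palindromes divisible by squares of primes, one dyadic block. -/
theorem sq_block {b : ℕ} (hb : 2 ≤ b) {ε c0 : ℝ} (hε : 0 < ε) (hε4 : ε ≤ 1 / 4) (hc0 : 0 < c0) :
    ∃ (σ C : ℝ) (Λ0 : ℕ), 0 < σ ∧ 0 < C ∧ ∀ Λ P H : ℕ, Λ0 ≤ Λ → b + 2 ≤ P → H ≤ b ^ (Λ / 2 + 1) →
      Real.log P ≤ (1 / 4 - ε) * Real.log b * Λ → c0 * Real.log b * Λ ≤ Real.log P →
      ∑ p ∈ (Ico P (2 * P)).filter Nat.Prime, (cnt b Λ H (p ^ 2) 0 : ℝ) ≤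
        C * Real.sqrt ((b : ℝ) ^ Λ) * ((Λ : ℝ) + 1) * Real.exp (-σ * Λ) := by
  obtain ⟨σ1, C1, Λ1, hσ1, hC1, h1⟩ := sum_S_sq_le hb hε hc0
  obtain ⟨σ2, δ2, C2, hσ2, hδ2, hC2, h2⟩ := sum_S_le2 hb hε hε4
  have hb0 : (2 : ℝ) ≤ b := by exact_mod_cast hb
  have hbp : (0 : ℝ) < b := by linarith
  have hb1 : (1 : ℝ) ≤ b := by linarith
  have hL := log_pos_b hb
  set L := Real.log b with hLdef
  set σ' : ℝ := min σ1 (c0 * L) with hσ'
  refine ⟨σ', C1 + C2 + b, Λ1, by positivity, by positivity, ?_⟩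
  intro Λ P H hΛ hP hH hPL hPc
  have hPp : (0 : ℝ) < P := by
    have : 0 < P := by omega
    exact_mod_cast this
  have hΛn : (0 : ℝ) ≤ Λ := Nat.cast_nonneg _
  -- each prime is coprime to `b (b^2-1)`
  have hcop : ∀ p ∈ (Ico P (2 * P)).filter Nat.Prime, p.Coprime b ∧ p.Coprime (b ^ 2 - 1) := by
    intro p hp
    rw [mem_filter, mem_Ico] at hp
    have hpp := hp.2
    constructor
    · rw [hpp.coprime_iff_not_dvd]
      intro h
      have := Nat.le_of_dvd (by omega) h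
      omega
    · rw [hpp.coprime_iff_not_dvd]
      intro h
      have h3 : b ^ 2 - 1 = (b + 1) * (b - 1) := by
        have := Nat.sq_sub_sq b 1
        simpa using this
      rw [h3, hpp.dvd_mul] at h
      rcases h with h | h
      · have := Nat.le_of_dvd (by omega) h
        omega
      · have := Nat.le_of_dvd (by omega) h
        omega
  have hterm : ∀ p ∈ (Ico P (2 * P)).filter Nat.Prime, (cnt b Λ H (p ^ 2) 0 : ℝ) ≤
      (H : ℝ) / (P : ℝ) ^ 2 + 1 / (P : ℝ) ^ 2 *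
        ∑ c ∈ (range (p ^ 2)).filter (fun c => ¬ p ^ 2 ∣ (b ^ 2 - 1) * c),
          S b Λ ((c : ℝ) / ((p ^ 2 : ℕ) : ℝ)) := by
    intro p hp
    have hc := hcop p hp
    rw [mem_filter, mem_Ico] at hp
    have hp0 : 0 < p := hp.2.pos
    have h3 := cnt_diff_le hb (ℓ := Λ) (H := H) (q := p ^ 2) (by positivity) hH 0
    have h4 : Nat.gcd (p ^ 2) (b ^ 2 - 1) = 1 := Nat.Coprime.pow_left 2 hc.2
    rw [h4] at h3
    have h5 : (cnt b Λ H 1 0 : ℝ) ≤ H := by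
      unfold cnt
      have := card_filter_le (range H) (fun h => (pal b Λ h : ℤ) ≡ 0 [ZMOD (1 : ℕ)])
      rw [card_range] at this
      exact_mod_cast this
    have hPp2 : (P : ℝ) ^ 2 ≤ ((p ^ 2 : ℕ) : ℝ) := by
      push_cast
      exact pow_le_pow_left₀ hPp.le (by exact_mod_cast hp.1.1) 2
    have h6 : (1 : ℝ) / ((p ^ 2 : ℕ) : ℝ) ≤ 1 / (P : ℝ) ^ 2 :=
      one_div_le_one_div_of_le (by positivity) hPp2
    have hS0 : 0 ≤ ∑ c ∈ (range (p ^ 2)).filter (fun c => ¬ p ^ 2 ∣ (b ^ 2 - 1) * c),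
          S b Λ ((c : ℝ) / ((p ^ 2 : ℕ) : ℝ)) := Finset.sum_nonneg fun _ _ => S_nonneg _ _ _
    have h7 := (abs_le.mp h3).2
    have h8 : ((1 : ℕ) : ℝ) / ((p ^ 2 : ℕ) : ℝ) * (cnt b Λ H 1 0 : ℝ) ≤ 1 / (P : ℝ) ^ 2 * H := by
      push_cast at h6 ⊢
      exact mul_le_mul h6 h5 (Nat.cast_nonneg _) (by positivity)
    calc (cnt b Λ H (p ^ 2) 0 : ℝ) ≤ ((1 : ℕ) : ℝ) / ((p ^ 2 : ℕ) : ℝ) * (cnt b Λ H 1 0 : ℝ) +
          1 / ((p ^ 2 : ℕ) : ℝ) *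
          ∑ c ∈ (range (p ^ 2)).filter (fun c => ¬ p ^ 2 ∣ (b ^ 2 - 1) * c),
          S b Λ ((c : ℝ) / ((p ^ 2 : ℕ) : ℝ)) := by linarith
      _ ≤ 1 / (P : ℝ) ^ 2 * H + 1 / (P : ℝ) ^ 2 *
          ∑ c ∈ (range (p ^ 2)).filter (fun c => ¬ p ^ 2 ∣ (b ^ 2 - 1) * c),
          S b Λ ((c : ℝ) / ((p ^ 2 : ℕ) : ℝ)) :=
          add_le_add h8 (mul_le_mul_of_nonneg_right h6 hS0)
      _ = _ := by ring
  refine (Finset.sum_le_sum hterm).trans ?_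
  rw [Finset.sum_add_distrib, ← Finset.mul_sum, sum_const, nsmul_eq_mul]
  have hfil : (Ico P (2 * P)).filter Nat.Prime =
      (Ico P (2 * P)).filter (fun p => p.Prime ∧ p.Coprime b) := by
    refine Finset.filter_congr fun p hp => ?_
    constructor
    · intro h
      exact ⟨h, (hcop p (mem_filter.mpr ⟨hp, h⟩)).1⟩
    · exact fun h => h.1
  have hcard : (((Ico P (2 * P)).filter Nat.Prime).card : ℝ) ≤ P := by
    have h3 : ((Ico P (2 * P)).filter Nat.Prime).card ≤ P := by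
      refine (card_filter_le _ _).trans ?_
      rw [Nat.card_Ico]; omega
    exact_mod_cast h3
  have hexpP : 1 / (P : ℝ) ≤ Real.exp (-σ' * Λ) := by
    have h3 : 1 / (P : ℝ) = Real.exp (-Real.log P) := by
      rw [Real.exp_neg, Real.exp_log hPp, one_div]
    rw [h3, Real.exp_le_exp]
    have h4 : σ' * Λ ≤ c0 * L * Λ := mul_le_mul_of_nonneg_right (min_le_right _ _) hΛn
    linarith
  have hsq : (b : ℝ) ^ (Λ / 2) ≤ Real.sqrt ((b : ℝ) ^ Λ) := by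
    rw [Real.le_sqrt (by positivity) (by positivity), ← pow_mul]
    exact pow_le_pow_right₀ hb1 (by omega)
  have t1 : (((Ico P (2 * P)).filter Nat.Prime).card : ℝ) * ((H : ℝ) / (P : ℝ) ^ 2) ≤
      b * Real.sqrt ((b : ℝ) ^ Λ) * ((Λ : ℝ) + 1) * Real.exp (-σ' * Λ) := by
    have hHr : (H : ℝ) ≤ (b : ℝ) ^ (Λ / 2 + 1) := by exact_mod_cast hH
    calc (((Ico P (2 * P)).filter Nat.Prime).card : ℝ) * ((H : ℝ) / (P : ℝ) ^ 2)
        ≤ P * ((b : ℝ) ^ (Λ / 2 + 1) / (P : ℝ) ^ 2) := by gcongr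
      _ = b * (b : ℝ) ^ (Λ / 2) * (1 / (P : ℝ)) := by rw [pow_succ]; field_simp
      _ ≤ b * Real.sqrt ((b : ℝ) ^ Λ) * Real.exp (-σ' * Λ) := by gcongr
      _ = b * Real.sqrt ((b : ℝ) ^ Λ) * 1 * Real.exp (-σ' * Λ) := by ring
      _ ≤ b * Real.sqrt ((b : ℝ) ^ Λ) * ((Λ : ℝ) + 1) * Real.exp (-σ' * Λ) := by
        gcongr; linarith
  have t2 : 1 / (P : ℝ) ^ 2 * ∑ p ∈ (Ico P (2 * P)).filter Nat.Prime,
        ∑ c ∈ (range (p ^ 2)).filter (fun c => ¬ p ^ 2 ∣ (b ^ 2 - 1) * c),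
          S b Λ ((c : ℝ) / ((p ^ 2 : ℕ) : ℝ)) ≤
      (C1 + C2) * Real.sqrt ((b : ℝ) ^ Λ) * ((Λ : ℝ) + 1) * Real.exp (-σ' * Λ) := by
    rw [hfil]
    have h3 := sum_frac_sq_le hb (S b Λ) (S_nonneg b Λ) P
    have h4 := h1 Λ Λ P hΛ le_rfl (by omega) hPL hPc
    have h5 := h2 Λ Λ P le_rfl (by omega) hPL
    have h6 : ∑ x ∈ JS b P, S b Λ (pt b x) ≤ C1 * Real.sqrt ((b : ℝ) ^ Λ) * (P : ℝ) ^ 2 *
        ((Λ : ℝ) + 1) * Real.exp (-σ' * Λ) := by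
      refine h4.trans ?_
      have : Real.exp (-σ1 * Λ) ≤ Real.exp (-σ' * Λ) := by
        rw [Real.exp_le_exp]
        have : σ' * Λ ≤ σ1 * Λ := mul_le_mul_of_nonneg_right (min_le_left _ _) hΛn
        linarith
      gcongr
    have h7 : ∑ x ∈ J b P, S b Λ (pt b x) ≤ C2 * Real.sqrt ((b : ℝ) ^ Λ) * (P : ℝ) ^ 2 *
        ((Λ : ℝ) + 1) * Real.exp (-σ' * Λ) := by
      refine h5.trans ?_
      have h8 : Real.exp (-σ2 * Real.sqrt Λ - δ2 * Real.log P) ≤ 1 := by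
        rw [Real.exp_le_one_iff]
        have h9 := Real.sqrt_nonneg (Λ : ℝ)
        have h10 : 0 ≤ Real.log P := Real.log_nonneg (by
          have : 1 ≤ P := by omega
          exact_mod_cast this)
        have : 0 ≤ σ2 * Real.sqrt Λ := by positivity
        have : 0 ≤ δ2 * Real.log P := by positivity
        linarith
      calc C2 * Real.sqrt ((b : ℝ) ^ Λ) * P * ((Λ : ℝ) + 1) *
            Real.exp (-σ2 * Real.sqrt Λ - δ2 * Real.log P)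
          ≤ C2 * Real.sqrt ((b : ℝ) ^ Λ) * P * ((Λ : ℝ) + 1) * 1 := by gcongr
        _ = C2 * Real.sqrt ((b : ℝ) ^ Λ) * (P : ℝ) ^ 2 * ((Λ : ℝ) + 1) * (1 / P) := by
            field_simp
        _ ≤ _ := by gcongr
    have h8 := h3.trans (add_le_add h6 h7)
    rw [one_div, inv_mul_le_iff₀ (by positivity)]
    refine h8.trans (le_of_eq ?_)
    ring
  calc _ ≤ b * Real.sqrt ((b : ℝ) ^ Λ) * ((Λ : ℝ) + 1) * Real.exp (-σ' * Λ) +
        (C1 + C2) * Real.sqrt ((b : ℝ) ^ Λ) * ((Λ : ℝ) + 1) * Real.exp (-σ' * Λ) := add_le_add t1 t2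
    _ = _ := by ring

end Pool.Agent.Pal
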