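import Pool.Agent.PalSieve.WSieve

/-!
# The weighted sieve, main theorem
-/

namespace Pool.Agent.Sv

open Finset Filter Topology

/-- The members with at most five prime factors, all of them large. -/
def Good (Y : ℕ) (I : Finset ℕ) (a : ℕ → ℕ) : Finset ℕ :=
  I.filter (fun i => ArithmeticFunction.cardFactors (a i) ≤ 5 ∧
    ∀ p ∈ (a i).primeFactors, Y ^ 8 ≤ p)

/-- Combinatorial part of the weighted sieve. -/
lemma weight_le {w Y : ℕ} (hY : 2 ≤ Y) (I : Finset ℕ) (a : ℕ → ℕ)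
    (ha : ∀ i ∈ I, 0 < a i ∧ (a i) ^ 5 < Y ^ 804 ∧ ∀ p ∈ (a i).primeFactors, w < p) :
    168 / 95 * ((Sf (PP w (Y ^ 8)) I a 1).card : ℝ) -
      ∑ p ∈ (Ico (Y ^ 8) (Y ^ 38)).filter Nat.Prime,
        om Y p * ((Sf (PP w (Y ^ 8)) I a p).card : ℝ) ≤
      168 / 95 * (((Good Y I a).card : ℝ) +
        ∑ p ∈ (Ico (Y ^ 8) (Y ^ 38)).filter Nat.Prime, (Nq I a (p ^ 2) : ℝ)) := by
  set S0 := Sf (PP w (Y ^ 8)) I a 1 with hS0
  -- rewrite the left side as a sum over `S0`
  have h1 : ∑ p ∈ (Ico (Y ^ 8) (Y ^ 38)).filter Nat.Prime,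
        om Y p * ((Sf (PP w (Y ^ 8)) I a p).card : ℝ) =
      ∑ i ∈ S0, ∑ p ∈ (Ico (Y ^ 8) (Y ^ 38)).filter (fun p => p.Prime ∧ p ∣ a i), om Y p := by
    have e1 : ∀ i ∈ S0, ∑ p ∈ (Ico (Y ^ 8) (Y ^ 38)).filter (fun p => p.Prime ∧ p ∣ a i), om Y p =
        ∑ p ∈ (Ico (Y ^ 8) (Y ^ 38)).filter Nat.Prime, if p ∣ a i then om Y p else 0 := by
      intro i _
      rw [← Finset.sum_filter, filter_filter]
    rw [Finset.sum_congr rfl e1, Finset.sum_comm]
    refine Finset.sum_congr rfl fun p _ => ?_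
    rw [← Finset.sum_filter, sum_const, nsmul_eq_mul, mul_comm]
    congr 2
    congr 1
    rw [hS0]
    unfold Sf
    rw [filter_filter]
    refine Finset.filter_congr fun i _ => ?_
    simp only [one_dvd, true_and]
    exact And.comm
  have h2 : 168 / 95 * (S0.card : ℝ) = ∑ i ∈ S0, (168 / 95 : ℝ) := by
    rw [sum_const, nsmul_eq_mul, mul_comm]
  rw [h1, h2, ← Finset.sum_sub_distrib]
  have h3 : 168 / 95 * (((Good Y I a).card : ℝ) +
        ∑ p ∈ (Ico (Y ^ 8) (Y ^ 38)).filter Nat.Prime, (Nq I a (p ^ 2) : ℝ)) =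
      ∑ i ∈ I, 168 / 95 * ((if ArithmeticFunction.cardFactors (a i) ≤ 5 ∧
        ∀ p ∈ (a i).primeFactors, Y ^ 8 ≤ p then (1 : ℝ) else 0) +
        ∑ p ∈ (Ico (Y ^ 8) (Y ^ 38)).filter Nat.Prime, if p ^ 2 ∣ a i then (1 : ℝ) else 0) := by
    rw [← Finset.mul_sum, Finset.sum_add_distrib, Finset.sum_comm]
    congr 2
    · unfold Good
      rw [Finset.card_filter]
      push_cast
      rfl
    · refine Finset.sum_congr rfl fun p _ => ?_
      unfold Nq
      rw [Finset.card_filter]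
      push_cast
      rfl
  rw [h3]
  have hsub : S0 ⊆ I := by rw [hS0]; exact filter_subset _ _
  refine le_trans ?_ (sum_le_sum_of_subset_of_nonneg hsub fun i _ _ => ?_)
  · refine Finset.sum_le_sum fun i hi => ?_
    have hiI := hsub hi
    obtain ⟨a1, a2, a3⟩ := ha i hiI
    rw [hS0, Sf, mem_filter] at hi
    have hdv := hi.2.2
    have hz : ∀ p ∈ (a i).primeFactors, Y ^ 8 ≤ p := by
      intro p hp
      by_contra hcon
      push Not at hcon
      have hp' := Nat.mem_primeFactors.mp hp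
      have : p ∈ dv (PP w (Y ^ 8)) (a i) := by
        unfold dv
        rw [mem_filter, mem_PP]
        exact ⟨⟨a3 p hp, hcon, hp'.1⟩, hp'.2.1⟩
      rw [hdv] at this
      exact absurd this (notMem_empty _)
    have hT0 : 0 ≤ ∑ p ∈ (Ico (Y ^ 8) (Y ^ 38)).filter (fun p => p.Prime ∧ p ∣ a i), om Y p := by
      refine Finset.sum_nonneg fun p hp => ?_
      rw [mem_filter, mem_Ico] at hp
      exact om_nonneg hY hp.2.1.pos hp.1.2.le
    have hs0 : 0 ≤ ∑ p ∈ (Ico (Y ^ 8) (Y ^ 38)).filter Nat.Prime,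
        (if p ^ 2 ∣ a i then (1 : ℝ) else 0) :=
      Finset.sum_nonneg fun p _ => by split_ifs <;> norm_num
    have hi0 : (0 : ℝ) ≤ if ArithmeticFunction.cardFactors (a i) ≤ 5 ∧
        ∀ p ∈ (a i).primeFactors, Y ^ 8 ≤ p then (1 : ℝ) else 0 := by split_ifs <;> norm_num
    by_cases hsq : ∃ p, p.Prime ∧ Y ^ 8 ≤ p ∧ p < Y ^ 38 ∧ p ^ 2 ∣ a i
    · obtain ⟨p, q1, q2, q3, q4⟩ := hsq
      have e1 : (1 : ℝ) ≤ ∑ p ∈ (Ico (Y ^ 8) (Y ^ 38)).filter Nat.Prime,
          (if p ^ 2 ∣ a i then (1 : ℝ) else 0) := by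
        have e2 : (if p ^ 2 ∣ a i then (1 : ℝ) else 0) = 1 := if_pos q4
        have e3 := Finset.single_le_sum (f := fun p => if p ^ 2 ∣ a i then (1 : ℝ) else 0)
          (s := (Ico (Y ^ 8) (Y ^ 38)).filter Nat.Prime)
          (fun _ _ => by split_ifs <;> norm_num)
          (mem_filter.mpr ⟨mem_Ico.mpr ⟨q2, q3⟩, q1⟩)
        simp only [e2] at e3
        exact e3
      linarith
    · push Not at hsq
      by_cases hΩ : ArithmeticFunction.cardFactors (a i) ≤ 5
      · rw [if_pos ⟨hΩ, hz⟩]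
        linarith
      · have := Omega_le hY a1 a2 hz hsq (by omega)
        have : 0 ≤ 168 / 95 * ((if ArithmeticFunction.cardFactors (a i) ≤ 5 ∧
          ∀ p ∈ (a i).primeFactors, Y ^ 8 ≤ p then (1 : ℝ) else 0) +
          ∑ p ∈ (Ico (Y ^ 8) (Y ^ 38)).filter Nat.Prime, if p ^ 2 ∣ a i then (1 : ℝ) else 0) :=
          mul_nonneg (by norm_num) (add_nonneg hi0 hs0)
        linarith
  · refine mul_nonneg (by norm_num) (add_nonneg ?_ (Finset.sum_nonneg fun p _ => ?_)) <;>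
      split_ifs <;> norm_num

lemma brk_mono (j : ℕ) (hj : j < 8) : brk j ≤ brk (j + 1) := by
  unfold brk; split_ifs <;> omega

lemma brk_bounds {j : ℕ} (hj : j < 8) : 8 ≤ brk j ∧ brk (j + 1) ≤ 38 ∧
    brk (j + 1) + 2 * exq j ≤ 40 ∧ 1 ≤ exq j ∧ exq j ≤ 16 := by
  unfold brk exq
  split_ifs <;> omega

/-- The weighted sieve. -/
theorem weighted_sieve {w : ℕ} (hw : 200 ≤ w) : ∃ κ : ℝ, 0 < κ ∧ ∃ Y0 : ℕ, ∀ Y : ℕ, Y0 ≤ Y →
    ∀ (I : Finset ℕ) (a : ℕ → ℕ) (X : ℝ) (r : ℕ → ℝ), 0 ≤ X → (∀ q, 0 ≤ r q) →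
    (∀ i ∈ I, 0 < a i ∧ (a i) ^ 5 < Y ^ 804 ∧ ∀ p ∈ (a i).primeFactors, w < p) →
    (∀ q ∈ MM w (Y ^ 40), |(Nq I a q : ℝ) - X / q| ≤ r q) →
    κ * X / Real.log Y - 5 * Etot w (Y ^ 40) r -
      2 * ∑ p ∈ (Ico (Y ^ 8) (Y ^ 38)).filter Nat.Prime, (Nq I a (p ^ 2) : ℝ) ≤
      2 * ((Good Y I a).card : ℝ) := by
  obtain ⟨c, C, hc0, hc1, hC, h⟩ := exists_L0 w
  have hw1 : 1 ≤ w := by omega
  have hwr : (200 : ℝ) ≤ w := by exact_mod_cast hw
  have hPhi := PhiInf_pos hw
  have hT := T_Phi hc0 hc1 hC h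
  have hTA := T_AA hc0 hc1 hC h
  have h16 : 0 < II 16 := by
    rw [II16]
    have := Real.log_two_lt_d9
    linarith
  -- eventual positivity facts
  have ev1 : ∀ᶠ Y in atTop, PhiInf w / 2 < Phi w c C Y :=
    hT.eventually (lt_mem_nhds (by linarith))
  have ev2 : ∀ᶠ Y in atTop, 0 < AA w c Y := hTA.eventually (lt_mem_nhds h16)
  have ev3 : ∀ᶠ Y in atTop, 0 < 1 - 2 / (w : ℝ) - (1 + 1 / w) * ((d2 + del c C Y) / AA w c Y) := by
    have hlim : Tendsto (fun Y => 1 - 2 / (w : ℝ) - (1 + 1 / w) * ((d2 + del c C Y) / AA w c Y)) atTop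
        (𝓝 (1 - 2 / (w : ℝ) - (1 + 1 / w) * ((d2 + 0) / II 16))) :=
      tendsto_const_nhds.sub (tendsto_const_nhds.mul
        ((tendsto_const_nhds.add (T_del C hc0)).div hTA h16.ne'))
    refine hlim.eventually (lt_mem_nhds ?_)
    -- positivity of the limit follows from `PhiInf_pos`-type bounds
    rw [add_zero, II16]
    have l1 := Real.log_two_gt_d9
    have l2 := Real.log_two_lt_d9
    have l0 := log32
    have hd2 : d2 ≤ 0.49605 := by
      unfold d2 al be
      norm_num at l0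
      nlinarith
    have hd2' : d2 / (3 - 2 * Real.log 2) ≤ 0.3074 := by
      rw [div_le_iff₀ (by linarith)]
      norm_num at hd2 ⊢
      linarith
    have hw0 : (0 : ℝ) < w := by linarith
    have ht1 : 1 / (w : ℝ) ≤ 1 / 200 := one_div_le_one_div_of_le (by norm_num) hwr
    have ht0 : 0 < 1 / (w : ℝ) := by positivity
    have h2w : (2 : ℝ) / w = 2 * (1 / w) := by ring
    rw [h2w]
    have : (1 + 1 / (w : ℝ)) * (d2 / (3 - 2 * Real.log 2)) ≤ (1 + 1 / (w : ℝ)) * 0.3074 :=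
      mul_le_mul_of_nonneg_left hd2' (by linarith)
    norm_num at this ht1 ⊢
    linarith
  have ev4 : ∀ᶠ Y in atTop, ∀ j ∈ range 8, 0 < BBj w c j Y := by
    rw [Filter.eventually_all_finset]
    intro j _
    exact (T_BB hc0 hc1 hC h j).eventually (lt_mem_nhds (II_pos j))
  have hd2pos : 0 ≤ d2 := by
    have l1 := Real.log_two_gt_d9
    have l2 := Real.log_two_lt_d9
    have hl32' : 1 / 3 ≤ Real.log (3 / 2) := by
      have := Real.one_sub_inv_le_log_of_pos (show (0 : ℝ) < 3 / 2 by norm_num)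
      norm_num at this
      linarith
    unfold d2 al be
    nlinarith
  obtain ⟨Y1, hY1⟩ := (ev1.and (ev2.and (ev3.and ev4))).exists_forall_of_atTop
  refine ⟨PhiInf w / 2 / (8 * c), by positivity, max Y1 (max 3 (w + 1)), ?_⟩
  intro Y hY I a X r hX hr ha hNq
  obtain ⟨g1, g2, g3, g4⟩ := hY1 Y ((le_max_left _ _).trans hY)
  have hY3 : 3 ≤ Y := ((le_max_left _ _).trans (le_max_right _ _)).trans hY
  have hYw : w + 1 ≤ Y := ((le_max_right _ _).trans (le_max_right _ _)).trans hY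
  have hYY : Y ≤ Y ^ 8 := by
    calc Y = Y ^ 1 := (pow_one Y).symm
      _ ≤ Y ^ 8 := Nat.pow_le_pow_right (by omega) (by norm_num)
  have hwz : w < Y ^ 8 := by omega
  have hlog : 0 < Real.log Y := Real.log_pos (by
    have : 1 < Y := by omega
    exact_mod_cast this)
  set u : ℝ := c * (8 * Real.log Y) with hu
  have hu0 : 0 < u := by positivity
  have hP : ∀ p ∈ PP w (Y ^ 8), p.Prime := fun p hp => (mem_PP.mp hp).2.2
  have hPz : ∀ p ∈ PP w (Y ^ 8), p ≤ Y ^ 8 := fun p hp => (mem_PP.mp hp).2.1.le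
  -- moduli
  have hMM1 : ∀ W ⊆ PP w (Y ^ 8), pr W < Y ^ 40 → pr W ∈ MM w (Y ^ 40) := by
    intro W hW hlt
    unfold MM
    rw [mem_filter, mem_Ico, primeFactors_pr hW]
    exact ⟨⟨pr_pos fun p hp => PP_pos (hW hp), hlt⟩, fun p hp => (mem_PP.mp (hW hp)).1⟩
  have hzz : Y ^ 8 * ((Y ^ 8) ^ 2) ^ 2 = Y ^ 40 := by
    rw [← pow_mul, ← pow_mul, ← pow_add]
  -- lower bound
  have hlow := lower_sieve hP hPz (Nat.one_le_pow _ _ (by omega)) I a (X := X)
    (ξ := (Y ^ 8) ^ 2) (by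
      calc 2 ≤ Y := by omega
        _ ≤ Y ^ 8 := hYY
        _ = (Y ^ 8) ^ 1 := (pow_one _).symm
        _ ≤ (Y ^ 8) ^ 2 := Nat.pow_le_pow_right (by omega) (by norm_num)) r hr (by
      intro W hW hlt
      rw [hzz] at hlt
      exact hNq _ (hMM1 W hW hlt))
  rw [hzz] at hlow
  have herr1 := sum_lower_err_le (w := w) (z := Y ^ 8) (D := Y ^ 40) r hr
  have hmain := main_lower (w := w) (z := Y ^ 8) hw1 (by omega)
  set G := GG (PP w (Y ^ 8)) ((Y ^ 8) ^ 2) with hG
  have hG0 : 0 < G := GG_pos (by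
      calc 2 ≤ Y := by omega
        _ ≤ Y ^ 8 := hYY
        _ = (Y ^ 8) ^ 1 := (pow_one _).symm
        _ ≤ (Y ^ 8) ^ 2 := Nat.pow_le_pow_right (by omega) (by norm_num))
  have hLL : LL w (Y ^ 8) ((Y ^ 8) ^ 2) = u * AA w c Y := by
    unfold AA
    rw [← hu]
    have : (Y ^ 8) ^ 2 = Y ^ 16 := by rw [← pow_mul]
    rw [this]
    field_simp
  have hGle : G ≤ u * AA w c Y := by rw [← hLL]; exact GG_le _ _ _
  have hGge : u * AA w c Y ≤ (1 + 1 / w) * G := by rw [← hLL]; exact LL_le_GG hw1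
  have hDl := Dl_le' hw1 hc0 hc1 hC h hY3 (by omega : w < Y)
  rw [← hu] at hDl
  have hdel0 : 0 ≤ d2 + del c C Y := by
    have : 0 ≤ del c C Y := by
      unfold del
      have h8 : 0 ≤ Real.log (8 * Real.log Y) := by
        refine Real.log_nonneg ?_
        have : 1 ≤ Real.log Y := by
          rw [Real.le_log_iff_exp_le (by
            have : 0 < Y := by omega
            exact_mod_cast this)]
          have h3 : (3 : ℝ) ≤ Y := by exact_mod_cast hY3
          have := Real.exp_one_lt_d9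
          linarith
        linarith
      positivity
    linarith
  set β : ℝ := 1 - 2 / (w : ℝ) - (1 + 1 / w) * ((d2 + del c C Y) / AA w c Y) with hβ
  have hA0 := g2
  have hlow2 : X / u * (1 / AA w c Y * β) ≤ X * (M0 (PP w (Y ^ 8)) ((Y ^ 8) ^ 2) -
      ∑ p ∈ PP w (Y ^ 8), Mp (PP w (Y ^ 8)) ((Y ^ 8) ^ 2) p) := by
    have e1 : 1 / (u * AA w c Y) ≤ 1 / G := one_div_le_one_div_of_le hG0 hGle
    have e2 : 1 / G ≤ (1 + 1 / w) / (u * AA w c Y) := by
      rw [div_le_div_iff₀ hG0 (by positivity), one_mul]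
      exact hGge
    have e3 : 1 / G * Dl w (Y ^ 8) ≤ (1 + 1 / w) * ((d2 + del c C Y) / AA w c Y) := by
      calc 1 / G * Dl w (Y ^ 8) ≤ 1 / G * (u * (d2 + del c C Y)) :=
            mul_le_mul_of_nonneg_left hDl (by positivity)
        _ ≤ (1 + 1 / w) / (u * AA w c Y) * (u * (d2 + del c C Y)) :=
            mul_le_mul_of_nonneg_right e2 (mul_nonneg hu0.le hdel0)
        _ = _ := by field_simp
    have e4 : β ≤ 1 - 2 / w - 1 / G * Dl w (Y ^ 8) := by rw [hβ]; linarith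
    have e5 : 1 / (u * AA w c Y) * β ≤ 1 / G * (1 - 2 / w - 1 / G * Dl w (Y ^ 8)) :=
      mul_le_mul e1 e4 g3.le (by positivity)
    calc X / u * (1 / AA w c Y * β) = X * (1 / (u * AA w c Y) * β) := by field_simp
      _ ≤ X * (1 / G * (1 - 2 / w - 1 / G * Dl w (Y ^ 8))) := mul_le_mul_of_nonneg_left e5 hX
      _ ≤ _ := mul_le_mul_of_nonneg_left hmain hX
  -- upper bound
  have hξ2 : ∀ j ∈ range 8, 2 ≤ Y ^ exq j := by
    intro j hj
    rw [mem_range] at hj
    have := (brk_bounds hj).2.2.2.1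
    calc 2 ≤ Y := by omega
      _ = Y ^ 1 := (pow_one Y).symm
      _ ≤ Y ^ exq j := Nat.pow_le_pow_right (by omega) this
  have hup : ∀ j ∈ range 8, ∀ p ∈ (Ico (Y ^ brk j) (Y ^ brk (j + 1))).filter Nat.Prime,
      ((Sf (PP w (Y ^ 8)) I a p).card : ℝ) ≤ X / u * ((1 + 1 / w) / BBj w c j Y) * (1 / p) +
        ∑ W ∈ (PP w (Y ^ 8)).powerset.filter (fun W => pr W < (Y ^ exq j) ^ 2),
          (4 : ℝ) ^ W.card * r (p * pr W) := by
    intro j hj p hp
    have hj' := mem_range.mp hj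
    obtain ⟨b1, b2, b3, b4, b5⟩ := brk_bounds hj'
    rw [mem_filter, mem_Ico] at hp
    have hpz : Y ^ 8 ≤ p := (Nat.pow_le_pow_right (by omega) b1).trans hp.1.1
    have hcop : ∀ q ∈ PP w (Y ^ 8), p.Coprime q := by
      intro q hq
      have hq' := mem_PP.mp hq
      refine (Nat.coprime_primes hp.2 hq'.2.2).mpr ?_
      omega
    have h1 := upper_sieve hP hp.2.pos hcop I a hX (hξ2 j hj) r hr (by
      intro W hW hlt
      have hpW : p * pr W < Y ^ 40 := by
        have e1 : 0 < pr W := pr_pos fun q hq => PP_pos (hW hq)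
        calc p * pr W < Y ^ brk (j + 1) * (Y ^ exq j) ^ 2 := Nat.mul_lt_mul'' hp.1.2 hlt
          _ = Y ^ (brk (j + 1) + 2 * exq j) := by rw [← pow_mul, ← pow_add, mul_comm (exq j)]
          _ ≤ Y ^ 40 := Nat.pow_le_pow_right (by omega) b3
      refine hNq _ ?_
      have hpW' : p ∉ W := fun h => by
        have := (mem_PP.mp (hW h)).2.1
        omega
      unfold MM
      rw [mem_filter, mem_Ico]
      refine ⟨⟨Nat.mul_pos hp.2.pos (pr_pos fun q hq => PP_pos (hW hq)), hpW⟩, ?_⟩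
      rw [← pr_insert hpW']
      have e2 : (pr (insert p W)).primeFactors = insert p W := by
        refine Nat.primeFactors_prod fun q hq => ?_
        rcases mem_insert.mp hq with h | h
        · rw [h]; exact hp.2
        · exact (mem_PP.mp (hW h)).2.2
      rw [e2]
      intro q hq
      rcases mem_insert.mp hq with h | h
      · omega
      · exact (mem_PP.mp (hW h)).1)
    refine h1.trans ?_
    have hB0 := g4 j hj
    have hGj0 : 0 < GG (PP w (Y ^ 8)) (Y ^ exq j) := GG_pos (hξ2 j hj)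
    have e3 : u * BBj w c j Y ≤ (1 + 1 / w) * GG (PP w (Y ^ 8)) (Y ^ exq j) := by
      have : u * BBj w c j Y = LL w (Y ^ 8) (Y ^ exq j) := by
        unfold BBj
        rw [← hu]
        field_simp
      rw [this]
      exact LL_le_GG hw1
    have e4 : 1 / GG (PP w (Y ^ 8)) (Y ^ exq j) ≤ (1 + 1 / w) / (u * BBj w c j Y) := by
      rw [div_le_div_iff₀ hGj0 (by positivity), one_mul]
      exact e3
    have hpr : (0 : ℝ) < p := by exact_mod_cast hp.2.pos
    have e5 : X / p * (1 / GG (PP w (Y ^ 8)) (Y ^ exq j)) ≤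
        X / u * ((1 + 1 / w) / BBj w c j Y) * (1 / p) := by
      calc X / p * (1 / GG (PP w (Y ^ 8)) (Y ^ exq j)) ≤
            X / p * ((1 + 1 / w) / (u * BBj w c j Y)) :=
            mul_le_mul_of_nonneg_left e4 (by positivity)
        _ = _ := by field_simp
    linarith
  -- sum the upper bounds
  have hsumup : ∑ p ∈ (Ico (Y ^ 8) (Y ^ 38)).filter Nat.Prime,
        om Y p * ((Sf (PP w (Y ^ 8)) I a p).card : ℝ) ≤
      X / u * ((1 + 1 / w) * ∑ j ∈ range 8, ss (brk j) (brk (j + 1)) Y / BBj w c j Y) +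
        Etot w (Y ^ 40) r := by
    have hb0 : brk 0 = 8 := by unfold brk; norm_num
    have hb8 : brk 8 = 38 := by unfold brk; norm_num
    have htel : ∀ f : ℕ → ℝ, ∑ j ∈ range 8,
        ∑ p ∈ (Ico (Y ^ brk j) (Y ^ brk (j + 1))).filter Nat.Prime, f p =
        ∑ p ∈ (Ico (Y ^ 8) (Y ^ 38)).filter Nat.Prime, f p := by
      intro f
      have := sum_Ico_telescope (fun j => Y ^ brk j) f 8
        (fun j hj => Nat.pow_le_pow_right (by omega) (brk_mono j hj))
      simp only [hb0, hb8] at this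
      exact this
    -- the level attached to a prime
    set J : ℕ → ℕ := fun p => if p < Y ^ 36 then Nat.find (p := fun j => p < Y ^ brk (j + 1) ∨ j = 7)
      ⟨7, Or.inr rfl⟩ else 7 with hJ
    have hJeq : ∀ j ∈ range 8, ∀ p ∈ (Ico (Y ^ brk j) (Y ^ brk (j + 1))).filter Nat.Prime,
        J p = j := by
      intro j hj p hp
      rw [mem_range] at hj
      rw [mem_filter, mem_Ico] at hp
      simp only [hJ]
      by_cases hj7 : j = 7
      · subst hj7
        have : ¬ p < Y ^ 36 := by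
          have : brk 7 = 36 := by unfold brk; norm_num
          rw [this] at hp
          omega
        rw [if_neg this]
      · have hj6 : j + 1 ≤ 7 := by omega
        have h36 : brk (j + 1) ≤ 36 := by unfold brk; rw [if_pos (by omega)]; omega
        have : p < Y ^ 36 := hp.1.2.trans_le (Nat.pow_le_pow_right (by omega) h36)
        rw [if_pos this, Nat.find_eq_iff]
        refine ⟨Or.inl hp.1.2, ?_⟩
        intro m hm
        push Not
        refine ⟨?_, by omega⟩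
        have e1 : brk (m + 1) ≤ brk j := by
          unfold brk
          rw [if_pos (by omega), if_pos (by omega)]
          omega
        exact (Nat.pow_le_pow_right (by omega) e1).trans hp.1.1
    rw [← htel]
    have e1 : ∑ j ∈ range 8, ∑ p ∈ (Ico (Y ^ brk j) (Y ^ brk (j + 1))).filter Nat.Prime,
        om Y p * ((Sf (PP w (Y ^ 8)) I a p).card : ℝ) ≤
      ∑ j ∈ range 8, ∑ p ∈ (Ico (Y ^ brk j) (Y ^ brk (j + 1))).filter Nat.Prime,
        (X / u * ((1 + 1 / w) / BBj w c j Y) * (om Y p * (1 / p)) +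
        ∑ W ∈ (PP w (Y ^ 8)).powerset.filter (fun W => pr W < (Y ^ exq (J p)) ^ 2),
          (4 : ℝ) ^ W.card * r (p * pr W)) := by
      refine Finset.sum_le_sum fun j hj => Finset.sum_le_sum fun p hp => ?_
      have hJp := hJeq j hj p hp
      have h1 := hup j hj p hp
      rw [hJp]
      have hj' := mem_range.mp hj
      obtain ⟨b1, b2, b3, b4, b5⟩ := brk_bounds hj'
      rw [mem_filter, mem_Ico] at hp
      have hp38 : p ≤ Y ^ 38 := hp.1.2.le.trans (Nat.pow_le_pow_right (by omega) b2)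
      have o1 := om_nonneg (by omega : 2 ≤ Y) hp.2.pos hp38
      have o2 := om_le_one (by omega : 2 ≤ Y) hp.2.pos
      have herr0 : 0 ≤ ∑ W ∈ (PP w (Y ^ 8)).powerset.filter (fun W => pr W < (Y ^ exq j) ^ 2),
          (4 : ℝ) ^ W.card * r (p * pr W) :=
        Finset.sum_nonneg fun W _ => mul_nonneg (by positivity) (hr _)
      calc om Y p * ((Sf (PP w (Y ^ 8)) I a p).card : ℝ)
          ≤ om Y p * (X / u * ((1 + 1 / w) / BBj w c j Y) * (1 / p) +
            ∑ W ∈ (PP w (Y ^ 8)).powerset.filter (fun W => pr W < (Y ^ exq j) ^ 2),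
              (4 : ℝ) ^ W.card * r (p * pr W)) := mul_le_mul_of_nonneg_left h1 o1
        _ = X / u * ((1 + 1 / w) / BBj w c j Y) * (om Y p * (1 / p)) +
            om Y p * ∑ W ∈ (PP w (Y ^ 8)).powerset.filter (fun W => pr W < (Y ^ exq j) ^ 2),
              (4 : ℝ) ^ W.card * r (p * pr W) := by ring
        _ ≤ X / u * ((1 + 1 / w) / BBj w c j Y) * (om Y p * (1 / p)) +
            1 * ∑ W ∈ (PP w (Y ^ 8)).powerset.filter (fun W => pr W < (Y ^ exq j) ^ 2),
              (4 : ℝ) ^ W.card * r (p * pr W) :=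
            add_le_add le_rfl (mul_le_mul_of_nonneg_right o2 herr0)
        _ = _ := by rw [one_mul]
    refine e1.trans ?_
    have e2 : ∀ j ∈ range 8, ∑ p ∈ (Ico (Y ^ brk j) (Y ^ brk (j + 1))).filter Nat.Prime,
        (X / u * ((1 + 1 / w) / BBj w c j Y) * (om Y p * (1 / p)) +
        ∑ W ∈ (PP w (Y ^ 8)).powerset.filter (fun W => pr W < (Y ^ exq (J p)) ^ 2),
          (4 : ℝ) ^ W.card * r (p * pr W)) =
        X / u * ((1 + 1 / w) * (ss (brk j) (brk (j + 1)) Y / BBj w c j Y)) +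
        ∑ p ∈ (Ico (Y ^ brk j) (Y ^ brk (j + 1))).filter Nat.Prime,
        ∑ W ∈ (PP w (Y ^ 8)).powerset.filter (fun W => pr W < (Y ^ exq (J p)) ^ 2),
          (4 : ℝ) ^ W.card * r (p * pr W) := by
      intro j _
      rw [Finset.sum_add_distrib, ← Finset.mul_sum]
      congr 1
      unfold ss
      ring
    rw [Finset.sum_congr rfl e2, Finset.sum_add_distrib, ← Finset.mul_sum, ← Finset.mul_sum, htel]
    refine add_le_add le_rfl ?_
    refine sum_upper_err_le hwz r hr (fun p => Y ^ exq (J p)) ?_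
    intro p hp
    -- find the block of `p`
    have hmem : ∃ j ∈ range 8, p ∈ (Ico (Y ^ brk j) (Y ^ brk (j + 1))).filter Nat.Prime := by
      by_contra hcon
      push Not at hcon
      have h1 := htel (fun q => if q = p then 1 else 0)
      have h2 : ∑ j ∈ range 8, ∑ q ∈ (Ico (Y ^ brk j) (Y ^ brk (j + 1))).filter Nat.Prime,
          (if q = p then (1 : ℝ) else 0) = 0 := by
        refine Finset.sum_eq_zero fun j hj => Finset.sum_eq_zero fun q hq => ?_
        rw [if_neg]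
        intro e
        exact hcon j hj (e ▸ hq)
      rw [h2, Finset.sum_ite_eq', if_pos hp] at h1
      exact zero_ne_one h1
    obtain ⟨j, hj, hpj⟩ := hmem
    have hJp := hJeq j hj p hpj
    have hj' := mem_range.mp hj
    obtain ⟨b1, b2, b3, b4, b5⟩ := brk_bounds hj'
    rw [mem_filter, mem_Ico] at hpj
    rw [hJp]
    calc p * (Y ^ exq j) ^ 2 ≤ Y ^ brk (j + 1) * (Y ^ exq j) ^ 2 :=
          Nat.mul_le_mul_right _ hpj.1.2.le
      _ = Y ^ (brk (j + 1) + 2 * exq j) := by rw [← pow_mul, ← pow_add, mul_comm (exq j)]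
      _ ≤ Y ^ 40 := Nat.pow_le_pow_right (by omega) b3
  -- combine
  have hwt := weight_le (w := w) (by omega : 2 ≤ Y) I a ha
  have hE0 : 0 ≤ Etot w (Y ^ 40) r := Finset.sum_nonneg fun q _ => mul_nonneg (by positivity) (hr q)
  have hmainterm : PhiInf w / 2 / (8 * c) * X / Real.log Y ≤ X / u * Phi w c C Y := by
    have e1 : PhiInf w / 2 / (8 * c) * X / Real.log Y = X / u * (PhiInf w / 2) := by
      rw [hu]; field_simp
    rw [e1]
    exact mul_le_mul_of_nonneg_left g1.le (by positivity)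
  have hPhiEq : X / u * Phi w c C Y = 168 / 95 * (X / u * (1 / AA w c Y * β)) -
      X / u * ((1 + 1 / w) * ∑ j ∈ range 8, ss (brk j) (brk (j + 1)) Y / BBj w c j Y) := by
    unfold Phi
    rw [← hβ]
    ring
  have hsq0 : (0 : ℝ) ≤ ∑ p ∈ (Ico (Y ^ 8) (Y ^ 38)).filter Nat.Prime, (Nq I a (p ^ 2) : ℝ) :=
    Finset.sum_nonneg fun _ _ => Nat.cast_nonneg _
  have hgood0 : (0 : ℝ) ≤ ((Good Y I a).card : ℝ) := Nat.cast_nonneg _
  have hlow3 : X / u * (1 / AA w c Y * β) - 2 * Etot w (Y ^ 40) r ≤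
      ((Sf (PP w (Y ^ 8)) I a 1).card : ℝ) := by linarith
  have hlow4 : 168 / 95 * (X / u * (1 / AA w c Y * β) - 2 * Etot w (Y ^ 40) r) ≤
      168 / 95 * ((Sf (PP w (Y ^ 8)) I a 1).card : ℝ) :=
    mul_le_mul_of_nonneg_left hlow3 (by norm_num)
  linarith

end Pool.Agent.Sv
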