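import Pool.Agent.PalSieve.Num
import Pool.Agent.PalSieve.SieveIneq

/-!
# The weighted sieve
-/

namespace Pool.Agent.Sv

open Finset Filter Topology

/-- The moduli. -/
def MM (w D : ℕ) : Finset ℕ := (Ico 1 D).filter (fun q => ∀ p ∈ q.primeFactors, w < p)

/-- The total error. -/
noncomputable def Etot (w D : ℕ) (r : ℕ → ℝ) : ℝ := ∑ q ∈ MM w D, (q.divisors.card : ℝ) ^ 3 * r q

lemma two_pow_le_card_divisors {W : Finset ℕ} (hW : ∀ p ∈ W, p.Prime) {q : ℕ} (hq : 0 < q)
    (h : pr W ∣ q) : 2 ^ W.card ≤ q.divisors.card := by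
  rw [← card_powerset]
  refine card_le_card_of_injOn pr ?_ ?_
  · intro T hT
    rw [mem_coe, mem_powerset] at hT
    rw [mem_coe, Nat.mem_divisors]
    refine ⟨(Finset.prod_dvd_prod_of_subset _ _ _ hT).trans h, by omega⟩
  · intro S hS T hT hST
    rw [mem_coe, mem_powerset] at hS hT
    have e1 : (pr S).primeFactors = S := Nat.primeFactors_prod fun p hp => hW p (hS hp)
    have e2 : (pr T).primeFactors = T := Nat.primeFactors_prod fun p hp => hW p (hT hp)
    rw [← e1, ← e2, hST]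

lemma eight_pow_le {W : Finset ℕ} (hW : ∀ p ∈ W, p.Prime) {q : ℕ} (hq : 0 < q)
    (h : pr W ∣ q) : (8 : ℝ) ^ W.card ≤ (q.divisors.card : ℝ) ^ 3 := by
  have h1 := two_pow_le_card_divisors hW hq h
  have h2 : ((2 : ℝ) ^ W.card) ≤ (q.divisors.card : ℝ) := by exact_mod_cast h1
  calc (8 : ℝ) ^ W.card = ((2 : ℝ) ^ W.card) ^ 3 := by rw [← pow_mul, mul_comm, pow_mul]; norm_num
    _ ≤ _ := pow_le_pow_left₀ (by positivity) h2 3

lemma sum_lower_err_le {w z D : ℕ} (r : ℕ → ℝ) (hr : ∀ q, 0 ≤ r q) :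
    ∑ W ∈ (PP w z).powerset.filter (fun W => pr W < D), (8 : ℝ) ^ W.card * r (pr W) ≤
      Etot w D r := by
  have hinj : Set.InjOn pr ((PP w z).powerset.filter (fun W => pr W < D) : Set (Finset ℕ)) := by
    exact pr_injOn w z D
  have h1 : ∑ W ∈ (PP w z).powerset.filter (fun W => pr W < D), (8 : ℝ) ^ W.card * r (pr W) ≤
      ∑ W ∈ (PP w z).powerset.filter (fun W => pr W < D),
        ((pr W).divisors.card : ℝ) ^ 3 * r (pr W) := by
    refine Finset.sum_le_sum fun W hW => ?_
    rw [mem_filter, mem_powerset] at hW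
    refine mul_le_mul_of_nonneg_right ?_ (hr _)
    exact eight_pow_le (fun p hp => (mem_PP.mp (hW.1 hp)).2.2)
      (pr_pos fun p hp => PP_pos (hW.1 hp)) dvd_rfl
  refine h1.trans ?_
  rw [← sum_image (f := fun q : ℕ => (q.divisors.card : ℝ) ^ 3 * r q) hinj]
  unfold Etot
  refine sum_le_sum_of_subset_of_nonneg ?_ fun q _ _ => by
    have := hr q
    positivity
  intro q hq
  obtain ⟨W, hW, rfl⟩ := mem_image.mp hq
  rw [mem_filter, mem_powerset] at hW
  unfold MM
  rw [mem_filter, mem_Ico, primeFactors_pr hW.1]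
  exact ⟨⟨pr_pos fun p hp => PP_pos (hW.1 hp), hW.2⟩, fun p hp => (mem_PP.mp (hW.1 hp)).1⟩

/-- Error terms of the upper bound sieve, for all primes in a range. -/
lemma sum_upper_err_le {w z y D : ℕ} (hwz : w < z) (r : ℕ → ℝ) (hr : ∀ q, 0 ≤ r q)
    (ξ : ℕ → ℕ) (hξ : ∀ p ∈ (Ico z y).filter Nat.Prime, p * ξ p ^ 2 ≤ D) :
    ∑ p ∈ (Ico z y).filter Nat.Prime,
      ∑ W ∈ (PP w z).powerset.filter (fun W => pr W < ξ p ^ 2), (4 : ℝ) ^ W.card * r (p * pr W) ≤
      Etot w D r := by
  rw [Finset.sum_sigma']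
  have hmem : ∀ x ∈ ((Ico z y).filter Nat.Prime).sigma
      (fun p => (PP w z).powerset.filter (fun W => pr W < ξ p ^ 2)),
      z ≤ x.1 ∧ x.1.Prime ∧ x.2 ⊆ PP w z ∧ x.1 ∉ x.2 ∧ x.1 * pr x.2 < D ∧
      (x.1 * pr x.2).primeFactors = insert x.1 x.2 := by
    intro x hx
    rw [mem_sigma, mem_filter, mem_filter, mem_powerset, mem_Ico] at hx
    obtain ⟨⟨⟨h1, h2⟩, h3⟩, h4, h5⟩ := hx
    have h6 : x.1 ∉ x.2 := fun h => by
      have := (mem_PP.mp (h4 h)).2.1
      omega
    refine ⟨h1, h3, h4, h6, ?_, ?_⟩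
    · refine lt_of_lt_of_le (Nat.mul_lt_mul_of_pos_left h5 h3.pos) ?_
      exact hξ x.1 (mem_filter.mpr ⟨mem_Ico.mpr ⟨h1, h2⟩, h3⟩)
    · rw [← pr_insert h6]
      refine Nat.primeFactors_prod fun p hp => ?_
      rcases mem_insert.mp hp with h | h
      · rw [h]; exact h3
      · exact (mem_PP.mp (h4 h)).2.2
  have hinj : Set.InjOn (fun x : (Σ _ : ℕ, Finset ℕ) => x.1 * pr x.2)
      (((Ico z y).filter Nat.Prime).sigma
      (fun p => (PP w z).powerset.filter (fun W => pr W < ξ p ^ 2)) : Set (Σ _ : ℕ, Finset ℕ)) := by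
    rintro ⟨p, S⟩ hx ⟨q, T⟩ hy hxy
    have hx' := hmem _ (mem_coe.mp hx)
    have hy' := hmem _ (mem_coe.mp hy)
    simp only at hx' hy' hxy
    obtain ⟨a1, a2, a3, a4, a5, a6⟩ := hx'
    obtain ⟨b1, b2, b3, b4, b5, b6⟩ := hy'
    have h1 : insert p S = insert q T := by rw [← a6, ← b6, hxy]
    have hpq : p = q := by
      have h2 : p ∈ insert q T := by rw [← h1]; exact mem_insert_self _ _
      rcases mem_insert.mp h2 with h | h
      · exact h
      · have := (mem_PP.mp (b3 h)).2.1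
        omega
    subst hpq
    have hST : S = T := by
      rw [← erase_insert a4, ← erase_insert b4, h1]
    rw [hST]
  have h1 : ∑ x ∈ ((Ico z y).filter Nat.Prime).sigma
      (fun p => (PP w z).powerset.filter (fun W => pr W < ξ p ^ 2)),
        (4 : ℝ) ^ x.2.card * r (x.1 * pr x.2) ≤
      ∑ x ∈ ((Ico z y).filter Nat.Prime).sigma
      (fun p => (PP w z).powerset.filter (fun W => pr W < ξ p ^ 2)),
        ((x.1 * pr x.2).divisors.card : ℝ) ^ 3 * r (x.1 * pr x.2) := by
    refine Finset.sum_le_sum fun x hx => ?_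
    obtain ⟨a1, a2, a3, a4, a5, a6⟩ := hmem x hx
    refine mul_le_mul_of_nonneg_right ?_ (hr _)
    have h2 : (8 : ℝ) ^ x.2.card ≤ ((x.1 * pr x.2).divisors.card : ℝ) ^ 3 :=
      eight_pow_le (fun p hp => (mem_PP.mp (a3 hp)).2.2)
        (Nat.mul_pos a2.pos (pr_pos fun p hp => PP_pos (a3 hp))) (Dvd.intro_left _ rfl)
    exact (pow_le_pow_left₀ (by norm_num) (by norm_num) _).trans h2
  refine h1.trans ?_
  rw [← sum_image (f := fun q : ℕ => (q.divisors.card : ℝ) ^ 3 * r q) hinj]
  unfold Etot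
  refine sum_le_sum_of_subset_of_nonneg ?_ fun q _ _ => by
    have := hr q
    positivity
  intro q hq
  obtain ⟨x, hx, rfl⟩ := mem_image.mp hq
  obtain ⟨a1, a2, a3, a4, a5, a6⟩ := hmem x hx
  unfold MM
  rw [mem_filter, mem_Ico, a6]
  refine ⟨⟨Nat.mul_pos a2.pos (pr_pos fun p hp => PP_pos (a3 hp)), a5⟩, fun p hp => ?_⟩
  rcases mem_insert.mp hp with h | h
  · omega
  · exact (mem_PP.mp (a3 h)).1

lemma sum_Ico_telescope (u : ℕ → ℕ) (f : ℕ → ℝ) (n : ℕ) (hu : ∀ j < n, u j ≤ u (j + 1)) :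
    ∑ j ∈ range n, ∑ p ∈ (Ico (u j) (u (j + 1))).filter Nat.Prime, f p =
      ∑ p ∈ (Ico (u 0) (u n)).filter Nat.Prime, f p := by
  induction n with
  | zero => simp
  | succ n ih =>
    rw [Finset.sum_range_succ, ih fun j hj => hu j (by omega)]
    have h0 : u 0 ≤ u n := by
      have : ∀ m ≤ n, u 0 ≤ u m := by
        intro m hm
        induction m with
        | zero => exact le_rfl
        | succ m ihm => exact (ihm (by omega)).trans (hu m (by omega))
      exact this n le_rfl
    rw [← sum_union]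
    · congr 1
      rw [← filter_union, Ico_union_Ico_eq_Ico h0 (hu n (by omega))]
    · rw [disjoint_left]
      intro k h1 h2
      simp only [mem_filter, mem_Ico] at h1 h2
      omega

/-- `Ω(n)` against the weights. -/
lemma Omega_le {Y n : ℕ} (hY : 2 ≤ Y) (hn : 0 < n) (hnY : n ^ 5 < Y ^ 804)
    (hz : ∀ p ∈ n.primeFactors, Y ^ 8 ≤ p)
    (hsq : ∀ p, p.Prime → Y ^ 8 ≤ p → p < Y ^ 38 → ¬ p ^ 2 ∣ n)
    (hΩ : 6 ≤ ArithmeticFunction.cardFactors n) :
    (168 : ℝ) / 95 ≤ ∑ p ∈ (Ico (Y ^ 8) (Y ^ 38)).filter (fun p => p.Prime ∧ p ∣ n), om Y p := by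
  have hlog : 0 < Real.log Y := Real.log_pos (by
    have : 1 < Y := by omega
    exact_mod_cast this)
  -- the sum over all prime factors
  have h1 : ∑ p ∈ n.primeFactors, (n.factorization p : ℝ) * om Y p ≤
      ∑ p ∈ (Ico (Y ^ 8) (Y ^ 38)).filter (fun p => p.Prime ∧ p ∣ n), om Y p := by
    rw [← Finset.sum_filter_add_sum_filter_not n.primeFactors (fun p => p < Y ^ 38)]
    have e1 : ∑ p ∈ n.primeFactors.filter (fun p => ¬ p < Y ^ 38),
        (n.factorization p : ℝ) * om Y p ≤ 0 := by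
      refine Finset.sum_nonpos fun p hp => ?_
      rw [mem_filter] at hp
      have h2 : om Y p ≤ 0 := by
        unfold om
        rw [sub_nonpos, le_div_iff₀ (by positivity), one_mul]
        have h3 : Real.log ((Y ^ 38 : ℕ) : ℝ) ≤ Real.log p := by
          refine Real.log_le_log ?_ ?_
          · have : 0 < Y ^ 38 := by positivity
            exact_mod_cast this
          · have := hp.2
            push Not at this
            exact_mod_cast this
        push_cast at h3
        rw [Real.log_pow] at h3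
        push_cast at h3
        exact h3
      exact mul_nonpos_of_nonneg_of_nonpos (Nat.cast_nonneg _) h2
    have e2 : ∑ p ∈ n.primeFactors.filter (fun p => p < Y ^ 38),
        (n.factorization p : ℝ) * om Y p =
        ∑ p ∈ (Ico (Y ^ 8) (Y ^ 38)).filter (fun p => p.Prime ∧ p ∣ n), om Y p := by
      have e3 : n.primeFactors.filter (fun p => p < Y ^ 38) =
          (Ico (Y ^ 8) (Y ^ 38)).filter (fun p => p.Prime ∧ p ∣ n) := by
        ext p
        rw [mem_filter, mem_filter, mem_Ico, Nat.mem_primeFactors]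
        constructor
        · rintro ⟨⟨a1, a2, a3⟩, a4⟩
          exact ⟨⟨hz p (Nat.mem_primeFactors.mpr ⟨a1, a2, a3⟩), a4⟩, a1, a2⟩
        · rintro ⟨⟨a1, a2⟩, a3, a4⟩
          exact ⟨⟨a3, a4, by omega⟩, a2⟩
      rw [e3]
      refine Finset.sum_congr rfl fun p hp => ?_
      rw [mem_filter, mem_Ico] at hp
      have e4 : n.factorization p = 1 := by
        have a1 := hsq p hp.2.1 hp.1.1 hp.1.2
        have a2 : 1 ≤ n.factorization p := by
          exact (hp.2.1.dvd_iff_one_le_factorization (by omega)).mp hp.2.2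
        have a3 : ¬ 2 ≤ n.factorization p := by
          intro h
          exact a1 ((hp.2.1.pow_dvd_iff_le_factorization (by omega)).mpr h)
        omega
      rw [e4]
      push_cast
      ring
    linarith
  refine le_trans ?_ h1
  have h2 : ∑ p ∈ n.primeFactors, (n.factorization p : ℝ) * om Y p =
      (ArithmeticFunction.cardFactors n : ℝ) - Real.log n / (38 * Real.log Y) := by
    have e1 : (ArithmeticFunction.cardFactors n : ℝ) =
        ∑ p ∈ n.primeFactors, (n.factorization p : ℝ) := by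
      rw [ArithmeticFunction.cardFactors_eq_sum_factorization, Finsupp.sum]
      push_cast
      rfl
    have e2 : Real.log n = ∑ p ∈ n.primeFactors, (n.factorization p : ℝ) * Real.log p := by
      conv_lhs => rw [← Nat.prod_factorization_pow_eq_self (show n ≠ 0 by omega)]
      rw [Finsupp.prod, Nat.cast_prod, Real.log_prod]
      · refine Finset.sum_congr rfl fun p _ => ?_
        rw [Nat.cast_pow, Real.log_pow]
      · intro p hp
        have : p.Prime := (Nat.mem_primeFactors.mp hp).1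
        have : (p : ℝ) ≠ 0 := by
          have := this.pos
          positivity
        push_cast
        positivity
    rw [e1, e2, Finset.sum_div, ← Finset.sum_sub_distrib]
    refine Finset.sum_congr rfl fun p _ => ?_
    unfold om
    ring
  rw [h2]
  have h3 : Real.log n ≤ 804 / 5 * Real.log Y := by
    have e1 : Real.log (((n ^ 5 : ℕ)) : ℝ) ≤ Real.log ((Y ^ 804 : ℕ) : ℝ) := by
      refine Real.log_le_log ?_ (by exact_mod_cast hnY.le)
      have : 0 < n ^ 5 := by positivity
      exact_mod_cast this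
    push_cast at e1
    rw [Real.log_pow, Real.log_pow] at e1
    push_cast at e1
    linarith
  have h4 : Real.log n / (38 * Real.log Y) ≤ 804 / 190 := by
    rw [div_le_iff₀ (by positivity)]
    linarith
  have h5 : (6 : ℝ) ≤ (ArithmeticFunction.cardFactors n : ℝ) := by exact_mod_cast hΩ
  norm_num at h4 ⊢
  linarith

end Pool.Agent.Sv
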